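import Pool.Agent.H861.CD.Field

set_option autoImplicit false

open Module

namespace Pool.Agent.H861.CD

open IntermediateField

lemma integral_z {n E : ℕ} {Ω : Type*} [Field Ω] [Algebra ℂ Ω] (F : MvPolynomial (Fin (n + 1) ⊕ Unit) ℂ)
    (hF : F.IsHomogeneous E) (hF1 : F.coeff (Finsupp.single (Sum.inr ()) E) = 1)
    (y : Fin (n + 1) → Ω) (z : Ω) (h : MvPolynomial.aeval (Sum.elim y (fun _ => z)) F = 0)
    (S : Subalgebra ℂ Ω) (hy : ∀ i, y i ∈ S) : IsIntegral S z := by
  classical
  let g : Fin (n + 1) ⊕ Unit → Polynomial S :=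
    Sum.elim (fun i => Polynomial.C ⟨y i, hy i⟩) (fun _ => Polynomial.X)
  let G : Polynomial S := MvPolynomial.aeval g F
  have hdeg : ∀ m ∈ F.support, m (Sum.inr ()) ≤ E := by
    intro m hm
    have h1 : m.degree = E := by
      rw [Finsupp.degree_eq_weight_one]
      exact hF (MvPolynomial.mem_support_iff.1 hm)
    rw [← h1]
    exact Finsupp.le_degree _ _
  have hG : G = ∑ m ∈ F.support, Polynomial.C (algebraMap ℂ S (F.coeff m) * ∏ i, (⟨y i, hy i⟩ : S) ^ m (Sum.inl i)) *
      Polynomial.X ^ m (Sum.inr ()) := by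
    show MvPolynomial.aeval g F = _
    rw [MvPolynomial.aeval_def, MvPolynomial.eval₂_eq']
    refine Finset.sum_congr rfl fun m _ => ?_
    rw [Fintype.prod_sum_type]
    simp only [g, Sum.elim_inl, Sum.elim_inr, Finset.univ_unique, Finset.prod_singleton, map_mul, map_prod,
      map_pow, PUnit.default_eq_unit]
    rw [mul_assoc]
    congr 1
  refine ⟨G, ?_, ?_⟩
  · apply Polynomial.monic_of_natDegree_le_of_coeff_eq_one E
    · rw [hG]
      refine Polynomial.natDegree_sum_le_of_forall_le _ _ fun m hm => ?_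
      exact (Polynomial.natDegree_C_mul_X_pow_le _ _).trans (hdeg m hm)
    · rw [hG, Polynomial.finsetSum_coeff]
      rw [Finset.sum_eq_single (Finsupp.single (Sum.inr ()) E)]
      · rw [hF1, Polynomial.coeff_C_mul, Polynomial.coeff_X_pow]
        simp
      · intro m hm hne
        rw [Polynomial.coeff_C_mul, Polynomial.coeff_X_pow, if_neg, mul_zero]
        intro h1
        apply hne
        have h2 : m.degree = E := by
          rw [Finsupp.degree_eq_weight_one]
          exact hF (MvPolynomial.mem_support_iff.1 hm)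
        have h3 : Finsupp.single (Sum.inr ()) E ≤ m := by
          rw [Finsupp.single_le_iff]; exact h1.le
        have h4 : m.degree = (Finsupp.single (Sum.inr ()) E : Fin (n + 1) ⊕ Unit →₀ ℕ).degree := by
          rw [h2, Finsupp.degree_single]
        obtain ⟨d, rfl⟩ := exists_add_of_le h3
        rw [map_add] at h4
        have h5 : d.degree = 0 := by omega
        rw [Finsupp.degree_eq_zero_iff] at h5
        rw [h5, add_zero]
      · intro h1
        rw [MvPolynomial.notMem_support_iff] at h1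
        rw [h1] at hF1
        exact absurd hF1 zero_ne_one
  · rw [← Polynomial.aeval_def]
    show Polynomial.aeval z (MvPolynomial.aeval g F) = 0
    rw [← h]
    have h1 : ((Polynomial.aeval z : Polynomial S →ₐ[S] Ω).restrictScalars ℂ).comp (MvPolynomial.aeval g) =
        MvPolynomial.aeval (Sum.elim y (fun _ => z)) := by
      apply MvPolynomial.algHom_ext
      rintro (i | i)
      · simp [g]
      · simp [g]
    exact DFunLike.congr_fun h1 F

lemma eval_zero {n E : ℕ} {Ω : Type*} [Field Ω] [Algebra ℂ Ω] (F : MvPolynomial (Fin (n + 1) ⊕ Unit) ℂ)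
    (hF : F.IsHomogeneous E) (hF1 : F.coeff (Finsupp.single (Sum.inr ()) E) = 1)
    (z : Ω) (h : MvPolynomial.aeval (Sum.elim (0 : Fin (n + 1) → Ω) (fun _ => z)) F = 0) : z = 0 := by
  classical
  rw [MvPolynomial.aeval_def, MvPolynomial.eval₂_eq', Finset.sum_eq_single (Finsupp.single (Sum.inr ()) E)] at h
  · rw [hF1, map_one, one_mul, Fintype.prod_sum_type] at h
    simp at h
    exact h.1
  · intro m hm hne
    rw [Fintype.prod_sum_type]
    by_cases h0 : ∀ i, m (Sum.inl i) = 0
    · exfalso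
      apply hne
      have h2 : m.degree = E := by
        rw [Finsupp.degree_eq_weight_one]
        exact hF (MvPolynomial.mem_support_iff.1 hm)
      rw [Finsupp.degree_eq_sum, Fintype.sum_sum_type] at h2
      simp only [h0, Finset.sum_const_zero, zero_add, Finset.univ_unique, Finset.sum_singleton,
        PUnit.default_eq_unit] at h2
      ext i
      rcases i with i | i
      · rw [h0]; simp
      · rw [← h2]; simp
    · push Not at h0
      obtain ⟨i, hi⟩ := h0
      rw [Finset.prod_eq_zero (Finset.mem_univ i) (by simp [hi]), zero_mul, mul_zero]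
  · intro h1
    rw [MvPolynomial.notMem_support_iff] at h1
    rw [h1] at hF1
    exact absurd hF1 zero_ne_one

lemma exists_generic {σ : Type} (I : Ideal (MvPolynomial σ ℂ)) (hI : I.IsPrime) :
    ∃ (Ω : Type) (_ : Field Ω) (_ : Algebra ℂ Ω) (_ : IsAlgClosed Ω) (x : σ → Ω),
      ∀ f, f ∈ I ↔ MvPolynomial.aeval x f = 0 := by
  have : IsDomain (MvPolynomial σ ℂ ⧸ I) := Ideal.Quotient.isDomain I
  let S := MvPolynomial σ ℂ ⧸ I
  let K := FractionRing S
  let Ω := AlgebraicClosure K
  let φ : S →ₐ[ℂ] Ω := (IsScalarTower.toAlgHom ℂ K Ω).comp (IsScalarTower.toAlgHom ℂ S K)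
  have hφ : Function.Injective φ := by
    show Function.Injective ((algebraMap K Ω) ∘ (algebraMap S K))
    exact (algebraMap K Ω).injective.comp (IsFractionRing.injective S K)
  refine ⟨Ω, inferInstance, inferInstance, inferInstance, fun v => φ (Ideal.Quotient.mk I (MvPolynomial.X v)), ?_⟩
  intro f
  have h1 : MvPolynomial.aeval (fun v => φ (Ideal.Quotient.mk I (MvPolynomial.X v))) =
      φ.comp (Ideal.Quotient.mkₐ ℂ I) := by
    apply MvPolynomial.algHom_ext
    intro v
    simp
    rfl
  rw [h1]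
  show f ∈ I ↔ φ (Ideal.Quotient.mk I f) = 0
  rw [← map_zero φ, hφ.eq_iff, Ideal.Quotient.eq_zero_iff_mem]

lemma integral_of_val {Ω : Type*} [Field Ω] [Algebra ℂ Ω] (L₁ L₂ x : Ω)
    (h : ∀ V : ValuationSubring Ω, (∀ c : ℂ, algebraMap ℂ Ω c ∈ V) → L₁ ∈ V → L₂ ∈ V → x ∈ V) :
    IsIntegral (Algebra.adjoin ℂ {L₁, L₂}) x := by
  have h1 := iInf_valuationSubring_superset (K := Ω) (s := (Algebra.adjoin ℂ {L₁, L₂} : Set Ω))
  have h2 : x ∈ (⨅ V : {V : ValuationSubring Ω // (Algebra.adjoin ℂ {L₁, L₂} : Set Ω) ⊆ V.toSubring},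
      V.1.toSubring) := by
    rw [Subring.mem_iInf]
    rintro ⟨V, hV⟩
    refine h V (fun c => hV ?_) (hV ?_) (hV ?_)
    · exact (Algebra.adjoin ℂ {L₁, L₂}).algebraMap_mem c
    · exact Algebra.subset_adjoin (by simp)
    · exact Algebra.subset_adjoin (by simp)
  rw [h1] at h2
  obtain ⟨q, hq1, hq2⟩ := h2
  have h3 : Subring.closure (Algebra.adjoin ℂ {L₁, L₂} : Set Ω) ≤ (Algebra.adjoin ℂ {L₁, L₂}).toSubring :=
    Subring.closure_le.2 le_rfl
  refine ⟨q.map (Subring.inclusion h3), hq1.map _, ?_⟩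
  rw [Polynomial.eval₂_map]
  exact hq2

end Pool.Agent.H861.CD
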