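import Mathlib

/-!
Project CD (helper861), MP_8dbee4_ag, part T7: `degree_eq`, `dependent` and `nonconstant` below (self-contained).

Notation: `B = ℂ[x_0..x_N] ⊆ Ω` the image of the polynomial ring under `X v ↦ x v`; `B ≅ ℂ[X]/I` is graded, `B = ⊕ B_k`, `B_k` = image of the forms of degree `k`, `hilb k = dim B_k` (the sum of the `B_k` is direct because `I` is homogeneous). `hilb (k+1) = hilb k + e` for large `k`, `e > 0`.
`L_0` = field generated over `ℂ` by the ratios `x_v/x_w`; every element of `L_0` is `F(x)/G(x)` with forms `F, G` of the same degree (`G(x) ≠ 0`), and finitely many elements have a common denominator.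

**dependent** (two elements of `L_0` are algebraically dependent). If `u_1 = F_1(x)/G(x)`, `u_2 = F_2(x)/G(x)` (degree `D`) were independent then the `(k+1)(k+2)/2` elements `F_1^a F_2^b G^c(x)`, `a+b+c = k`, of `B_{kD}` are linearly independent over `ℂ`, but `dim B_{kD} ≤ ekD + const`.

**nonconstant**. If all ratios `x_v/x_w` with `x_w ≠ 0` are in `ℂ` then `dim B_k ≤ 1` for all `k`, contradiction to `e > 0`.

**degree_eq**. `L_i := l_i(x)`, `A_0 := ℂ[L_1, L_2]`. `B` is integral and finitely generated over `A_0`, so it is a finite `A_0`-module. `L_1, L_2` are algebraically independent: otherwise (they are homogeneous of degree 1, so also a homogeneous relation holds: `L_1/L_2` is constant or one of them is 0) `B` would be a finite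
module over a ring `ℂ[L]`, and `dim B_k` would be bounded. So `A_0` is a polynomial ring, `dim (A_0)_k = k+1`. Let `ρ := [Frac B : Frac A_0]`. There are homogeneous `m_1, …, m_ρ ∈ B` (degrees `d_i`) which form a basis of `Frac B` over `Frac A_0` (`Frac B` is generated as a `Frac A_0`-vector space by the homogeneous elements of `B`, as `B` is integral). So
`⊕ (A_0)_{k-d_i} m_i ⊆ B_k` gives `hilb k ≥ ρk - c`. `B` is generated over `A_0` by finitely many homogeneous elements, each is a `Frac A_0`-combination of the `m_i` with homogeneous coefficients [take the component], so there is a homogeneous `0 ≠ g ∈ A_0` with `gB ⊆ ⊕ A_0 m_i` and `hilb k = dim gB_k ≤ ρk + c'`. Hence `e = ρ`.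
Finally `Frac B = L_0(L_2)` and `Frac A_0 = ℂ(θ)(L_2)`, `θ = L_1/L_2`, where `L_2` is transcendental over `L_0` (a relation `Σ c_i L_2^i = 0`, `c_i ∈ L_0`; after multiplication with the common denominator compare the homogeneous components), so `[Frac B : Frac A_0] = [L_0 : ℂ(θ)]`
(a basis of `L_0` over `ℂ(θ)` is a basis of `L_0(L_2)` over `ℂ(θ)(L_2)`). One can also work with bases directly: if `v_1..v_ρ'` is a family in `L_0` linearly independent over `ℂ(θ)`, common denominator `G`, then the `v_i G · (monomials in L_1, L_2)` are linearly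
independent over `ℂ`, so `ρ' ≤ e` (in particular the degree is finite); and conversely for a basis `v_i` every homogeneous generator of `B` over `A_0` is `L_2^d · Σ (element of ℂ(θ)) v_i`.
-/

set_option autoImplicit false
set_option linter.unusedVariables false

open Module MvPolynomial

namespace Pool.Agent.H861.CD.T7aux

universe u

variable {N : ℕ} {Ω : Type u} [Field Ω] [Algebra ℂ Ω]

/-- the values at `x` of the forms of degree `k` -/
noncomputable def Bk (x : Fin (N + 1) → Ω) (k : ℕ) : Submodule ℂ Ω :=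
  Submodule.map (MvPolynomial.aeval x : MvPolynomial (Fin (N + 1)) ℂ →ₐ[ℂ] Ω).toLinearMap
    (MvPolynomial.homogeneousSubmodule (Fin (N + 1)) ℂ k)

theorem mem_Bk {x : Fin (N + 1) → Ω} {k : ℕ} {y : Ω} :
    y ∈ Bk x k ↔ ∃ f : MvPolynomial (Fin (N + 1)) ℂ, f.IsHomogeneous k ∧ aeval x f = y := by
  unfold Bk
  rw [Submodule.mem_map]
  rfl

theorem Bk_mem {x : Fin (N + 1) → Ω} {k : ℕ} {f : MvPolynomial (Fin (N + 1)) ℂ}
    (hf : f.IsHomogeneous k) : aeval x f ∈ Bk x k := mem_Bk.2 ⟨f, hf, rfl⟩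

instance Bk_finite (x : Fin (N + 1) → Ω) (k : ℕ) : Module.Finite ℂ (Bk x k) := by
  rw [Module.Finite.iff_fg]
  exact (homogeneousSubmodule_fg (Fin (N + 1)) ℂ k).map _

theorem finrank_Bk (I : Ideal (MvPolynomial (Fin (N + 1)) ℂ)) (x : Fin (N + 1) → Ω)
    (hx : ∀ f, f ∈ I ↔ MvPolynomial.aeval x f = 0) (k : ℕ) :
    finrank ℂ (Submodule.map (Ideal.Quotient.mkₐ ℂ I).toLinearMap
        (MvPolynomial.homogeneousSubmodule (Fin (N + 1)) ℂ k)) = finrank ℂ (Bk x k) := by
  let φ : (MvPolynomial (Fin (N + 1)) ℂ ⧸ I) →ₐ[ℂ] Ω :=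
    Ideal.Quotient.liftₐ I (aeval x) (fun a ha => (hx a).1 ha)
  have hφ : Function.Injective φ := by
    rw [injective_iff_map_eq_zero]
    intro a ha
    obtain ⟨f, rfl⟩ := Ideal.Quotient.mk_surjective a
    have h1 : aeval x f = 0 := by
      have : φ (Ideal.Quotient.mk I f) = aeval x f := rfl
      rwa [this] at ha
    exact Ideal.Quotient.eq_zero_iff_mem.2 ((hx f).2 h1)
  have h2 : Bk x k = Submodule.map φ.toLinearMap (Submodule.map (Ideal.Quotient.mkₐ ℂ I).toLinearMap
        (MvPolynomial.homogeneousSubmodule (Fin (N + 1)) ℂ k)) := by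
    rw [← Submodule.map_comp]
    rfl
  rw [h2]
  exact (Submodule.equivMapOfInjective φ.toLinearMap hφ _).finrank_eq

/-- growth -/
theorem growth {h : ℕ → ℕ} {e K : ℕ} (hK : ∀ k, K ≤ k → h (k + 1) = h k + e) (j : ℕ) :
    h (K + j) = h K + e * j := by
  induction j with
  | zero => simp
  | succ j ih => rw [← add_assoc, hK _ (Nat.le_add_right _ _), ih]; ring

theorem growth_le {h : ℕ → ℕ} {e K : ℕ} (hK : ∀ k, K ≤ k → h (k + 1) = h k + e) :
    ∃ C, ∀ m, h m ≤ e * m + C := by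
  refine ⟨∑ j ∈ Finset.range (K + 1), h j, fun m => ?_⟩
  rcases le_or_gt m K with hm | hm
  · have : h m ≤ ∑ j ∈ Finset.range (K + 1), h j :=
      Finset.single_le_sum (f := h) (fun _ _ => Nat.zero_le _) (Finset.mem_range.2 (by omega))
    omega
  · obtain ⟨j, rfl⟩ : ∃ j, m = K + j := ⟨m - K, by omega⟩
    rw [growth hK]
    have : h K ≤ ∑ j ∈ Finset.range (K + 1), h j :=
      Finset.single_le_sum (f := h) (fun _ _ => Nat.zero_le _) (Finset.mem_range.2 (by omega))
    nlinarith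

/-- the field generated by the ratios -/
noncomputable abbrev L0 (x : Fin (N + 1) → Ω) : IntermediateField ℂ Ω :=
  IntermediateField.adjoin ℂ (Set.range fun q : Fin (N + 1) × Fin (N + 1) => x q.1 / x q.2)

theorem exists_ratio (x : Fin (N + 1) → Ω) (u : Ω) (hu : u ∈ L0 x) :
    ∃ (D : ℕ) (F G : MvPolynomial (Fin (N + 1)) ℂ), F.IsHomogeneous D ∧ G.IsHomogeneous D ∧
      aeval x G ≠ 0 ∧ u = aeval x F / aeval x G := by
  induction hu using IntermediateField.adjoin_induction with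
  | mem u hu =>
    obtain ⟨⟨v, w⟩, rfl⟩ := hu
    by_cases hw : x w = 0
    · refine ⟨0, 0, 1, isHomogeneous_zero _ _ _, isHomogeneous_one _ _, by simp, ?_⟩
      simp [hw]
    · refine ⟨1, X v, X w, isHomogeneous_X _ _, isHomogeneous_X _ _, by simpa using hw, ?_⟩
      simp
  | algebraMap c =>
    refine ⟨0, C c, 1, isHomogeneous_C _ _, isHomogeneous_one _ _, by simp, ?_⟩
    simp
  | add a b _ _ ha hb =>
    obtain ⟨D, F, G, hF, hG, hG0, rfl⟩ := ha
    obtain ⟨D', F', G', hF', hG', hG0', rfl⟩ := hb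
    refine ⟨D + D', F * G' + G * F', G * G', (hF.mul hG').add (hG.mul hF'), hG.mul hG', ?_, ?_⟩
    · rw [map_mul]; exact mul_ne_zero hG0 hG0'
    · rw [map_add, map_mul, map_mul, map_mul]
      field_simp
  | mul a b _ _ ha hb =>
    obtain ⟨D, F, G, hF, hG, hG0, rfl⟩ := ha
    obtain ⟨D', F', G', hF', hG', hG0', rfl⟩ := hb
    refine ⟨D + D', F * F', G * G', hF.mul hF', hG.mul hG', ?_, ?_⟩
    · rw [map_mul]; exact mul_ne_zero hG0 hG0'
    · rw [map_mul, map_mul]
      field_simp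
  | inv a _ ha =>
    obtain ⟨D, F, G, hF, hG, hG0, rfl⟩ := ha
    by_cases hF0 : aeval x F = 0
    · refine ⟨0, 0, 1, isHomogeneous_zero _ _ _, isHomogeneous_one _ _, by simp, ?_⟩
      simp [hF0]
    · exact ⟨D, G, F, hG, hF, hF0, by rw [inv_div]⟩

theorem exists_common {ι : Type*} [Fintype ι] [DecidableEq ι] (x : Fin (N + 1) → Ω) (u : ι → Ω)
    (hu : ∀ i, u i ∈ L0 x) :
    ∃ (D : ℕ) (F : ι → MvPolynomial (Fin (N + 1)) ℂ) (G : MvPolynomial (Fin (N + 1)) ℂ),
      (∀ i, (F i).IsHomogeneous D) ∧ G.IsHomogeneous D ∧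
      aeval x G ≠ 0 ∧ ∀ i, u i = aeval x (F i) / aeval x G := by
  choose D F G hF hG hG0 h using fun i => exists_ratio x (u i) (hu i)
  refine ⟨∑ i, D i, fun i => F i * ∏ j ∈ Finset.univ.erase i, G j, ∏ j, G j, ?_, ?_, ?_, ?_⟩
  · intro i
    have h1 := (hF i).mul (IsHomogeneous.prod (Finset.univ.erase i) G D (fun j _ => hG j))
    rwa [Finset.add_sum_erase _ _ (Finset.mem_univ i)] at h1
  · exact IsHomogeneous.prod _ _ _ (fun j _ => hG j)
  · rw [map_prod]
    exact Finset.prod_ne_zero_iff.2 fun j _ => hG0 j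
  · intro i
    have h2 : ∏ j, aeval x (G j) = aeval x (G i) * ∏ j ∈ Finset.univ.erase i, aeval x (G j) :=
      (Finset.mul_prod_erase _ _ (Finset.mem_univ i)).symm
    have h3 : ∏ j ∈ Finset.univ.erase i, aeval x (G j) ≠ 0 :=
      Finset.prod_ne_zero_iff.2 fun j _ => hG0 j
    rw [map_mul, map_prod, map_prod, h2, h i]
    field_simp [hG0 i]

/-- values of a form at a multiple of a constant vector -/
theorem aeval_smul {x : Fin (N + 1) → Ω} {c : Fin (N + 1) → ℂ} {y : Ω}
    (hc : ∀ v, x v = algebraMap ℂ Ω (c v) * y) {k : ℕ} {f : MvPolynomial (Fin (N + 1)) ℂ}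
    (hf : f.IsHomogeneous k) : aeval x f = algebraMap ℂ Ω (aeval c f) * y ^ k := by
  rw [aeval_def, aeval_def, eval₂_eq', eval₂_eq', map_sum, Finset.sum_mul]
  refine Finset.sum_congr rfl fun d hd => ?_
  have h1 : ∑ i, d i = k := by
    have := hf.degree_eq_sum_deg_support hd
    rw [this]
    symm
    apply Finset.sum_subset (Finset.subset_univ _)
    intro i _ hi
    simpa using hi
  rw [map_mul, map_prod, mul_assoc, ← h1, ← Finset.prod_pow_eq_pow_sum, ← Finset.prod_mul_distrib]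
  congr 1
  refine Finset.prod_congr rfl fun i _ => ?_
  rw [hc, mul_pow, map_pow]

theorem nonconst_aux (I : Ideal (MvPolynomial (Fin (N + 1)) ℂ)) {e : ℕ} (he : 0 < e)
    (x : Fin (N + 1) → Ω)
    (hdeg : ∃ K : ℕ, ∀ k : ℕ, K ≤ k → finrank ℂ (Bk x (k + 1)) = finrank ℂ (Bk x k) + e) :
    ∃ v w, x w ≠ 0 ∧ x v / x w ∉ (⊥ : IntermediateField ℂ Ω) := by
  by_contra hcon
  push Not at hcon
  have h1 : ∃ (c : Fin (N + 1) → ℂ) (y : Ω), ∀ v, x v = algebraMap ℂ Ω (c v) * y := by
    by_cases h0 : ∀ w, x w = 0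
    · exact ⟨fun _ => 0, 0, fun v => by simp [h0 v]⟩
    · push Not at h0
      obtain ⟨w, hw⟩ := h0
      have h2 : ∀ v, ∃ c : ℂ, algebraMap ℂ Ω c = x v / x w := fun v =>
        IntermediateField.mem_bot.1 (hcon v w hw)
      choose c hc using h2
      refine ⟨c, x w, fun v => ?_⟩
      rw [hc, div_mul_cancel₀ _ hw]
  obtain ⟨c, y, hc⟩ := h1
  obtain ⟨K, hK⟩ := hdeg
  have h3 : ∀ k, finrank ℂ (Bk x k) ≤ 1 := by
    intro k
    have h4 : Bk x k ≤ Submodule.span ℂ {y ^ k} := by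
      intro z hz
      obtain ⟨f, hf, rfl⟩ := mem_Bk.1 hz
      rw [aeval_smul hc hf, Submodule.mem_span_singleton]
      exact ⟨aeval c f, by rw [Algebra.smul_def]⟩
    refine (Submodule.finrank_mono h4).trans ?_
    exact (finrank_span_le_card ({y ^ k} : Set Ω)).trans (by simp)
  have h5 : finrank ℂ (Bk x (K + 2)) = finrank ℂ (Bk x K) + e * 2 :=
    growth (h := fun k => finrank ℂ (Bk x k)) hK 2
  have h6 := h3 (K + 2)
  omega

/-- monomials in algebraically independent elements -/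
theorem linInd_monomials {u : Fin 2 → Ω} (hu : AlgebraicIndependent ℂ u) (k : ℕ) :
    LinearIndependent ℂ (fun p : Fin (k + 1) × Fin (k + 1) =>
      u 0 ^ (p.1 : ℕ) * u 1 ^ (p.2 : ℕ)) := by
  have h1 := (basisMonomials (Fin 2) ℂ).linearIndependent.map'
    (aeval u : MvPolynomial (Fin 2) ℂ →ₐ[ℂ] Ω).toLinearMap
    (LinearMap.ker_eq_bot.2 hu)
  have h2 := h1.comp (fun p : Fin (k + 1) × Fin (k + 1) =>
    (Finsupp.single (0 : Fin 2) (p.1 : ℕ) + Finsupp.single (1 : Fin 2) (p.2 : ℕ))) (by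
      rintro ⟨a, b⟩ ⟨a', b'⟩ hab
      have e0 := DFunLike.congr_fun hab 0
      have e1 := DFunLike.congr_fun hab 1
      simp at e0 e1
      ext <;> simp [e0, e1])
  have h3 : (fun p : Fin (k + 1) × Fin (k + 1) => u 0 ^ (p.1 : ℕ) * u 1 ^ (p.2 : ℕ)) =
      ((aeval u : MvPolynomial (Fin 2) ℂ →ₐ[ℂ] Ω).toLinearMap ∘ (basisMonomials (Fin 2) ℂ)) ∘
      (fun p : Fin (k + 1) × Fin (k + 1) =>
        (Finsupp.single (0 : Fin 2) (p.1 : ℕ) + Finsupp.single (1 : Fin 2) (p.2 : ℕ))) := by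
    funext p
    simp only [Function.comp, coe_basisMonomials, AlgHom.toLinearMap_apply]
    rw [aeval_monomial, map_one, one_mul,
      Finsupp.prod_add_index' (by simp) (by intros; rw [pow_add])]
    simp
  rw [h3]
  exact h2

theorem dependent_aux {e : ℕ} (x : Fin (N + 1) → Ω)
    (hdeg : ∃ K : ℕ, ∀ k : ℕ, K ≤ k → finrank ℂ (Bk x (k + 1)) = finrank ℂ (Bk x k) + e)
    (u : Fin 2 → Ω) (hu : ∀ i, u i ∈ L0 x) : ¬ AlgebraicIndependent ℂ u := by
  intro hind
  obtain ⟨D, F, G, hF, hG, hG0, h⟩ := exists_common x u hu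
  obtain ⟨K, hK⟩ := hdeg
  obtain ⟨C, hC⟩ := growth_le (h := fun k => finrank ℂ (Bk x k)) hK
  have key : ∀ k : ℕ, (k + 1) * (k + 1) ≤ e * (D * (2 * k)) + C := by
    intro k
    refine le_trans ?_ (hC (D * (2 * k)))
    have h1 := linInd_monomials hind k
    have h2 := h1.map' (LinearMap.mulLeft ℂ (aeval x G ^ (2 * k)))
      (LinearMap.ker_eq_bot.2 (mul_right_injective₀ (pow_ne_zero _ hG0)))
    have h3 : ∀ p : Fin (k + 1) × Fin (k + 1), LinearMap.mulLeft ℂ (aeval x G ^ (2 * k))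
        (u 0 ^ (p.1 : ℕ) * u 1 ^ (p.2 : ℕ)) ∈ Bk x (D * (2 * k)) := by
      rintro ⟨a, b⟩
      have hb : (a : ℕ) + b ≤ 2 * k := by omega
      obtain ⟨c, hc⟩ : ∃ c, 2 * k = a + b + c := ⟨2 * k - (a + b), by omega⟩
      have h4 : ((F 0) ^ (a : ℕ) * (F 1) ^ (b : ℕ) * G ^ c).IsHomogeneous (D * (2 * k)) := by
        have := (((hF 0).pow a).mul ((hF 1).pow b)).mul (hG.pow c)
        rw [hc]
        convert this using 1
        ring
      have h5 := Bk_mem (x := x) h4
      convert h5 using 1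
      rw [LinearMap.mulLeft_apply, map_mul, map_mul, map_pow, map_pow, map_pow, h 0, h 1, hc,
        pow_add, pow_add, div_pow, div_pow]
      field_simp
    have h6 : LinearIndependent ℂ (fun p : Fin (k + 1) × Fin (k + 1) =>
        (⟨_, h3 p⟩ : Bk x (D * (2 * k)))) := by
      apply LinearIndependent.of_comp (Bk x (D * (2 * k))).subtype
      exact h2
    have h7 := h6.fintype_card_le_finrank
    rw [Fintype.card_prod, Fintype.card_fin] at h7
    exact h7
  have h9 := key (2 * (e * D) + C + 1)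
  have h10 : e * (D * (2 * (2 * (e * D) + C + 1))) = (e * D) * (2 * (2 * (e * D) + C + 1)) := by ring
  rw [h10] at h9
  generalize e * D = s at h9
  nlinarith [Nat.zero_le (s * C), Nat.zero_le (C * C)]

/-- elements with a representative whose homogeneous components have values in `T k` -/
noncomputable def GoodSub (x : Fin (N + 1) → Ω) (T : ℕ → Submodule ℂ Ω) : Submodule ℂ Ω where
  carrier := {y | ∃ ψ : MvPolynomial (Fin (N + 1)) ℂ, aeval x ψ = y ∧
    ∀ k, aeval x (homogeneousComponent k ψ) ∈ T k}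
  zero_mem' := ⟨0, by simp, fun k => by simp⟩
  add_mem' := by
    rintro a b ⟨ψ, h1, h2⟩ ⟨ψ', h3, h4⟩
    refine ⟨ψ + ψ', by rw [map_add, h1, h3], fun k => ?_⟩
    rw [map_add, map_add]
    exact (T k).add_mem (h2 k) (h4 k)
  smul_mem' := by
    rintro c a ⟨ψ, h1, h2⟩
    refine ⟨c • ψ, by rw [map_smul, h1], fun k => ?_⟩
    rw [map_smul, map_smul]
    exact (T k).smul_mem c (h2 k)

theorem generation (I : Ideal (MvPolynomial (Fin (N + 1)) ℂ))
    (hhom : ∀ p ∈ I, ∀ k : ℕ, MvPolynomial.homogeneousComponent k p ∈ I)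
    (x : Fin (N + 1) → Ω)
    (hx : ∀ f, f ∈ I ↔ MvPolynomial.aeval x f = 0)
    (l₁ l₂ : MvPolynomial (Fin (N + 1)) ℂ) (h₁ : l₁.IsHomogeneous 1) (h₂ : l₂.IsHomogeneous 1)
    (hint : ∀ v, IsIntegral (Algebra.adjoin ℂ {MvPolynomial.aeval x l₁, MvPolynomial.aeval x l₂}) (x v)) :
    ∃ (ι : Type u) (_ : Fintype ι) (d : ι → ℕ) (f : ι → MvPolynomial (Fin (N + 1)) ℂ),
      (∀ j, (f j).IsHomogeneous (d j)) ∧ ∀ k, Bk x k ≤ Submodule.span ℂ
        {z | ∃ j a c, a + c + d j = k ∧ z = (aeval x l₁) ^ a * (aeval x l₂) ^ c * aeval x (f j)} := by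
  classical
  set A0 : Subalgebra ℂ Ω := Algebra.adjoin ℂ {aeval x l₁, aeval x l₂} with hA0
  have hfg : (Algebra.adjoin A0 (Set.range x)).toSubmodule.FG :=
    fg_adjoin_of_finite (Set.finite_range x) (by rintro _ ⟨v, rfl⟩; exact hint v)
  obtain ⟨s, hs⟩ := hfg
  have hA0le : A0 ≤ (aeval x : MvPolynomial (Fin (N + 1)) ℂ →ₐ[ℂ] Ω).range := by
    rw [hA0]
    apply Algebra.adjoin_le
    rintro z (rfl | rfl)
    · exact ⟨l₁, rfl⟩
    · exact ⟨l₂, rfl⟩
  have hall : ∀ z ∈ Algebra.adjoin A0 (Set.range x),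
      ∃ φ : MvPolynomial (Fin (N + 1)) ℂ, aeval x φ = z := by
    intro z hz
    induction hz using Algebra.adjoin_induction with
    | mem z hz => obtain ⟨v, rfl⟩ := hz; exact ⟨X v, by simp⟩
    | algebraMap r => exact hA0le r.2
    | add a b _ _ ha hb =>
      obtain ⟨φ, rfl⟩ := ha
      obtain ⟨φ', rfl⟩ := hb
      exact ⟨φ + φ', map_add _ _ _⟩
    | mul a b _ _ ha hb =>
      obtain ⟨φ, rfl⟩ := ha
      obtain ⟨φ', rfl⟩ := hb
      exact ⟨φ * φ', map_mul _ _ _⟩
  have hg : ∀ g : s, ∃ φ : MvPolynomial (Fin (N + 1)) ℂ, aeval x φ = (g : Ω) := by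
    intro g
    apply hall
    have : (g : Ω) ∈ Submodule.span A0 (s : Set Ω) := Submodule.subset_span g.2
    rw [hs] at this
    exact this
  choose φ hφ using hg
  refine ⟨Σ g : s, Fin ((φ g).totalDegree + 1), inferInstance, fun j => j.2,
    fun j => homogeneousComponent j.2 (φ j.1), fun j => homogeneousComponent_isHomogeneous _ _, ?_⟩
  intro k0 b hb
  obtain ⟨p, hp, rfl⟩ := mem_Bk.1 hb
  set T : ℕ → Submodule ℂ Ω := fun k => Submodule.span ℂ
        {z | ∃ (j : Σ g : s, Fin ((φ g).totalDegree + 1)) (a c : ℕ), a + c + (j.2 : ℕ) = k ∧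
          z = (aeval x l₁) ^ a * (aeval x l₂) ^ c *
            aeval x (homogeneousComponent j.2 (φ j.1))} with hT
  -- monomials
  have hmon : ∀ (g : s) (a c : ℕ), (aeval x l₁) ^ a * (aeval x l₂) ^ c * (g : Ω) ∈ GoodSub x T := by
    intro g a c
    refine ⟨l₁ ^ a * l₂ ^ c * φ g, by rw [map_mul, map_mul, map_pow, map_pow, hφ], fun k => ?_⟩
    have e1 : l₁ ^ a * l₂ ^ c * φ g = ∑ i ∈ Finset.range ((φ g).totalDegree + 1),
        l₁ ^ a * l₂ ^ c * homogeneousComponent i (φ g) := by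
      rw [← Finset.mul_sum, sum_homogeneousComponent]
    rw [e1, map_sum, map_sum]
    apply Submodule.sum_mem
    intro i hi
    have e2 : (l₁ ^ a * l₂ ^ c * homogeneousComponent i (φ g)) ∈
        homogeneousSubmodule (Fin (N + 1)) ℂ (a + c + i) := by
      rw [mem_homogeneousSubmodule]
      have := ((h₁.pow a).mul (h₂.pow c)).mul (homogeneousComponent_isHomogeneous i (φ g))
      simpa using this
    rw [homogeneousComponent_of_mem e2]
    split_ifs with hk
    · rw [hT]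
      apply Submodule.subset_span
      refine ⟨⟨g, ⟨i, Finset.mem_range.1 hi⟩⟩, a, c, hk.symm, ?_⟩
      rw [map_mul, map_mul, map_pow, map_pow]
    · rw [map_zero]; exact Submodule.zero_mem _
  have hA : ∀ (a : A0) (g : s), (a : Ω) * (g : Ω) ∈ GoodSub x T := by
    rintro ⟨a, ha⟩ g
    have ha' : a ∈ Submodule.span ℂ (Submonoid.closure {aeval x l₁, aeval x l₂} : Set Ω) := by
      rw [hA0, ← Subalgebra.mem_toSubmodule, Algebra.adjoin_eq_span] at ha
      exact ha
    show a * (g : Ω) ∈ GoodSub x T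
    clear ha
    induction ha' using Submodule.span_induction with
    | mem z hz =>
      obtain ⟨m, n, rfl⟩ := (Submonoid.mem_closure_pair _ _ _).1 hz
      exact hmon g m n
    | zero => rw [zero_mul]; exact Submodule.zero_mem _
    | add u v hu hv ihu ihv =>
      rw [add_mul]
      exact Submodule.add_mem _ ihu ihv
    | smul c u hu ihu =>
      rw [smul_mul_assoc]
      exact Submodule.smul_mem _ c ihu
  have hb2 : aeval x p ∈ GoodSub x T := by
    have h1 : aeval x p ∈ Algebra.adjoin A0 (Set.range x) := by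
      rw [aeval_def, eval₂_eq']
      apply Subalgebra.sum_mem
      intro d _
      apply Subalgebra.mul_mem
      · have : algebraMap ℂ Ω (coeff d p) = algebraMap A0 Ω (algebraMap ℂ A0 (coeff d p)) := rfl
        rw [this]
        exact Subalgebra.algebraMap_mem _ _
      · apply Subalgebra.prod_mem
        intro i _
        exact Subalgebra.pow_mem _ (Algebra.subset_adjoin (Set.mem_range_self i)) _
    have h2 : aeval x p ∈ Submodule.span A0 (s : Set Ω) := by rw [hs]; exact h1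
    obtain ⟨c, -, hc⟩ := Submodule.mem_span_finset.1 h2
    rw [← hc]
    apply Submodule.sum_mem
    intro g hg
    exact hA (c g) ⟨g, hg⟩
  obtain ⟨ψ, e1, e2⟩ := hb2
  have h3 : ψ - p ∈ I := by rw [hx, map_sub, e1, sub_self]
  have h4 := (hx _).1 (hhom _ h3 k0)
  rw [map_sub, map_sub, homogeneousComponent_of_mem (m := k0) ((mem_homogeneousSubmodule _ _).2 hp),
    if_pos rfl, sub_eq_zero] at h4
  rw [← h4]
  exact e2 k0

/-- `F(x) / y ^ D` -/
theorem aeval_div (x : Fin (N + 1) → Ω) {y : Ω} (hy : y ≠ 0) {k : ℕ}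
    {f : MvPolynomial (Fin (N + 1)) ℂ} (hf : f.IsHomogeneous k) :
    aeval (fun v => x v / y) f = aeval x f / y ^ k := by
  rw [aeval_def, aeval_def, eval₂_eq', eval₂_eq', Finset.sum_div]
  refine Finset.sum_congr rfl fun d hd => ?_
  have h1 : ∑ i, d i = k := by
    have := hf.degree_eq_sum_deg_support hd
    rw [this]
    symm
    apply Finset.sum_subset (Finset.subset_univ _)
    intro i _ hi
    simpa using hi
  rw [← h1, ← Finset.prod_pow_eq_pow_sum, mul_div_assoc, ← Finset.prod_div_distrib]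
  congr 1
  refine Finset.prod_congr rfl fun i _ => ?_
  rw [div_pow]

theorem ratio_mem (x : Fin (N + 1) → Ω) {D : ℕ} {F G : MvPolynomial (Fin (N + 1)) ℂ}
    (hF : F.IsHomogeneous D) (hG : G.IsHomogeneous D) : aeval x F / aeval x G ∈ L0 x := by
  obtain ⟨y, hy, h⟩ : ∃ y : Ω, y ≠ 0 ∧ ∀ v, x v / y ∈ L0 x := by
    by_cases h0 : ∀ w, x w = 0
    · exact ⟨1, one_ne_zero, fun v => by rw [h0 v, zero_div]; exact zero_mem _⟩
    · push Not at h0
      obtain ⟨w, hw⟩ := h0
      exact ⟨x w, hw, fun v => IntermediateField.subset_adjoin _ _ ⟨(v, w), rfl⟩⟩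
  have h1 : ∀ f : MvPolynomial (Fin (N + 1)) ℂ, aeval (fun v => x v / y) f ∈ L0 x := by
    intro f
    rw [aeval_def, eval₂_eq']
    apply sum_mem
    intro d _
    apply mul_mem
    · exact (L0 x).algebraMap_mem _
    · apply prod_mem
      intro i _
      exact pow_mem (h i) _
  have h2 : aeval x F / aeval x G =
      aeval (fun v => x v / y) F / aeval (fun v => x v / y) G := by
    rw [aeval_div x hy hF, aeval_div x hy hG]
    have := pow_ne_zero D hy
    field_simp
  rw [h2]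
  exact div_mem (h1 F) (h1 G)

/-- `L₂ ≠ 0` and `θ` is transcendental -/
theorem theta_trans (x : Fin (N + 1) → Ω) {e : ℕ} (he : 0 < e)
    (hdeg : ∃ K : ℕ, ∀ k : ℕ, K ≤ k → finrank ℂ (Bk x (k + 1)) = finrank ℂ (Bk x k) + e)
    (L1 L2 : Ω) (ι : Type u) [Fintype ι] (d : ι → ℕ) (m : ι → Ω)
    (hgen : ∀ k, Bk x k ≤ Submodule.span ℂ
        {z | ∃ j a c, a + c + d j = k ∧ z = L1 ^ a * L2 ^ c * m j}) :
    L2 ≠ 0 ∧ Transcendental ℂ (L1 / L2) := by
  by_contra hcon
  have h1 : ∃ (L : Ω) (c1 c2 : ℂ), L1 = algebraMap ℂ Ω c1 * L ∧ L2 = algebraMap ℂ Ω c2 * L := by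
    by_cases h0 : L2 = 0
    · exact ⟨L1, 1, 0, by simp, by simp [h0]⟩
    · have h2 : ¬ Transcendental ℂ (L1 / L2) := fun h => hcon ⟨h0, h⟩
      rw [Transcendental, not_not] at h2
      have h3 := h2.isIntegral
      have h4 := IsAlgClosed.degree_eq_one_of_irreducible ℂ (minpoly.irreducible h3)
      obtain ⟨c, hc⟩ := minpoly.mem_range_of_degree_eq_one ℂ (L1 / L2) h4
      refine ⟨L2, c, 1, ?_, by simp⟩
      rw [hc, div_mul_cancel₀ _ h0]
  obtain ⟨L, c1, c2, hL1, hL2⟩ := h1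
  obtain ⟨K, hK⟩ := hdeg
  have h3 : ∀ k, finrank ℂ (Bk x k) ≤ Fintype.card ι := by
    intro k
    have h4 : Bk x k ≤ Submodule.span ℂ (Set.range fun j => L ^ (k - d j) * m j) := by
      refine (hgen k).trans (Submodule.span_le.2 ?_)
      rintro z ⟨j, a, c, hk, rfl⟩
      have h5 : L1 ^ a * L2 ^ c * m j = (c1 ^ a * c2 ^ c) • (L ^ (k - d j) * m j) := by
        have h6 : k - d j = a + c := by omega
        rw [h6, hL1, hL2, Algebra.smul_def, map_mul, map_pow, map_pow, pow_add]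
        ring
      rw [h5]
      exact Submodule.smul_mem _ _ (Submodule.subset_span ⟨j, rfl⟩)
    have : Module.Finite ℂ (Submodule.span ℂ (Set.range fun j => L ^ (k - d j) * m j)) :=
      Module.Finite.span_of_finite ℂ (Set.finite_range _)
    exact (Submodule.finrank_mono h4).trans (finrank_range_le_card _)
  have h5 : finrank ℂ (Bk x (K + (Fintype.card ι + 1))) =
      finrank ℂ (Bk x K) + e * (Fintype.card ι + 1) :=
    growth (h := fun k => finrank ℂ (Bk x k)) hK _
  have h6 := h3 (K + (Fintype.card ι + 1))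
  nlinarith

/-- powers of a transcendental element -/
theorem linInd_pow {A : Type*} [Field A] [Algebra ℂ A] {t : A} (ht : Transcendental ℂ t) (k : ℕ) :
    LinearIndependent ℂ (fun a : Fin (k + 1) => t ^ (a : ℕ)) := by
  have h0 : Function.Injective (Polynomial.aeval t : Polynomial ℂ →ₐ[ℂ] A) :=
    transcendental_iff_injective.1 ht
  have h1 := (Polynomial.basisMonomials ℂ).linearIndependent.map'
    (Polynomial.aeval t : Polynomial ℂ →ₐ[ℂ] A).toLinearMap (LinearMap.ker_eq_bot.2 h0)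
  have h2 := h1.comp (fun a : Fin (k + 1) => (a : ℕ)) Fin.val_injective
  have h3 : (fun a : Fin (k + 1) => t ^ (a : ℕ)) =
      ((Polynomial.aeval t : Polynomial ℂ →ₐ[ℂ] A).toLinearMap ∘ (Polynomial.basisMonomials ℂ)) ∘
      (fun a : Fin (k + 1) => (a : ℕ)) := by
    funext a
    simp [Function.comp, Polynomial.aeval_monomial]
  rw [h3]
  exact h2

theorem le_of_linear {r e A : ℕ} (h : ∀ k : ℕ, (k + 1) * r ≤ e * k + A) : r ≤ e := by
  by_contra hcon
  have h1 := h A
  have h2 : e + 1 ≤ r := by omega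
  have h3 : (A + 1) * (e + 1) ≤ (A + 1) * r := Nat.mul_le_mul_left _ h2
  nlinarith

/-- upper bound for the degree -/
theorem rank_le_e (x : Fin (N + 1) → Ω) {e : ℕ}
    (hdeg : ∃ K : ℕ, ∀ k : ℕ, K ≤ k → finrank ℂ (Bk x (k + 1)) = finrank ℂ (Bk x k) + e)
    (l₁ l₂ : MvPolynomial (Fin (N + 1)) ℂ) (h₁ : l₁.IsHomogeneous 1) (h₂ : l₂.IsHomogeneous 1)
    (hL2 : aeval x l₂ ≠ 0) (ht : Transcendental ℂ (aeval x l₁ / aeval x l₂))
    (hle : IntermediateField.adjoin ℂ {aeval x l₁ / aeval x l₂} ≤ L0 x) :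
    Module.rank (IntermediateField.adjoin ℂ {aeval x l₁ / aeval x l₂})
      (IntermediateField.extendScalars hle) ≤ e := by
  classical
  set A := IntermediateField.adjoin ℂ {aeval x l₁ / aeval x l₂} with hA
  apply rank_le
  intro s hs
  obtain ⟨K, hK⟩ := hdeg
  obtain ⟨C, hC⟩ := growth_le (h := fun k => finrank ℂ (Bk x k)) hK
  have hv0 : ∀ i : s, ((i : IntermediateField.extendScalars hle) : Ω) ∈ L0 x := fun i =>
    (i : IntermediateField.extendScalars hle).2
  obtain ⟨D, F, G, hF, hG, hG0, h⟩ := exists_common x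
    (fun i : s => ((i : IntermediateField.extendScalars hle) : Ω)) hv0
  have hv : LinearIndependent A (fun i : s => ((i : IntermediateField.extendScalars hle) : Ω)) := by
    have := hs.map' (IntermediateField.extendScalars hle).val.toLinearMap
      (LinearMap.ker_eq_bot.2 (IntermediateField.extendScalars hle).val.injective)
    exact this
  set tA : A := ⟨aeval x l₁ / aeval x l₂, IntermediateField.mem_adjoin_simple_self ℂ _⟩ with htA
  have htA' : Transcendental ℂ tA := by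
    intro hh
    apply ht
    have : IsAlgebraic ℂ (algebraMap A Ω tA) := IsAlgebraic.algebraMap hh
    exact this
  apply le_of_linear (A := e * D + C)
  intro k
  have h1 := linearIndependent_smul (linInd_pow htA' k) hv
  have hG1 : aeval x G * aeval x l₂ ^ k ≠ 0 := mul_ne_zero hG0 (pow_ne_zero _ hL2)
  have h2 := h1.map' (LinearMap.mulLeft ℂ (aeval x G * aeval x l₂ ^ k))
      (LinearMap.ker_eq_bot.2 (mul_right_injective₀ hG1))
  have h3 : ∀ p : Fin (k + 1) × s, LinearMap.mulLeft ℂ (aeval x G * aeval x l₂ ^ k)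
      (tA ^ (p.1 : ℕ) • ((p.2 : IntermediateField.extendScalars hle) : Ω)) ∈ Bk x (D + k) := by
    rintro ⟨a, i⟩
    obtain ⟨c, hc⟩ : ∃ c, k = a + c := ⟨k - a, by omega⟩
    have h4 : (F i * (l₁ ^ (a : ℕ) * l₂ ^ c)).IsHomogeneous (D + k) := by
      have := (hF i).mul ((h₁.pow a).mul (h₂.pow c))
      have hk : D + (1 * (a : ℕ) + 1 * c) = D + k := by omega
      rw [hk] at this
      exact this
    have h5 := Bk_mem (x := x) h4
    convert h5 using 1
    have h6 : tA ^ (a : ℕ) • ((i : IntermediateField.extendScalars hle) : Ω) =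
        (aeval x l₁ / aeval x l₂) ^ (a : ℕ) * (aeval x (F i) / aeval x G) := by
      rw [← h i]; rfl
    rw [LinearMap.mulLeft_apply, h6, map_mul, map_mul, map_pow, map_pow]
    have h7 : aeval x l₂ ^ k = aeval x l₂ ^ (a : ℕ) * aeval x l₂ ^ c := by
      rw [← pow_add, ← hc]
    rw [h7, div_pow]
    field_simp
  have h6 : LinearIndependent ℂ (fun p : Fin (k + 1) × s => (⟨_, h3 p⟩ : Bk x (D + k))) := by
    apply LinearIndependent.of_comp (Bk x (D + k)).subtype
    exact h2
  have h7 := h6.fintype_card_le_finrank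
  rw [Fintype.card_prod, Fintype.card_fin, Fintype.card_coe] at h7
  have h8 : finrank ℂ (Bk x (D + k)) ≤ e * (D + k) + C := hC (D + k)
  have h9 : e * (D + k) + C = e * k + (e * D + C) := by ring
  omega

/-- span of `t ^ a * v i`, `a ≤ n` -/
noncomputable def W {r : ℕ} (t : Ω) (v : Fin r → Ω) (n : ℕ) : Submodule ℂ Ω :=
  Submodule.span ℂ (Set.range fun p : Fin (n + 1) × Fin r => t ^ (p.1 : ℕ) * v p.2)

instance W_finite {r : ℕ} (t : Ω) (v : Fin r → Ω) (n : ℕ) : Module.Finite ℂ (W t v n) :=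
  Module.Finite.span_of_finite ℂ (Set.finite_range _)

theorem finrank_W {r : ℕ} (t : Ω) (v : Fin r → Ω) (n : ℕ) : finrank ℂ (W t v n) ≤ (n + 1) * r := by
  refine (finrank_range_le_card _).trans ?_
  simp

theorem mem_W {r : ℕ} (t : Ω) (v : Fin r → Ω) {n a : ℕ} (ha : a ≤ n) (i : Fin r) :
    t ^ a * v i ∈ W t v n :=
  Submodule.subset_span ⟨(⟨a, by omega⟩, i), rfl⟩

theorem pow_mul_W {r : ℕ} (t : Ω) (v : Fin r → Ω) {n : ℕ} (a : ℕ) {m : ℕ} (hm : n + a ≤ m) {z : Ω}
    (hz : z ∈ W t v n) : t ^ a * z ∈ W t v m := by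
  unfold W at hz
  induction hz using Submodule.span_induction with
  | mem z hz =>
    obtain ⟨⟨b, i⟩, rfl⟩ := hz
    simp only
    rw [← mul_assoc, ← pow_add]
    exact mem_W t v (by omega) i
  | zero => rw [mul_zero]; exact zero_mem _
  | add a b _ _ ha hb => rw [mul_add]; exact add_mem ha hb
  | smul c a _ ha => rw [mul_smul_comm]; exact Submodule.smul_mem _ c ha

theorem W_mono {r : ℕ} (t : Ω) (v : Fin r → Ω) {n m : ℕ} (h : n ≤ m) {z : Ω}
    (hz : z ∈ W t v n) : z ∈ W t v m := by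
  have := pow_mul_W t v 0 (m := m) (by omega) hz
  simpa using this

theorem poly_mul_W {r : ℕ} (t : Ω) (v : Fin r → Ω) {n m : ℕ} (p : Polynomial ℂ)
    (hm : n + p.natDegree ≤ m) {z : Ω}
    (hz : z ∈ W t v n) : Polynomial.aeval t p * z ∈ W t v m := by
  rw [Polynomial.aeval_eq_sum_range, Finset.sum_mul]
  apply Submodule.sum_mem
  intro i hi
  rw [Finset.mem_range] at hi
  rw [smul_mul_assoc]
  exact Submodule.smul_mem _ _ (pow_mul_W t v i (by omega) hz)

/-- `q(t) y ∈ W n` -/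
def Q {r : ℕ} (t : Ω) (v : Fin r → Ω) (y : Ω) : Prop :=
  ∃ q : Polynomial ℂ, Polynomial.aeval t q ≠ 0 ∧ ∃ n, Polynomial.aeval t q * y ∈ W t v n

theorem Q_add {r : ℕ} (t : Ω) (v : Fin r → Ω) {y z : Ω} (hy : Q t v y) (hz : Q t v z) :
    Q t v (y + z) := by
  obtain ⟨q, hq, n, h1⟩ := hy
  obtain ⟨q', hq', n', h2⟩ := hz
  refine ⟨q * q', by rw [map_mul]; exact mul_ne_zero hq hq',
    (n + q'.natDegree) + (n' + q.natDegree), ?_⟩
  rw [map_mul, mul_add]
  apply Submodule.add_mem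
  · have := poly_mul_W t v (m := (n + q'.natDegree) + (n' + q.natDegree)) q' (by omega) h1
    convert this using 1
    ring
  · have := poly_mul_W t v (m := (n + q'.natDegree) + (n' + q.natDegree)) q (by omega) h2
    convert this using 1
    ring

theorem Q_zero {r : ℕ} (t : Ω) (v : Fin r → Ω) : Q t v 0 :=
  ⟨1, by simp, 0, by simp⟩

theorem Q_sum {r : ℕ} (t : Ω) (v : Fin r → Ω) {κ : Type*} (s : Finset κ) (y : κ → Ω)
    (h : ∀ i ∈ s, Q t v (y i)) : Q t v (∑ i ∈ s, y i) := by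
  classical
  induction s using Finset.induction_on with
  | empty => simpa using Q_zero t v
  | insert a s ha ih =>
    rw [Finset.sum_insert ha]
    exact Q_add t v (h a (Finset.mem_insert_self _ _))
      (ih fun i hi => h i (Finset.mem_insert_of_mem hi))

theorem Q_smul {r : ℕ} (t : Ω) (v : Fin r → Ω) (i : Fin r) {c : Ω}
    (hc : c ∈ IntermediateField.adjoin ℂ {t}) : Q t v (c * v i) := by
  obtain ⟨p, q, rfl⟩ := (IntermediateField.mem_adjoin_simple_iff ℂ c).1 hc
  by_cases hq : Polynomial.aeval t q = 0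
  · rw [hq, div_zero, zero_mul]; exact Q_zero t v
  · refine ⟨q, hq, p.natDegree, ?_⟩
    have h1 : Polynomial.aeval t q * (Polynomial.aeval t p / Polynomial.aeval t q * v i) =
        Polynomial.aeval t p * v i := by field_simp
    rw [h1]
    have h2 := mem_W t v (n := 0) (a := 0) le_rfl i
    rw [pow_zero, one_mul] at h2
    exact poly_mul_W t v p (by omega) h2

theorem Q_common {r : ℕ} (t : Ω) (v : Fin r → Ω) {κ : Type*} (s : Finset κ) (y : κ → Ω)
    (h : ∀ i ∈ s, Q t v (y i)) : ∃ q : Polynomial ℂ, Polynomial.aeval t q ≠ 0 ∧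
      ∃ n, ∀ i ∈ s, Polynomial.aeval t q * y i ∈ W t v n := by
  classical
  induction s using Finset.induction_on with
  | empty => exact ⟨1, by simp, 0, by simp⟩
  | insert a s ha ih =>
    obtain ⟨q, hq, n, h1⟩ := ih fun i hi => h i (Finset.mem_insert_of_mem hi)
    obtain ⟨q', hq', n', h2⟩ := h a (Finset.mem_insert_self _ _)
    refine ⟨q * q', by rw [map_mul]; exact mul_ne_zero hq hq',
      (n + q'.natDegree) + (n' + q.natDegree), ?_⟩
    intro i hi
    rw [map_mul]
    rcases Finset.mem_insert.1 hi with rfl | hi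
    · have := poly_mul_W t v (m := (n + q'.natDegree) + (n' + q.natDegree)) q (by omega) h2
      convert this using 1
      ring
    · have := poly_mul_W t v (m := (n + q'.natDegree) + (n' + q.natDegree)) q' (by omega) (h1 i hi)
      convert this using 1
      ring

theorem ge_of_linear {r e A B : ℕ} (h : ∀ j : ℕ, e * j ≤ (j + A) * r + B) : e ≤ r := by
  by_contra hcon
  have h1 := h (A * r + B + 1)
  have h2 : r + 1 ≤ e := by omega
  have h3 : (r + 1) * (A * r + B + 1) ≤ e * (A * r + B + 1) := Nat.mul_le_mul_right _ h2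
  nlinarith

/-- lower bound for the degree -/
theorem e_le (x : Fin (N + 1) → Ω) {e : ℕ}
    (hdeg : ∃ K : ℕ, ∀ k : ℕ, K ≤ k → finrank ℂ (Bk x (k + 1)) = finrank ℂ (Bk x k) + e)
    (L1 L2 : Ω) (hL2 : L2 ≠ 0) (ι : Type u) [Fintype ι] (d : ι → ℕ) (m : ι → Ω)
    (hgen : ∀ k, Bk x k ≤ Submodule.span ℂ
        {z | ∃ j a c, a + c + d j = k ∧ z = L1 ^ a * L2 ^ c * m j})
    {r : ℕ} (v : Fin r → Ω) (hm : ∀ j, Q (L1 / L2) v (m j / L2 ^ (d j))) : e ≤ r := by
  classical
  obtain ⟨q, hq, E, hE⟩ := Q_common (L1 / L2) v (Finset.univ : Finset ι)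
    (fun j => m j / L2 ^ (d j)) (fun j _ => hm j)
  obtain ⟨K, hK⟩ := hdeg
  have key : ∀ k, finrank ℂ (Bk x k) ≤ (E + k + 1) * r := by
    intro k
    have hne : Polynomial.aeval (L1 / L2) q / L2 ^ k ≠ 0 := div_ne_zero hq (pow_ne_zero _ hL2)
    set f := LinearMap.mulLeft ℂ (Polynomial.aeval (L1 / L2) q / L2 ^ k) with hf
    have hinj : Function.Injective f := mul_right_injective₀ hne
    have h1 : finrank ℂ (Bk x k) = finrank ℂ (Submodule.map f (Bk x k)) :=
      (Submodule.equivMapOfInjective f hinj _).finrank_eq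
    rw [h1]
    have h2 : Submodule.map f (Bk x k) ≤ W (L1 / L2) v (E + k) := by
      refine (Submodule.map_mono (hgen k)).trans ?_
      rw [Submodule.map_span, Submodule.span_le]
      rintro _ ⟨z, ⟨j, a, c, hk, rfl⟩, rfl⟩
      rw [SetLike.mem_coe, hf, LinearMap.mulLeft_apply]
      have h3 : Polynomial.aeval (L1 / L2) q / L2 ^ k * (L1 ^ a * L2 ^ c * m j) =
          (L1 / L2) ^ a * (Polynomial.aeval (L1 / L2) q * (m j / L2 ^ (d j))) := by
        rw [← hk, pow_add, pow_add, div_pow]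
        field_simp
      rw [h3]
      exact pow_mul_W _ v a (by omega) (hE j (Finset.mem_univ j))
    refine (Submodule.finrank_mono h2).trans (finrank_W _ v _)
  apply ge_of_linear (A := E + K + 1) (B := 0)
  intro j
  have h1 : finrank ℂ (Bk x (K + j)) = finrank ℂ (Bk x K) + e * j :=
    growth (h := fun k => finrank ℂ (Bk x k)) hK j
  have h2 := key (K + j)
  have h3 : (E + (K + j) + 1) * r = (j + (E + K + 1)) * r + 0 := by ring
  omega

theorem exists_fin_gen (K V : Type*) [Field K] [AddCommGroup V] [Module K V]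
    [Module.Finite K V] : ∃ b : Fin (finrank K V) → V, ∀ y, ∃ r : Fin (finrank K V) → K,
      ∑ i, r i • b i = y :=
  ⟨Module.finBasis K V, fun y => ⟨(Module.finBasis K V).repr y, (Module.finBasis K V).sum_repr y⟩⟩

end Pool.Agent.H861.CD.T7aux

open Module

namespace Pool.Agent.H861.CD

theorem degree_eq {N : ℕ} (I : Ideal (MvPolynomial (Fin (N + 1)) ℂ))
    (hhom : ∀ p ∈ I, ∀ k : ℕ, MvPolynomial.homogeneousComponent k p ∈ I) {e : ℕ} (he : 0 < e)
    (hdeg : ∃ K : ℕ, ∀ k : ℕ, K ≤ k →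
      finrank ℂ (Submodule.map (Ideal.Quotient.mkₐ ℂ I).toLinearMap
        (MvPolynomial.homogeneousSubmodule (Fin (N + 1)) ℂ (k + 1))) =
      finrank ℂ (Submodule.map (Ideal.Quotient.mkₐ ℂ I).toLinearMap
        (MvPolynomial.homogeneousSubmodule (Fin (N + 1)) ℂ k)) + e)
    {Ω : Type*} [Field Ω] [Algebra ℂ Ω] (x : Fin (N + 1) → Ω)
    (hx : ∀ f, f ∈ I ↔ MvPolynomial.aeval x f = 0)
    (l₁ l₂ : MvPolynomial (Fin (N + 1)) ℂ) (h₁ : l₁.IsHomogeneous 1) (h₂ : l₂.IsHomogeneous 1)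
    (hint : ∀ v, IsIntegral (Algebra.adjoin ℂ {MvPolynomial.aeval x l₁, MvPolynomial.aeval x l₂}) (x v)) :
    IntermediateField.relfinrank
      (IntermediateField.adjoin ℂ {MvPolynomial.aeval x l₁ / MvPolynomial.aeval x l₂})
      (IntermediateField.adjoin ℂ (Set.range fun q : Fin (N + 1) × Fin (N + 1) => x q.1 / x q.2)) = e := by
  classical
  have hdeg' : ∃ K : ℕ, ∀ k : ℕ, K ≤ k →
      finrank ℂ (T7aux.Bk x (k + 1)) = finrank ℂ (T7aux.Bk x k) + e := by
    obtain ⟨K, hK⟩ := hdeg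
    exact ⟨K, fun k hk => by
      rw [← T7aux.finrank_Bk I x hx, ← T7aux.finrank_Bk I x hx]; exact hK k hk⟩
  obtain ⟨ι, hι, d, f, hf, hgen⟩ := T7aux.generation I hhom x hx l₁ l₂ h₁ h₂ hint
  have := hι
  obtain ⟨hL2, ht⟩ := T7aux.theta_trans x he hdeg' (MvPolynomial.aeval x l₁)
    (MvPolynomial.aeval x l₂) ι d (fun j => MvPolynomial.aeval x (f j)) hgen
  have hle : IntermediateField.adjoin ℂ {MvPolynomial.aeval x l₁ / MvPolynomial.aeval x l₂} ≤
      T7aux.L0 x := by
    rw [IntermediateField.adjoin_simple_le_iff]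
    exact T7aux.ratio_mem x h₁ h₂
  show IntermediateField.relfinrank
      (IntermediateField.adjoin ℂ {MvPolynomial.aeval x l₁ / MvPolynomial.aeval x l₂})
      (T7aux.L0 x) = e
  rw [IntermediateField.relfinrank_eq_finrank_of_le hle]
  have hrank := T7aux.rank_le_e x hdeg' l₁ l₂ h₁ h₂ hL2 ht hle
  have hfin : Module.Finite (IntermediateField.adjoin ℂ
      {MvPolynomial.aeval x l₁ / MvPolynomial.aeval x l₂})
      (IntermediateField.extendScalars hle) := by
    rw [← Module.rank_lt_aleph0_iff]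
    exact hrank.trans_lt (Cardinal.natCast_lt_aleph0)
  apply le_antisymm
  · exact Module.finrank_le_of_rank_le hrank
  · obtain ⟨b, hb⟩ := T7aux.exists_fin_gen (IntermediateField.adjoin ℂ
      {MvPolynomial.aeval x l₁ / MvPolynomial.aeval x l₂})
      (IntermediateField.extendScalars hle)
    refine T7aux.e_le x hdeg' (MvPolynomial.aeval x l₁) (MvPolynomial.aeval x l₂) hL2 ι d
      (fun j => MvPolynomial.aeval x (f j)) hgen (fun i => ((b i : _) : Ω)) ?_
    intro j
    have h1 : MvPolynomial.aeval x (f j) / MvPolynomial.aeval x l₂ ^ (d j) ∈ T7aux.L0 x := by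
      have h2 : (l₂ ^ (d j)).IsHomogeneous (d j) := by
        have := h₂.pow (d j)
        rwa [one_mul] at this
      have h3 := T7aux.ratio_mem x (hf j) h2
      rwa [map_pow] at h3
    obtain ⟨r, hr⟩ := hb (⟨_, h1⟩ : IntermediateField.extendScalars hle)
    have h5 := congrArg (fun z : IntermediateField.extendScalars hle => (z : Ω)) hr
    simp only at h5
    rw [← h5]
    have h6 : ((∑ i, r i • b i : IntermediateField.extendScalars hle) : Ω) =
        ∑ i, ((r i : IntermediateField.adjoin ℂ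
            {MvPolynomial.aeval x l₁ / MvPolynomial.aeval x l₂}) : Ω) * ((b i : _) : Ω) := by
      rw [AddSubmonoidClass.coe_finsetSum]
      rfl
    rw [h6]
    apply T7aux.Q_sum
    intro i _
    exact T7aux.Q_smul _ _ i (r i).2

theorem dependent {N : ℕ} (I : Ideal (MvPolynomial (Fin (N + 1)) ℂ))
    (hhom : ∀ p ∈ I, ∀ k : ℕ, MvPolynomial.homogeneousComponent k p ∈ I) {e : ℕ}
    (hdeg : ∃ K : ℕ, ∀ k : ℕ, K ≤ k →
      finrank ℂ (Submodule.map (Ideal.Quotient.mkₐ ℂ I).toLinearMap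
        (MvPolynomial.homogeneousSubmodule (Fin (N + 1)) ℂ (k + 1))) =
      finrank ℂ (Submodule.map (Ideal.Quotient.mkₐ ℂ I).toLinearMap
        (MvPolynomial.homogeneousSubmodule (Fin (N + 1)) ℂ k)) + e)
    {Ω : Type*} [Field Ω] [Algebra ℂ Ω] (x : Fin (N + 1) → Ω)
    (hx : ∀ f, f ∈ I ↔ MvPolynomial.aeval x f = 0) (u : Fin 2 → Ω)
    (hu : ∀ i, u i ∈ IntermediateField.adjoin ℂ (Set.range fun q : Fin (N + 1) × Fin (N + 1) => x q.1 / x q.2)) :
    ¬ AlgebraicIndependent ℂ u := by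
  refine T7aux.dependent_aux (e := e) x ?_ u hu
  obtain ⟨K, hK⟩ := hdeg
  exact ⟨K, fun k hk => by
    rw [← T7aux.finrank_Bk I x hx, ← T7aux.finrank_Bk I x hx]; exact hK k hk⟩

theorem nonconstant {N : ℕ} (I : Ideal (MvPolynomial (Fin (N + 1)) ℂ)) {e : ℕ} (he : 0 < e)
    (hdeg : ∃ K : ℕ, ∀ k : ℕ, K ≤ k →
      finrank ℂ (Submodule.map (Ideal.Quotient.mkₐ ℂ I).toLinearMap
        (MvPolynomial.homogeneousSubmodule (Fin (N + 1)) ℂ (k + 1))) =
      finrank ℂ (Submodule.map (Ideal.Quotient.mkₐ ℂ I).toLinearMap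
        (MvPolynomial.homogeneousSubmodule (Fin (N + 1)) ℂ k)) + e)
    {Ω : Type*} [Field Ω] [Algebra ℂ Ω] (x : Fin (N + 1) → Ω)
    (hx : ∀ f, f ∈ I ↔ MvPolynomial.aeval x f = 0) :
    ∃ v w, x w ≠ 0 ∧ x v / x w ∉ (⊥ : IntermediateField ℂ Ω) := by
  refine T7aux.nonconst_aux I he x ?_
  obtain ⟨K, hK⟩ := hdeg
  exact ⟨K, fun k hk => by
    rw [← T7aux.finrank_Bk I x hx, ← T7aux.finrank_Bk I x hx]; exact hK k hk⟩

end Pool.Agent.H861.CD
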