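import Pool.Agent.H861.CD.Curve
import Pool.Agent.H861.CD.T7

set_option autoImplicit false

open Module

namespace Pool.Agent.H861.CD

open IntermediateField

/-- the degree of the example -/
def EE (n δ : ℕ) : ℕ := (δ + 1) * (δ * (n.factorial * 2 ^ n))

/-- the coordinates `y` -/
def eY {n r : ℕ} (i : Fin (n + 1)) : Fin (n + r + 1) := ⟨i, by omega⟩

/-- the coordinates `z` -/
def eZ {n r : ℕ} (k : Fin r) : Fin (n + r + 1) := ⟨n + 1 + k, by omega⟩

lemma eY_or_eZ {n r : ℕ} (v : Fin (n + r + 1)) : (∃ i : Fin (n + 1), v = eY i) ∨ ∃ k : Fin r, v = eZ k := by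
  by_cases h : (v : ℕ) < n + 1
  · exact Or.inl ⟨⟨v, h⟩, rfl⟩
  · refine Or.inr ⟨⟨v - (n + 1), by omega⟩, ?_⟩
    apply Fin.ext
    show (v : ℕ) = n + 1 + (v - (n + 1))
    omega

/-- the embedding of the coordinates of the `k`-th form -/
def emb {n r : ℕ} (k : Fin r) : Fin (n + 1) ⊕ Unit → Fin (n + r + 1) := Sum.elim eY (fun _ => eZ k)

/-- what the form has to satisfy (conclusion of `exists_form`) -/
def IsForm {n : ℕ} (δ : ℕ) (t : Fin n → ℂ) (f : MvPolynomial (Fin (n + 1) ⊕ Unit) ℂ) : Prop :=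
  f.IsHomogeneous (EE n δ) ∧ f.coeff (Finsupp.single (Sum.inr ()) (EE n δ)) = 1 ∧
      ∀ (Ω : Type) [Field Ω] [Algebra ℂ Ω] [IsAlgClosed Ω] (y : Fin (n + 1) → Ω) (z : Ω),
        y ≠ 0 → MvPolynomial.aeval (Sum.elim y (fun _ => z)) f = 0 →
        ∃ a b α α' ρ ρ' : Fin n → Ω, (∀ i : Fin (n + 1), y i = sig a b i) ∧
          Rel δ t a b α α' ρ ρ' ∧ z ^ (δ + 1) = WW δ a b ρ ρ'

lemma hom_scale {σ : Type*} [Fintype σ] {E : ℕ} {Ω : Type*} [Field Ω] [Algebra ℂ Ω] (F : MvPolynomial σ ℂ)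
    (hF : F.IsHomogeneous E) (c : Ω) (x : σ → Ω) :
    MvPolynomial.aeval (fun i => c * x i) F = c ^ E * MvPolynomial.aeval x F := by
  rw [MvPolynomial.aeval_def, MvPolynomial.aeval_def, MvPolynomial.eval₂_eq', MvPolynomial.eval₂_eq',
    Finset.mul_sum]
  refine Finset.sum_congr rfl fun m hm => ?_
  have h1 : m.degree = E := by
    rw [Finsupp.degree_eq_weight_one]
    exact hF (MvPolynomial.mem_support_iff.1 hm)
  rw [← h1, Finsupp.degree_eq_sum, ← Finset.prod_pow_eq_pow_sum]
  simp only [mul_pow, Finset.prod_mul_distrib]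
  ring

/-- values of the coordinates at a valuation ring -/
lemma val_main {n : ℕ} {Ω : Type*} [Field Ω] [Algebra ℂ Ω] (A B : Fin n → Ω) (hAB : ∀ j, A j ≠ 0 ∨ B j ≠ 0)
    (c : Fin 2 → ℂ) (V : ValuationSubring Ω) (hV : ∀ z : ℂ, algebraMap ℂ Ω z ∈ V)
    (h3 : ∀ (j j' : Fin n), B j ≠ 0 → B j' ≠ 0 → ¬ (A j / B j - algebraMap ℂ Ω (c 0) ∈ V.nonunits ∧
            A j' / B j' - algebraMap ℂ Ω (c 1) ∈ V.nonunits))
    (hl : ∀ m, ∏ j, (B j * algebraMap ℂ Ω (c m) - A j) ∈ V) (i : ℕ) : sig A B i ∈ V := by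
  classical
  have hchoose : ∀ j, ∃ S a' b' : Ω, S ≠ 0 ∧ A j = S * a' ∧ B j = S * b' ∧ a' ∈ V ∧ b' ∈ V ∧ (a' = 1 ∨ b' = 1) := by
    intro j
    by_cases hB : B j ≠ 0 ∧ A j / B j ∈ V
    · refine ⟨B j, A j / B j, 1, hB.1, ?_, by ring, hB.2, one_mem _, Or.inr rfl⟩
      have := hB.1
      field_simp
    · have hA : A j ≠ 0 := by
        intro hA
        apply hB
        rcases hAB j with h | h
        · exact absurd hA h
        · exact ⟨h, by rw [hA, zero_div]; exact zero_mem _⟩
      refine ⟨A j, 1, B j / A j, hA, by ring, by field_simp, one_mem _, ?_, Or.inl rfl⟩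
      by_cases hB0 : B j = 0
      · rw [hB0, zero_div]; exact zero_mem _
      · have h1 : A j / B j ∉ V := fun h => hB ⟨hB0, h⟩
        rcases V.mem_or_inv_mem (A j / B j) with h2 | h2
        · exact absurd h2 h1
        · rwa [inv_div] at h2
  choose S a' b' hS hA hB ha' hb' hab' using hchoose
  have hsig : sig A B i = (∏ j, S j) * sig a' b' i := by
    rw [← sig_smul]
    congr 1
    · funext j; exact hA j
    · funext j; exact hB j
  have hsV := sig_sub_mem V a' b' ha' hb' i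
  rw [hsig]
  by_cases hT : (∏ j, S j) ∈ V
  · exact mul_mem hT hsV
  exfalso
  have hT0 : (∏ j, S j) ≠ 0 := Finset.prod_ne_zero_iff.2 fun j _ => hS j
  have hT1 : (∏ j, S j)⁻¹ ∈ V.nonunits := by
    rw [ValuationSubring.inv_mem_nonunits_iff]; exact Or.inr hT
  have key : ∀ m, ∃ j, B j ≠ 0 ∧ A j / B j - algebraMap ℂ Ω (c m) ∈ V.nonunits := by
    intro m
    have e1 : ∏ j, (b' j * algebraMap ℂ Ω (c m) - a' j) = (∏ j, S j)⁻¹ * ∏ j, (B j * algebraMap ℂ Ω (c m) - A j) := by
      have : ∀ j, B j * algebraMap ℂ Ω (c m) - A j = S j * (b' j * algebraMap ℂ Ω (c m) - a' j) := by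
        intro j; rw [hA j, hB j]; ring
      rw [Finset.prod_congr rfl fun j _ => this j, Finset.prod_mul_distrib, ← mul_assoc,
        inv_mul_cancel₀ hT0, one_mul]
    have e2 : ∏ j, (b' j * algebraMap ℂ Ω (c m) - a' j) ∈ V.nonunits := by
      rw [e1, ValuationSubring.mem_nonunits_iff, map_mul]
      rw [ValuationSubring.mem_nonunits_iff] at hT1
      have := (V.valuation_le_one_iff _).2 (hl m)
      exact mul_lt_one_of_lt_of_le hT1 this
    have e3 : ∃ j, b' j * algebraMap ℂ Ω (c m) - a' j ∈ V.nonunits := by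
      by_contra hc
      push Not at hc
      rw [ValuationSubring.mem_nonunits_iff, map_prod] at e2
      have e4 : ∀ j, V.valuation (b' j * algebraMap ℂ Ω (c m) - a' j) = 1 := by
        intro j
        have h1 := hc j
        rw [ValuationSubring.mem_nonunits_iff, not_lt] at h1
        exact le_antisymm ((V.valuation_le_one_iff _).2 (sub_mem (mul_mem (hb' j) (hV _)) (ha' j))) h1
      rw [Finset.prod_congr rfl fun j _ => e4 j, Finset.prod_const_one] at e2
      exact lt_irrefl _ e2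
    obtain ⟨j, hj⟩ := e3
    have hb1 : b' j ∉ V.nonunits := by
      intro hb
      have ha1 : a' j ∈ V.nonunits := by
        have e5 : b' j * algebraMap ℂ Ω (c m) ∈ V.nonunits := by
          rw [ValuationSubring.mem_nonunits_iff, map_mul]
          rw [ValuationSubring.mem_nonunits_iff] at hb
          exact mul_lt_one_of_lt_of_le hb ((V.valuation_le_one_iff _).2 (hV _))
        have := sub_mem e5 hj
        rwa [sub_sub_cancel] at this
      rcases hab' j with h | h
      · rw [h, ValuationSubring.mem_nonunits_iff, map_one] at ha1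
        exact lt_irrefl _ ha1
      · rw [h, ValuationSubring.mem_nonunits_iff, map_one] at hb
        exact lt_irrefl _ hb
    have hb0 : b' j ≠ 0 := by
      intro h; apply hb1; rw [h]; exact zero_mem _
    refine ⟨j, ?_, ?_⟩
    · rw [hB j]; exact mul_ne_zero (hS j) hb0
    · have e6 : A j / B j - algebraMap ℂ Ω (c m) = -(b' j * algebraMap ℂ Ω (c m) - a' j) * (b' j)⁻¹ := by
        rw [hA j, hB j, mul_div_mul_left _ _ (hS j)]
        field_simp
        ring
      rw [e6, ValuationSubring.mem_nonunits_iff, map_mul, Valuation.map_neg]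
      rw [ValuationSubring.mem_nonunits_iff] at hj hb1
      rw [not_lt] at hb1
      have e7 : V.valuation (b' j)⁻¹ ≤ 1 := by
        rw [map_inv₀]
        exact inv_le_one_of_one_le₀ hb1
      exact mul_lt_one_of_lt_of_le hj e7
  obtain ⟨j, hj1, hj2⟩ := key 0
  obtain ⟨j', hj1', hj2'⟩ := key 1
  exact h3 j j' hj1 hj1' ⟨hj2, hj2'⟩

/-- the loss in the exponent of `p` at the covering steps -/
def loss (n r p : ℕ) : ℕ := (n + n + r * n + r) * Nat.log p n

theorem curve_dvd {n r : ℕ} (hn : 2 ≤ n) {p : ℕ} (hp : p.Prime) (s : Fin r → ℕ)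
    (hs : ∀ k, n < p ^ s k) (t : Fin r → Fin n → ℂ)
    (ht : AlgebraicIndependent ℚ (fun x : Fin r × Fin n => t x.1 x.2))
    (F : Fin r → MvPolynomial (Fin (n + 1) ⊕ Unit) ℂ) (hF : ∀ k, IsForm (p ^ s k) (t k) (F k))
    (I : Ideal (MvPolynomial (Fin (n + r + 1)) ℂ))
    (hhom : ∀ p ∈ I, ∀ k : ℕ, MvPolynomial.homogeneousComponent k p ∈ I) (hprime : I.IsPrime) {e : ℕ}
    (he : 0 < e)
    (hdeg : ∃ K : ℕ, ∀ k : ℕ, K ≤ k →
      finrank ℂ (Submodule.map (Ideal.Quotient.mkₐ ℂ I).toLinearMap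
        (MvPolynomial.homogeneousSubmodule (Fin (n + r + 1)) ℂ (k + 1))) =
      finrank ℂ (Submodule.map (Ideal.Quotient.mkₐ ℂ I).toLinearMap
        (MvPolynomial.homogeneousSubmodule (Fin (n + r + 1)) ℂ k)) + e)
    (hI : ∀ k, MvPolynomial.rename (emb k) (F k) ∈ I) :
    p ^ ((∑ k, s k) - loss n r p) ∣ e := by
  classical
  rcases Nat.eq_zero_or_pos r with hr | hr
  · subst hr
    simp
  obtain ⟨Ω, _, _, _, x, hx⟩ := exists_generic I hprime
  set y : Fin (n + 1) → Ω := fun i => x (eY i) with hy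
  set z : Fin r → Ω := fun k => x (eZ k) with hz
  have hF0 : ∀ k, MvPolynomial.aeval (Sum.elim y (fun _ => z k)) (F k) = 0 := by
    intro k
    have h1 := (hx _).1 (hI k)
    rw [MvPolynomial.aeval_rename] at h1
    have h2 : x ∘ emb k = Sum.elim y (fun _ => z k) := by
      funext i
      rcases i with i | i <;> rfl
    rwa [h2] at h1
  obtain ⟨v₁, v₀, hv0, hv1⟩ := nonconstant I he hdeg x hx
  have hy0 : y ≠ 0 := by
    intro h0
    apply hv0
    rcases eY_or_eZ v₀ with ⟨i, rfl⟩ | ⟨k, rfl⟩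
    · exact congrFun h0 i
    · refine eval_zero (F k) (hF k).1 (hF k).2.1 (z k) ?_
      rw [← h0]; exact hF0 k
  obtain ⟨i₀, hi0⟩ := Function.ne_iff.1 hy0
  have hi0' : y i₀ ≠ 0 := hi0
  choose a b α α' ρ ρ' hsig hrel hzz using fun k => (hF k).2.2 Ω y (z k) hy0 (hF0 k)
  set L : IntermediateField ℂ Ω :=
    adjoin ℂ (Set.range fun q : Fin (n + r + 1) × Fin (n + r + 1) => x q.1 / x q.2) with hL
  have hLx : ∀ v v', x v / x v' ∈ L := fun v v' => subset_adjoin _ _ ⟨(v, v'), rfl⟩
  -- nonconstant ratio of the y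
  have hnc : ∃ i i', y i' ≠ 0 ∧ y i / y i' ∉ (⊥ : IntermediateField ℂ Ω) := by
    by_contra hc
    push Not at hc
    have h1 : ∀ v, x v / y i₀ ∈ (⊥ : IntermediateField ℂ Ω) := by
      intro v
      rcases eY_or_eZ v with ⟨i, rfl⟩ | ⟨k, rfl⟩
      · exact hc i i₀ hi0'
      · have h2 : MvPolynomial.aeval (Sum.elim (fun i => y i / y i₀) (fun _ => z k / y i₀)) (F k) = 0 := by
          have h3 : (Sum.elim (fun i => y i / y i₀) (fun _ => z k / y i₀) : Fin (n + 1) ⊕ Unit → Ω) =
              (fun i => (y i₀)⁻¹ * Sum.elim y (fun _ => z k) i) := by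
            funext i
            rcases i with i | i
            · show y i / y i₀ = (y i₀)⁻¹ * y i
              rw [div_eq_inv_mul]
            · show z k / y i₀ = (y i₀)⁻¹ * z k
              rw [div_eq_inv_mul]
          rw [h3, hom_scale (F k) (hF k).1, hF0 k, mul_zero]
        have h4 := integral_z (F k) (hF k).1 (hF k).2.1 (fun i => y i / y i₀) (z k / y i₀) h2
          (⊥ : IntermediateField ℂ Ω).toSubalgebra (fun i => hc i i₀ hi0')
        have h5 : IsIntegral ℂ (z k / y i₀) := by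
          have : Algebra.IsIntegral ℂ (⊥ : IntermediateField ℂ Ω).toSubalgebra := by
            have : Algebra.IsIntegral ℂ (⊥ : IntermediateField ℂ Ω) := inferInstance
            exact this
          exact isIntegral_trans _ h4
        exact const_of_alg h5.isAlgebraic
    apply hv1
    have h2 : x v₁ / x v₀ = (x v₁ / y i₀) / (x v₀ / y i₀) := by field_simp
    rw [h2]
    exact div_mem (h1 _) (h1 _)
  obtain ⟨E, A, B, P, G, hAB, hAB0, hP0, hP⟩ := field_main hn hp s hs t ht y z a b α α' ρ ρ' hsig hrel hzz hr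
    (fun q : Fin (n + r + 1) × Fin (n + r + 1) => x q.1 / x q.2) L hL (fun i i' => hLx _ _) (fun k i => hLx _ _)
    (fun u hu => dependent I hhom hdeg x hx u hu) hnc
  obtain ⟨c, hc⟩ : ∃ c : Fin 2 → ℂ, MvPolynomial.eval c P ≠ 0 := by
    by_contra hcon
    push Not at hcon
    exact hP0 (MvPolynomial.funext fun c => by rw [hcon c, map_zero])
  obtain ⟨c1, c2, c3, c4⟩ := hP c hc
  -- linear forms
  set l : Fin 2 → MvPolynomial (Fin (n + r + 1)) ℂ := fun m =>
    ∑ i : Fin (n + 1), MvPolynomial.C (c m ^ (i : ℕ)) * MvPolynomial.X (eY i) with hl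
  have hlhom : ∀ m, (l m).IsHomogeneous 1 := by
    intro m
    apply MvPolynomial.IsHomogeneous.sum
    intro i _
    have := (MvPolynomial.isHomogeneous_C (Fin (n + r + 1)) (c m ^ (i : ℕ))).mul
      (MvPolynomial.isHomogeneous_X ℂ (eY i : Fin (n + r + 1)))
    rwa [zero_add] at this
  have hleval : ∀ m, MvPolynomial.aeval x (l m) = ∏ j, (B j * algebraMap ℂ Ω (c m) - A j) := by
    intro m
    rw [← sig_eval, map_sum]
    refine Finset.sum_congr rfl fun i _ => ?_
    rw [map_mul, MvPolynomial.aeval_X, MvPolynomial.aeval_C, ← hAB i, map_pow, mul_comm]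
  -- integrality
  have hinty : ∀ i, IsIntegral (Algebra.adjoin ℂ {MvPolynomial.aeval x (l 0), MvPolynomial.aeval x (l 1)}) (y i) := by
    intro i
    refine integral_of_val _ _ _ fun V hV h1 h2 => ?_
    rw [hAB i]
    refine val_main A B hAB0 c V hV (fun j j' hj hj' => c3 j j' V hV hj hj') (fun m => ?_) i
    rw [← hleval]
    fin_cases m
    · exact h1
    · exact h2
  have hint : ∀ v, IsIntegral (Algebra.adjoin ℂ {MvPolynomial.aeval x (l 0), MvPolynomial.aeval x (l 1)}) (x v) := by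
    intro v
    rcases eY_or_eZ v with ⟨i, rfl⟩ | ⟨k, rfl⟩
    · exact hinty i
    · set R := Algebra.adjoin ℂ {MvPolynomial.aeval x (l 0), MvPolynomial.aeval x (l 1)} with hR
      have h4 := integral_z (F k) (hF k).1 (hF k).2.1 y (z k) (hF0 k)
        ((integralClosure R Ω).restrictScalars ℂ) (fun i => hinty i)
      have h5 : IsIntegral (integralClosure R Ω) (z k) := h4
      have h6 : IsScalarTower R (integralClosure R Ω) Ω := IsScalarTower.of_algebraMap_eq (fun _ => rfl)
      exact isIntegral_trans (R := R) (A := integralClosure R Ω) _ h5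
  have hmain := degree_eq I hhom he hdeg x hx (l 0) (l 1) (hlhom 0) (hlhom 1) hint
  have hθ : MvPolynomial.aeval x (l 0) / MvPolynomial.aeval x (l 1) =
      ∏ j, (B j * algebraMap ℂ Ω (c 0) - A j) / (B j * algebraMap ℂ Ω (c 1) - A j) := by
    rw [hleval, hleval, Finset.prod_div_distrib]
  have hθL : MvPolynomial.aeval x (l 0) / MvPolynomial.aeval x (l 1) ∈ L := by
    have h1 : ∀ m, MvPolynomial.aeval x (l m) / y i₀ ∈ L := by
      intro m
      rw [hl]
      simp only [map_sum, map_mul, MvPolynomial.aeval_X, MvPolynomial.aeval_C]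
      rw [Finset.sum_div]
      refine sum_mem fun i _ => ?_
      rw [mul_div_assoc]
      exact mul_mem (IntermediateField.algebraMap_mem _ _) (hLx _ _)
    have h2 : MvPolynomial.aeval x (l 0) / MvPolynomial.aeval x (l 1) =
        (MvPolynomial.aeval x (l 0) / y i₀) / (MvPolynomial.aeval x (l 1) / y i₀) := by
      rw [div_div_div_cancel_right₀ hi0']
    rw [h2]
    exact div_mem (h1 0) (h1 1)
  rw [← hθ] at c4
  rw [← relfinrank_mul_relfinrank (adjoin_simple_le_iff.2 hθL) G.1, hmain] at c4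
  have h5 := (hp.pow_dvd_iff_le_factorization (mul_ne_zero he.ne' G.2.1)).1 c4
  rw [Nat.factorization_mul he.ne' G.2.1, Finsupp.add_apply] at h5
  rw [hp.pow_dvd_iff_le_factorization he.ne']
  have h6 := G.2.2
  unfold loss
  omega

end Pool.Agent.H861.CD
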