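import Mathlib

set_option autoImplicit false

namespace Pool.Agent.H861.CD

/-- the coefficient of `T ^ i` in `∏_j (b_j T - a_j)` -/
noncomputable def sig {n : ℕ} {Ω : Type*} [CommRing Ω] (a b : Fin n → Ω) (i : ℕ) : Ω :=
  (∏ j, (Polynomial.C (b j) * Polynomial.X - Polynomial.C (a j))).coeff i

/-- the relations between the auxiliary quantities -/
structure Rel {n : ℕ} {Ω : Type*} [Field Ω] [Algebra ℂ Ω] (δ : ℕ) (t : Fin n → ℂ)
    (a b α α' ρ ρ' : Fin n → Ω) : Prop where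
  h1 : ∀ j, α j + α' j = a j
  h2 : ∀ j, α j * α' j = b j ^ 2
  h3 : ∀ j, ρ j * ρ' j = b j ^ 2
  h4 : ∀ j, ρ j ^ δ + ρ' j ^ δ = α j ^ δ + α' j ^ δ + algebraMap ℂ Ω (t j) * b j ^ δ

/-- the form whose `(δ+1)`-th root is taken -/
noncomputable def WW {n : ℕ} {Ω : Type*} [Field Ω] (δ : ℕ) (a b ρ ρ' : Fin n → Ω) : Ω :=
  ∑ c ∈ Finset.Icc 1 n, ∏ j, (ρ j ^ c * a j ^ (δ + 1 - c) + ρ' j ^ (δ - c) * (a j - b j) ^ (c + 1))

end Pool.Agent.H861.CD
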