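import Pool.Agent.H861.CD.TowerC

set_option autoImplicit false

open Module Polynomial

namespace Pool.Agent.H861.CD

open IntermediateField

lemma const_of_alg {Ω : Type*} [Field Ω] [Algebra ℂ Ω] {x : Ω} (hx : IsAlgebraic ℂ x) :
    x ∈ (⊥ : IntermediateField ℂ Ω) := by
  have h1 : IsIntegral ℂ x := hx.isIntegral
  have h2 := IsAlgClosed.degree_eq_one_of_irreducible ℂ (minpoly.irreducible h1)
  have h3 := minpoly.mem_range_of_degree_eq_one ℂ x h2
  exact IntermediateField.mem_bot.2 h3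

lemma transc_of_nonconst {Ω : Type*} [Field Ω] [Algebra ℂ Ω] {x : Ω} (hx : x ∉ (⊥ : IntermediateField ℂ Ω)) :
    Transcendental ℂ x := fun h => hx (const_of_alg h)

lemma alg_of_dep {Ω : Type*} [Field Ω] [Algebra ℂ Ω] (θ q : Ω) (hθ : Transcendental ℂ θ)
    (h : ¬ AlgebraicIndependent ℂ ![θ, q]) : IsAlgebraic (adjoin ℂ {θ}) q := by
  rw [isAlgebraic_adjoin_iff]
  by_contra hc
  apply h
  rw [AlgebraicIndependent.iff_transcendental_adjoin_image (1 : Fin 2)]
  have h1 : ({(1 : Fin 2)}ᶜ : Set (Fin 2)) = {0} := by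
    ext i; fin_cases i <;> simp
  refine ⟨?_, ?_⟩
  · have : Unique {j : Fin 2 // j ≠ 1} :=
      { default := ⟨0, by decide⟩
        uniq := by
          rintro ⟨j, hj⟩
          apply Subtype.ext
          show j = 0
          omega }
    rw [algebraicIndependent_singleton_iff (⟨0, by decide⟩ : {j : Fin 2 // j ≠ 1})]
    exact hθ
  · rw [h1, Set.image_singleton]
    exact hc

lemma fd_transfer {E : Type*} [Field E] [Algebra ℂ E] (θ u : E) (hu : Transcendental ℂ u)
    (hfin : FiniteDimensional (adjoin ℂ {θ}) E) : FiniteDimensional (adjoin ℂ {u}) E := by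
  have halg : Algebra.IsAlgebraic (adjoin ℂ {θ}) E := inferInstance
  have hθ : Transcendental ℂ θ := by
    intro hθ
    have h1 : Algebra.IsAlgebraic ℂ (adjoin ℂ {θ}) := isAlgebraic_adjoin_simple hθ.isIntegral
    have h2 : Algebra.IsAlgebraic ℂ E := Algebra.IsAlgebraic.trans ℂ (adjoin ℂ {θ}) E
    exact hu (Algebra.IsAlgebraic.isAlgebraic u)
  have hθu : IsAlgebraic (adjoin ℂ {u}) θ :=
    isAlgebraic_adjoin_iff.mpr (.adjoin_singleton hθ hu
      (isAlgebraic_adjoin_iff.mp (Algebra.IsAlgebraic.isAlgebraic u)))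
  let Fyx := IntermediateField.restrictScalars ℂ (adjoin (adjoin ℂ {u}) {θ})
  let Fxy := IntermediateField.restrictScalars ℂ (adjoin (adjoin ℂ {θ}) {u})
  let : Algebra (adjoin ℂ {u}) Fyx := (adjoin (adjoin ℂ {u}) {θ}).algebra
  let : Module (adjoin ℂ {u}) Fyx := Algebra.toModule
  let : SMul (adjoin ℂ {u}) Fyx := Algebra.toSMul
  let : Algebra (adjoin ℂ {θ}) Fxy := (adjoin (adjoin ℂ {θ}) {u}).algebra
  let : Module (adjoin ℂ {θ}) Fxy := Algebra.toModule
  let : SMul (adjoin ℂ {θ}) Fxy := Algebra.toSMul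
  have : FiniteDimensional (adjoin ℂ {u}) Fyx :=
    adjoin.finiteDimensional (isAlgebraic_iff_isIntegral.mp hθu)
  have : FiniteDimensional Fyx E := by
    unfold Fyx
    rw [adjoin_simple_comm]
    have : IsScalarTower (adjoin ℂ {θ}) Fxy E := isScalarTower_mid' (S := adjoin (adjoin ℂ {θ}) {u})
    exact .right (adjoin ℂ {θ}) Fxy E
  have : IsScalarTower (adjoin ℂ {u}) Fyx E := isScalarTower_mid' (S := adjoin (adjoin ℂ {u}) {θ})
  exact .trans (adjoin ℂ {u}) Fyx E

lemma relfinrank_sub {Ω : Type*} [Field Ω] [Algebra ℂ Ω] (M : IntermediateField ℂ Ω) (x : M) :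
    relfinrank (adjoin ℂ {(x : Ω)}) M = finrank (adjoin ℂ {x}) M := by
  have h1 := finrank_comap (adjoin ℂ {(x : Ω)}) M.val
  rw [M.fieldRange_val] at h1
  rw [← h1]
  have h2 : (adjoin ℂ {(x : Ω)}).comap M.val = adjoin ℂ {x} := by
    have h3 : (adjoin ℂ {x}).map M.val = adjoin ℂ {(x : Ω)} := by
      rw [adjoin_map, Set.image_singleton]; rfl
    rw [← h3, comap_map]
  rw [h2]

lemma fd_of_relfinrank {Ω : Type*} [Field Ω] [Algebra ℂ Ω] (M : IntermediateField ℂ Ω) (x : M)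
    (h : relfinrank (adjoin ℂ {(x : Ω)}) M ≠ 0) : FiniteDimensional (adjoin ℂ {x}) M := by
  rw [relfinrank_sub] at h
  exact Module.finite_of_finrank_pos (Nat.pos_of_ne_zero h)

lemma relfinrank_ne_zero_of_alg {Ω : Type*} [Field Ω] [Algebra ℂ Ω] (F : IntermediateField ℂ Ω)
    {ι : Type*} [Finite ι] (f : ι → Ω) (h : ∀ i, IsAlgebraic F (f i)) :
    relfinrank F (F ⊔ adjoin ℂ (Set.range f)) ≠ 0 := by
  classical
  have := Fintype.ofFinite ι
  choose q hq1 hq2 using h
  exact (goodC_adjoin_range (n := ∑ i, (q i).natDegree) Nat.prime_two F f fun i => ⟨q i, hq1 i,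
    Finset.single_le_sum (f := fun i => (q i).natDegree) (fun i _ => Nat.zero_le _) (Finset.mem_univ i), hq2 i⟩).2.1

/-- finiteness over `ℂ(u)` -/
lemma fd_main {Ω : Type*} [Field Ω] [Algebra ℂ Ω] {ι : Type*} [Finite ι] (f : ι → Ω)
    (L E : IntermediateField ℂ Ω) (hL : L = adjoin ℂ (Set.range f)) (hLE : L ≤ E)
    (hdep : ∀ u : Fin 2 → Ω, (∀ i, u i ∈ L) → ¬ AlgebraicIndependent ℂ u)
    {θ : Ω} (hθ : θ ∈ L) (hθt : Transcendental ℂ θ) (hLE' : relfinrank L E ≠ 0)
    (u : E) (hu : Transcendental ℂ u) : FiniteDimensional (adjoin ℂ {u}) E := by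
  have h1 : relfinrank (adjoin ℂ {θ}) L ≠ 0 := by
    have h2 := relfinrank_ne_zero_of_alg (adjoin ℂ {θ}) f fun i => by
      apply alg_of_dep θ (f i) hθt
      apply hdep
      intro j
      fin_cases j
      · exact hθ
      · show f i ∈ L
        rw [hL]
        exact subset_adjoin _ _ ⟨i, rfl⟩
    have h3 : adjoin ℂ {θ} ⊔ adjoin ℂ (Set.range f) = L := by
      rw [← hL]
      exact sup_eq_right.2 (adjoin_simple_le_iff.2 hθ)
    rwa [h3] at h2
  have h4 : relfinrank (adjoin ℂ {θ}) E ≠ 0 := by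
    rw [← relfinrank_mul_relfinrank (adjoin_simple_le_iff.2 hθ) hLE]
    exact Nat.mul_ne_zero h1 hLE'
  have h5 := fd_of_relfinrank E ⟨θ, hLE hθ⟩ h4
  exact fd_transfer _ u hu h5

end Pool.Agent.H861.CD
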