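import Mathlib

/-!
Project CD (helper861), MP_8dbee4_ag, part T2: `dvd_finrank_of_residue` below (self-contained; only Mathlib).

If `q` divides the residue degree of every valuation ring `B` of `E` over the valuation ring `A` of `K` (residue characteristic 0) then `q ∣ [E : K]`.

Proof. `π` surjective onto a field: `ker π = m_A`, `L ≅ A/m_A`; `K` has characteristic 0 (if `n = 0` in `K` then `n = 0` in `L`). Let `M/K` be a finite Galois extension containing `E` (normal closure), `G = Gal(M/K)`,
`C = integralClosure A M` with the action of `G` (`C^G = A` as `A` is integrally closed), `Q` a maximal ideal of `C` over `m_A`, `D ≤ G` its stabiliser (decomposition group).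
By `Ideal.Quotient.stabilizerHom_surjective` / `IsFractionRing.stabilizerHom_surjective` the map `r : D → D' := Gal((C/Q)/(A/m_A))` is surjective. `(C/Q)/(A/m_A)` is normal (`Ideal.Quotient.normal`), separable (char 0), finite (every element has
degree `≤ |G|`, it is separable, so primitive element theorem; or some Mathlib instance).

`X := (E →ₐ[K] M)` has `[E : K]` elements (`AlgHom.card`-type lemmas) and `G` acts on it by composition. It suffices that `q ∣ |orbit|` for the orbits of `D` on `X` (`MulAction.card_eq_sum_card_group_div_card_stabilizer` or so).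
The orbit of `φ` has `[D : D_φ]` elements, `D_φ` the stabiliser. Let `𝔮 := φ⁻¹(Q) ∩ C_E`, `C_E = integralClosure A E`, a maximal ideal of `C_E` over `m_A`, and `k_φ := C_E/𝔮 ⊆ C/Q` (via `φ`) containing `A/m_A`.
If `d ∈ D_φ` then `d` fixes `φ(E)` pointwise so `r(d)` fixes `k_φ`. So `r(D_φ) ≤ Gal((C/Q)/k_φ)` and
`[D' : Gal((C/Q)/k_φ)] = [k_φ : A/m_A]` (Galois theory) divides `[D' : r(D_φ)] = [r(D) : r(D_φ)]` which divides `[D : D_φ]`. So it suffices to prove `q ∣ [k_φ : A/m_A]`, i.e.:

Claim: for every maximal ideal `𝔮` of `C_E` over `m_A`, `q ∣ [C_E/𝔮 : A/m_A]`. By Chevalley (`Ideal.image_subset_nonunits_valuationSubring`, or `LocalSubring.exists_le_valuationSubring`) there is a valuation subring `B` of `E` with `C_E ⊆ B`, `𝔮 ⊆ nonunits B`.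
Then `B ∩ K = A` (`⊇` clear; if `x ∈ K \ A` then `x⁻¹ ∈ m_A ⊆ 𝔮 ⊆ nonunits B`, so `x ∉ B`). The map `C_E/𝔮 → ResidueField B` is injective and surjective: let `b ∈ B` be a unit of `B`. It is algebraic over `K`:
`Σ_{i≤n} a_i b^i = 0`, with all `a_i ∈ A`, one of them a unit (divide by the coefficient of the largest value). Let `s` be the largest index with `a_s` a unit, `u := a_s + a_{s+1} b + … + a_n b^(n-s)`, `v := a_{s-1} + a_{s-2} b⁻¹ + … + a_0 b^(-(s-1))`, so `u b + v = 0`.
`u, v` lie in every valuation subring `V` of `E` containing `A`: if `b ∈ V` then `u ∈ V` and `v = - u b ∈ V`; if `b⁻¹ ∈ V` then `v ∈ V`, `u = - v b⁻¹ ∈ V`. So `u, v ∈ C_E` (Mathlib: `iInf_valuationSubring_superset`: the integral closure of a subring is the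
intersection of the valuation subrings containing it; if you use another form adapt). `u` is a unit of `B` since `a_s` is a unit and `a_i ∈ m_A` for `i > s`. So `b = -v/u`, whose residue is the image of `-v̄/ū ∈ C_E/𝔮`. So `[ResidueField B : L] = [C_E/𝔮 : A/m_A]`
and `hq` applies with the `i : L → ResidueField B` induced by `A → B`.
-/

set_option autoImplicit false

open Module
open scoped Pointwise

namespace Pool.Agent.H861.CD.T2aux

/-- an element of all valuation rings above `A` is integral over `A` -/
theorem isIntegral_of_forall {A E : Type*} [CommRing A] [Field E] [Algebra A E] {x : E}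
    (h : ∀ V : ValuationSubring E, (∀ a : A, algebraMap A E a ∈ V) → x ∈ V) : IsIntegral A x := by
  by_contra hx
  have : IsIntegrallyClosedIn (integralClosure A E).toSubring E :=
    inferInstanceAs (IsIntegrallyClosedIn (integralClosure A E) E)
  obtain ⟨V, hV1, hV2⟩ := Subring.exists_le_valuationSubring_of_isIntegrallyClosedIn
    (R := (integralClosure A E).toSubring) (x := x) hx
  exact hV2 (h V fun a => hV1 (isIntegral_algebraMap))

variable {K E : Type*} [Field K] [Field E] [Algebra K E] (A : ValuationSubring K)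
  (B : ValuationSubring E)

theorem val_lt_iff (hB : ∀ x : K, algebraMap K E x ∈ B ↔ x ∈ A) (x : K) :
    B.valuation (algebraMap K E x) < 1 ↔ A.valuation x < 1 := by
  rw [← ValuationSubring.mem_nonunits_iff, ← ValuationSubring.mem_nonunits_iff,
    ValuationSubring.mem_nonunits_iff_or, ValuationSubring.mem_nonunits_iff_or, ← map_inv₀, hB,
    map_eq_zero]

theorem val_eq_one (hB : ∀ x : K, algebraMap K E x ∈ B ↔ x ∈ A) {x : K}
    (hx : A.valuation x = 1) : B.valuation (algebraMap K E x) = 1 := by
  refine le_antisymm ?_ ?_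
  · rw [ValuationSubring.valuation_le_one_iff, hB, ← ValuationSubring.valuation_le_one_iff]
    exact hx.le
  · rw [← not_lt, val_lt_iff A B hB, hx]
    exact lt_irrefl _

/-- an equation of `b` over `A` with a unit among its coefficients -/
theorem exists_coeffs [Algebra.IsAlgebraic K E] (b : E) :
    ∃ (n : ℕ) (a : ℕ → K), (∀ i, a i ∈ A) ∧ (∃ i ≤ n, A.valuation (a i) = 1) ∧
      ∑ i ∈ Finset.range (n + 1), algebraMap K E (a i) * b ^ i = 0 := by
  obtain ⟨p, hp0, hp⟩ := Algebra.IsAlgebraic.isAlgebraic (R := K) b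
  have hne : p.support.Nonempty := Polynomial.nonempty_support_iff.2 hp0
  obtain ⟨i0, hi0, hmax⟩ := p.support.exists_max_image (fun i => A.valuation (p.coeff i)) hne
  have hc : p.coeff i0 ≠ 0 := Polynomial.mem_support_iff.1 hi0
  refine ⟨p.natDegree, fun i => p.coeff i / p.coeff i0, fun i => ?_, ⟨i0, ?_, ?_⟩, ?_⟩
  · rw [← ValuationSubring.valuation_le_one_iff, map_div₀]
    by_cases hi : i ∈ p.support
    · exact div_le_one_of_le₀ (hmax i hi) zero_le
    · rw [Polynomial.notMem_support_iff.1 hi, map_zero, zero_div]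
      exact zero_le
  · exact Polynomial.le_natDegree_of_mem_supp _ hi0
  · change A.valuation (p.coeff i0 / p.coeff i0) = 1
    rw [div_self hc, map_one]
  · rw [Polynomial.aeval_eq_sum_range] at hp
    have h1 : ∑ i ∈ Finset.range (p.natDegree + 1),
        algebraMap K E (p.coeff i / p.coeff i0) * b ^ i =
        (∑ i ∈ Finset.range (p.natDegree + 1), p.coeff i • b ^ i) *
          (algebraMap K E (p.coeff i0))⁻¹ := by
      rw [Finset.sum_mul]
      refine Finset.sum_congr rfl fun i _ => ?_
      rw [Algebra.smul_def, map_div₀, div_eq_mul_inv]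
      ring
    rw [h1, hp, zero_mul]

/-- every unit `b` of `B` is a quotient `w / u` of integral elements, `u` a unit of `B` -/
theorem exists_quotient [Algebra.IsAlgebraic K E] (hB : ∀ x : K, algebraMap K E x ∈ B ↔ x ∈ A)
    {b : E} (hb : B.valuation b = 1) :
    ∃ u : E, IsIntegral A u ∧ IsIntegral A (u * b) ∧ B.valuation u = 1 := by
  classical
  obtain ⟨n, a, ha, ⟨i0, hi0, hi1⟩, hsum⟩ := exists_coeffs (E := E) A b
  have hb0 : b ≠ 0 := by
    rintro rfl
    rw [map_zero] at hb
    exact zero_ne_one hb
  set s := Nat.findGreatest (fun i => A.valuation (a i) = 1) n with hs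
  have hs1 : A.valuation (a s) = 1 := Nat.findGreatest_spec (P := fun i => A.valuation (a i) = 1) hi0 hi1
  have hsn : s ≤ n := Nat.findGreatest_le n
  have hs2 : ∀ i, s < i → i ≤ n → A.valuation (a i) < 1 := by
    intro i hi hin
    refine lt_of_le_of_ne ((ValuationSubring.valuation_le_one_iff _ _).2 (ha i)) ?_
    exact Nat.findGreatest_is_greatest hi hin
  set u : E := ∑ j ∈ Finset.range (n + 1 - s), algebraMap K E (a (s + j)) * b ^ j with hu
  -- the low part
  have hsplit : b ^ s * u = - ∑ i ∈ Finset.range s, algebraMap K E (a i) * b ^ i := by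
    have h1 : n + 1 = s + (n + 1 - s) := by omega
    rw [h1, Finset.sum_range_add] at hsum
    have h2 : ∑ x ∈ Finset.range (n + 1 - s), algebraMap K E (a (s + x)) * b ^ (s + x) =
        b ^ s * u := by
      rw [hu, Finset.mul_sum]
      refine Finset.sum_congr rfl fun j _ => ?_
      rw [pow_add]
      ring
    rw [h2] at hsum
    exact (neg_eq_of_add_eq_zero_right hsum).symm
  have hu1 : u = - ∑ i ∈ Finset.range s, algebraMap K E (a i) * (b⁻¹) ^ (s - i) := by
    have h1 : b ^ s ≠ 0 := pow_ne_zero _ hb0
    apply mul_left_cancel₀ h1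
    rw [hsplit, mul_neg, Finset.mul_sum]
    congr 1
    refine Finset.sum_congr rfl fun i hi => ?_
    have h2 : s = i + (s - i) := by have := Finset.mem_range.1 hi; omega
    rw [inv_pow]
    nth_rewrite 1 [h2]
    rw [pow_add]
    field_simp
  have hu2 : u * b = - ∑ i ∈ Finset.range s, algebraMap K E (a i) * (b⁻¹) ^ (s - i - 1) := by
    rw [hu1, neg_mul, Finset.sum_mul]
    congr 1
    refine Finset.sum_congr rfl fun i hi => ?_
    have h2 : s - i = (s - i - 1) + 1 := by have := Finset.mem_range.1 hi; omega
    nth_rewrite 1 [h2]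
    rw [pow_succ, mul_assoc, mul_assoc, inv_mul_cancel₀ hb0, mul_one]
  have haV : ∀ V : ValuationSubring E, (∀ a : A, algebraMap A E a ∈ V) → ∀ i,
      algebraMap K E (a i) ∈ V := fun V hV i => hV ⟨a i, ha i⟩
  refine ⟨u, isIntegral_of_forall fun V hV => ?_, isIntegral_of_forall fun V hV => ?_, ?_⟩
  · rcases V.mem_or_inv_mem b with h | h
    · exact sum_mem fun j _ => mul_mem (haV V hV _) (pow_mem h _)
    · rw [hu1]
      exact neg_mem (sum_mem fun j _ => mul_mem (haV V hV _) (pow_mem h _))
  · rcases V.mem_or_inv_mem b with h | h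
    · exact mul_mem (sum_mem fun j _ => mul_mem (haV V hV _) (pow_mem h _)) h
    · rw [hu2]
      exact neg_mem (sum_mem fun j _ => mul_mem (haV V hV _) (pow_mem h _))
  · -- `u` is congruent to `a s`
    have h1 : n + 1 - s = (n - s) + 1 := by omega
    have h2 : u = (∑ j ∈ Finset.range (n - s), algebraMap K E (a (s + (j + 1))) * b ^ (j + 1)) +
        algebraMap K E (a s) := by
      rw [hu, h1, Finset.sum_range_succ']
      simp
    have h3 : B.valuation (∑ j ∈ Finset.range (n - s),
        algebraMap K E (a (s + (j + 1))) * b ^ (j + 1)) < 1 := by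
      refine Valuation.map_sum_lt _ one_ne_zero fun j hj => ?_
      rw [map_mul, map_pow, hb, one_pow, mul_one, val_lt_iff A B hB]
      have := Finset.mem_range.1 hj
      exact hs2 _ (by omega) (by omega)
    have h4 := val_eq_one A B hB hs1
    rw [h2, add_comm, Valuation.map_add_eq_of_lt_left]
    · exact h4
    · rw [h4]; exact h3

theorem mem_of_isIntegral (hB : ∀ x : K, algebraMap K E x ∈ B ↔ x ∈ A) {c : E}
    (hc : IsIntegral A c) : c ∈ B := by
  have h1 : IsIntegral B c := by
    obtain ⟨p, hp, hpc⟩ := hc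
    have hAB : ∀ a : A, algebraMap K E a ∈ B := fun a => (hB a).2 a.2
    let f : A →+* B := ((algebraMap K E).comp A.subtype).codRestrict B.toSubring hAB
    refine ⟨p.map f, hp.map f, ?_⟩
    rw [Polynomial.eval₂_map]
    exact hpc
  obtain ⟨y, hy⟩ := IsIntegrallyClosed.algebraMap_eq_of_integral (R := B) (K := E) h1
  rw [← hy]
  exact y.2

/-- every element of `B` is congruent to an integral one -/
theorem exists_integral [Algebra.IsAlgebraic K E] (hB : ∀ x : K, algebraMap K E x ∈ B ↔ x ∈ A)
    {b : E} (hb : b ∈ B) : ∃ c : E, IsIntegral A c ∧ B.valuation (b - c) < 1 := by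
  rcases lt_or_eq_of_le ((ValuationSubring.valuation_le_one_iff B b).2 hb) with h | h
  · exact ⟨0, isIntegral_zero, by rwa [sub_zero]⟩
  obtain ⟨u, hu, hw, hu1⟩ := exists_quotient A B hB h
  have hCB := fun c hc => mem_of_isIntegral A B hB (c := c) hc
  let C := integralClosure A E
  let ι : C →+* B := (C.subtype : C →+* E).codRestrict B.toSubring fun c => hCB c c.2
  let Q : Ideal C := (IsLocalRing.maximalIdeal B).comap ι
  have hQ : ∀ c : C, c ∈ Q ↔ B.valuation (c : E) < 1 := by
    intro c
    rw [Ideal.mem_comap, ValuationSubring.valuation_lt_one_iff]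
    rfl
  have hQmax : Q.IsMaximal := by
    have : Q.IsPrime := Ideal.IsPrime.comap ι
    have : Algebra.IsIntegral A C := inferInstance
    apply Ideal.isMaximal_of_isIntegral_of_isMaximal_comap (R := A) Q
    have h2 : Ideal.comap (algebraMap A C) Q = IsLocalRing.maximalIdeal A := by
      ext x
      rw [Ideal.mem_comap, hQ, ValuationSubring.valuation_lt_one_iff]
      exact val_lt_iff A B hB x
    rw [h2]
    exact IsLocalRing.maximalIdeal.isMaximal A
  obtain ⟨y, i, hi, hy⟩ := hQmax.exists_inv (x := (⟨u, hu⟩ : C)) (by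
    rw [hQ]
    change ¬ B.valuation u < 1
    rw [hu1]
    exact lt_irrefl _)
  refine ⟨u * b * (y : E), hw.mul y.2, ?_⟩
  have h3 : (y : E) * u + (i : E) = 1 := congrArg Subtype.val hy
  have h4 : b - u * b * (y : E) = b * (i : E) := by
    linear_combination (-b) * h3
  rw [h4, map_mul, h, one_mul]
  exact (hQ i).1 hi

/-- extension of valuation rings -/
theorem exists_extension {M : Type*} [Field M] [Algebra K M] :
    ∃ W : ValuationSubring M, ∀ x : K, algebraMap K M x ∈ W ↔ x ∈ A := by
  obtain ⟨W, hW⟩ := (LocalSubring.map (algebraMap K M) A.toLocalSubring).exists_le_valuationSubring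
  obtain ⟨h1, h2⟩ := hW
  refine ⟨W, fun x => ⟨fun hx => ?_, fun hx => h1 ⟨x, hx, rfl⟩⟩⟩
  by_contra hxA
  have hx' : x⁻¹ ∈ A := (A.mem_or_inv_mem x).resolve_left hxA
  have hx0 : x ≠ 0 := by
    rintro rfl
    exact hxA A.zero_mem
  let y : (LocalSubring.map (algebraMap K M) A.toLocalSubring).toSubring :=
    ⟨algebraMap K M x⁻¹, ⟨x⁻¹, hx', rfl⟩⟩
  have hy : IsUnit (Subring.inclusion h1 y) := by
    refine isUnit_iff_exists_inv.2 ⟨⟨algebraMap K M x, hx⟩, Subtype.ext ?_⟩
    change algebraMap K M x⁻¹ * algebraMap K M x = 1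
    rw [← map_mul, inv_mul_cancel₀ hx0, map_one]
  obtain ⟨z, hz⟩ := isUnit_iff_exists_inv.1 (h2.map_nonunit y hy)
  have hz' : algebraMap K M x⁻¹ * (z : M) = 1 := congrArg Subtype.val hz
  obtain ⟨w, hw, hwz⟩ := z.2
  rw [← hwz, ← map_mul, ← map_one (algebraMap K M)] at hz'
  have h3 := (algebraMap K M).injective hz'
  have h4 : w = x := by
    field_simp at h3
    exact h3
  exact hxA (h4 ▸ hw)

/-- the residue map on the integral elements -/
noncomputable def toRes (hB : ∀ x : K, algebraMap K E x ∈ B ↔ x ∈ A) :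
    integralClosure A E →+* IsLocalRing.ResidueField B :=
  (IsLocalRing.residue B).comp (((integralClosure A E).subtype : integralClosure A E →+* E).codRestrict
    B.toSubring fun c => mem_of_isIntegral A B hB c.2)

theorem toRes_apply (hB : ∀ x : K, algebraMap K E x ∈ B ↔ x ∈ A) (c : integralClosure A E) :
    toRes A B hB c = IsLocalRing.residue B ⟨c, mem_of_isIntegral A B hB c.2⟩ := rfl

theorem toRes_eq_zero (hB : ∀ x : K, algebraMap K E x ∈ B ↔ x ∈ A) (c : integralClosure A E) :
    toRes A B hB c = 0 ↔ B.valuation (c : E) < 1 := by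
  rw [toRes_apply, IsLocalRing.residue_eq_zero_iff, ValuationSubring.valuation_lt_one_iff]

theorem toRes_surjective [Algebra.IsAlgebraic K E] (hB : ∀ x : K, algebraMap K E x ∈ B ↔ x ∈ A) :
    Function.Surjective (toRes A B hB) := by
  intro y
  obtain ⟨⟨b, hb⟩, rfl⟩ := IsLocalRing.residue_surjective y
  obtain ⟨c, hc, hbc⟩ := exists_integral A B hB hb
  refine ⟨⟨c, hc⟩, ?_⟩
  have h1 : IsLocalRing.residue B (⟨b, hb⟩ - ⟨c, mem_of_isIntegral A B hB hc⟩) = 0 := by
    rw [IsLocalRing.residue_eq_zero_iff, ValuationSubring.valuation_lt_one_iff]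
    exact hbc
  rw [map_sub, sub_eq_zero] at h1
  rw [toRes_apply, h1]

theorem comap_val_lt {M : Type*} [Field M] (W : ValuationSubring M) (φ : E →+* M) (x : E) :
    (W.comap φ).valuation x < 1 ↔ W.valuation (φ x) < 1 := by
  rw [← ValuationSubring.mem_nonunits_iff, ← ValuationSubring.mem_nonunits_iff,
    ValuationSubring.mem_nonunits_iff_or, ValuationSubring.mem_nonunits_iff_or,
    ValuationSubring.mem_comap, map_inv₀, map_eq_zero]

/-- a divisor of all orbit lengths divides the cardinality -/
theorem dvd_card_of_index {D X : Type*} [Group D] [MulAction D X] [Finite X] {q : ℕ}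
    (h : ∀ x : X, q ∣ (MulAction.stabilizer D x).index) : q ∣ Nat.card X := by
  classical
  have := Fintype.ofFinite (MulAction.orbitRel.Quotient D X)
  rw [Nat.card_congr (MulAction.selfEquivSigmaOrbits D X), Nat.card_sigma]
  refine Finset.dvd_sum fun ω _ => ?_
  rw [Nat.card_coe_set_eq, ← MulAction.index_stabilizer]
  exact h _

/-- the degree of a subfield fixed by a subgroup of the Galois group divides its index -/
theorem finrank_dvd_index {k l κ : Type*} [Field k] [Field l] [Field κ] [Algebra k l]
    [IsGalois k l] [Algebra k κ] (F : κ →ₐ[k] l) (H : Subgroup (l ≃ₐ[k] l))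
    (hH : ∀ g ∈ H, ∀ y, g (F y) = F y) : finrank k κ ∣ H.index := by
  have h1 : finrank k κ = finrank k F.fieldRange :=
    LinearEquiv.finrank_eq (AlgEquiv.ofInjectiveField F).toLinearEquiv
  rw [h1, IntermediateField.finrank_eq_fixingSubgroup_index]
  refine Subgroup.index_dvd_of_le fun g hg => ?_
  rw [IntermediateField.mem_fixingSubgroup_iff]
  rintro _ ⟨y, rfl⟩
  exact hH g hg y

section main

variable {L : Type*} [Field L]

/-- the main step, inside a fixed Galois extension containing `E` -/
theorem main_galois {M : Type*} [Field M] [Algebra K M] [FiniteDimensional K E]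
    [FiniteDimensional K M] [IsGalois K M] [CharZero L] [CharZero K]
    (hspl : ∀ x : E, (Polynomial.map (algebraMap K M) (minpoly K x)).Splits)
    (π : A →+* L) (hπ : Function.Surjective π) (q : ℕ)
    (hq : ∀ (B : ValuationSubring E) (hB : ∀ x : K, algebraMap K E x ∈ B ↔ x ∈ A)
      (i : L →+* IsLocalRing.ResidueField B),
      (∀ a : A, i (π a) = IsLocalRing.residue B ⟨algebraMap K E (a : K), (hB a).2 a.2⟩) →
      q ∣ @Module.finrank L (IsLocalRing.ResidueField B) _ _ i.toAlgebra.toModule) :
    q ∣ finrank K E := by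
  classical
  obtain ⟨W, hW⟩ := exists_extension A (M := M)
  let C := integralClosure A M
  let P : Ideal A := IsLocalRing.maximalIdeal A
  let Q : Ideal C := RingHom.ker (toRes A W hW)
  have hQ : ∀ c : C, c ∈ Q ↔ W.valuation (c : M) < 1 := fun c => by
    rw [RingHom.mem_ker, toRes_eq_zero]
  have hPmax : P.IsMaximal := IsLocalRing.maximalIdeal.isMaximal A
  have hQmax : Q.IsMaximal := RingHom.ker_isMaximal_of_surjective _ (toRes_surjective A W hW)
  have hPQ : P = Ideal.under A Q := by
    ext x
    rw [Ideal.mem_comap, hQ, ValuationSubring.valuation_lt_one_iff]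
    exact (val_lt_iff A W hW x).symm
  have hlies : Q.LiesOver P := ⟨hPQ⟩
  let _ := Ideal.Quotient.field P
  let _ := Ideal.Quotient.field Q
  -- the kernel of `π`
  have hker : RingHom.ker π = P := by
    have := RingHom.ker_isMaximal_of_surjective π hπ
    exact IsLocalRing.eq_maximalIdeal this
  let e : (A ⧸ P) ≃+* L :=
    (Ideal.quotEquivOfEq hker.symm).trans (RingHom.quotientKerEquivOfSurjective hπ)
  have he : ∀ a : A, e (Ideal.Quotient.mk P a) = π a := fun a => rfl
  have hchar : CharZero (A ⧸ P) := (e : (A ⧸ P) →+* L).charZero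
  -- the Galois group
  have hfrac : IsFractionRing C M := integralClosure.isFractionRing_of_finite_extension K M
  let G := M ≃ₐ[K] M
  let _ : MulSemiringAction G C := IsIntegralClosure.MulSemiringAction A K M C
  have hGC : ∀ (g : G) (c : C), ((g • c : C) : M) = g (c : M) := fun g c =>
    algebraMap_galRestrict_apply A g c
  have hinv : Algebra.IsInvariant A C G := Algebra.isInvariant_of_isGalois A K M C
  have hcomm : SMulCommClass G A C := ⟨fun g a c => by
    apply Subtype.ext
    rw [hGC]
    change g ((a : K) • (c : M)) = (a : K) • ((g • c : C) : M)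
    rw [hGC, map_smul]⟩
  have hnorm : Normal (A ⧸ P) (C ⧸ Q) := Ideal.Quotient.normal G P Q
  have hgal : IsGalois (A ⧸ P) (C ⧸ Q) := ⟨⟩
  have hsurj := Ideal.Quotient.stabilizerHom_surjective G P Q
  -- the action on the embeddings
  let _ : MulAction G (E →ₐ[K] M) :=
    { smul := fun g φ => (g : M →ₐ[K] M).comp φ
      one_smul := fun φ => rfl
      mul_smul := fun g h φ => rfl }
  have hcard : finrank K E = Nat.card (E →ₐ[K] M) := by
    rw [Nat.card_eq_fintype_card, AlgHom.card_of_splits K E M hspl]
  rw [hcard]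
  refine dvd_card_of_index (D := MulAction.stabilizer G Q) fun φ => ?_
  refine Dvd.dvd.trans ?_ (Subgroup.index_map_dvd _ hsurj)
  -- the valuation ring of `φ`
  let B : ValuationSubring E := W.comap (φ : E →+* M)
  have hB : ∀ x : K, algebraMap K E x ∈ B ↔ x ∈ A := fun x => by
    rw [ValuationSubring.mem_comap, ← hW x]
    simp
  let ψ : integralClosure A E →+* (C ⧸ Q) :=
    (Ideal.Quotient.mk Q).comp ((φ.restrictScalars A).mapIntegralClosure : integralClosure A E →+* C)
  have hkerle : RingHom.ker (toRes A B hB) ≤ RingHom.ker ψ := by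
    intro c hc
    rw [RingHom.mem_ker, toRes_eq_zero, comap_val_lt] at hc
    rw [RingHom.mem_ker]
    exact Ideal.Quotient.eq_zero_iff_mem.2 ((hQ _).2 hc)
  let f : IsLocalRing.ResidueField B →+* (C ⧸ Q) :=
    (toRes A B hB).liftOfSurjective (toRes_surjective A B hB) ⟨ψ, hkerle⟩
  have hf : ∀ c, f (toRes A B hB c) = ψ c := fun c =>
    RingHom.liftOfRightInverse_comp_apply _ _ _ ⟨ψ, hkerle⟩ c
  let i' : (A ⧸ P) →+* IsLocalRing.ResidueField B :=
    Ideal.Quotient.lift P ((toRes A B hB).comp (algebraMap A (integralClosure A E))) (by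
      intro a ha
      rw [RingHom.comp_apply, toRes_eq_zero]
      exact (val_lt_iff A B hB a).2 ((ValuationSubring.valuation_lt_one_iff _ _).1 ha))
  have hi' : ∀ a, i' (Ideal.Quotient.mk P a) = toRes A B hB (algebraMap A _ a) := fun a => rfl
  let _ : Algebra (A ⧸ P) (IsLocalRing.ResidueField B) := i'.toAlgebra
  let F : IsLocalRing.ResidueField B →ₐ[A ⧸ P] (C ⧸ Q) :=
    { f with
      commutes' := fun x => by
        obtain ⟨a, rfl⟩ := Ideal.Quotient.mk_surjective x
        change f (i' (Ideal.Quotient.mk P a)) = _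
        rw [hi', hf]
        change Ideal.Quotient.mk Q ((φ.restrictScalars A).mapIntegralClosure (algebraMap A _ a)) = _
        rw [AlgHom.commutes, Ideal.Quotient.algebraMap_mk_of_liesOver] }
  -- the degree of the residue field
  have hdeg : q ∣ finrank (A ⧸ P) (IsLocalRing.ResidueField B) := by
    let i : L →+* IsLocalRing.ResidueField B := i'.comp (e.symm : L →+* (A ⧸ P))
    have h2 := hq B hB i (by
      intro a
      change i' (e.symm (π a)) = _
      rw [← he a, e.symm_apply_apply, hi']
      rfl)
    let _ : Algebra L (IsLocalRing.ResidueField B) := i.toAlgebra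
    have h3 : finrank (A ⧸ P) (IsLocalRing.ResidueField B) =
        finrank L (IsLocalRing.ResidueField B) := by
      refine Algebra.finrank_eq_of_equiv_equiv e (RingEquiv.refl _) ?_
      ext x
      change i' (e.symm (e x)) = i' x
      rw [e.symm_apply_apply]
    rw [h3]
    exact h2
  refine hdeg.trans (finrank_dvd_index F _ ?_)
  rintro _ ⟨g, hg, rfl⟩ y
  obtain ⟨c, rfl⟩ := toRes_surjective A B hB y
  have hgφ : ∀ x : E, (g : G) (φ x) = φ x :=
    fun x => DFunLike.congr_fun (MulAction.mem_stabilizer_iff.1 hg) x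
  have h1 : F (toRes A B hB c) = ψ c := hf c
  rw [h1]
  change Ideal.Quotient.stabilizerHom Q P G g (Ideal.Quotient.mk Q _) = _
  rw [Ideal.Quotient.stabilizerHom_apply]
  change Ideal.Quotient.mk Q _ = Ideal.Quotient.mk Q _
  congr 1
  apply Subtype.ext
  change ((((g : G) • ((φ.restrictScalars A).mapIntegralClosure c : C)) : C) : M) = _
  rw [hGC]
  exact hgφ c

end main

end Pool.Agent.H861.CD.T2aux

open Module

namespace Pool.Agent.H861.CD

theorem dvd_finrank_of_residue {K E L : Type*} [Field K] [Field E] [Algebra K E] [FiniteDimensional K E]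
    [Field L] [CharZero L] (A : ValuationSubring K) (π : A →+* L) (hπ : Function.Surjective π) (q : ℕ)
    (hq : ∀ (B : ValuationSubring E) (hB : ∀ x : K, algebraMap K E x ∈ B ↔ x ∈ A)
      (i : L →+* IsLocalRing.ResidueField B),
      (∀ a : A, i (π a) = IsLocalRing.residue B ⟨algebraMap K E (a : K), (hB a).2 a.2⟩) →
      q ∣ @Module.finrank L (IsLocalRing.ResidueField B) _ _ i.toAlgebra.toModule) :
    q ∣ finrank K E := by
  have hA : CharZero A := π.charZero
  have hK : CharZero K := by
    refine charZero_of_inj_zero fun p h0 => ?_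
    have h1 : ((p : A) : K) = 0 := by rw [← h0]; rfl
    have h2 : (p : A) = 0 := Subtype.ext h1
    exact Nat.cast_eq_zero.1 h2
  let M := IntermediateField.normalClosure K E (AlgebraicClosure E)
  have hfin : FiniteDimensional K M := inferInstance
  have hnor : Normal K M := inferInstance
  have hgal : IsGalois K M := ⟨⟩
  have hspl : ∀ x : E, (Polynomial.map (algebraMap K M) (minpoly K x)).Splits :=
    fun x => IsNormalClosure.splits (L := M) x
  exact T2aux.main_galois A (M := M) hspl π hπ q hq

end Pool.Agent.H861.CD
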