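import Mathlib

/-!
Project CD (helper861), MP_8dbee4_ag, part T3+T4: `exists_gauss` and `exists_place` (self-contained; only Mathlib).

**exists_gauss** (Gauss extension). Let `m` be the maximal ideal of `O`, `κ = O/m`. `A := {f/g : f, g ∈ O[X], g ∉ m[X]}` (all coefficients in `O`, some coefficient of `g` is a unit). `m[X]` is the kernel of the map `O[X] → κ[X]`, a prime ideal. `A` is the localisation,
a subring of `RatFunc k`; it is a valuation ring: an element `f/g`, `f, g ∈ k[X]`, can be written with `f, g ∈ O[X]` and a unit among the coefficients of `f` and `g` (divide by the coefficient of the largest value); if `g ∉ m[X]` then `f/g ∈ A`, otherwise `f ∉ m[X]` and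
`g/f ∈ A`. `π (f/g) := f̄/ḡ ∈ RatFunc κ`, well defined and surjective (`κ[X]` is the image of `O[X]`).

**exists_place**. `P` is the kernel of the substitution `X_i ↦ 0` (`i ∈ Z`), `X_i ↦ X_i` (`i ∉ Z`) on `ℚ[X_i : i ∈ ι]`; its localisation embeds in `ℂ` by `X_i ↦ t_i` and is dominated by a valuation subring `O` of `ℂ`. The composite `ℚ[X] → O → κ(O)` has kernel `P`. The residue field is
algebraically closed: a monic polynomial over it lifts to a monic polynomial over `O`, which has a root in `ℂ`, integral over `O`, hence in `O`.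
-/

set_option autoImplicit false

open Module

namespace Pool.Agent.H861.CD

namespace T3aux

open Polynomial IsLocalRing

variable {k : Type*} [Field k] (O : ValuationSubring k)

/-- `f, g ∈ O[X]` represent `z ∈ k(X)`, with `g` not zero modulo the maximal ideal. -/
def Rep (z : RatFunc k) (f g : O[X]) : Prop :=
  g.map (residue O) ≠ 0 ∧
    z * algebraMap k[X] (RatFunc k) (g.map O.subtype) =
      algebraMap k[X] (RatFunc k) (f.map O.subtype)

lemma map_subtype_inj : Function.Injective (fun f : O[X] => f.map O.subtype) :=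
  Polynomial.map_injective _ Subtype.val_injective

lemma algMap_inj : Function.Injective (algebraMap k[X] (RatFunc k)) :=
  IsFractionRing.injective _ _

lemma rep_ne {g : O[X]} (hg : g.map (residue O) ≠ 0) :
    algebraMap k[X] (RatFunc k) (g.map O.subtype) ≠ 0 := by
  intro h
  have h1 : g.map O.subtype = 0 := algMap_inj (by rw [h, map_zero])
  have h2 : g = 0 := map_subtype_inj O (by simpa using h1)
  exact hg (by rw [h2, Polynomial.map_zero])

lemma rep_unique {z : RatFunc k} {f g f' g' : O[X]} (h : Rep O z f g) (h' : Rep O z f' g') :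
    f * g' = f' * g := by
  apply map_subtype_inj O
  show (f * g').map O.subtype = (f' * g).map O.subtype
  rw [Polynomial.map_mul, Polynomial.map_mul]
  apply algMap_inj
  rw [map_mul, map_mul, ← h.2, ← h'.2]
  ring

/-- the value of `π` on a representative -/
noncomputable def val (f g : O[X]) : RatFunc (ResidueField O) :=
  algebraMap _ _ (f.map (residue O)) / algebraMap _ _ (g.map (residue O))

lemma algMap_ne {g : O[X]} (hg : g.map (residue O) ≠ 0) :
    algebraMap (ResidueField O)[X] (RatFunc (ResidueField O)) (g.map (residue O)) ≠ 0 := by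
  intro h
  exact hg (algMap_inj (by rw [h, map_zero]))

lemma val_unique {z : RatFunc k} {f g f' g' : O[X]} (h : Rep O z f g) (h' : Rep O z f' g') :
    val O f g = val O f' g' := by
  unfold val
  rw [div_eq_div_iff (algMap_ne O h.1) (algMap_ne O h'.1)]
  have := rep_unique O h h'
  rw [← map_mul, ← map_mul, ← Polynomial.map_mul, ← Polynomial.map_mul, this]

lemma rep_zero : Rep O 0 0 1 := by
  refine ⟨by simp, by simp⟩

lemma rep_one : Rep O 1 1 1 := by
  refine ⟨by simp, by simp⟩

lemma rep_mul {z z' : RatFunc k} {f g f' g' : O[X]} (h : Rep O z f g) (h' : Rep O z' f' g') :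
    Rep O (z * z') (f * f') (g * g') := by
  refine ⟨?_, ?_⟩
  · rw [Polynomial.map_mul]
    exact mul_ne_zero h.1 h'.1
  · rw [Polynomial.map_mul, Polynomial.map_mul, map_mul, map_mul, ← h.2, ← h'.2]
    ring

lemma rep_add {z z' : RatFunc k} {f g f' g' : O[X]} (h : Rep O z f g) (h' : Rep O z' f' g') :
    Rep O (z + z') (f * g' + f' * g) (g * g') := by
  refine ⟨?_, ?_⟩
  · rw [Polynomial.map_mul]
    exact mul_ne_zero h.1 h'.1
  · rw [Polynomial.map_mul, Polynomial.map_add, Polynomial.map_mul, Polynomial.map_mul, map_mul,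
      map_add, map_mul, map_mul, ← h.2, ← h'.2]
    ring

lemma rep_neg {z : RatFunc k} {f g : O[X]} (h : Rep O z f g) :
    Rep O (-z) (-f) g := by
  refine ⟨h.1, ?_⟩
  rw [Polynomial.map_neg, map_neg, ← h.2]
  ring

lemma val_mul (f g f' g' : O[X]) :
    val O (f * f') (g * g') = val O f g * val O f' g' := by
  unfold val
  rw [Polynomial.map_mul, Polynomial.map_mul, map_mul, map_mul, mul_div_mul_comm]

lemma val_add {g g' : O[X]} (f f' : O[X]) (h : g.map (residue O) ≠ 0)
    (h' : g'.map (residue O) ≠ 0) :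
    val O (f * g' + f' * g) (g * g') = val O f g + val O f' g' := by
  unfold val
  rw [div_add_div _ _ (algMap_ne O h) (algMap_ne O h')]
  simp only [Polynomial.map_mul, Polynomial.map_add, map_mul, map_add]
  ring

/-- Every polynomial pair can be scaled into `O[X]` with one of them non-zero modulo `m`. -/
lemma exists_scale (p q : k[X]) (hq : q ≠ 0) :
    ∃ (f g : O[X]) (c : k), c ≠ 0 ∧ f.map O.subtype = C c * p ∧ g.map O.subtype = C c * q ∧
      (f.map (residue O) ≠ 0 ∨ g.map (residue O) ≠ 0) := by
  classical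
  -- the finite set of coefficients
  set S : Finset k := (p.support.image p.coeff) ∪ (q.support.image q.coeff) with hS
  have hne : S.Nonempty := by
    refine ⟨q.leadingCoeff, ?_⟩
    rw [hS, Finset.mem_union]
    right
    exact Finset.mem_image.2 ⟨q.natDegree, by
      rw [Polynomial.mem_support_iff]
      exact fun h => hq (Polynomial.leadingCoeff_eq_zero.1 h), rfl⟩
  obtain ⟨a, haS, hamax⟩ := Finset.exists_max_image S (fun x => O.valuation x) hne
  have ha0 : a ≠ 0 := by
    rw [hS, Finset.mem_union] at haS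
    rcases haS with h | h
    · obtain ⟨n, hn, rfl⟩ := Finset.mem_image.1 h
      exact Polynomial.mem_support_iff.1 hn
    · obtain ⟨n, hn, rfl⟩ := Finset.mem_image.1 h
      exact Polynomial.mem_support_iff.1 hn
  have hva : O.valuation a ≠ 0 := by
    rwa [Valuation.ne_zero_iff]
  have key : ∀ b : k, (b = 0 ∨ b ∈ S) → a⁻¹ * b ∈ O := by
    rintro b (rfl | hb)
    · rw [mul_zero]; exact O.zero_mem
    · rw [← O.valuation_le_one_iff, map_mul, map_inv₀]
      calc (O.valuation a)⁻¹ * O.valuation b ≤ (O.valuation a)⁻¹ * O.valuation a :=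
            mul_le_mul_right (hamax b hb) _
        _ = 1 := inv_mul_cancel₀ hva
  have hpmem : ∀ n, p.coeff n = 0 ∨ p.coeff n ∈ S := by
    intro n
    by_cases h : p.coeff n = 0
    · exact Or.inl h
    · right
      rw [hS, Finset.mem_union]
      exact Or.inl (Finset.mem_image.2 ⟨n, Polynomial.mem_support_iff.2 h, rfl⟩)
  have hqmem : ∀ n, q.coeff n = 0 ∨ q.coeff n ∈ S := by
    intro n
    by_cases h : q.coeff n = 0
    · exact Or.inl h
    · right
      rw [hS, Finset.mem_union]
      exact Or.inr (Finset.mem_image.2 ⟨n, Polynomial.mem_support_iff.2 h, rfl⟩)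
  have lift : ∀ r : k[X], (∀ n, r.coeff n = 0 ∨ r.coeff n ∈ S) →
      ∃ f : O[X], f.map O.subtype = C a⁻¹ * r := by
    intro r hr
    have : C a⁻¹ * r ∈ Polynomial.lifts O.subtype := by
      rw [Polynomial.lifts_iff_coeff_lifts]
      intro n
      rw [Polynomial.coeff_C_mul]
      exact ⟨⟨_, key _ (hr n)⟩, rfl⟩
    exact (Polynomial.mem_lifts _).1 this
  obtain ⟨f, hf⟩ := lift p hpmem
  obtain ⟨g, hg⟩ := lift q hqmem
  have unit_of : ∀ (h : O[X]) (n : ℕ), O.subtype (h.coeff n) = 1 → h.map (residue O) ≠ 0 := by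
    intro h n hn h0
    have h1 : h.coeff n = 1 := Subtype.ext hn
    have h2 : (h.map (residue O)).coeff n = 1 := by
      rw [Polynomial.coeff_map, h1, map_one]
    rw [h0, Polynomial.coeff_zero] at h2
    exact zero_ne_one h2
  refine ⟨f, g, a⁻¹, inv_ne_zero ha0, hf, hg, ?_⟩
  rw [hS, Finset.mem_union] at haS
  rcases haS with h | h
  · obtain ⟨n, hn, hna⟩ := Finset.mem_image.1 h
    left
    apply unit_of f n
    have := congrArg (fun r => Polynomial.coeff r n) hf
    simp only [Polynomial.coeff_map, Polynomial.coeff_C_mul] at this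
    rw [this, hna, inv_mul_cancel₀ ha0]
  · obtain ⟨n, hn, hna⟩ := Finset.mem_image.1 h
    right
    apply unit_of g n
    have := congrArg (fun r => Polynomial.coeff r n) hg
    simp only [Polynomial.coeff_map, Polynomial.coeff_C_mul] at this
    rw [this, hna, inv_mul_cancel₀ ha0]

lemma rep_or (z : RatFunc k) : (∃ f g, Rep O z f g) ∨ (∃ f g, Rep O z⁻¹ f g) := by
  have hq : z.denom ≠ 0 := z.denom_ne_zero
  obtain ⟨f, g, c, hc, hf, hg, h⟩ := exists_scale O z.num z.denom hq
  have hz : z * algebraMap k[X] (RatFunc k) z.denom = algebraMap k[X] (RatFunc k) z.num := by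
    have h1 := RatFunc.num_div_denom z
    have h2 : algebraMap k[X] (RatFunc k) z.denom ≠ 0 := fun h0 =>
      hq (algMap_inj (by rw [h0, map_zero]))
    nth_rewrite 1 [← h1]
    rw [div_mul_cancel₀ _ h2]
  by_cases hg0 : g.map (residue O) = 0
  · right
    have hf0 : f.map (residue O) ≠ 0 := by
      rcases h with h | h
      · exact h
      · exact absurd hg0 h
    refine ⟨g, f, hf0, ?_⟩
    have hz0 : z ≠ 0 := by
      rintro rfl
      rw [zero_mul] at hz
      have : (0 : RatFunc k).num = 0 := RatFunc.num_zero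
      rw [this, mul_zero] at hf
      exact hf0 (by rw [map_subtype_inj O (show f.map O.subtype = (0 : O[X]).map O.subtype by
        rw [hf, Polynomial.map_zero]), Polynomial.map_zero])
    rw [hf, hg, map_mul, map_mul, ← hz]
    field_simp
  · left
    refine ⟨f, g, hg0, ?_⟩
    rw [hf, hg, map_mul, map_mul, ← hz]
    ring

/-- the Gauss valuation ring -/
noncomputable def gauss : ValuationSubring (RatFunc k) where
  carrier := {z | ∃ f g, Rep O z f g}
  mul_mem' := by
    rintro z z' ⟨f, g, h⟩ ⟨f', g', h'⟩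
    exact ⟨_, _, rep_mul O h h'⟩
  one_mem' := ⟨1, 1, rep_one O⟩
  add_mem' := by
    rintro z z' ⟨f, g, h⟩ ⟨f', g', h'⟩
    exact ⟨_, _, rep_add O h h'⟩
  zero_mem' := ⟨0, 1, rep_zero O⟩
  neg_mem' := by
    rintro z ⟨f, g, h⟩
    exact ⟨_, _, rep_neg O h⟩
  mem_or_inv_mem' := rep_or O

lemma mem_gauss {z : RatFunc k} : z ∈ gauss O ↔ ∃ f g, Rep O z f g := Iff.rfl

noncomputable def piFun (z : gauss O) : RatFunc (ResidueField O) :=
  val O z.2.choose z.2.choose_spec.choose

lemma piFun_eq (z : gauss O) {f g : O[X]} (h : Rep O (z : RatFunc k) f g) :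
    piFun O z = val O f g :=
  val_unique O z.2.choose_spec.choose_spec h

noncomputable def piHom : gauss O →+* RatFunc (ResidueField O) where
  toFun := piFun O
  map_one' := by
    rw [piFun_eq O 1 (rep_one O)]
    simp [val]
  map_zero' := by
    rw [piFun_eq O 0 (rep_zero O)]
    simp [val]
  map_mul' := by
    intro z z'
    obtain ⟨f, g, h⟩ := z.2
    obtain ⟨f', g', h'⟩ := z'.2
    rw [piFun_eq O z h, piFun_eq O z' h', piFun_eq O (z * z') (rep_mul O h h'), val_mul]
  map_add' := by
    intro z z'
    obtain ⟨f, g, h⟩ := z.2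
    obtain ⟨f', g', h'⟩ := z'.2
    rw [piFun_eq O z h, piFun_eq O z' h', piFun_eq O (z + z') (rep_add O h h'),
      val_add O f f' h.1 h'.1]

end T3aux

open T3aux in
theorem exists_gauss {k : Type*} [Field k] (O : ValuationSubring k) :
    ∃ (A : ValuationSubring (RatFunc k)) (π : A →+* RatFunc (IsLocalRing.ResidueField O)),
      Function.Surjective π ∧
      (∃ hX : RatFunc.X ∈ A, π ⟨RatFunc.X, hX⟩ = RatFunc.X) ∧
      (∃ hC : ∀ c : O, RatFunc.C (c : k) ∈ A,
        ∀ c : O, π ⟨RatFunc.C (c : k), hC c⟩ = RatFunc.C (IsLocalRing.residue O c)) := by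
  have hX : Rep O (RatFunc.X : RatFunc k) (Polynomial.X) 1 := by
    refine ⟨by simp, ?_⟩
    simp [RatFunc.algebraMap_X]
  have hC : ∀ c : O, Rep O (RatFunc.C (c : k) : RatFunc k) (Polynomial.C c) 1 := by
    intro c
    refine ⟨by simp, ?_⟩
    rw [Polynomial.map_one, map_one, mul_one, Polynomial.map_C, RatFunc.algebraMap_C]
    rfl
  refine ⟨gauss O, piHom O, ?_, ⟨⟨_, _, hX⟩, ?_⟩, ⟨fun c => ⟨_, _, hC c⟩, ?_⟩⟩
  · intro w
    obtain ⟨f, hf⟩ := Polynomial.map_surjective (IsLocalRing.residue O)
      IsLocalRing.residue_surjective w.num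
    obtain ⟨g, hg⟩ := Polynomial.map_surjective (IsLocalRing.residue O)
      IsLocalRing.residue_surjective w.denom
    have hg0 : g.map (IsLocalRing.residue O) ≠ 0 := by
      rw [hg]; exact w.denom_ne_zero
    have hrep : Rep O (algebraMap _ (RatFunc k) (f.map O.subtype) /
        algebraMap _ (RatFunc k) (g.map O.subtype)) f g := by
      refine ⟨hg0, ?_⟩
      rw [div_mul_cancel₀ _ (rep_ne O hg0)]
    refine ⟨⟨_, ⟨_, _, hrep⟩⟩, ?_⟩
    show piFun O _ = w
    rw [piFun_eq O _ hrep, val, hf, hg, RatFunc.num_div_denom]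
  · show piFun O _ = _
    rw [piFun_eq O _ hX]
    simp [val, RatFunc.algebraMap_X]
  · intro c
    show piFun O _ = _
    rw [piFun_eq O _ (hC c)]
    simp [val, RatFunc.algebraMap_C]

namespace T3aux

/-- the residue field of a valuation subring of an algebraically closed field is algebraically
closed -/
lemma isAlgClosed_residueField {K : Type*} [Field K] [IsAlgClosed K] (O : ValuationSubring K) :
    IsAlgClosed (IsLocalRing.ResidueField O) := by
  apply IsAlgClosed.of_exists_root
  intro p hp hirr
  have hl : p ∈ Polynomial.lifts (IsLocalRing.residue O) := by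
    rw [Polynomial.lifts_iff_coeff_lifts]
    intro n
    exact IsLocalRing.residue_surjective _
  obtain ⟨q, hq, hdeg, hmon⟩ := Polynomial.lifts_and_natDegree_eq_and_monic hl hp
  have hdegp : p.natDegree ≠ 0 := by
    intro h0
    have : p.natDegree = 0 := h0
    exact hirr.natDegree_pos.ne' this
  obtain ⟨x, hx⟩ := IsAlgClosed.exists_root (q.map O.subtype) (by
    rw [Polynomial.degree_map_eq_of_injective Subtype.val_injective]
    intro h0
    apply hdegp
    rw [← hdeg]
    exact Polynomial.natDegree_eq_of_degree_eq_some h0)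
  have hint : IsIntegral O x := by
    refine ⟨q, hmon, ?_⟩
    have : (Polynomial.eval x (q.map O.subtype)) = 0 := hx
    rw [Polynomial.eval_map] at this
    exact this
  obtain ⟨y, hy⟩ := (IsIntegrallyClosed.isIntegral_iff (R := O) (K := K)).1 hint
  refine ⟨IsLocalRing.residue O y, ?_⟩
  have h1 : q.eval y = 0 := by
    have h2 : O.subtype (q.eval y) = 0 := by
      have : (Polynomial.eval x (q.map O.subtype)) = 0 := hx
      rw [Polynomial.eval_map, ← hy] at this
      have h3 : (algebraMap O K) y = O.subtype y := rfl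
      rw [h3, Polynomial.eval₂_hom] at this
      exact this
    exact Subtype.ext h2
  rw [← hq, Polynomial.eval_map, Polynomial.eval₂_hom, h1, map_zero]

end T3aux

open T3aux in
theorem exists_place {ι : Type*} (t : ι → ℂ) (ht : AlgebraicIndependent ℚ t) (Z : Set ι) :
    ∃ (O : ValuationSubring ℂ) (hO : ∀ x, t x ∈ O), IsAlgClosed (IsLocalRing.ResidueField O) ∧
      (∀ x ∈ Z, IsLocalRing.residue O ⟨t x, hO x⟩ = 0) ∧
      ∃ _ : CharZero (IsLocalRing.ResidueField O),
        AlgebraicIndependent ℚ (fun x : {x // x ∉ Z} => IsLocalRing.residue O ⟨t x, hO x⟩) := by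
  classical
  let ev : MvPolynomial ι ℚ →+* ℂ := (MvPolynomial.aeval t : MvPolynomial ι ℚ →ₐ[ℚ] ℂ).toRingHom
  have hev : Function.Injective ev := ht
  let φ : MvPolynomial ι ℚ →ₐ[ℚ] MvPolynomial ι ℚ :=
    MvPolynomial.aeval (fun i => if i ∈ Z then 0 else MvPolynomial.X i)
  let P : Ideal (MvPolynomial ι ℚ) := RingHom.ker φ
  have hP : P.IsPrime := RingHom.ker_isPrime _
  let L := Localization.AtPrime P
  have hunit : ∀ y : P.primeCompl, IsUnit (ev y) := by
    intro y
    rw [isUnit_iff_ne_zero]
    intro h0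
    have h1 : (y : MvPolynomial ι ℚ) = 0 := hev (by rw [h0, map_zero])
    exact y.2 (by rw [h1]; exact P.zero_mem)
  let f : L →+* ℂ := IsLocalization.lift (M := P.primeCompl) (S := L) (g := ev) hunit
  obtain ⟨O, hO, hloc⟩ := IsLocalRing.exists_factor_valuationRing f
  have hf : ∀ r : MvPolynomial ι ℚ, f (algebraMap _ L r) = ev r := fun r =>
    IsLocalization.lift_eq hunit r
  let g : L →+* O := f.codRestrict O.toSubring hO
  let ψ : MvPolynomial ι ℚ →+* IsLocalRing.ResidueField O :=
    (IsLocalRing.residue O).comp (g.comp (algebraMap _ L))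
  have hψ : ∀ r, ψ r = 0 ↔ r ∈ P := by
    intro r
    show IsLocalRing.residue O (g (algebraMap (MvPolynomial ι ℚ) L r)) = 0 ↔ r ∈ P
    rw [IsLocalRing.residue_eq_zero_iff, IsLocalRing.mem_maximalIdeal, mem_nonunits_iff]
    have h1 : IsUnit (g (algebraMap (MvPolynomial ι ℚ) L r)) ↔
        IsUnit (algebraMap (MvPolynomial ι ℚ) L r) :=
      ⟨fun h => hloc.map_nonunit _ h, fun h => h.map g⟩
    rw [h1, IsLocalization.AtPrime.isUnit_to_map_iff L P r]
    show ¬ (r ∉ P) ↔ r ∈ P
    exact not_not
  have hmem : ∀ x, t x ∈ O := by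
    intro x
    have h1 := hO (algebraMap (MvPolynomial ι ℚ) L (MvPolynomial.X x))
    rw [hf] at h1
    have h2 : ev (MvPolynomial.X x) = t x := MvPolynomial.aeval_X t x
    rw [h2] at h1
    exact h1
  have hψX : ∀ x, ψ (MvPolynomial.X x) = IsLocalRing.residue O ⟨t x, hmem x⟩ := by
    intro x
    show IsLocalRing.residue O (g (algebraMap (MvPolynomial ι ℚ) L (MvPolynomial.X x))) = _
    congr 1
    apply Subtype.ext
    show f (algebraMap (MvPolynomial ι ℚ) L (MvPolynomial.X x)) = t x
    rw [hf]
    exact MvPolynomial.aeval_X t x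
  have hchar : CharZero (IsLocalRing.ResidueField O) :=
    charZero_of_injective_ringHom (f := ψ.comp MvPolynomial.C) (RingHom.injective _)
  refine ⟨O, hmem, isAlgClosed_residueField O, ?_, hchar, ?_⟩
  · intro x hx
    rw [← hψX, hψ]
    show φ (MvPolynomial.X x) = 0
    rw [MvPolynomial.aeval_X, if_pos hx]
  · have hcomp : ∀ p : MvPolynomial {x // x ∉ Z} ℚ,
        MvPolynomial.aeval (fun x : {x // x ∉ Z} => IsLocalRing.residue O ⟨t x, hmem x⟩) p =
          ψ (MvPolynomial.rename Subtype.val p) := by
      intro p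
      have : (MvPolynomial.aeval (R := ℚ) (fun x : {x // x ∉ Z} =>
          IsLocalRing.residue O ⟨t x, hmem x⟩)).toRingHom =
          ψ.comp (MvPolynomial.rename (R := ℚ) (Subtype.val : {x // x ∉ Z} → ι)).toRingHom := by
        apply MvPolynomial.ringHom_ext'
        · exact Subsingleton.elim _ _
        · intro x
          simp only [AlgHom.toRingHom_eq_coe, RingHom.coe_coe, MvPolynomial.aeval_X,
            RingHom.comp_apply, MvPolynomial.rename_X]
          rw [hψX]
      exact congrArg (fun h => h p) this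
    rw [AlgebraicIndependent, injective_iff_map_eq_zero]
    intro p hp
    rw [hcomp, hψ] at hp
    have hid : φ (MvPolynomial.rename Subtype.val p) = MvPolynomial.rename Subtype.val p := by
      have : φ.comp (MvPolynomial.rename (R := ℚ) (Subtype.val : {x // x ∉ Z} → ι)) =
          (MvPolynomial.rename (R := ℚ) (Subtype.val : {x // x ∉ Z} → ι)) := by
        apply MvPolynomial.algHom_ext
        intro x
        rw [AlgHom.comp_apply, MvPolynomial.rename_X]
        show φ (MvPolynomial.X x.1) = _
        rw [MvPolynomial.aeval_X, if_neg x.2]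
      exact congrArg (fun h => h p) this
    have h0 : φ (MvPolynomial.rename Subtype.val p) = 0 := hp
    rw [hid] at h0
    exact MvPolynomial.rename_injective _ Subtype.val_injective (by rw [h0, map_zero])

end Pool.Agent.H861.CD
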