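import Pool.Agent.H861.CD.T1all
import Pool.Agent.H861.CD.T2
import Pool.Agent.H861.CD.T3

/-!
Project CD (helper861), MP_8dbee4_ag, part T5: `place_dvd` and `place_dvd'` below from the four statements `kummer_indep`, `dvd_finrank_of_residue`, `exists_gauss`, `exists_place` (T1-T4).

**place_dvd.** Let `δ_k = p^(s k)`. Choose by `exists_place` (index set `ι × J`, `Z = {(k, j) : j ≠ i}`) a valuation subring `O ⊆ ℂ` with `t k j ∈ m_O` for `j ≠ i` and the residues `c_k` of `t k i` algebraically independent over `ℚ`; `κ = O/m_O` is algebraically closed of characteristic 0. Let `A ⊆ RatFunc ℂ`,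
`π : A → RatFunc κ` be as in `exists_gauss`. By `dvd_finrank_of_residue` (with `L = RatFunc κ`, `q = p^(Σ s k)`) it suffices to show `q ∣ [κ_B : RatFunc κ]` for every valuation subring `B` of `E` with `B ∩ RatFunc ℂ = A` and the given `i : RatFunc κ → κ_B = ResidueField B` (if the extension
is not finite then `finrank = 0` and there is nothing to prove). For `j ≠ i` and `k`: let `a := w_j^δ_k`, `h := h k j`, so `h + 1/h = a + 1/a + t`, `t ∈ m_B`. Claim: `h/a` or `h a` is in `1 + m_B` (a unit with residue 1).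
 * `a` a unit of `B`: `h + 1/h ∈ B`, so `h` is a unit of `B` (integral: `h^2 - (..)h + 1 = 0`, and the same for `1/h`), and `(h - a)(h a - 1) = t a h ∈ m_B`. So `h - a ∈ m_B` or `h a - 1 ∈ m_B`.
 * `a ∈ m_B` : `h + 1/h = (1 + a^2 + t a)/a` is not in `B`, so `h` or `1/h` is in `m_B`. If `h ∈ m_B`: `(1+h^2)/h = (1+a^2+ta)/a` gives `h/a = (1+h^2)/(1+a^2+ta) ∈ 1 + m_B`. If `1/h ∈ m_B` : replace `h` by `1/h`: `1/(h a) ∈ 1 + m_B`.
 * `1/a ∈ m_B`: replace `a` by `1/a`.
So there is a sign `ε_{k,j}` with `h k j · w_j^(-ε_{k,j} δ_k) ∈ 1 + m_B`. `R'_k := R_k ∏_{j≠i} w_j^(-ε_{k,j})` satisfies `R'_k^δ_k = h k i · (element of 1 + m_B)`; `h k i` is a unit of `B` since `h k i + 1/h k i ∈ B` (`w_i = X` is a unit of `A`, `t k i ∈ O`).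
So `R'_k` is a unit of `B`, and its residue `r_k` satisfies `r_k^δ_k = h̄_k` where `h̄_k` = residue of `h k i`, `h̄_k + 1/h̄_k = X^δ_k + X^(-δ_k) + c_k` in `κ_B`. By `kummer_indep` (`N = κ_B`), `p^(Σ s k) ∣ [κ_B : RatFunc κ]`.

**place_dvd'.** `w_i` is transcendental over `ℂ`; `E` is an algebra over `RatFunc ℂ` via `X ↦ w_i` with image `ℂ(w_i) ⊇ ℂ(u_i)`, and `[E : ℂ(u_i)] = [E : ℂ(w_i)] [ℂ(w_i) : ℂ(u_i)]`.
-/

set_option autoImplicit false

open Module

namespace Pool.Agent.H861.CD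

namespace T5aux

section val

variable {E Γ : Type*} [Field E] [LinearOrderedCommGroupWithZero Γ] (v : Valuation E Γ)

theorem one_val {z : E} (h : v (z - 1) < 1) : v z = 1 := by
  have h1 : z = 1 + (z - 1) := by ring
  rw [h1]
  exact v.map_one_add_of_lt h

theorem one_mul' {z w : E} (hz : v (z - 1) < 1) (hw : v (w - 1) < 1) : v (z * w - 1) < 1 := by
  have h1 : z * w - 1 = (z - 1) * w + (w - 1) := by ring
  rw [h1]
  refine v.map_add_lt ?_ hw
  rw [map_mul, one_val v hw, mul_one]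
  exact hz

theorem one_inv {z : E} (hz : v (z - 1) < 1) : v (z⁻¹ - 1) < 1 := by
  have h0 : z ≠ 0 := by
    rintro rfl
    have := one_val v hz
    rw [map_zero] at this
    exact zero_ne_one this
  have h1 : z⁻¹ - 1 = -((z - 1) * z⁻¹) := by field_simp; ring
  rw [h1, Valuation.map_neg, map_mul, map_inv₀, one_val v hz, inv_one, mul_one]
  exact hz

theorem one_prod {ι : Type*} (t : Finset ι) (f : ι → E) (h : ∀ j ∈ t, v (f j - 1) < 1) :
    v (∏ j ∈ t, f j - 1) < 1 := by
  classical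
  induction t using Finset.induction_on with
  | empty =>
    rw [Finset.prod_empty, sub_self, map_zero]
    exact zero_lt_one
  | insert a t ha ih =>
    rw [Finset.prod_insert ha]
    exact one_mul' v (h a (Finset.mem_insert_self _ _))
      (ih fun j hj => h j (Finset.mem_insert_of_mem hj))

/-- the core case -/
theorem core {a h τ : E} (ha : a ≠ 0) (hh : h ≠ 0) (e : h + h⁻¹ = a + a⁻¹ + τ) (hτ : v τ < 1)
    (ha1 : v a ≤ 1) (hh1 : v h ≤ 1) : v (h * a⁻¹ - 1) < 1 ∨ v (h * a - 1) < 1 := by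
  have e1 : (h - a) * (h * a - 1) = τ * (a * h) := by
    have e2 : τ = h + h⁻¹ - a - a⁻¹ := by rw [e]; ring
    rw [e2]
    field_simp
    ring
  have hva : v a ≠ 0 := (Valuation.ne_zero_iff v).2 ha
  have hvh : v h ≠ 0 := (Valuation.ne_zero_iff v).2 hh
  have e3 : v (h - a) * v (h * a - 1) = v τ * (v a * v h) := by
    rw [← map_mul, e1, map_mul, map_mul]
  have e4 : h * a⁻¹ - 1 = (h - a) * a⁻¹ := by field_simp
  rcases lt_or_eq_of_le (mul_le_one' hh1 ha1 : v h * v a ≤ 1) with hlt | heq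
  · left
    have h1 : v (h * a - 1) = 1 := by
      rw [← Valuation.map_neg, neg_sub]
      apply v.map_one_sub_of_lt
      rwa [map_mul]
    rw [h1, mul_one] at e3
    rw [e4, map_mul, map_inv₀, e3]
    have h2 : v τ * (v a * v h) * (v a)⁻¹ = v τ * v h := by
      rw [mul_comm (v a) (v h), mul_assoc, mul_assoc, mul_inv_cancel₀ hva, mul_one]
    rw [h2]
    calc v τ * v h ≤ v τ * 1 := mul_le_mul_right hh1 _
      _ < 1 := by rw [mul_one]; exact hτ
  · have hvh1 : v h = 1 := by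
      refine le_antisymm hh1 ?_
      rw [← heq]
      calc v h * v a ≤ v h * 1 := mul_le_mul_right ha1 _
        _ = v h := mul_one _
    have hva1 : v a = 1 := by rwa [hvh1, one_mul] at heq
    rw [hvh1, hva1, mul_one, mul_one] at e3
    by_contra hcon
    push Not at hcon
    obtain ⟨c1, c2⟩ := hcon
    rw [e4, map_mul, map_inv₀, hva1, inv_one, mul_one] at c1
    have : 1 ≤ v (h - a) * v (h * a - 1) := one_le_mul c1 c2
    rw [e3] at this
    exact absurd hτ (not_lt.2 this)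

/-- a sign -/
theorem sign {a h τ : E} (ha : a ≠ 0) (hh : h ≠ 0) (e : h + h⁻¹ = a + a⁻¹ + τ) (hτ : v τ < 1) :
    v (h * a⁻¹ - 1) < 1 ∨ v (h * a - 1) < 1 := by
  have inv_swap : ∀ {b g : E}, v (g⁻¹ * b⁻¹ - 1) < 1 ∨ v (g⁻¹ * b - 1) < 1 →
      v (g * b⁻¹ - 1) < 1 ∨ v (g * b - 1) < 1 := by
    intro b g h1
    rcases h1 with h1 | h1
    · right
      have := one_inv v h1
      rwa [mul_inv, inv_inv, inv_inv] at this
    · left
      have := one_inv v h1
      rwa [mul_inv, inv_inv] at this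
  have le_of : ∀ x : E, x ≠ 0 → ¬ v x ≤ 1 → v x⁻¹ ≤ 1 := by
    intro x hx h1
    rw [map_inv₀]
    exact inv_le_one_of_one_le₀ (le_of_lt (not_le.1 h1))
  -- the case `v a ≤ 1`
  have main : ∀ {b g : E}, b ≠ 0 → g ≠ 0 → g + g⁻¹ = b + b⁻¹ + τ → v b ≤ 1 →
      v (g * b⁻¹ - 1) < 1 ∨ v (g * b - 1) < 1 := by
    intro b g hb hg e hb1
    by_cases h1 : v g ≤ 1
    · exact core v hb hg e hτ hb1 h1
    · apply inv_swap
      refine core v hb (inv_ne_zero hg) ?_ hτ hb1 (le_of g hg h1)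
      rw [inv_inv, ← e, add_comm]
  by_cases h1 : v a ≤ 1
  · exact main ha hh e h1
  · have h2 := main (inv_ne_zero ha) hh (by rw [inv_inv, e]; ring) (le_of a ha h1)
    rw [inv_inv] at h2
    exact h2.symm

theorem val_unit {a h τ : E} (hh : h ≠ 0) (e : h + h⁻¹ = a + a⁻¹ + τ) (ha : v a = 1)
    (hτ : v τ ≤ 1) : v h = 1 := by
  have h1 : v (h + h⁻¹) ≤ 1 := by
    rw [e]
    refine v.map_add_le (v.map_add_le ha.le ?_) hτ
    rw [map_inv₀, ha, inv_one]
  have hv0 : v h ≠ 0 := (Valuation.ne_zero_iff v).2 hh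
  rcases lt_trichotomy (v h) 1 with hlt | heq | hgt
  · exfalso
    have h2 : 1 < v h⁻¹ := by
      rw [map_inv₀]
      exact (one_lt_inv₀ (zero_lt_iff.2 hv0)).2 hlt
    rw [v.map_add_eq_of_lt_right (hlt.trans h2)] at h1
    exact absurd h2 (not_lt.2 h1)
  · exact heq
  · exfalso
    have h2 : v h⁻¹ < 1 := by
      rw [map_inv₀]
      exact inv_lt_one_of_one_lt₀ hgt
    rw [v.map_add_eq_of_lt_left (h2.trans hgt)] at h1
    exact absurd hgt (not_lt.2 h1)

end val

section res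

variable {E : Type*} [Field E] (B : ValuationSubring E)

theorem mem_of_val {z : E} (h : B.valuation z = 1) : z ∈ B :=
  (B.valuation_le_one_iff z).1 h.le

theorem val_lt_of_res {x : B} (hx : IsLocalRing.residue B x = 0) : B.valuation (x : E) < 1 :=
  (B.valuation_lt_one_iff x).1 ((IsLocalRing.residue_eq_zero_iff x).1 hx)

theorem res_of_val_lt {x : B} (hx : B.valuation (x : E) < 1) : IsLocalRing.residue B x = 0 :=
  (IsLocalRing.residue_eq_zero_iff x).2 ((B.valuation_lt_one_iff x).2 hx)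

theorem val_eq_of_res {x : B} (hx : IsLocalRing.residue B x ≠ 0) : B.valuation (x : E) = 1 := by
  refine le_antisymm (B.valuation_le_one x) (not_lt.1 fun h => hx (res_of_val_lt B h))

theorem res_ne {x : B} (hx : B.valuation (x : E) = 1) : IsLocalRing.residue B x ≠ 0 := by
  intro h
  exact absurd (val_lt_of_res B h) (by rw [hx]; exact lt_irrefl _)

theorem res_eq {x y : B} (hx : B.valuation ((x : E) - y) < 1) :
    IsLocalRing.residue B x = IsLocalRing.residue B y := by
  rw [← sub_eq_zero, ← map_sub]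
  exact res_of_val_lt B (by simpa using hx)

theorem res_inv {x y : B} (h0 : (x : E) ≠ 0) (h : (y : E) = (x : E)⁻¹) :
    IsLocalRing.residue B y = (IsLocalRing.residue B x)⁻¹ := by
  refine eq_inv_of_mul_eq_one_left ?_
  rw [← map_mul]
  have : y * x = 1 := by
    apply Subtype.ext
    rw [MulMemClass.coe_mul, h, OneMemClass.coe_one, inv_mul_cancel₀ h0]
  rw [this, map_one]

end res

end T5aux

theorem place_dvd {p : ℕ} (hp : p.Prime) {ι J : Type*} [Fintype ι] [Fintype J]
    (s : ι → ℕ) (t : ι → J → ℂ) (ht : AlgebraicIndependent ℚ (fun x : ι × J => t x.1 x.2)) (i : J)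
    {E : Type*} [Field E] [Algebra (RatFunc ℂ) E] [FiniteDimensional (RatFunc ℂ) E]
    (w : J → E) (hw : ∀ j, w j ≠ 0) (hwi : w i = algebraMap (RatFunc ℂ) E RatFunc.X)
    (h : ι → J → E) (h0 : ∀ k j, h k j ≠ 0)
    (hh : ∀ k j, h k j + (h k j)⁻¹ = w j ^ (p ^ s k) + (w j ^ (p ^ s k))⁻¹ +
      algebraMap (RatFunc ℂ) E (RatFunc.C (t k j)))
    (R : ι → E) (hR : ∀ k, R k ^ (p ^ s k) = ∏ j, h k j) :
    p ^ (∑ k, s k) ∣ finrank (RatFunc ℂ) E := by
  classical
  obtain ⟨O, hO, hcl, hZ, hchar, hind⟩ :=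
    exists_place (fun x : ι × J => t x.1 x.2) ht {x | x.2 ≠ i}
  haveI := hcl
  haveI := hchar
  obtain ⟨A, π, hπ, ⟨hX, hπX⟩, hC, hπC⟩ := exists_gauss O
  haveI : CharZero (RatFunc (IsLocalRing.ResidueField O)) :=
    charZero_of_injective_algebraMap
      (algebraMap (IsLocalRing.ResidueField O) (RatFunc (IsLocalRing.ResidueField O))).injective
  apply dvd_finrank_of_residue A π hπ
  intro B hB i' hi
  letI alg := i'.toAlgebra
  by_cases hf : FiniteDimensional (RatFunc (IsLocalRing.ResidueField O)) (IsLocalRing.ResidueField B)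
  swap
  · rw [finrank_of_not_finite hf]
    exact dvd_zero _
  -- the element `w i`
  have hwiB : w i ∈ B := by
    rw [hwi]
    exact (hB _).2 hX
  have hwres : IsLocalRing.residue B ⟨w i, hwiB⟩ = i' RatFunc.X := by
    rw [← hπX, hi ⟨RatFunc.X, hX⟩]
    congr 1
    exact Subtype.ext hwi
  have hwv : B.valuation (w i) = 1 := by
    refine T5aux.val_eq_of_res B (x := ⟨w i, hwiB⟩) ?_
    rw [hwres]
    exact (map_ne_zero i').2 RatFunc.X_ne_zero
  -- the elements `t k j`
  have htB : ∀ k j, algebraMap (RatFunc ℂ) E (RatFunc.C (t k j)) ∈ B := fun k j =>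
    (hB _).2 (hC ⟨t k j, hO (k, j)⟩)
  have htres : ∀ k j, IsLocalRing.residue B ⟨_, htB k j⟩ =
      i' (RatFunc.C (IsLocalRing.residue O ⟨t k j, hO (k, j)⟩)) := by
    intro k j
    rw [← hπC, hi]
  have htv : ∀ k j, j ≠ i → B.valuation (algebraMap (RatFunc ℂ) E (RatFunc.C (t k j))) < 1 := by
    intro k j hj
    refine T5aux.val_lt_of_res B (x := ⟨_, htB k j⟩) ?_
    rw [htres, hZ (k, j) hj, map_zero, map_zero]
  -- the signs
  have hsign : ∀ k j, ∃ e : E, j ≠ i → B.valuation (h k j * e ^ (p ^ s k) - 1) < 1 := by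
    intro k j
    by_cases hj : j = i
    · exact ⟨1, fun h => absurd hj h⟩
    rcases T5aux.sign B.valuation (pow_ne_zero _ (hw j)) (h0 k j) (hh k j) (htv k j hj) with h1 | h1
    · refine ⟨(w j)⁻¹, fun _ => ?_⟩
      rwa [inv_pow]
    · exact ⟨w j, fun _ => h1⟩
  choose e he using hsign
  -- `h k i`
  have hhv : ∀ k, B.valuation (h k i) = 1 := by
    intro k
    refine T5aux.val_unit B.valuation (h0 k i) (hh k i) ?_ ?_
    · rw [map_pow, hwv, one_pow]
    · exact (B.valuation_le_one_iff _).2 (htB k i)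
  -- the modified roots
  set R' : ι → E := fun k => R k * ∏ j ∈ Finset.univ.erase i, e k j with hR'
  have hpow : ∀ k, R' k ^ (p ^ s k) =
      h k i * ∏ j ∈ Finset.univ.erase i, (h k j * e k j ^ (p ^ s k)) := by
    intro k
    rw [hR']
    simp only
    rw [mul_pow, hR k, Finset.prod_mul_distrib, ← Finset.mul_prod_erase _ _ (Finset.mem_univ i),
      ← Finset.prod_pow]
    ring
  have hprod : ∀ k, B.valuation
      (∏ j ∈ Finset.univ.erase i, (h k j * e k j ^ (p ^ s k)) - 1) < 1 := by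
    intro k
    refine T5aux.one_prod B.valuation _ _ fun j hj => ?_
    exact he k j (Finset.ne_of_mem_erase hj)
  have hRv : ∀ k, B.valuation (R' k) = 1 := by
    intro k
    have h1 : B.valuation (R' k) ^ (p ^ s k) = 1 := by
      rw [← map_pow, hpow, map_mul, hhv, T5aux.one_val B.valuation (hprod k), one_mul]
    exact (pow_eq_one_iff.1 h1).resolve_right (pow_pos hp.pos _).ne'
  refine kummer_indep_all hp s
    (fun k => IsLocalRing.residue O ⟨t k i, hO (k, i)⟩) ?_
    (fun k => IsLocalRing.residue B ⟨h k i, T5aux.mem_of_val B (hhv k)⟩)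
    (fun k => IsLocalRing.residue B ⟨R' k, T5aux.mem_of_val B (hRv k)⟩) ?_ ?_ ?_
  · exact hind.comp (fun k : ι => (⟨(k, i), by simp⟩ : {x : ι × J // x ∉ {x : ι × J | x.2 ≠ i}}))
      (fun a b hab => by simpa using hab)
  · intro k
    exact T5aux.res_ne B (hhv k)
  · intro k
    have hinvB : (h k i)⁻¹ ∈ B := T5aux.mem_of_val B (by rw [map_inv₀, hhv, inv_one])
    have hwinvB : (w i ^ (p ^ s k))⁻¹ ∈ B :=
      T5aux.mem_of_val B (by rw [map_inv₀, map_pow, hwv, one_pow, inv_one])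
    have hwpB : (w i ^ (p ^ s k)) ∈ B :=
      T5aux.mem_of_val B (by rw [map_pow, hwv, one_pow])
    have e1 : (⟨h k i, T5aux.mem_of_val B (hhv k)⟩ : B) + ⟨(h k i)⁻¹, hinvB⟩ =
        ⟨w i ^ (p ^ s k), hwpB⟩ + ⟨(w i ^ (p ^ s k))⁻¹, hwinvB⟩ + ⟨_, htB k i⟩ :=
      Subtype.ext (hh k i)
    have e2 := congrArg (IsLocalRing.residue B) e1
    rw [map_add, map_add, map_add, htres,
      T5aux.res_inv B (x := ⟨h k i, T5aux.mem_of_val B (hhv k)⟩) (y := ⟨(h k i)⁻¹, hinvB⟩) (h0 k i) rfl,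
      T5aux.res_inv B (x := ⟨w i ^ (p ^ s k), hwpB⟩) (y := ⟨(w i ^ (p ^ s k))⁻¹, hwinvB⟩)
        (pow_ne_zero _ (hw i)) rfl] at e2
    have e3 : (⟨w i ^ (p ^ s k), hwpB⟩ : B) = ⟨w i, hwiB⟩ ^ (p ^ s k) := rfl
    rw [e3, map_pow, hwres] at e2
    rw [e2]
    change _ = i' _
    rw [map_add, map_add, map_inv₀, map_pow]
  · intro k
    rw [← map_pow]
    refine T5aux.res_eq B ?_
    change B.valuation (R' k ^ (p ^ s k) - h k i) < 1
    rw [hpow]
    have e1 : h k i * ∏ j ∈ Finset.univ.erase i, (h k j * e k j ^ (p ^ s k)) - h k i =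
        h k i * (∏ j ∈ Finset.univ.erase i, (h k j * e k j ^ (p ^ s k)) - 1) := by ring
    rw [e1, map_mul, hhv, one_mul]
    exact hprod k

theorem place_dvd' {p : ℕ} (hp : p.Prime) {ι J : Type*} [Fintype ι] [Fintype J]
    (s : ι → ℕ) (t : ι → J → ℂ) (ht : AlgebraicIndependent ℚ (fun x : ι × J => t x.1 x.2)) (i : J)
    {E : Type*} [Field E] [Algebra ℂ E] (u w : J → E) (hu : ∀ j, w j + (w j)⁻¹ = u j)
    (hui : Transcendental ℂ (u i)) (hfin : FiniteDimensional (IntermediateField.adjoin ℂ {u i}) E)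
    (hw : ∀ j, w j ≠ 0)
    (h : ι → J → E) (h0 : ∀ k j, h k j ≠ 0)
    (hh : ∀ k j, h k j + (h k j)⁻¹ = w j ^ (p ^ s k) + (w j ^ (p ^ s k))⁻¹ + algebraMap ℂ E (t k j))
    (R : ι → E) (hR : ∀ k, R k ^ (p ^ s k) = ∏ j, h k j) :
    p ^ (∑ k, s k) ∣ finrank (IntermediateField.adjoin ℂ {u i}) E := by
  have hwt : Transcendental ℂ (w i) := by
    intro halg
    apply hui
    rw [← hu i]
    exact halg.add halg.inv
  have hle : IntermediateField.adjoin ℂ {u i} ≤ IntermediateField.adjoin ℂ {w i} := by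
    rw [IntermediateField.adjoin_simple_le_iff, ← hu i]
    exact add_mem (IntermediateField.mem_adjoin_simple_self ℂ (w i))
      (inv_mem (IntermediateField.mem_adjoin_simple_self ℂ (w i)))
  letI alg0 : Algebra (IntermediateField.adjoin ℂ {u i}) (IntermediateField.adjoin ℂ {w i}) :=
    (IntermediateField.inclusion hle).toRingHom.toAlgebra
  haveI : IsScalarTower (IntermediateField.adjoin ℂ {u i}) (IntermediateField.adjoin ℂ {w i}) E :=
    IsScalarTower.of_algebraMap_eq (fun _ => rfl)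
  haveI hfin1 : FiniteDimensional (IntermediateField.adjoin ℂ {w i}) E :=
    Module.Finite.right (IntermediateField.adjoin ℂ {u i}) (IntermediateField.adjoin ℂ {w i}) E
  let φ : RatFunc ℂ ≃ₐ[ℂ] IntermediateField.adjoin ℂ {w i} :=
    RatFunc.algEquivOfTranscendental (w i) hwt
  letI alg1 : Algebra (RatFunc ℂ) E :=
    ((algebraMap (IntermediateField.adjoin ℂ {w i}) E).comp
      (φ.toRingEquiv : RatFunc ℂ →+* IntermediateField.adjoin ℂ {w i})).toAlgebra
  have hmap : ∀ x : RatFunc ℂ, algebraMap (RatFunc ℂ) E x = (φ x : E) := fun x => rfl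
  have hfin2 : FiniteDimensional (RatFunc ℂ) E := by
    refine Module.Finite.of_equiv_equiv (A₁ := IntermediateField.adjoin ℂ {w i}) (B₁ := E)
      φ.symm.toRingEquiv (RingEquiv.refl E) ?_
    ext x
    change algebraMap (RatFunc ℂ) E (φ.symm x) = x
    rw [hmap, AlgEquiv.apply_symm_apply]
  have hrank : finrank (RatFunc ℂ) E = finrank (IntermediateField.adjoin ℂ {w i}) E := by
    refine Algebra.finrank_eq_of_equiv_equiv φ.toRingEquiv (RingEquiv.refl E) ?_
    ext x
    rfl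
  have key := place_dvd hp s t ht i w hw
    (by rw [hmap]; exact (RatFunc.algEquivOfTranscendental_X (w i) hwt).symm) h h0
    (by
      intro k j
      rw [hh k j, hmap]
      congr 1
      rw [← RatFunc.algebraMap_eq_C, AlgEquiv.commutes]
      rfl) R hR
  rw [← Module.finrank_mul_finrank (IntermediateField.adjoin ℂ {u i})
    (IntermediateField.adjoin ℂ {w i}) E, ← hrank]
  exact Dvd.dvd.mul_left key _

end Pool.Agent.H861.CD
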