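import Mathlib

/-!
Project CD (helper861), MP_8dbee4_ag, part T8: `finrank_mul` and `finrank_prod` below (self-contained; only Mathlib).

**finrank_mul** (`[E:ℂ(φ)]` is the number of poles of `φ`; if no pole of one factor is a zero of the other, the poles of `φψ` add up). `E` has transcendence degree 1 (finite over `ℂ(φ)`), so it is also finite over `ℂ(ψ)`. Let `E' = ℂ(φ,ψ)`. As all three degrees are multiplied by `[E:E']` in the step from `E'` to `E`
[for `φψ`: if it is not transcendental then `E/ℂ(φψ)` is infinite; see below: it is transcendental], and valuation subrings of `E'` extend to `E` (not needed if you use `E` for the Chevalley argument below), it suffices to treat `E'`. Let `P(X,Y) ∈ ℂ[X,Y]` be an irreducible polynomial with `P(φ,ψ) = 0`; by Gauss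
`a := deg_Y P = [E':ℂ(φ)]`, `b := deg_X P = [E':ℂ(ψ)]`. Claim: the coefficient of `X^b Y^0` in `P` is nonzero, and so is the coefficient of `X^0 Y^a`.
Proof for the first: by Chevalley (`Ideal.image_subset_nonunits_valuationSubring`) and `hv₁` the ideal `(φ⁻¹, ψ)` of `ℂ[φ⁻¹, ψ]` contains 1: `1 = φ⁻¹ A(φ⁻¹,ψ) + ψ B(φ⁻¹,ψ)`. Let `T(X,Y) := X^N (1 - X⁻¹A(X⁻¹,Y) - Y B(X⁻¹,Y))`, `N` large, a polynomial with `T(φ,ψ) = 0`, so `P ∣ T` (`P` irreducible, `E'` of transcendence degree 1: `P` generates
the prime ideal of relations of `(φ,ψ)`). The coefficient of `X^N` in `T` is `1 - Y B(0,Y)`, it is the leading coefficient of `T` in `X`, so divisible by the leading coefficient `p_b(Y)` of `P`; so `p_b(0) ≠ 0`. The second is the same with `hv₂`.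
Now let `Θ = φψ`, `E' = ℂ(Θ, φ)`. `Q(X,T) := X^a P(X, T/X) ∈ ℂ[X,T]` (`X^i Y^j ↦ X^(a+i-j) T^j`) vanishes at `(φ, Θ)`. It has degree `a + b` in `X` (the monomial `X^b Y^0` gives `X^(a+b)`; `i ≤ b`), and it is not divisible by `X` (the monomial `X^0Y^a` gives `X^0 T^a`). `Q` is irreducible: the map `X ↦ X, Y ↦ T/X` is an isomorphism of the
Laurent polynomial rings `ℂ[X^±1][Y] ≅ ℂ[X^±1][T]`, so `Q` is irreducible there, and it is not divisible by `X`. So `Q` is (Gauss) a minimal polynomial of `φ` over `ℂ(Θ)` and `[E':ℂ(Θ)] = a+b` (`Θ` is transcendental: otherwise, `ℂ` being algebraically closed, `Θ = c ∈ ℂ`, so `ψ = c/φ` (`c ≠ 0`), and by `hv₁` there would be no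
valuation ring with `φ⁻¹` a nonunit, which is false for the transcendental `φ`). (Any other proof is welcome.)

**finrank_prod**. For `j` with `u_j` transcendental and `j'` with `u_{j'}` transcendental let `P_{jj'}(X,Y) ≠ 0` be a polynomial with `P_{jj'}(u_j,u_{j'}) = 0`, irreducible if possible; if `V` is a valuation subring with `u_j - c_0, u_{j'} - c_1 ∈ nonunits V` then `P_{jj'}(c_0,c_1) = 0` (residue). So take
`P := (X - Y) ∏_{jj'} P_{jj'}(X,Y) P_{jj'}(Y,X) ∏_{j, u_j = const = c} (X - c)(Y - c)`. (For constant `u_j = c ≠ c_0` the element `u_j - c_0` is a unit of every `V ⊇ ℂ`. For `j = j'` one has `u_j - c_0` and `u_j - c_1` not both nonunits since the difference `c_1 - c_0 ≠ 0` is a unit.)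
Constants `u_j` contribute a nonzero constant factor to the product, which does not change the field `ℂ(∏)`. For the transcendental ones: induction, with `φ` = partial product of `(u_j - c_0)/(u_j - c_1)`, `ψ` = the next factor, by `finrank_mul`: if `φ⁻¹` and `ψ` are nonunits of `V` then some `(u_j - c_1)/(u_j - c_0)` is a nonunit
so `u_j - c_1 ∈ nonunits V` (if `u_j - c_0 ∉ V` then both `u_j - c_i` are not in `V` and the quotient is a unit with residue 1; otherwise `u_j - c_1 ∈ V` is the product of ..., a nonunit), similarly `u_{j'} - c_0` is a nonunit; contradiction. The other case is symmetric. `ℂ((u-c_0)/(u-c_1)) = ℂ(u)` as `c_0 ≠ c_1`. So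
`[E : ℂ(∏)] = Σ_{u_j transcendental} [E : ℂ(u_j)]` (each finite; the partial products are transcendental because `E` is finite over `ℂ(φ)`).
-/

set_option autoImplicit false

open Module

namespace Pool.Agent.H861.CD

namespace T8aux

open Polynomial
open scoped Polynomial.Bivariate

/-- Gauss: the ideal of relations of an algebraic element over the fraction field is principal. -/
theorem gauss_rel {R K E : Type*} [CommRing R] [IsDomain R] [UniqueFactorizationMonoid R]
    [Field K] [Algebra R K] [IsFractionRing R K] [Field E] [Algebra K E] (y : E)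
    (hy : IsIntegral K y) :
    ∃ P : R[X], P ≠ 0 ∧ P.natDegree = (minpoly K y).natDegree ∧
      ∀ Q : R[X], aeval y (Q.map (algebraMap R K)) = 0 ↔ P ∣ Q := by
  classical
  let _ : NormalizedGCDMonoid R := Classical.arbitrary _
  set M := minpoly K y with hM
  have hM0 : M ≠ 0 := minpoly.ne_zero hy
  obtain ⟨b, hb, hN⟩ := IsLocalization.integerNormalization_spec (nonZeroDivisors R) M
  set N := IsLocalization.integerNormalization (nonZeroDivisors R) M with hNdef
  have hb0 : b ≠ 0 := nonZeroDivisors.ne_zero hb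
  have hinj : Function.Injective (algebraMap R K) := IsFractionRing.injective R K
  have hbK : (algebraMap R K b) ≠ 0 := by
    rw [Ne, map_eq_zero_iff _ hinj]; exact hb0
  have hN' : N.map (algebraMap R K) = C (algebraMap R K b) * M := by
    rw [hN, algebra_compatible_smul K b M, smul_eq_C_mul]
  have hN0 : N ≠ 0 := by
    intro h
    rw [h, Polynomial.map_zero] at hN'
    exact mul_ne_zero (by simpa using hbK) hM0 hN'.symm
  have hc0 : N.content ≠ 0 := by rwa [Ne, content_eq_zero_iff]
  have hcK : algebraMap R K N.content ≠ 0 := by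
    rw [Ne, map_eq_zero_iff _ hinj]; exact hc0
  have hfac := N.eq_C_content_mul_primPart
  have hfacK : C (algebraMap R K N.content) * N.primPart.map (algebraMap R K) =
      C (algebraMap R K b) * M := by
    rw [← hN']
    conv_rhs => rw [hfac]
    rw [Polynomial.map_mul, Polynomial.map_C]
  refine ⟨N.primPart, N.primPart_ne_zero, ?_, ?_⟩
  · have h1 : (N.map (algebraMap R K)).natDegree = N.natDegree :=
      natDegree_map_eq_of_injective hinj N
    rw [natDegree_primPart, ← h1, hN', natDegree_C_mul hbK]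
  · intro Q
    constructor
    · intro h
      apply N.isPrimitive_primPart.dvd_of_fraction_map_dvd_fraction_map (K := K)
      have h1 : M ∣ Q.map (algebraMap R K) := minpoly.dvd K y h
      have h2 : N.primPart.map (algebraMap R K) ∣ M := by
        refine ⟨C ((algebraMap R K b)⁻¹ * algebraMap R K N.content), ?_⟩
        have : M = C ((algebraMap R K b)⁻¹) * (C (algebraMap R K b) * M) := by
          rw [← mul_assoc, ← C_mul, inv_mul_cancel₀ hbK, C_1, one_mul]
        rw [this, ← hfacK, C_mul]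
        ring
      exact h2.trans h1
    · rintro ⟨S, rfl⟩
      have h1 : aeval y (N.primPart.map (algebraMap R K)) = 0 := by
        have := congrArg (aeval y) hfacK
        rw [map_mul, map_mul, minpoly.aeval, mul_zero, aeval_C] at this
        rcases mul_eq_zero.mp this with h | h
        · rw [map_eq_zero_iff _ (algebraMap K E).injective] at h
          exact absurd h hcK
        · exact h
      rw [Polynomial.map_mul, map_mul, h1, zero_mul]

variable {E : Type*} [Field E] [Algebra ℂ E]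

/-- the evaluation map -/
theorem ev_eq (x y : E) (Q : ℂ[X][Y]) :
    aevalAeval x y Q = aeval y (Q.map (aeval (R := ℂ) x).toRingHom) := by
  induction Q using Polynomial.induction_on' with
  | add p q hp hq => rw [map_add, hp, hq, Polynomial.map_add, map_add]
  | monomial n a => simp [← C_mul_X_pow_eq_monomial]

section K

variable (x : E)

/-- the algebra structure -/
@[reducible] noncomputable def algK : Algebra ℂ[X] (IntermediateField.adjoin ℂ {x}) :=
  (aeval (R := ℂ) (IntermediateField.AdjoinSimple.gen ℂ x)).toRingHom.toAlgebra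

theorem isFrac (hx : Transcendental ℂ x) :
    letI := algK x
    IsFractionRing ℂ[X] (IntermediateField.adjoin ℂ {x}) := by
  let _ := algK x
  have hval : ∀ p : ℂ[X], ((algebraMap ℂ[X] (IntermediateField.adjoin ℂ {x}) p :
      IntermediateField.adjoin ℂ {x}) : E) = aeval x p := by
    intro p
    change ((aeval (R := ℂ) (IntermediateField.AdjoinSimple.gen ℂ x) p :
      IntermediateField.adjoin ℂ {x}) : E) = aeval x p
    have := Polynomial.aeval_algHom_apply (IntermediateField.adjoin ℂ {x}).val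
      (IntermediateField.AdjoinSimple.gen ℂ x) p
    simp
  have : FaithfulSMul ℂ[X] (IntermediateField.adjoin ℂ {x}) := by
    rw [faithfulSMul_iff_algebraMap_injective]
    intro p q hpq
    have h1 : aeval x p = aeval x q := by rw [← hval, ← hval, hpq]
    exact transcendental_iff_injective.mp hx h1
  apply IsFractionRing.of_field
  intro z
  obtain ⟨r, s, hrs⟩ := IntermediateField.mem_adjoin_simple_iff ℂ z.1 |>.mp z.2
  refine ⟨r, s, ?_⟩
  apply Subtype.ext
  rw [hrs]
  push_cast
  rw [hval, hval]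

end K

theorem exists_rel (x y : E) (hx : Transcendental ℂ x)
    (hy : IsIntegral (IntermediateField.adjoin ℂ {x}) y) :
    ∃ P : ℂ[X][Y], P ≠ 0 ∧
      P.natDegree = (minpoly (IntermediateField.adjoin ℂ {x}) y).natDegree ∧
      ∀ Q : ℂ[X][Y], aevalAeval x y Q = 0 ↔ P ∣ Q := by
  let _ := algK x
  have := isFrac x hx
  obtain ⟨P, hP0, hPd, hP⟩ := gauss_rel (R := ℂ[X]) (K := IntermediateField.adjoin ℂ {x}) y hy
  refine ⟨P, hP0, hPd, fun Q => ?_⟩
  rw [← hP Q]
  have : aevalAeval x y Q = aeval y (Q.map (algebraMap ℂ[X] (IntermediateField.adjoin ℂ {x}))) := by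
    rw [ev_eq, aeval_def, eval₂_map, aeval_def, eval₂_map]
    congr 1
    ext1
    · ext a
      simp only [RingHom.comp_apply, RingHom.algebraMap_toAlgebra, AlgHom.toRingHom_eq_coe,
        RingHom.coe_coe, aeval_C]
      rfl
    · simp only [RingHom.comp_apply, RingHom.algebraMap_toAlgebra, AlgHom.toRingHom_eq_coe,
        RingHom.coe_coe, aeval_X]
      rfl
  rw [this]

theorem isIntegral_of_rel (x y : E) (hx : Transcendental ℂ x) (P : ℂ[X][Y]) (hP0 : P ≠ 0)
    (hP : aevalAeval x y P = 0) : IsIntegral (IntermediateField.adjoin ℂ {x}) y := by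
  let _ := algK x
  have := isFrac x hx
  rw [← isAlgebraic_iff_isIntegral]
  refine ⟨P.map (algebraMap ℂ[X] (IntermediateField.adjoin ℂ {x})), ?_, ?_⟩
  · rw [Ne, Polynomial.map_eq_zero_iff (IsFractionRing.injective _ _)]
    exact hP0
  · rw [← hP, ev_eq, aeval_def, eval₂_map, aeval_def, eval₂_map]
    congr 1
    ext1
    · ext a
      simp only [RingHom.comp_apply, RingHom.algebraMap_toAlgebra, AlgHom.toRingHom_eq_coe,
        RingHom.coe_coe, aeval_C]
      rfl
    · simp only [RingHom.comp_apply, RingHom.algebraMap_toAlgebra, AlgHom.toRingHom_eq_coe,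
        RingHom.coe_coe, aeval_X]
      rfl

/-- degree formula -/
theorem finrank_rel (x y : E) (hx : Transcendental ℂ x) (P : ℂ[X][Y]) (hP0 : P ≠ 0)
    (hP : ∀ Q : ℂ[X][Y], aevalAeval x y Q = 0 ↔ P ∣ Q) :
    finrank (IntermediateField.adjoin ℂ {x}) E =
      P.natDegree * finrank (IntermediateField.adjoin ℂ {x, y}) E := by
  have hy := isIntegral_of_rel x y hx P hP0 ((hP P).mpr dvd_rfl)
  obtain ⟨P', hP'0, hPd, hP'⟩ := exists_rel x y hx hy
  have hPP : P.natDegree = P'.natDegree := by
    apply natDegree_eq_of_degree_eq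
    apply degree_eq_degree_of_associated
    exact associated_of_dvd_dvd ((hP P').mp ((hP' P').mpr dvd_rfl))
      ((hP' P).mp ((hP P).mpr dvd_rfl))
  have h1 := Module.finrank_mul_finrank (IntermediateField.adjoin ℂ {x})
    (IntermediateField.adjoin (IntermediateField.adjoin ℂ {x}) {y}) E
  rw [IntermediateField.adjoin.finrank hy, ← hPd, ← hPP] at h1
  rw [← h1]
  congr 1
  have h2 := IntermediateField.adjoin_adjoin_left ℂ {x} ({y} : Set E)
  have h3 : ({x, y} : Set E) = {x} ∪ {y} := rfl
  rw [h3, ← h2]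
  rfl

theorem coeff_swap (F : ℂ[X][Y]) (i j : ℕ) :
    ((Bivariate.swap F).coeff i).coeff j = (F.coeff j).coeff i := by
  induction F using Polynomial.induction_on' with
  | add p q hp hq => simp only [map_add, coeff_add, hp, hq]
  | monomial n a =>
    induction a using Polynomial.induction_on' with
    | add p q hp hq => simp only [map_add, coeff_add, hp, hq]
    | monomial m r =>
      rw [Bivariate.swap_monomial_monomial]
      simp only [coeff_monomial]
      by_cases h1 : m = i <;> by_cases h2 : n = j <;> simp [h1, h2, coeff_monomial]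

theorem natDegree_coeff_le (F : ℂ[X][Y]) (j : ℕ) :
    (F.coeff j).natDegree ≤ (Bivariate.swap F).natDegree := by
  rw [natDegree_le_iff_coeff_eq_zero]
  intro i hi
  rw [← coeff_swap, coeff_eq_zero_of_natDegree_lt hi, coeff_zero]

/-- Chevalley -/
theorem chev (x y : E) (h : ∀ V : ValuationSubring E, (∀ c : ℂ, algebraMap ℂ E c ∈ V) →
      ¬ (x ∈ V.nonunits ∧ y ∈ V.nonunits)) :
    ∃ F : ℂ[X][Y], aevalAeval x y F = 0 ∧ (F.coeff 0).coeff 0 = 1 := by
  set A : Subring E := (aevalAeval x y : ℂ[X][Y] →ₐ[ℂ] E).range.toSubring with hA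
  have hxA : x ∈ A := ⟨C X, by simp⟩
  have hyA : y ∈ A := ⟨Y, by simp⟩
  have htop : Ideal.span {(⟨x, hxA⟩ : A), ⟨y, hyA⟩} = ⊤ := by
    by_contra hne
    obtain ⟨V, hAV, hV⟩ := Ideal.image_subset_nonunits_valuationSubring _ hne
    refine h V (fun c => hAV ⟨C (C c), by simp⟩) ⟨?_, ?_⟩
    · exact hV ⟨⟨x, hxA⟩, Ideal.subset_span (by simp), rfl⟩
    · exact hV ⟨⟨y, hyA⟩, Ideal.subset_span (by simp), rfl⟩
  have h1 : (1 : A) ∈ Ideal.span {(⟨x, hxA⟩ : A), ⟨y, hyA⟩} := by rw [htop]; trivial
  rw [Ideal.mem_span_pair] at h1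
  obtain ⟨⟨a, α, hα⟩, ⟨b, β, hβ⟩, hab⟩ := h1
  have hab' : a * x + b * y = 1 := congrArg Subtype.val hab
  refine ⟨1 - α * C X - β * Y, ?_, ?_⟩
  · have hα' : aevalAeval x y α = a := hα
    have hβ' : aevalAeval x y β = b := hβ
    rw [map_sub, map_sub, map_one, map_mul, map_mul, hα', hβ', aevalAeval_X, aevalAeval_Y, ← hab']
    ring
  · simp [coeff_sub, mul_coeff_zero]

/-- reflection in the outer variable -/
theorem ev_reflect (x y : E) (hy : y ≠ 0) (N : ℕ) (F : ℂ[X][Y]) (hF : F.natDegree ≤ N)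
    (h : aevalAeval x y⁻¹ F = 0) : aevalAeval x y (reflect N F) = 0 := by
  rw [ev_eq, aeval_def, eval₂_map] at h ⊢
  let _ : Invertible y⁻¹ := ⟨y, by rw [mul_inv_cancel₀ hy], by rw [inv_mul_cancel₀ hy]⟩
  have h2 := (eval₂_reflect_eq_zero_iff ((algebraMap E E).comp (aeval (R := ℂ) x).toRingHom) y⁻¹
    N F hF).mpr h
  exact h2

/-- the top corner -/
theorem corner (x y : E) (hx : x ≠ 0) (hy : y ≠ 0) (P : ℂ[X][Y])
    (hP : ∀ Q : ℂ[X][Y], aevalAeval x y Q = 0 ↔ P ∣ Q)
    (F : ℂ[X][Y]) (hF : aevalAeval x⁻¹ y⁻¹ F = 0) (hF0 : (F.coeff 0).coeff 0 = 1) :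
    P.leadingCoeff.natDegree = (Bivariate.swap P).natDegree := by
  set N := F.natDegree with hN
  set G₁ := reflect N F with hG₁
  have e1 : aevalAeval x⁻¹ y G₁ = 0 := ev_reflect _ _ hy N F le_rfl hF
  have e2 : aevalAeval y x⁻¹ (Bivariate.swap G₁) = 0 := by
    rw [Bivariate.aevalAeval_swap]; exact e1
  set M := (Bivariate.swap G₁).natDegree with hM
  have e3 : aevalAeval y x (reflect M (Bivariate.swap G₁)) = 0 := ev_reflect _ _ hx M _ le_rfl e2
  set G := Bivariate.swap (reflect M (Bivariate.swap G₁)) with hG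
  have e4 : aevalAeval x y G = 0 := by
    rw [hG, Bivariate.aevalAeval_swap]; exact e3
  have hcoef : ∀ i j, (G.coeff j).coeff i = (F.coeff (revAt N j)).coeff (revAt M i) := by
    intro i j
    rw [hG, coeff_swap, coeff_reflect, coeff_swap, hG₁, coeff_reflect]
  have hswG : Bivariate.swap G = reflect M (Bivariate.swap G₁) := by
    rw [hG, Bivariate.swap_swap_apply]
  have hMc : (G.coeff N).coeff M = 1 := by
    rw [hcoef, revAt_le le_rfl, revAt_le le_rfl, Nat.sub_self, Nat.sub_self, hF0]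
  have hGN : G.natDegree = N := by
    apply le_antisymm
    · rw [natDegree_le_iff_coeff_eq_zero]
      intro j hj
      ext i
      rw [hcoef, revAt_eq_self_of_lt hj, coeff_eq_zero_of_natDegree_lt (by omega : F.natDegree < j),
        coeff_zero, coeff_zero]
    · apply le_natDegree_of_ne_zero
      intro h
      rw [h, coeff_zero] at hMc
      exact zero_ne_one hMc
  have hGM : (Bivariate.swap G).natDegree = M := by
    apply le_antisymm
    · rw [hswG]
      refine natDegree_reflect_le.trans ?_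
      simp [hM]
    · apply le_natDegree_of_ne_zero
      intro h
      have : ((Bivariate.swap G).coeff M).coeff N = 1 := by rw [coeff_swap]; exact hMc
      rw [h, coeff_zero] at this
      exact zero_ne_one this
  obtain ⟨H, hH⟩ := (hP G).mp e4
  have hG0 : G ≠ 0 := by
    intro h
    rw [h, coeff_zero, coeff_zero] at hMc
    exact zero_ne_one hMc
  have hP0 : P ≠ 0 := by rintro rfl; rw [zero_mul] at hH; exact hG0 hH
  have hH0 : H ≠ 0 := by rintro rfl; rw [mul_zero] at hH; exact hG0 hH
  have hlc : G.coeff N = P.leadingCoeff * H.leadingCoeff := by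
    rw [← leadingCoeff_mul, ← hH, leadingCoeff, hGN]
  have hdeg : (G.coeff N).natDegree = P.leadingCoeff.natDegree + H.leadingCoeff.natDegree := by
    rw [hlc, natDegree_mul (leadingCoeff_ne_zero.mpr hP0) (leadingCoeff_ne_zero.mpr hH0)]
  have hge : M ≤ (G.coeff N).natDegree := by
    apply le_natDegree_of_ne_zero
    rw [hMc]; exact one_ne_zero
  have hsw : (Bivariate.swap G).natDegree =
      (Bivariate.swap P).natDegree + (Bivariate.swap H).natDegree := by
    rw [hH, map_mul, natDegree_mul]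
    · rw [Ne, EmbeddingLike.map_eq_zero_iff]; exact hP0
    · rw [Ne, EmbeddingLike.map_eq_zero_iff]; exact hH0
  have h1 := natDegree_coeff_le P P.natDegree
  have h2 := natDegree_coeff_le H H.natDegree
  rw [coeff_natDegree] at h1 h2
  omega

/-- the substitution `X ↦ T Z`, `Y ↦ Z` -/
noncomputable def rho : ℂ[X][Y] →ₐ[ℂ] ℂ[X][Y] := aevalAeval (C X * Y) Y

theorem rho_X : rho (C X : ℂ[X][Y]) = C X * Y := by
  unfold rho
  rw [aevalAeval_X]

theorem rho_Y : rho (Y : ℂ[X][Y]) = Y := by
  unfold rho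
  rw [aevalAeval_Y]

theorem ev_rho (x y : E) (F : ℂ[X][Y]) : aevalAeval x y (rho F) = aevalAeval (x * y) y F := by
  have : (aevalAeval x y : ℂ[X][Y] →ₐ[ℂ] E).comp rho = aevalAeval (x * y) y := by
    apply (aevalAevalEquiv ℂ E).symm.injective
    apply Prod.ext
    · simp only [aevalAevalEquiv_symm_apply, AlgHom.comp_apply, rho_X, map_mul, aevalAeval_X,
        aevalAeval_Y]
    · simp only [aevalAevalEquiv_symm_apply, AlgHom.comp_apply, rho_Y, aevalAeval_Y]
  exact congrArg (fun f => f F) this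

theorem rho_C (a : ℂ[X]) : rho (C a) = (a.map C).comp (C X * Y) := by
  unfold rho
  rw [aevalAeval_C, aeval_def, comp, eval₂_map]
  rfl

theorem natDegree_rho_C (a : ℂ[X]) : (rho (C a)).natDegree = a.natDegree := by
  rw [rho_C, natDegree_comp, natDegree_map_eq_of_injective (C_injective)]
  rw [natDegree_C_mul X_ne_zero, natDegree_X, mul_one]

theorem natDegree_rho (P : ℂ[X][Y]) (hP0 : P ≠ 0)
    (h : P.leadingCoeff.natDegree = (Bivariate.swap P).natDegree) :
    (rho P).natDegree = P.natDegree + (Bivariate.swap P).natDegree := by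
  have hinj : ∀ a : ℂ[X], a ≠ 0 → rho (C a) ≠ 0 := by
    intro a ha h0
    rw [rho_C] at h0
    rcases comp_eq_zero_iff.mp h0 with h1 | ⟨_, h2⟩
    · exact ha ((Polynomial.map_eq_zero_iff C_injective).mp h1)
    · have := congrArg natDegree h2
      rw [natDegree_C_mul X_ne_zero, natDegree_X, natDegree_C] at this
      exact one_ne_zero this
  have hterm : ∀ (a : ℂ[X]) (n : ℕ), a ≠ 0 → (rho (C a * Y ^ n)).natDegree = a.natDegree + n := by
    intro a n ha
    rw [map_mul, map_pow, rho_Y, natDegree_mul (hinj a ha) (pow_ne_zero _ X_ne_zero),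
      natDegree_rho_C, natDegree_X_pow]
  have hlead : (rho (C P.leadingCoeff * Y ^ P.natDegree)).natDegree =
      P.natDegree + (Bivariate.swap P).natDegree := by
    rw [hterm _ _ (leadingCoeff_ne_zero.mpr hP0), h, add_comm]
  have hle : ∀ (Q : ℂ[X][Y]) (m : ℕ), (∀ j ∈ Q.support, (Q.coeff j).natDegree + j ≤ m) →
      (rho Q).natDegree ≤ m := by
    intro Q m hQ
    conv_lhs => rw [Q.as_sum_support_C_mul_X_pow, map_sum]
    apply natDegree_sum_le_of_forall_le
    intro j hj
    rw [hterm _ _ (mem_support_iff.mp hj)]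
    exact hQ j hj
  rw [← hlead]
  conv_lhs => rw [← eraseLead_add_C_mul_X_pow P, map_add]
  by_cases hn : P.natDegree = 0
  · have : P.eraseLead = 0 := by
      rw [eq_C_of_natDegree_eq_zero hn, eraseLead_C]
    rw [this, map_zero, zero_add]
  · apply natDegree_add_eq_right_of_natDegree_lt
    rw [hlead]
    refine lt_of_le_of_lt (hle P.eraseLead (P.natDegree - 1 + (Bivariate.swap P).natDegree) ?_)
      (by omega)
    intro j hj
    have hj1 : j < P.natDegree := by
      have := lt_natDegree_of_mem_eraseLead_support hj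
      exact this
    have hj2 : P.eraseLead.coeff j = P.coeff j := eraseLead_coeff_of_ne _ hj1.ne
    rw [hj2]
    have := natDegree_coeff_le P j
    omega

theorem exists_pow_mul (R : ℂ[X][Y]) : ∃ (N : ℕ) (S : ℂ[X][Y]), rho S = Y ^ N * R := by
  have hadd : ∀ p q : ℂ[X][Y], (∃ (N : ℕ) (S : ℂ[X][Y]), rho S = Y ^ N * p) →
      (∃ (N : ℕ) (S : ℂ[X][Y]), rho S = Y ^ N * q) →
      ∃ (N : ℕ) (S : ℂ[X][Y]), rho S = Y ^ N * (p + q) := by
    rintro p q ⟨N, S, h⟩ ⟨N', S', h'⟩
    refine ⟨N + N', S * Y ^ N' + S' * Y ^ N, ?_⟩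
    rw [map_add, map_mul, map_mul, map_pow, map_pow, rho_Y, h, h']
    ring
  have hmul : ∀ p q : ℂ[X][Y], (∃ (N : ℕ) (S : ℂ[X][Y]), rho S = Y ^ N * p) →
      (∃ (N : ℕ) (S : ℂ[X][Y]), rho S = Y ^ N * q) →
      ∃ (N : ℕ) (S : ℂ[X][Y]), rho S = Y ^ N * (p * q) := by
    rintro p q ⟨N, S, h⟩ ⟨N', S', h'⟩
    refine ⟨N + N', S * S', ?_⟩
    rw [map_mul, h, h']
    ring
  have hX : ∃ (N : ℕ) (S : ℂ[X][Y]), rho S = Y ^ N * C X :=
    ⟨1, C X, by rw [rho_X]; ring⟩
  have hY : ∃ (N : ℕ) (S : ℂ[X][Y]), rho S = Y ^ N * Y := ⟨0, Y, by rw [rho_Y]; simp⟩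
  have hC : ∀ c : ℂ, ∃ (N : ℕ) (S : ℂ[X][Y]), rho S = Y ^ N * C (C c) :=
    fun c => ⟨0, C (C c), by
      have : rho (C (C c)) = C (C c) := by
        unfold rho
        rw [aevalAeval_C, aeval_C]
        rfl
      rw [this, pow_zero, one_mul]⟩
  have hCp : ∀ a : ℂ[X], ∃ (N : ℕ) (S : ℂ[X][Y]), rho S = Y ^ N * C a := by
    intro a
    induction a using Polynomial.induction_on with
    | C c => exact hC c
    | add p q hp hq => rw [C_add]; exact hadd _ _ hp hq
    | monomial n c h => rw [pow_succ, ← mul_assoc, C_mul]; exact hmul _ _ h hX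
  induction R using Polynomial.induction_on with
  | C a => exact hCp a
  | add p q hp hq => exact hadd _ _ hp hq
  | monomial n c h => rw [pow_succ, ← mul_assoc]; exact hmul _ _ h hY

theorem rho_coeff_zero (F : ℂ[X][Y]) : (rho F).coeff 0 = C ((F.coeff 0).coeff 0) := by
  induction F using Polynomial.induction_on' with
  | add p q hp hq => simp only [map_add, coeff_add, hp, hq]
  | monomial n a =>
    have h2 : (rho (C a)).coeff 0 = C (a.coeff 0) := by
      rw [rho_C, coeff_zero_eq_eval_zero, eval_comp]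
      simp [coeff_zero_eq_eval_zero, eval_map]
    rw [← C_mul_X_pow_eq_monomial, map_mul, map_pow, rho_Y, mul_coeff_zero, h2,
      mul_coeff_zero, coeff_C_zero]
    rcases Nat.eq_zero_or_pos n with hn | hn
    · subst hn
      simp
    · simp [coeff_X_pow, hn.ne]

theorem rho_rel (θ y : E) (P : ℂ[X][Y])
    (hP : ∀ Q : ℂ[X][Y], aevalAeval (θ * y) y Q = 0 ↔ P ∣ Q) (h00 : (P.coeff 0).coeff 0 ≠ 0) :
    ∀ Q : ℂ[X][Y], aevalAeval θ y Q = 0 ↔ rho P ∣ Q := by
  have hc0 : (rho P).coeff 0 = C ((P.coeff 0).coeff 0) := rho_coeff_zero P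
  have hcop : IsCoprime (rho P) Y := by
    obtain ⟨D, h1⟩ : ∃ D, rho P = C (C ((P.coeff 0).coeff 0)) + Y * D := by
      refine ⟨(rho P).divX, ?_⟩
      conv_lhs => rw [← divX_mul_X_add (rho P), hc0]
      ring
    refine ⟨C (C ((P.coeff 0).coeff 0)⁻¹), - C (C ((P.coeff 0).coeff 0)⁻¹) * D, ?_⟩
    rw [h1]
    have h2 : C (C ((P.coeff 0).coeff 0)⁻¹) * C (C ((P.coeff 0).coeff 0)) = (1 : ℂ[X][Y]) := by
      rw [← C_mul, ← C_mul, inv_mul_cancel₀ h00, C_1, C_1]
    linear_combination h2
  intro Q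
  constructor
  · intro hQ
    obtain ⟨N, S, hS⟩ := exists_pow_mul Q
    have h1 : aevalAeval (θ * y) y S = 0 := by
      rw [← ev_rho, hS, map_mul, hQ, mul_zero]
    obtain ⟨H, rfl⟩ := (hP S).mp h1
    have h2 : rho P ∣ Y ^ N * Q := by rw [← hS, map_mul]; exact dvd_mul_right _ _
    exact (hcop.pow_right).dvd_of_dvd_mul_left h2
  · rintro ⟨H, rfl⟩
    rw [map_mul, ev_rho, (hP P).mpr dvd_rfl, zero_mul]

theorem const_of_alg (z : E) (h : IsAlgebraic ℂ z) : ∃ c : ℂ, algebraMap ℂ E c = z :=
  minpoly.mem_range_of_degree_eq_one ℂ z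
    (IsAlgClosed.degree_eq_one_of_irreducible ℂ (minpoly.irreducible h.isIntegral))

theorem biv_induction (p : ℂ[X][Y] → Prop) (hC : ∀ c, p (C (C c))) (hX : p (C X)) (hY : p Y)
    (hadd : ∀ F G, p F → p G → p (F + G)) (hmul : ∀ F G, p F → p G → p (F * G)) : ∀ F, p F := by
  intro F
  have hCp : ∀ a : ℂ[X], p (C a) := by
    intro a
    induction a using Polynomial.induction_on with
    | C c => exact hC c
    | add p q hp hq => rw [C_add]; exact hadd _ _ hp hq
    | monomial n c h => rw [pow_succ, ← mul_assoc, C_mul]; exact hmul _ _ h hX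
  induction F using Polynomial.induction_on with
  | C a => exact hCp a
  | add p q hp hq => exact hadd _ _ hp hq
  | monomial n c h => rw [pow_succ, ← mul_assoc]; exact hmul _ _ h hY

theorem ev00 (F : ℂ[X][Y]) : aevalAeval (0 : ℂ) 0 F = (F.coeff 0).coeff 0 := by
  induction F using biv_induction with
  | hC c => simp
  | hX => simp
  | hY => simp
  | hadd F G hF hG => rw [map_add, hF, hG, coeff_add, coeff_add]
  | hmul F G hF hG => rw [map_mul, hF, hG, mul_coeff_zero, mul_coeff_zero]

theorem algHom_ev {A B : Type*} [CommRing A] [CommRing B] [Algebra ℂ A] [Algebra ℂ B]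
    (f : A →ₐ[ℂ] B) (x y : A) (F : ℂ[X][Y]) :
    f (aevalAeval x y F) = aevalAeval (f x) (f y) F := by
  have : f.comp (aevalAeval x y : ℂ[X][Y] →ₐ[ℂ] A) = aevalAeval (f x) (f y) := by
    apply (aevalAevalEquiv ℂ B).symm.injective
    apply Prod.ext
    · simp only [aevalAevalEquiv_symm_apply, AlgHom.comp_apply, aevalAeval_X]
    · simp only [aevalAevalEquiv_symm_apply, AlgHom.comp_apply, aevalAeval_Y]
  exact congrArg (fun g => g F) this

theorem finrank_mul_aux (φ ψ : E) (hφ : Transcendental ℂ φ)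
    (hψ : Transcendental ℂ ψ) (hfin : FiniteDimensional (IntermediateField.adjoin ℂ {φ}) E)
    (hv₁ : ∀ V : ValuationSubring E, (∀ c : ℂ, algebraMap ℂ E c ∈ V) →
      ¬ (φ⁻¹ ∈ V.nonunits ∧ ψ ∈ V.nonunits))
    (hv₂ : ∀ V : ValuationSubring E, (∀ c : ℂ, algebraMap ℂ E c ∈ V) →
      ¬ (φ ∈ V.nonunits ∧ ψ⁻¹ ∈ V.nonunits)) :
    Transcendental ℂ (φ * ψ) ∧ finrank (IntermediateField.adjoin ℂ {φ * ψ}) E =
      finrank (IntermediateField.adjoin ℂ {φ}) E + finrank (IntermediateField.adjoin ℂ {ψ}) E := by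
  have hφ0 : φ ≠ 0 := by rintro rfl; exact hφ isAlgebraic_zero
  have hψ0 : ψ ≠ 0 := by rintro rfl; exact hψ isAlgebraic_zero
  obtain ⟨η, hη⟩ : ∃ η, η = ψ⁻¹ := ⟨_, rfl⟩
  rw [← hη] at hv₂
  have hψη : ψ = η⁻¹ := by rw [hη, inv_inv]
  have hη0 : η ≠ 0 := by rw [hη]; exact inv_ne_zero hψ0
  have hηt : Transcendental ℂ η := by
    intro h
    apply hψ
    rw [hψη]
    exact h.inv
  obtain ⟨P, hP0, hPd, hP⟩ := exists_rel φ η hφ (Algebra.IsIntegral.isIntegral η)
  obtain ⟨F₂, hF₂, hF₂0⟩ := chev φ η hv₂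
  obtain ⟨F₁, hF₁, hF₁0⟩ := chev φ⁻¹ η⁻¹ (by rw [← hψη]; exact hv₁)
  have h00 : (P.coeff 0).coeff 0 ≠ 0 := by
    obtain ⟨H, hH⟩ := (hP F₂).mp hF₂
    intro h
    rw [hH, mul_coeff_zero, mul_coeff_zero, h, zero_mul] at hF₂0
    exact zero_ne_one hF₂0
  have hcor := corner φ η hφ0 hη0 P hP F₁ hF₁ hF₁0
  have hΘη : φ * ψ * η = φ := by rw [hψη, mul_assoc, inv_mul_cancel₀ hη0, mul_one]
  have hΘ : Transcendental ℂ (φ * ψ) := by
    intro halg
    obtain ⟨c, hc⟩ := const_of_alg _ halg
    apply hηt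
    refine ⟨aevalAeval (C c * X : ℂ[X]) (X : ℂ[X]) F₂, ?_, ?_⟩
    · intro h
      have h1 := congrArg (aeval (0 : ℂ)) h
      rw [algHom_ev, map_zero] at h1
      simp only [map_mul, aeval_C, aeval_X, mul_zero] at h1
      rw [ev00, hF₂0] at h1
      exact one_ne_zero h1
    · rw [algHom_ev, map_mul, aeval_C, aeval_X, hc, hΘη, hF₂]
  have hQ := rho_rel (φ * ψ) η P (by rw [hΘη]; exact hP) h00
  have hsw0 : Bivariate.swap P ≠ 0 := by
    rw [Ne, EmbeddingLike.map_eq_zero_iff]; exact hP0
  have hrho0 : rho P ≠ 0 := by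
    intro h
    have := rho_coeff_zero P
    rw [h, coeff_zero, eq_comm, C_eq_zero] at this
    exact h00 this
  have hsw : ∀ Q : ℂ[X][Y], aevalAeval η φ Q = 0 ↔ Bivariate.swap P ∣ Q := by
    intro Q
    rw [← Bivariate.swap_swap_apply Q, Bivariate.aevalAeval_swap, hP, map_dvd_iff]
  have e1 := finrank_rel φ η hφ P hP0 hP
  have e2 := finrank_rel η φ hηt (Bivariate.swap P) hsw0 hsw
  have e3 := finrank_rel (φ * ψ) η hΘ (rho P) hrho0 hQ
  have f1 : IntermediateField.adjoin ℂ {ψ} = IntermediateField.adjoin ℂ {η} := by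
    apply le_antisymm
    · rw [IntermediateField.adjoin_simple_le_iff, hψη]
      exact inv_mem (IntermediateField.mem_adjoin_simple_self ℂ η)
    · rw [IntermediateField.adjoin_simple_le_iff, hη]
      exact inv_mem (IntermediateField.mem_adjoin_simple_self ℂ ψ)
  have f2 : IntermediateField.adjoin ℂ {φ * ψ, η} = IntermediateField.adjoin ℂ {φ, η} := by
    apply le_antisymm
    · rw [IntermediateField.adjoin_le_iff]
      have h1 : φ ∈ IntermediateField.adjoin ℂ {φ, η} :=
        IntermediateField.subset_adjoin _ _ (by simp)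
      have h2 : η ∈ IntermediateField.adjoin ℂ {φ, η} :=
        IntermediateField.subset_adjoin _ _ (by simp)
      intro z hz
      simp only [Set.mem_insert_iff, Set.mem_singleton_iff] at hz
      rcases hz with rfl | rfl
      · rw [hψη]
        exact mul_mem h1 (inv_mem h2)
      · exact h2
    · rw [IntermediateField.adjoin_le_iff]
      have h1 : φ * ψ ∈ IntermediateField.adjoin ℂ {φ * ψ, η} :=
        IntermediateField.subset_adjoin _ _ (by simp)
      have h2 : η ∈ IntermediateField.adjoin ℂ {φ * ψ, η} :=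
        IntermediateField.subset_adjoin _ _ (by simp)
      intro z hz
      simp only [Set.mem_insert_iff, Set.mem_singleton_iff] at hz
      rcases hz with rfl | rfl
      · have := mul_mem h1 h2
        rw [hΘη] at this
        exact this
      · exact h2
  have f3 : ({η, φ} : Set E) = {φ, η} := Set.pair_comm _ _
  refine ⟨hΘ, ?_⟩
  rw [f1, e1, e2, e3, f2, f3, natDegree_rho P hP0 hcor]
  ring

/-- valuations of constants -/
theorem val_const (V : ValuationSubring E) (hV : ∀ c : ℂ, algebraMap ℂ E c ∈ V) (c : ℂ)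
    (hc : c ≠ 0) : V.valuation (algebraMap ℂ E c) = 1 := by
  have h1 : V.valuation (algebraMap ℂ E c) ≤ 1 := (V.valuation_le_one_iff _).mpr (hV c)
  have h2 : V.valuation (algebraMap ℂ E c⁻¹) ≤ 1 := (V.valuation_le_one_iff _).mpr (hV c⁻¹)
  have h3 : V.valuation (algebraMap ℂ E c) * V.valuation (algebraMap ℂ E c⁻¹) = 1 := by
    rw [← map_mul, ← map_mul, mul_inv_cancel₀ hc, map_one, map_one]
  apply le_antisymm h1
  by_contra hlt
  rw [not_le] at hlt
  have : V.valuation (algebraMap ℂ E c) * V.valuation (algebraMap ℂ E c⁻¹) < 1 :=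
    mul_lt_one_of_lt_of_le hlt h2
  rw [h3] at this
  exact lt_irrefl _ this

theorem val_le (V : ValuationSubring E) (hV : ∀ c : ℂ, algebraMap ℂ E c ∈ V) (c : ℂ) :
    V.valuation (algebraMap ℂ E c) ≤ 1 := (V.valuation_le_one_iff _).mpr (hV c)

theorem residue (V : ValuationSubring E) (hV : ∀ c : ℂ, algebraMap ℂ E c ∈ V) (x y : E) (a b : ℂ)
    (hx : x - algebraMap ℂ E a ∈ V.nonunits) (hy : y - algebraMap ℂ E b ∈ V.nonunits)
    (F : ℂ[X][Y]) : V.valuation (aevalAeval x y F - algebraMap ℂ E (aevalAeval a b F)) < 1 := by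
  rw [ValuationSubring.mem_nonunits_iff] at hx hy
  induction F using biv_induction with
  | hC c => simp
  | hX => simpa using hx
  | hY => simpa using hy
  | hadd F G hF hG =>
    have : aevalAeval x y (F + G) - algebraMap ℂ E (aevalAeval a b (F + G)) =
        (aevalAeval x y F - algebraMap ℂ E (aevalAeval a b F)) +
        (aevalAeval x y G - algebraMap ℂ E (aevalAeval a b G)) := by
      rw [map_add, map_add, map_add]; ring
    rw [this]
    exact lt_of_le_of_lt (Valuation.map_add _ _ _) (max_lt hF hG)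
  | hmul F G hF hG =>
    have : aevalAeval x y (F * G) - algebraMap ℂ E (aevalAeval a b (F * G)) =
        (aevalAeval x y F - algebraMap ℂ E (aevalAeval a b F)) *
          ((aevalAeval x y G - algebraMap ℂ E (aevalAeval a b G)) +
            algebraMap ℂ E (aevalAeval a b G)) +
        algebraMap ℂ E (aevalAeval a b F) *
          (aevalAeval x y G - algebraMap ℂ E (aevalAeval a b G)) := by
      rw [map_mul, map_mul, map_mul]; ring
    rw [this]
    refine lt_of_le_of_lt (Valuation.map_add _ _ _) (max_lt ?_ ?_)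
    · rw [map_mul]
      refine mul_lt_one_of_lt_of_le hF ?_
      exact (Valuation.map_add _ _ _).trans (max_le hG.le (val_le V hV _))
    · rw [map_mul, mul_comm]
      exact mul_lt_one_of_lt_of_le hG (val_le V hV _)

/-- polynomials excluding bad pairs -/
theorem pair_poly (x y : E)
    (hx : Transcendental ℂ x → FiniteDimensional (IntermediateField.adjoin ℂ {x}) E) :
    ∃ B : ℂ[X][Y], B ≠ 0 ∧ ∀ a b : ℂ, aevalAeval a b B ≠ 0 →
      ∀ V : ValuationSubring E, (∀ z : ℂ, algebraMap ℂ E z ∈ V) →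
        ¬ (x - algebraMap ℂ E a ∈ V.nonunits ∧ y - algebraMap ℂ E b ∈ V.nonunits) := by
  by_cases h : Transcendental ℂ x
  · have := hx h
    obtain ⟨P, hP0, -, hP⟩ := exists_rel x y h (Algebra.IsIntegral.isIntegral y)
    refine ⟨P, hP0, fun a b hab V hV hn => ?_⟩
    have h1 := residue V hV x y a b hn.1 hn.2 P
    rw [(hP P).mpr dvd_rfl, zero_sub, Valuation.map_neg, val_const V hV _ hab] at h1
    exact lt_irrefl _ h1
  · rw [Transcendental, not_not] at h
    obtain ⟨c, hc⟩ := const_of_alg x h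
    refine ⟨C X - C (C c), ?_, fun a b hab V hV hn => ?_⟩
    · rw [← C_sub, Ne, C_eq_zero]
      exact X_sub_C_ne_zero c
    · have h1 := hn.1
      rw [ValuationSubring.mem_nonunits_iff, ← hc, ← map_sub] at h1
      have h2 : c - a ≠ 0 := by
        intro h3
        apply hab
        rw [sub_eq_zero.mp h3]
        simp
      rw [val_const V hV _ h2] at h1
      exact lt_irrefl _ h1

theorem single_poly (x : E) :
    ∃ B : ℂ[X][Y], B ≠ 0 ∧ ∀ a b : ℂ, aevalAeval a b B ≠ 0 →
      x ≠ algebraMap ℂ E a ∧ x ≠ algebraMap ℂ E b := by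
  by_cases h : Transcendental ℂ x
  · refine ⟨1, one_ne_zero, fun a b _ => ⟨?_, ?_⟩⟩ <;>
    · rintro rfl
      exact h (isAlgebraic_algebraMap _)
  · rw [Transcendental, not_not] at h
    obtain ⟨c, hc⟩ := const_of_alg x h
    refine ⟨C (X - C c) * (Y - C (C c)), ?_, fun a b hab => ?_⟩
    · refine mul_ne_zero ?_ (X_sub_C_ne_zero _)
      rw [Ne, C_eq_zero]
      exact X_sub_C_ne_zero c
    · rw [map_mul, aevalAeval_C, map_sub, map_sub, aevalAeval_Y, aevalAeval_C, aeval_X, aeval_C] at hab
      simp only [Algebra.algebraMap_self, RingHom.id_apply] at hab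
      constructor
      · rintro h1
        apply hab
        rw [← hc] at h1
        rw [(algebraMap ℂ E).injective h1, sub_self, zero_mul]
      · rintro h1
        apply hab
        rw [← hc] at h1
        rw [(algebraMap ℂ E).injective h1, sub_self, mul_zero]

/-- Möbius -/
theorem mob (u : E) (a b : ℂ) (hab : a ≠ b) (hub : u ≠ algebraMap ℂ E b) :
    IntermediateField.adjoin ℂ {(u - algebraMap ℂ E a) / (u - algebraMap ℂ E b)} =
      IntermediateField.adjoin ℂ {u} := by
  have hne : u - algebraMap ℂ E b ≠ 0 := sub_ne_zero.mpr hub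
  set w := (u - algebraMap ℂ E a) / (u - algebraMap ℂ E b) with hw
  have hw1 : w - 1 ≠ 0 := by
    intro h
    have h1 : w = 1 := sub_eq_zero.mp h
    rw [hw, div_eq_one_iff_eq hne] at h1
    apply hab
    exact (algebraMap ℂ E).injective (by linear_combination -h1)
  apply le_antisymm
  · rw [IntermediateField.adjoin_simple_le_iff]
    have h1 := IntermediateField.mem_adjoin_simple_self ℂ u
    exact div_mem (sub_mem h1 (IntermediateField.algebraMap_mem _ _))
      (sub_mem h1 (IntermediateField.algebraMap_mem _ _))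
  · rw [IntermediateField.adjoin_simple_le_iff]
    have h1 := IntermediateField.mem_adjoin_simple_self ℂ w
    have h2 : u = (algebraMap ℂ E b * w - algebraMap ℂ E a) / (w - 1) := by
      rw [eq_div_iff hw1]
      have h3 : w * (u - algebraMap ℂ E b) = u - algebraMap ℂ E a := by
        rw [hw, div_mul_cancel₀ _ hne]
      linear_combination h3
    rw [h2]
    exact div_mem (sub_mem (mul_mem (IntermediateField.algebraMap_mem _ _) h1)
      (IntermediateField.algebraMap_mem _ _)) (sub_mem h1 (one_mem _))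

theorem mob_trans (u : E) (a b : ℂ) (hab : a ≠ b) (hu : Transcendental ℂ u) :
    Transcendental ℂ ((u - algebraMap ℂ E a) / (u - algebraMap ℂ E b)) := by
  intro h
  have hub : u ≠ algebraMap ℂ E b := by rintro rfl; exact hu (isAlgebraic_algebraMap _)
  obtain ⟨c, hc⟩ := const_of_alg _ h
  have h1 := mob u a b hab hub
  have h2 : u ∈ IntermediateField.adjoin ℂ {(u - algebraMap ℂ E a) / (u - algebraMap ℂ E b)} := by
    rw [h1]; exact IntermediateField.mem_adjoin_simple_self ℂ u
  have h3 : IntermediateField.adjoin ℂ {(u - algebraMap ℂ E a) / (u - algebraMap ℂ E b)} = ⊥ := by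
    rw [IntermediateField.adjoin_simple_eq_bot_iff, ← hc]
    exact IntermediateField.algebraMap_mem _ _
  rw [h3, IntermediateField.mem_bot] at h2
  obtain ⟨d, rfl⟩ := h2
  exact hu (isAlgebraic_algebraMap _)

/-- valuation of a Möbius factor -/
theorem val_num (V : ValuationSubring E) (hV : ∀ z : ℂ, algebraMap ℂ E z ∈ V) (u : E) (a b : ℂ)
    (hab : a ≠ b) (hub : u ≠ algebraMap ℂ E b)
    (h : V.valuation ((u - algebraMap ℂ E a) / (u - algebraMap ℂ E b)) < 1) :
    u - algebraMap ℂ E a ∈ V.nonunits := by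
  rw [ValuationSubring.mem_nonunits_iff]
  have hne : V.valuation (u - algebraMap ℂ E b) ≠ 0 := by
    rw [Ne, map_eq_zero]; exact sub_ne_zero.mpr hub
  rw [map_div₀, div_lt_one₀ (zero_lt_iff.mpr hne)] at h
  have h1 : V.valuation (algebraMap ℂ E (a - b)) = V.valuation (u - algebraMap ℂ E b) := by
    have h2 : algebraMap ℂ E (a - b) =
        (u - algebraMap ℂ E b) - (u - algebraMap ℂ E a) := by rw [map_sub]; ring
    rw [h2]
    exact Valuation.map_sub_eq_of_lt_left _ h
  rw [val_const V hV _ (sub_ne_zero.mpr hab)] at h1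
  rwa [← h1] at h

omit [Algebra ℂ E] in
/-- if a product has valuation `< 1`, then some factor has -/
theorem exists_val_lt {Γ : Type*} [LinearOrderedCommGroupWithZero Γ] (v : Valuation E Γ)
    {J : Type*} (s : Finset J) (f : J → E) (h : v (∏ j ∈ s, f j) < 1) :
    ∃ j ∈ s, v (f j) < 1 := by
  by_contra hne
  push Not at hne
  have : ∀ t : Finset J, (∀ j ∈ t, 1 ≤ v (f j)) → 1 ≤ v (∏ j ∈ t, f j) := by
    classical
    intro t
    induction t using Finset.induction_on with
    | empty => intro _; simp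
    | insert a t ha ih =>
      intro ht
      rw [Finset.prod_insert ha, map_mul]
      have h1 := ht a (Finset.mem_insert_self _ _)
      have h2 := ih (fun j hj => ht j (Finset.mem_insert_of_mem hj))
      exact one_le_mul h1 h2
  exact absurd h (not_lt.mpr (this s hne))

theorem prod_step {J : Type*} (u : J → E) (a b : ℂ) (hab : a ≠ b)
    (hfin : ∀ j, Transcendental ℂ (u j) → FiniteDimensional (IntermediateField.adjoin ℂ {u j}) E)
    (hne : ∀ j, u j ≠ algebraMap ℂ E a ∧ u j ≠ algebraMap ℂ E b)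
    (hpair : ∀ (j j' : J) (V : ValuationSubring E), (∀ z : ℂ, algebraMap ℂ E z ∈ V) →
        ¬ (u j - algebraMap ℂ E a ∈ V.nonunits ∧ u j' - algebraMap ℂ E b ∈ V.nonunits))
    (s : Finset J) (hs : s.Nonempty) (hst : ∀ j ∈ s, Transcendental ℂ (u j)) :
    Transcendental ℂ (∏ j ∈ s, (u j - algebraMap ℂ E a) / (u j - algebraMap ℂ E b)) ∧
    FiniteDimensional (IntermediateField.adjoin ℂ
      {∏ j ∈ s, (u j - algebraMap ℂ E a) / (u j - algebraMap ℂ E b)}) E ∧
    ∀ p : ℕ, (∀ j, Transcendental ℂ (u j) → p ∣ finrank (IntermediateField.adjoin ℂ {u j}) E) →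
        p ∣ finrank (IntermediateField.adjoin ℂ
          {∏ j ∈ s, (u j - algebraMap ℂ E a) / (u j - algebraMap ℂ E b)}) E := by
  classical
  induction hs using Finset.Nonempty.cons_induction with
  | singleton j =>
    have hj := hst j (Finset.mem_singleton_self _)
    rw [Finset.prod_singleton]
    refine ⟨mob_trans _ _ _ hab hj, ?_, ?_⟩
    · rw [mob _ _ _ hab (hne j).2]; exact hfin j hj
    · intro p hp
      rw [mob _ _ _ hab (hne j).2]; exact hp j hj
  | cons j t hjt ht ih =>
    obtain ⟨ih1, ih2, ih3⟩ := ih (fun i hi => hst i (Finset.mem_cons_of_mem hi))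
    have hj := hst j (Finset.mem_cons_self _ _)
    rw [Finset.prod_cons, mul_comm]
    set φ := ∏ j ∈ t, (u j - algebraMap ℂ E a) / (u j - algebraMap ℂ E b) with hφ
    set ψ := (u j - algebraMap ℂ E a) / (u j - algebraMap ℂ E b) with hψ
    have hψt : Transcendental ℂ ψ := mob_trans _ _ _ hab hj
    have hφinv : φ⁻¹ = ∏ j ∈ t, (u j - algebraMap ℂ E b) / (u j - algebraMap ℂ E a) := by
      rw [hφ, ← Finset.prod_inv_distrib]
      apply Finset.prod_congr rfl
      intro i _
      rw [inv_div]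
    have hψinv : ψ⁻¹ = (u j - algebraMap ℂ E b) / (u j - algebraMap ℂ E a) := by
      rw [hψ, inv_div]
    obtain ⟨h1, h2⟩ := finrank_mul_aux φ ψ ih1 hψt ih2
      (by
        intro V hV ⟨h3, h4⟩
        rw [ValuationSubring.mem_nonunits_iff, hφinv] at h3
        obtain ⟨i, hi, h5⟩ := exists_val_lt _ _ _ h3
        rw [ValuationSubring.mem_nonunits_iff, hψ] at h4
        exact hpair j i V hV ⟨val_num V hV _ _ _ hab (hne j).2 h4,
          val_num V hV _ _ _ hab.symm (hne i).1 h5⟩)
      (by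
        intro V hV ⟨h3, h4⟩
        rw [ValuationSubring.mem_nonunits_iff, hφ] at h3
        obtain ⟨i, hi, h5⟩ := exists_val_lt _ _ _ h3
        rw [ValuationSubring.mem_nonunits_iff, hψinv] at h4
        exact hpair i j V hV ⟨val_num V hV _ _ _ hab (hne i).2 h5,
          val_num V hV _ _ _ hab.symm (hne j).1 h4⟩)
    refine ⟨h1, ?_, ?_⟩
    · apply Module.finite_of_finrank_pos
      rw [h2]
      have : 0 < finrank (IntermediateField.adjoin ℂ {φ}) E := Module.finrank_pos
      omega
    · intro p hp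
      rw [h2]
      apply dvd_add (ih3 p hp)
      rw [hψ, mob _ _ _ hab (hne j).2]
      exact hp j hj

theorem adjoin_mul_const (z : E) (k : ℂ) (hk : k ≠ 0) :
    IntermediateField.adjoin ℂ {z * algebraMap ℂ E k} = IntermediateField.adjoin ℂ {z} := by
  have hk' : algebraMap ℂ E k ≠ 0 := by rwa [Ne, map_eq_zero]
  apply le_antisymm
  · rw [IntermediateField.adjoin_simple_le_iff]
    exact mul_mem (IntermediateField.mem_adjoin_simple_self ℂ z)
      (IntermediateField.algebraMap_mem _ _)
  · rw [IntermediateField.adjoin_simple_le_iff]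
    have h1 := IntermediateField.mem_adjoin_simple_self ℂ (z * algebraMap ℂ E k)
    have h2 : z = z * algebraMap ℂ E k / algebraMap ℂ E k := by
      rw [mul_div_assoc, div_self hk', mul_one]
    have h3 := div_mem h1 (IntermediateField.algebraMap_mem _ k)
    rwa [← h2] at h3

theorem finrank_prod_aux {J : Type*} [Fintype J] (u : J → E)
    (hu : ∃ j, Transcendental ℂ (u j))
    (hfin : ∀ j, Transcendental ℂ (u j) → FiniteDimensional (IntermediateField.adjoin ℂ {u j}) E) :
    ∃ P : MvPolynomial (Fin 2) ℂ, P ≠ 0 ∧ ∀ c : Fin 2 → ℂ, MvPolynomial.eval c P ≠ 0 →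
      c 0 ≠ c 1 ∧ (∀ j m, u j ≠ algebraMap ℂ E (c m)) ∧
      (∀ (j j' : J) (V : ValuationSubring E), (∀ z : ℂ, algebraMap ℂ E z ∈ V) →
        ¬ (u j - algebraMap ℂ E (c 0) ∈ V.nonunits ∧ u j' - algebraMap ℂ E (c 1) ∈ V.nonunits)) ∧
      (∀ p : ℕ, (∀ j, Transcendental ℂ (u j) → p ∣ finrank (IntermediateField.adjoin ℂ {u j}) E) →
        p ∣ finrank (IntermediateField.adjoin ℂ
          {∏ j, (u j - algebraMap ℂ E (c 0)) / (u j - algebraMap ℂ E (c 1))}) E) := by
  classical
  choose B hB0 hB using fun q : J × J => pair_poly (u q.1) (u q.2) (hfin q.1)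
  choose D hD0 hD using fun j : J => single_poly (u j)
  set G : ℂ[X][Y] := (C X - Y) * ((∏ q, B q) * ∏ j, D j) with hG
  have hG0 : G ≠ 0 := by
    refine mul_ne_zero ?_ (mul_ne_zero ?_ ?_)
    · rw [← neg_ne_zero, neg_sub]
      exact X_sub_C_ne_zero _
    · exact Finset.prod_ne_zero_iff.mpr fun q _ => hB0 q
    · exact Finset.prod_ne_zero_iff.mpr fun q _ => hD0 q
  refine ⟨Bivariate.equivMvPolynomial ℂ G, ?_, ?_⟩
  · rw [Ne, EmbeddingLike.map_eq_zero_iff]; exact hG0
  intro c hc
  have hev : ∀ F : ℂ[X][Y], MvPolynomial.eval c (Bivariate.equivMvPolynomial ℂ F) =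
      aevalAeval (c 0) (c 1) F := by
    intro F
    induction F using biv_induction with
    | hC c => simp
    | hX => simp
    | hY => simp
    | hadd F G hF hG => rw [map_add, map_add, hF, hG, map_add]
    | hmul F G hF hG => rw [map_mul, map_mul, hF, hG, map_mul]
  rw [hev, hG, map_mul, map_mul, map_prod, map_prod, map_sub, aevalAeval_X, aevalAeval_Y] at hc
  have hc1 : c 0 ≠ c 1 := sub_ne_zero.mp (left_ne_zero_of_mul hc)
  have hc2 := left_ne_zero_of_mul (right_ne_zero_of_mul hc)
  have hc3 := right_ne_zero_of_mul (right_ne_zero_of_mul hc)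
  rw [Finset.prod_ne_zero_iff] at hc2 hc3
  have hpair : ∀ (j j' : J) (V : ValuationSubring E), (∀ z : ℂ, algebraMap ℂ E z ∈ V) →
        ¬ (u j - algebraMap ℂ E (c 0) ∈ V.nonunits ∧ u j' - algebraMap ℂ E (c 1) ∈ V.nonunits) :=
    fun j j' => hB (j, j') (c 0) (c 1) (hc2 (j, j') (Finset.mem_univ _))
  have hne : ∀ j, u j ≠ algebraMap ℂ E (c 0) ∧ u j ≠ algebraMap ℂ E (c 1) :=
    fun j => hD j (c 0) (c 1) (hc3 j (Finset.mem_univ _))
  refine ⟨hc1, ?_, hpair, ?_⟩
  · intro j m
    fin_cases m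
    · exact (hne j).1
    · exact (hne j).2
  intro p hp
  set s : Finset J := Finset.univ.filter (fun j => Transcendental ℂ (u j)) with hs
  have hsne : s.Nonempty := by
    obtain ⟨j, hj⟩ := hu
    exact ⟨j, by rw [hs, Finset.mem_filter]; exact ⟨Finset.mem_univ _, hj⟩⟩
  obtain ⟨-, -, h3⟩ := prod_step u (c 0) (c 1) hc1 hfin hne hpair s hsne
    (fun j hj => (Finset.mem_filter.mp hj).2)
  have hk : ∃ k : ℂ, k ≠ 0 ∧ algebraMap ℂ E k =
      ∏ j ∈ Finset.univ.filter (fun j => ¬ Transcendental ℂ (u j)),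
        (u j - algebraMap ℂ E (c 0)) / (u j - algebraMap ℂ E (c 1)) := by
    have h4 : ∀ j, ∃ d : ℂ, ¬ Transcendental ℂ (u j) → algebraMap ℂ E d = u j := by
      intro j
      by_cases h : Transcendental ℂ (u j)
      · exact ⟨0, fun h' => absurd h h'⟩
      · obtain ⟨d, hd⟩ := const_of_alg (u j) (by rwa [Transcendental, not_not] at h)
        exact ⟨d, fun _ => hd⟩
    choose d hd using h4
    refine ⟨∏ j ∈ Finset.univ.filter (fun j => ¬ Transcendental ℂ (u j)),
      (d j - c 0) / (d j - c 1), ?_, ?_⟩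
    · rw [Finset.prod_ne_zero_iff]
      intro j hj
      have hj' := hd j (Finset.mem_filter.mp hj).2
      refine div_ne_zero ?_ ?_
      · intro h
        apply (hne j).1
        rw [← hj', sub_eq_zero.mp h]
      · intro h
        apply (hne j).2
        rw [← hj', sub_eq_zero.mp h]
    · rw [map_prod]
      apply Finset.prod_congr rfl
      intro j hj
      have hj' := hd j (Finset.mem_filter.mp hj).2
      rw [map_div₀, map_sub, map_sub, hj']
  obtain ⟨k, hk0, hk⟩ := hk
  have h5 := Finset.prod_filter_mul_prod_filter_not Finset.univ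
    (fun j => Transcendental ℂ (u j))
    (fun j => (u j - algebraMap ℂ E (c 0)) / (u j - algebraMap ℂ E (c 1)))
  rw [← h5, ← hk, adjoin_mul_const _ _ hk0]
  exact h3 p hp

end T8aux

theorem finrank_mul {E : Type*} [Field E] [Algebra ℂ E] (φ ψ : E) (hφ : Transcendental ℂ φ)
    (hψ : Transcendental ℂ ψ) (hfin : FiniteDimensional (IntermediateField.adjoin ℂ {φ}) E)
    (hv₁ : ∀ V : ValuationSubring E, (∀ c : ℂ, algebraMap ℂ E c ∈ V) →
      ¬ (φ⁻¹ ∈ V.nonunits ∧ ψ ∈ V.nonunits))
    (hv₂ : ∀ V : ValuationSubring E, (∀ c : ℂ, algebraMap ℂ E c ∈ V) →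
      ¬ (φ ∈ V.nonunits ∧ ψ⁻¹ ∈ V.nonunits)) :
    finrank (IntermediateField.adjoin ℂ {φ * ψ}) E =
      finrank (IntermediateField.adjoin ℂ {φ}) E + finrank (IntermediateField.adjoin ℂ {ψ}) E :=
  (T8aux.finrank_mul_aux φ ψ hφ hψ hfin hv₁ hv₂).2

theorem finrank_prod {E : Type*} [Field E] [Algebra ℂ E] {J : Type*} [Fintype J] (u : J → E)
    (hu : ∃ j, Transcendental ℂ (u j))
    (hfin : ∀ j, Transcendental ℂ (u j) → FiniteDimensional (IntermediateField.adjoin ℂ {u j}) E) :
    ∃ P : MvPolynomial (Fin 2) ℂ, P ≠ 0 ∧ ∀ c : Fin 2 → ℂ, MvPolynomial.eval c P ≠ 0 →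
      c 0 ≠ c 1 ∧ (∀ j m, u j ≠ algebraMap ℂ E (c m)) ∧
      (∀ (j j' : J) (V : ValuationSubring E), (∀ z : ℂ, algebraMap ℂ E z ∈ V) →
        ¬ (u j - algebraMap ℂ E (c 0) ∈ V.nonunits ∧ u j' - algebraMap ℂ E (c 1) ∈ V.nonunits)) ∧
      (∀ p : ℕ, (∀ j, Transcendental ℂ (u j) → p ∣ finrank (IntermediateField.adjoin ℂ {u j}) E) →
        p ∣ finrank (IntermediateField.adjoin ℂ
          {∏ j, (u j - algebraMap ℂ E (c 0)) / (u j - algebraMap ℂ E (c 1))}) E) :=
  T8aux.finrank_prod_aux u hu hfin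

end Pool.Agent.H861.CD
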