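import Pool.Agent.H861.CD.Defs

/-!
Project CD (helper861), MP_8dbee4_ag, part T9: `sig_unique` and `root_mem` below (self-contained; only Mathlib).

**sig_unique** (uniqueness of the factorisation of a binary form): `∏_j (b_j T - a_j) = ∏_j (b'_j T - a'_j)` as polynomials in `T` of degree `≤ n` (all coefficients agree for `i ≤ n`, the others are 0) and it is nonzero, so no `(a_j,b_j)`, `(a'_j,b'_j)` is `(0,0)`. The number of `j` with `b_j = 0` is `n - deg`, the same for both. The multiset of the roots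
`a_j/b_j` (`b_j ≠ 0`) is the same for both. So there is a permutation `π` with `(a'_j : b'_j) = (a_{πj} : b_{πj})`; `∏ l_j = 1` by comparing the products.

**root_mem**. Let `δ = p^s > n`, `u_j = a_j/b_j`, `h_j = (ρ_j/b_j)^δ` if `b_j ≠ 0` ('`j` finite'). Then `h_j ≠ 0` and `(ρ'_j/b_j)^δ = h_j⁻¹` (`Rel.h3`). For finite `j` put `g_j := ρ_j/b_j`, so `ρ_j^c a_j^(δ+1-c) + ρ'_j^(δ-c)(a_j-b_j)^(c+1) = b_j^(δ+1) g_j^c (u_j^(δ+1-c) + h_j⁻¹ (u_j - 1)^(c+1))` for `1 ≤ c ≤ n`
(`(ρ'_j/b_j)^(δ-c) = g_j^(-(δ-c)) = g_j^c h_j⁻¹`). For `b_j = 0`: `a_j ≠ 0`, `{α_j,α'_j} = {a_j, 0}`, `ρ_jρ'_j = 0`, `ρ_j^δ + ρ'_j^δ = a_j^δ`. Either `ρ'_j = 0`, `ρ_j = εa_j`, `ε^δ = 1`, and the factor is `a_j^(δ+1) ε^c`: put `g_j := ε`; or `ρ_j = 0`, `ρ'_j = εa_j`, and it is `a_j^(δ+1) ε^(δ-c)`: put `g_j := ε⁻¹`.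
So in both cases the factor is `a_j^(δ+1) g_j^c` with `g_j^δ = 1`. Let `R := ∏_j g_j ∈ Ω`, `G_c := ∏_{j finite} (u_j^(δ+1-c) + h_j⁻¹(u_j - 1)^(c+1)) ∈ E`, `v := z/∏_j s_j ∈ E`, `s_j = b_j` (finite `j`) or `a_j`. Then `v^(δ+1) = Σ_{c=1}^n G_c R^c`, and `R^δ = ∏_{j finite} h_j ∈ E`.

Case 1: some `G_c ≠ 0`, `1 ≤ c ≤ n`. Then `R ≠ 0` is a root of a nonzero polynomial of degree `≤ n < p` over `E`. The minimal polynomial of `R` over `E` has degree `d ≤ n < p` and divides `X^δ - R^δ = ∏_{ζ^δ=1} (X - ζR)` (`ζ ∈ ℂ`), so its constant coefficient is `± ζ R^d` with a root of unity `ζ ∈ ℂ ⊆ E`; so `R^d ∈ E`,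
`gcd(d, p^s) = 1`, `R^(p^s) ∈ E`, hence `R ∈ E`. Done.

Case 2: `G_c = 0` for all `1 ≤ c ≤ n`. For every `c` choose a finite `j(c)` with `h u^(δ+1-c) = -(u-1)^(c+1)` for `u = u_{j(c)}`, `h = h_{j(c)}`. Claim: `j(c) ≠ j(c')` for `c < c'`. Otherwise with `u, h` of this index `j`: `u ≠ 0` (else `(u-1)^(c+1) = 0`), `u ≠ 1` (else `h = 0`), and by division `u^(c'-c) = (u-1)^(c-c')`, so
`(u(u-1))^(c'-c) = 1` and `u` is algebraic over `ℚ`. `h = -(u-1)^(c+1)/u^(δ+1-c)` is algebraic over `ℚ`, `w := α_j/b_j` satisfies `w^2 - uw + 1 = 0` (`Rel.h1, h2`), so it is algebraic and `w ≠ 0`, and `Rel.h4` divided by `b_j^δ` is `h + h⁻¹ = w^δ + w^(-δ) + t_j`. So `t_j` is algebraic over `ℚ` (in `Ω`, hence in `ℂ`), contradiction. So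
`c ↦ j(c)` is injective, hence bijective `{1..n} → Fin n`; all `j` are finite. Every `u = u_j` satisfies with `c = c(j)`: `u ≠ 0`, `h = -(u-1)^(c+1)/u^(δ+1-c)` and `h + h⁻¹ = w^δ + w^(-δ) + t_j`, `w + 1/w = u`. If `u` were transcendental over `ℂ`: `w^δ + w^(-δ) = D(u)`, `D` the Dickson polynomial (`Polynomial.dickson 1 1 δ`), and multiplication by `u^(δ+1-c)(u-1)^(c+1)` gives
`-(u-1)^(2c+2) - u^(2(δ+1-c)) = (D(u) + t_j) u^(δ+1-c) (u-1)^(c+1)`, a polynomial identity; at `u = 1` it says `-1 = 0`. So `u` is algebraic over `ℂ`, i.e. `u_j ∈ ⊥` for all `j`, contradicting `hne`.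
-/

set_option autoImplicit false

open Module

namespace Pool.Agent.H861.CD

namespace T9aux

open Polynomial

/-- the linear polynomial -/
noncomputable def LP {Ω : Type*} [Field Ω] (a b : Ω) : Polynomial Ω := C b * X - C a

lemma LP_zero_iff {Ω : Type*} [Field Ω] (a b : Ω) : LP a b = 0 ↔ a = 0 ∧ b = 0 := by
  unfold LP
  constructor
  · intro h
    have h1 := congrArg (fun q => q.coeff 1) h
    have h0 := congrArg (fun q => q.coeff 0) h
    simp at h1 h0
    exact ⟨h0, h1⟩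
  · rintro ⟨rfl, rfl⟩
    simp

lemma LP_natDegree {Ω : Type*} [Field Ω] (a b : Ω) : (LP a b).natDegree ≤ 1 := by
  unfold LP
  compute_degree

lemma LP_mul {Ω : Type*} [Field Ω] (l a b : Ω) : LP (l * a) (l * b) = C l * LP a b := by
  unfold LP
  rw [C_mul, C_mul]
  ring

lemma exists_factor {N : ℕ} {Ω : Type*} [Field Ω] (a b : Fin (N + 1) → Ω) (a' b' : Fin (N + 1) → Ω)
    (μ : Ω) (hμ : μ ≠ 0) (h0 : ∏ j, LP (a j) (b j) ≠ 0)
    (h : ∏ j, LP (a' j) (b' j) = C μ * ∏ j, LP (a j) (b j)) :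
    ∃ (i : Fin (N + 1)) (l : Ω), l ≠ 0 ∧ a' 0 = l * a i ∧ b' 0 = l * b i := by
  have hne : ∀ i, LP (a i) (b i) ≠ 0 := fun i => (Finset.prod_ne_zero_iff.mp h0) i (Finset.mem_univ _)
  have h0' : ∏ j, LP (a' j) (b' j) ≠ 0 := by
    rw [h]
    exact mul_ne_zero (C_ne_zero.mpr hμ) h0
  have hne' : ∀ i, LP (a' i) (b' i) ≠ 0 :=
    fun i => (Finset.prod_ne_zero_iff.mp h0') i (Finset.mem_univ _)
  by_cases hb : b' 0 = 0
  · -- the coefficient of the highest power
    have key : ∀ (x y : Fin (N + 1) → Ω), (∏ j, LP (x j) (y j)).coeff (N + 1) = ∏ j, y j := by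
      intro x y
      have := Polynomial.coeff_prod_of_natDegree_le (s := (Finset.univ : Finset (Fin (N + 1))))
        (fun j => LP (x j) (y j)) 1 (fun j _ => LP_natDegree _ _)
      rw [Finset.card_univ, Fintype.card_fin, mul_one] at this
      rw [this]
      refine Finset.prod_congr rfl fun j _ => ?_
      unfold LP
      simp
    have h1 := congrArg (fun q => q.coeff (N + 1)) h
    simp only [coeff_C_mul, key] at h1
    rw [Finset.prod_eq_zero (Finset.mem_univ (0 : Fin (N + 1))) hb] at h1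
    have h2 : ∏ j, b j = 0 := by
      rcases mul_eq_zero.mp h1.symm with h3 | h3
      · exact absurd h3 hμ
      · exact h3
    obtain ⟨i, -, hi⟩ := Finset.prod_eq_zero_iff.mp h2
    have hai : a i ≠ 0 := fun h3 => hne i ((LP_zero_iff _ _).mpr ⟨h3, hi⟩)
    have ha0 : a' 0 ≠ 0 := fun h3 => hne' 0 ((LP_zero_iff _ _).mpr ⟨h3, hb⟩)
    refine ⟨i, a' 0 / a i, div_ne_zero ha0 hai, ?_, ?_⟩
    · field_simp
    · rw [hi, hb, mul_zero]
  · have h1 := congrArg (fun q => q.eval (a' 0 / b' 0)) h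
    simp only [eval_mul, eval_C, eval_prod] at h1
    have h2 : (LP (a' 0) (b' 0)).eval (a' 0 / b' 0) = 0 := by
      unfold LP
      simp
      field_simp
      ring
    rw [Finset.prod_eq_zero (Finset.mem_univ (0 : Fin (N + 1))) h2] at h1
    have h3 : ∏ j, (LP (a j) (b j)).eval (a' 0 / b' 0) = 0 := by
      rcases mul_eq_zero.mp h1.symm with h3 | h3
      · exact absurd h3 hμ
      · exact h3
    obtain ⟨i, -, hi⟩ := Finset.prod_eq_zero_iff.mp h3
    have hi' : b i * (a' 0 / b' 0) = a i := by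
      unfold LP at hi
      simp at hi
      exact sub_eq_zero.mp hi
    have hbi : b i ≠ 0 := by
      intro h4
      rw [h4, zero_mul] at hi'
      exact hne i ((LP_zero_iff _ _).mpr ⟨hi'.symm, h4⟩)
    refine ⟨i, b' 0 / b i, div_ne_zero hb hbi, ?_, ?_⟩
    · rw [← hi']
      field_simp
    · field_simp

theorem uniq {Ω : Type*} [Field Ω] : ∀ (n : ℕ) (a b a' b' : Fin n → Ω) (μ : Ω), μ ≠ 0 →
    ∏ j, LP (a j) (b j) ≠ 0 → ∏ j, LP (a' j) (b' j) = C μ * ∏ j, LP (a j) (b j) →
    ∃ (π : Equiv.Perm (Fin n)) (l : Fin n → Ω), (∀ j, l j ≠ 0) ∧ (∏ j, l j) = μ ∧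
      ∀ j, a' j = l j * a (π j) ∧ b' j = l j * b (π j) := by
  intro n
  induction n with
  | zero =>
    intro a b a' b' μ hμ h0 h
    refine ⟨1, fun _ => 1, fun _ => one_ne_zero, ?_, fun j => j.elim0⟩
    simp only [Finset.univ_eq_empty, Finset.prod_empty, mul_one] at h ⊢
    have : (C (1 : Ω)) = C μ := by rw [← h, C_1]
    exact C_injective this
  | succ N ih =>
    intro a b a' b' μ hμ h0 h
    obtain ⟨i, l, hl, ha, hb⟩ := exists_factor a b a' b' μ hμ h0 h
    rw [Fin.prod_univ_succ, Fin.prod_univ_succAbove _ i] at h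
    rw [Fin.prod_univ_succAbove _ i] at h0
    rw [ha, hb, LP_mul] at h
    have hf := left_ne_zero_of_mul h0
    have hg := right_ne_zero_of_mul h0
    have h1 : ∏ j : Fin N, LP (a' j.succ) (b' j.succ) =
        C (μ / l) * ∏ j : Fin N, LP (a (i.succAbove j)) (b (i.succAbove j)) := by
      have hCl : (C l : Polynomial Ω) ≠ 0 := C_ne_zero.mpr hl
      have hsplit : (C μ : Polynomial Ω) = C l * C (μ / l) := by
        rw [← C_mul]
        congr 1
        field_simp
      rw [hsplit] at h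
      have h2 : (C l * LP (a i) (b i)) * ∏ j : Fin N, LP (a' j.succ) (b' j.succ) =
          (C l * LP (a i) (b i)) * (C (μ / l) *
            ∏ j : Fin N, LP (a (i.succAbove j)) (b (i.succAbove j))) := by
        rw [h]
        ring
      exact mul_left_cancel₀ (mul_ne_zero hCl hf) h2
    obtain ⟨π₀, l₀, h2, h3, h4⟩ := ih (fun j => a (i.succAbove j)) (fun j => b (i.succAbove j))
      (fun j => a' j.succ) (fun j => b' j.succ) (μ / l) (div_ne_zero hμ hl) hg h1
    let π : Equiv.Perm (Fin (N + 1)) :=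
      (finSuccEquiv N).trans ((Equiv.optionCongr π₀).trans (finSuccEquiv' i).symm)
    have hπ0 : π 0 = i := by
      simp [π]
    have hπs : ∀ j : Fin N, π j.succ = i.succAbove (π₀ j) := by
      intro j
      simp [π]
    refine ⟨π, Fin.cons l l₀, ?_, ?_, ?_⟩
    · intro j
      refine Fin.cases ?_ (fun k => ?_) j
      · simpa using hl
      · simpa using h2 k
    · rw [Fin.prod_univ_succ]
      simp only [Fin.cons_zero, Fin.cons_succ]
      rw [h3]
      field_simp
    · intro j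
      refine Fin.cases ?_ (fun k => ?_) j
      · rw [hπ0]
        simpa using ⟨ha, hb⟩
      · rw [hπs]
        simpa using h4 k

end T9aux

theorem sig_unique {n : ℕ} {Ω : Type*} [Field Ω] (a b a' b' : Fin n → Ω)
    (hne : ∃ i : Fin (n + 1), sig a b i ≠ 0) (h : ∀ i : Fin (n + 1), sig a b i = sig a' b' i) :
    ∃ (π : Equiv.Perm (Fin n)) (l : Fin n → Ω), (∀ j, l j ≠ 0) ∧ (∏ j, l j) = 1 ∧
      ∀ j, a' j = l j * a (π j) ∧ b' j = l j * b (π j) := by
  have hdeg : ∀ x y : Fin n → Ω, (∏ j, T9aux.LP (x j) (y j)).natDegree ≤ n := by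
    intro x y
    refine (Polynomial.natDegree_prod_le _ _).trans ?_
    refine (Finset.sum_le_sum fun j _ => T9aux.LP_natDegree (x j) (y j)).trans ?_
    simp
  have heq : ∏ j, T9aux.LP (a' j) (b' j) = ∏ j, T9aux.LP (a j) (b j) := by
    ext i
    by_cases hi : i < n + 1
    · exact (h ⟨i, hi⟩).symm
    · rw [Polynomial.coeff_eq_zero_of_natDegree_lt (by have := hdeg a' b'; omega),
        Polynomial.coeff_eq_zero_of_natDegree_lt (by have := hdeg a b; omega)]
  have h0 : ∏ j, T9aux.LP (a j) (b j) ≠ 0 := by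
    intro h0
    obtain ⟨i, hi⟩ := hne
    apply hi
    show (∏ j, T9aux.LP (a j) (b j)).coeff i = 0
    rw [h0, Polynomial.coeff_zero]
  exact T9aux.uniq n a b a' b' 1 one_ne_zero h0 (by rw [heq, Polynomial.C_1, one_mul])

namespace T9aux

open Polynomial

/-- a power root from the norm of a small extension -/
theorem root_of_small {K L : Type*} [Field K] [Field L] [Algebra K L] {p s n : ℕ} (hp : p.Prime)
    (hpn : n < p) (R : L) (r : K) (hr : r ≠ 0) (hR : R ^ (p ^ s) = algebraMap K L r)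
    (Q : Polynomial K) (hQ : Q ≠ 0) (hQd : Q.natDegree ≤ n) (hQR : aeval R Q = 0) :
    ∃ q : K, q ^ (p ^ s) = r := by
  have hint : IsIntegral K R := (isAlgebraic_iff_isIntegral).mp ⟨Q, hQ, hQR⟩
  set d := (minpoly K R).natDegree with hd
  have hdn : d ≤ n := (natDegree_le_of_dvd (minpoly.dvd K R hQR) hQ).trans hQd
  have hd0 : 0 < d := minpoly.natDegree_pos hint
  have hfin : finrank K (IntermediateField.adjoin K {R}) = d :=
    IntermediateField.adjoin.finrank hint
  have : FiniteDimensional K (IntermediateField.adjoin K {R}) :=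
    IntermediateField.adjoin.finiteDimensional hint
  set g := IntermediateField.AdjoinSimple.gen K R with hg
  have hgp : g ^ (p ^ s) = algebraMap K (IntermediateField.adjoin K {R}) r := by
    apply Subtype.ext
    rw [SubmonoidClass.coe_pow, IntermediateField.AdjoinSimple.coe_gen, hR]
    rfl
  have hN : (Algebra.norm K g) ^ (p ^ s) = r ^ d := by
    rw [← map_pow, hgp, Algebra.norm_algebraMap, hfin]
  have hcop : Nat.Coprime d (p ^ s) := by
    apply Nat.Coprime.pow_right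
    rw [Nat.coprime_comm, Nat.Prime.coprime_iff_not_dvd hp]
    intro hdvd
    have := Nat.le_of_dvd hd0 hdvd
    omega
  set N := Algebra.norm K g with hNdef
  have hδ0 : p ^ s ≠ 0 := pow_ne_zero _ hp.ne_zero
  have hN0 : N ≠ 0 := by
    intro h0
    rw [h0, zero_pow hδ0] at hN
    exact pow_ne_zero d hr hN.symm
  have hbez := Nat.gcd_eq_gcd_ab d (p ^ s)
  rw [hcop] at hbez
  refine ⟨N ^ (Nat.gcdA d (p ^ s)) * r ^ (Nat.gcdB d (p ^ s)), ?_⟩
  rw [mul_pow]
  have e1 : (N ^ (Nat.gcdA d (p ^ s))) ^ (p ^ s) = r ^ ((d : ℤ) * Nat.gcdA d (p ^ s)) := by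
    rw [← zpow_natCast, ← zpow_mul, mul_comm, zpow_mul, zpow_natCast, hN, ← zpow_natCast,
      ← zpow_mul]
  have e2 : (r ^ (Nat.gcdB d (p ^ s))) ^ (p ^ s) = r ^ (((p ^ s : ℕ) : ℤ) * Nat.gcdB d (p ^ s)) := by
    rw [← zpow_natCast, ← zpow_mul, mul_comm]
  rw [e1, e2, ← zpow_add₀ hr, ← hbez]
  simp

/-- algebraic elements over `ℂ` are constants -/
theorem mem_bot_of_alg {Ω : Type*} [Field Ω] [Algebra ℂ Ω] {u : Ω} (h : IsAlgebraic ℂ u) :
    u ∈ (⊥ : IntermediateField ℂ Ω) := by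
  have hint : IsIntegral ℂ u := h.isIntegral
  have h1 := IsAlgClosed.degree_eq_one_of_irreducible ℂ (minpoly.irreducible hint)
  obtain ⟨c, hc⟩ := minpoly.mem_range_of_degree_eq_one ℂ u h1
  rw [IntermediateField.mem_bot]
  exact ⟨c, hc⟩

/-- the contradiction from one index used twice -/
theorem no_double {Ω : Type*} [Field Ω] [Algebra ℂ Ω] {δ c c' : ℕ} (hcc : c < c') (hc' : c' ≤ δ)
    {u h w : Ω} {t : ℂ} (ht : Transcendental ℚ t) (hh : h ≠ 0)
    (e1 : h * u ^ (δ + 1 - c) = -(u - 1) ^ (c + 1)) (e2 : h * u ^ (δ + 1 - c') = -(u - 1) ^ (c' + 1))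
    (hw : w * (u - w) = 1) (e3 : h + h⁻¹ = w ^ δ + (u - w) ^ δ + algebraMap ℂ Ω t) : False := by
  have hcz : CharZero Ω := charZero_of_injective_algebraMap (algebraMap ℂ Ω).injective
  have htower : IsScalarTower ℚ ℂ Ω := IsScalarTower.of_algebraMap_eq fun q => by
    rw [eq_ratCast, eq_ratCast, map_ratCast]
  have hu0 : u ≠ 0 := by
    intro h0
    rw [h0, zero_pow (by omega), mul_zero] at e1
    have : (0 - 1 : Ω) ^ (c + 1) ≠ 0 := pow_ne_zero _ (by norm_num)
    exact this (neg_eq_zero.mp e1.symm)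
  have hu1 : u - 1 ≠ 0 := by
    intro h0
    rw [h0, zero_pow (by omega), neg_zero] at e1
    exact mul_ne_zero hh (pow_ne_zero _ hu0) e1
  obtain ⟨m, hm⟩ : ∃ m, c' = c + (m + 1) := ⟨c' - c - 1, by omega⟩
  have hexp : δ + 1 - c = (δ + 1 - c') + (m + 1) := by omega
  have key : (u * (u - 1)) ^ (m + 1) = 1 := by
    rw [hexp, pow_add, ← mul_assoc, e2] at e1
    have h1 : (u - 1) ^ (c' + 1) = (u - 1) ^ (c + 1) * (u - 1) ^ (m + 1) := by
      rw [← pow_add]
      congr 1
      omega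
    rw [h1] at e1
    have h2 : (u - 1) ^ (c + 1) ≠ 0 := pow_ne_zero _ hu1
    rw [mul_pow]
    have h3 : (u - 1) ^ (c + 1) * (u ^ (m + 1) * (u - 1) ^ (m + 1)) = (u - 1) ^ (c + 1) * 1 := by
      linear_combination -e1
    exact mul_left_cancel₀ h2 h3
  have hua : IsAlgebraic ℚ u := by
    refine ⟨(X * (X - 1)) ^ (m + 1) - 1, ?_, ?_⟩
    · intro h0
      have h1 := congrArg (fun q => q.eval (0 : ℚ)) h0
      simp at h1
    · simp only [map_sub, map_pow, map_mul, aeval_X, map_one]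
      rw [key, sub_self]
  have halg : ∀ x y : Ω, IsAlgebraic ℚ x → IsAlgebraic ℚ y → IsAlgebraic ℚ (x * y) :=
    fun x y hx hy => hx.mul hy
  have h1a : IsAlgebraic ℚ (1 : Ω) := isAlgebraic_one
  have hu1a : IsAlgebraic ℚ (u - 1) := hua.sub h1a
  have hha : IsAlgebraic ℚ h := by
    have : h = -(u - 1) ^ (c + 1) * (u ^ (δ + 1 - c))⁻¹ := by
      rw [← e1]
      field_simp
    rw [this]
    exact ((hu1a.pow _).neg).mul ((hua.pow _).inv)
  have hwa : IsAlgebraic ℚ w := by
    let A : IntermediateField ℚ Ω := algebraicClosure ℚ Ω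
    have huA : u ∈ A := by
      rw [mem_algebraicClosure_iff]
      exact hua
    have h2 : IsAlgebraic A w := by
      refine ⟨X ^ 2 - C ⟨u, huA⟩ * X + 1, ?_, ?_⟩
      · intro h0
        have h1 := congrArg (fun q => q.coeff 2) h0
        simp [coeff_one] at h1
      · simp only [map_add, map_sub, map_pow, map_mul, aeval_X, map_one, aeval_C]
        have : algebraMap A Ω ⟨u, huA⟩ = u := rfl
        rw [this]
        linear_combination -hw
    have h3 : Algebra.IsAlgebraic ℚ A := algebraicClosure.isAlgebraic ℚ Ω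
    exact IsAlgebraic.restrictScalars ℚ h2
  have hta : IsAlgebraic ℚ (algebraMap ℂ Ω t) := by
    have : algebraMap ℂ Ω t = h + h⁻¹ - w ^ δ - (u - w) ^ δ := by
      rw [e3]
      ring
    rw [this]
    exact ((hha.add hha.inv).sub (hwa.pow _)).sub ((hua.sub hwa).pow _)
  exact ht ((isAlgebraic_algebraMap_iff (algebraMap ℂ Ω).injective).mp hta)

/-- all indices used: `u` is algebraic over `ℂ` -/
theorem alg_of_used {Ω : Type*} [Field Ω] [Algebra ℂ Ω] {δ c : ℕ}
    {u h w : Ω} {t : ℂ} (hh : h ≠ 0) (e1 : h * u ^ (δ + 1 - c) = -(u - 1) ^ (c + 1))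
    (hw : w * (u - w) = 1) (e3 : h + h⁻¹ = w ^ δ + (u - w) ^ δ + algebraMap ℂ Ω t) :
    IsAlgebraic ℂ u := by
  obtain ⟨m, hm⟩ : ∃ m, m = δ + 1 - c := ⟨_, rfl⟩
  rw [← hm] at e1
  refine ⟨(X - 1) ^ (2 * (c + 1)) + X ^ (2 * m) +
    (dickson 1 (1 : ℂ) δ + C t) * (X ^ m * (X - 1) ^ (c + 1)), ?_, ?_⟩
  · intro h0
    have h1 := congrArg (fun q => q.eval (1 : ℂ)) h0
    simp at h1
  · have hD : aeval u (dickson 1 (1 : ℂ) δ) = w ^ δ + (u - w) ^ δ := by
      rw [aeval_def, ← eval_map, map_dickson, map_one]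
      have := dickson_one_one_eval_add_inv w (u - w) hw δ
      rw [add_sub_cancel] at this
      exact this
    simp only [map_add, map_sub, map_pow, map_mul, aeval_X, map_one, aeval_C, hD]
    have e4 : (h + h⁻¹) * (u ^ m * (u - 1) ^ (c + 1)) =
        -(u - 1) ^ (2 * (c + 1)) - u ^ (2 * m) := by
      have h5 : h⁻¹ * (u - 1) ^ (c + 1) = -u ^ m := by
        have : (u - 1) ^ (c + 1) = -(h * u ^ m) := by rw [e1]; ring
        rw [this]
        field_simp
      have h6 : (u - 1) ^ (2 * (c + 1)) = (u - 1) ^ (c + 1) * (u - 1) ^ (c + 1) := by ring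
      have h7 : u ^ (2 * m) = u ^ m * u ^ m := by ring
      rw [h6, h7]
      linear_combination (u - 1) ^ (c + 1) * e1 + u ^ m * h5
    rw [e3] at e4
    linear_combination e4

end T9aux

open Classical in
theorem root_small {n δ : ℕ} (hδ : n < δ) (t : Fin n → ℂ)
    (ht : ∀ j, Transcendental ℚ (t j)) {Ω : Type*} [Field Ω] [Algebra ℂ Ω] (E : IntermediateField ℂ Ω)
    (a b α α' ρ ρ' : Fin n → Ω) (hrel : Rel δ t a b α α' ρ ρ')
    (hab : ∀ j, a j ≠ 0 ∨ b j ≠ 0)
    (hu : ∀ j, b j ≠ 0 → a j / b j ∈ E) (hw : ∀ j, b j ≠ 0 → α j / b j ∈ E)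
    (hh : ∀ j, b j ≠ 0 → (ρ j / b j) ^ δ ∈ E)
    (z : Ω) (hz : z ^ (δ + 1) = WW δ a b ρ ρ')
    (hzE : z / ∏ j, (if b j = 0 then a j else b j) ∈ E)
    (hne : ¬ ∀ j, b j ≠ 0 ∧ a j / b j ∈ (⊥ : IntermediateField ℂ Ω)) :
    ∃ R : Ω, R ^ δ = (∏ j, if b j = 0 then 1 else (ρ j / b j) ^ δ) ∧
      ∃ q : Polynomial E, q ≠ 0 ∧ q.natDegree ≤ n ∧ Polynomial.aeval R q = 0 := by
  have hδ0 : δ ≠ 0 := by omega
  -- the data for one index
  have hgex : ∀ j, ∃ g : Ω, g ≠ 0 ∧ (g ^ δ = if b j = 0 then 1 else (ρ j / b j) ^ δ) ∧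
      ∀ c, 1 ≤ c → c ≤ n → ρ j ^ c * a j ^ (δ + 1 - c) + ρ' j ^ (δ - c) * (a j - b j) ^ (c + 1) =
        (if b j = 0 then a j else b j) ^ (δ + 1) * g ^ c *
          (if b j = 0 then 1 else (a j / b j) ^ (δ + 1 - c) +
            ((ρ j / b j) ^ δ)⁻¹ * (a j / b j - 1) ^ (c + 1)) := by
    intro j
    by_cases hb : b j = 0
    · have ha : a j ≠ 0 := by
        rcases hab j with h | h
        · exact h
        · exact absurd hb h
      have r1 := hrel.h1 j
      have r2 := hrel.h2 j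
      have r3 := hrel.h3 j
      have r4 := hrel.h4 j
      rw [hb, zero_pow two_ne_zero] at r2 r3
      rw [hb, zero_pow hδ0, mul_zero, add_zero] at r4
      have r5 : α j ^ δ + α' j ^ δ = a j ^ δ := by
        rcases mul_eq_zero.mp r2 with h | h
        · rw [h, zero_add] at r1
          rw [h, zero_pow hδ0, zero_add, r1]
        · rw [h, add_zero] at r1
          rw [h, zero_pow hδ0, add_zero, r1]
      rw [r5] at r4
      rcases mul_eq_zero.mp r3 with h | h
      · -- `ρ j = 0`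
        rw [h, zero_pow hδ0, zero_add] at r4
        have hρ' : ρ' j ≠ 0 := by
          intro h0
          rw [h0, zero_pow hδ0] at r4
          exact pow_ne_zero _ ha r4.symm
        refine ⟨a j / ρ' j, div_ne_zero ha hρ', ?_, ?_⟩
        · rw [if_pos hb, div_pow, r4, div_self (pow_ne_zero _ ha)]
        · intro c hc1 hcn
          rw [if_pos hb, if_pos hb, h, hb, zero_pow (by omega), zero_mul, zero_add, sub_zero,
            mul_one]
          obtain ⟨e, he⟩ : ∃ e, δ = c + e := ⟨δ - c, by omega⟩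
          have h1 : δ - c = e := by omega
          rw [h1, div_pow]
          have h2 : ρ' j ^ δ = ρ' j ^ c * ρ' j ^ e := by rw [he, pow_add]
          have h3 : a j ^ (δ + 1) * a j ^ c = a j ^ δ * a j ^ (c + 1) := by ring
          field_simp
          rw [h3, ← r4, h2]
          ring
      · -- `ρ' j = 0`
        rw [h, zero_pow hδ0, add_zero] at r4
        have hρ : ρ j ≠ 0 := by
          intro h0
          rw [h0, zero_pow hδ0] at r4
          exact pow_ne_zero _ ha r4.symm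
        refine ⟨ρ j / a j, div_ne_zero hρ ha, ?_, ?_⟩
        · rw [if_pos hb, div_pow, r4, div_self (pow_ne_zero _ ha)]
        · intro c hc1 hcn
          rw [if_pos hb, if_pos hb, h, zero_pow (by omega : δ - c ≠ 0), zero_mul, add_zero, mul_one]
          obtain ⟨e, he⟩ : ∃ e, δ + 1 = c + e := ⟨δ + 1 - c, by omega⟩
          have h1 : δ + 1 - c = e := by omega
          rw [h1, he, div_pow, pow_add]
          field_simp
    · have r3 := hrel.h3 j
      have hρ : ρ j ≠ 0 := by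
        intro h0
        rw [h0, zero_mul] at r3
        exact pow_ne_zero 2 hb r3.symm
      refine ⟨ρ j / b j, div_ne_zero hρ hb, ?_, ?_⟩
      · rw [if_neg hb]
      · intro c hc1 hcn
        rw [if_neg hb, if_neg hb]
        obtain ⟨g, hg⟩ : ∃ g, g = ρ j / b j := ⟨_, rfl⟩
        obtain ⟨x, hx⟩ : ∃ x, x = a j / b j := ⟨_, rfl⟩
        have hg0 : g ≠ 0 := by
          rw [hg]
          exact div_ne_zero hρ hb
        have hρe : ρ j = b j * g := by
          rw [hg]
          field_simp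
        have hρ' : ρ' j = b j * g⁻¹ := by
          have h5 : b j * (g * ρ' j) = b j * b j := by
            rw [hρe] at r3
            linear_combination r3
          have h6 := mul_left_cancel₀ hb h5
          rw [← h6]
          field_simp
        have hae : a j = b j * x := by
          rw [hx]
          field_simp
        obtain ⟨e, he⟩ : ∃ e, δ = c + e := ⟨δ - c, by omega⟩
        have h1 : δ - c = e := by omega
        have h2 : δ + 1 - c = e + 1 := by omega
        rw [← hg, ← hx, h1, h2, hρ', hρe, hae, he]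
        have h3 : b j * x - b j = b j * (x - 1) := by ring
        rw [h3]
        generalize x - 1 = y
        have h7 : (g ^ (c + e))⁻¹ = (g⁻¹) ^ c * (g⁻¹) ^ e := by
          rw [← inv_pow, pow_add]
        have h8 : g ^ c * (g⁻¹) ^ c = 1 := by
          rw [← mul_pow, mul_inv_cancel₀ hg0, one_pow]
        rw [h7]
        linear_combination (-(b j) ^ (c + e + 1) * (g⁻¹) ^ e * y ^ (c + 1)) * h8
  choose g hg0 hgδ hgc using hgex
  set S : Ω := ∏ j, (if b j = 0 then a j else b j) with hS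
  have hS0 : S ≠ 0 := by
    rw [hS, Finset.prod_ne_zero_iff]
    intro j _
    split_ifs with h
    · rcases hab j with h' | h'
      · exact h'
      · exact absurd h h'
    · exact h
  let Gj : ℕ → Fin n → Ω := fun c j => if b j = 0 then 1 else (a j / b j) ^ (δ + 1 - c) +
    ((ρ j / b j) ^ δ)⁻¹ * (a j / b j - 1) ^ (c + 1)
  have hGjE : ∀ c j, Gj c j ∈ E := by
    intro c j
    show (if b j = 0 then (1 : Ω) else _) ∈ E
    split_ifs with h
    · exact E.one_mem
    · refine E.add_mem (pow_mem (hu j h) _) (E.mul_mem (E.inv_mem ?_) (pow_mem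
        (E.sub_mem (hu j h) E.one_mem) _))
      exact hh j h
  set R : Ω := ∏ j, g j with hR
  have hR0 : R ≠ 0 := Finset.prod_ne_zero_iff.mpr fun j _ => hg0 j
  have hRδ : R ^ δ = ∏ j, if b j = 0 then 1 else (ρ j / b j) ^ δ := by
    rw [hR, ← Finset.prod_pow]
    exact Finset.prod_congr rfl fun j _ => hgδ j
  have hRE : R ^ δ ∈ E := by
    rw [hRδ]
    refine prod_mem fun j _ => ?_
    split_ifs with h
    · exact E.one_mem
    · exact hh j h
  have hWW : WW δ a b ρ ρ' = S ^ (δ + 1) * ∑ c ∈ Finset.Icc 1 n, (∏ j, Gj c j) * R ^ c := by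
    unfold WW
    rw [Finset.mul_sum]
    refine Finset.sum_congr rfl fun c hc => ?_
    rw [Finset.mem_Icc] at hc
    rw [Finset.prod_congr rfl fun j _ => hgc j c hc.1 hc.2, Finset.prod_mul_distrib,
      Finset.prod_mul_distrib, Finset.prod_pow, Finset.prod_pow]
    ring
  have hv : (z / S) ^ (δ + 1) = ∑ c ∈ Finset.Icc 1 n, (∏ j, Gj c j) * R ^ c := by
    rw [div_pow, hz, hWW]
    field_simp
  by_cases hG : ∃ c ∈ Finset.Icc 1 n, ∏ j, Gj c j ≠ 0
  · -- case 1
    obtain ⟨c₀, hc₀, hc₀'⟩ := hG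
    rw [Finset.mem_Icc] at hc₀
    let GE : ℕ → E := fun c => ⟨∏ j, Gj c j, prod_mem fun j _ => hGjE c j⟩
    let vE : E := ⟨z / S, hzE⟩
    let Q : Polynomial E := ∑ c ∈ Finset.Icc 1 n, Polynomial.C (GE c) * Polynomial.X ^ c -
      Polynomial.C (vE ^ (δ + 1))
    have hcoeff : Q.coeff c₀ = GE c₀ := by
      show (∑ c ∈ Finset.Icc 1 n, Polynomial.C (GE c) * Polynomial.X ^ c -
        Polynomial.C (vE ^ (δ + 1))).coeff c₀ = _
      rw [Polynomial.coeff_sub, Polynomial.finsetSum_coeff, Polynomial.coeff_C_of_ne_zero (by omega),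
        sub_zero, Finset.sum_eq_single c₀]
      · rw [Polynomial.coeff_C_mul, Polynomial.coeff_X_pow_self, mul_one]
      · intro c _ hc
        rw [Polynomial.coeff_C_mul, Polynomial.coeff_X_pow, if_neg (Ne.symm hc), mul_zero]
      · intro h
        exact absurd (Finset.mem_Icc.mpr hc₀) h
    have hQ0 : Q ≠ 0 := by
      intro h0
      rw [h0, Polynomial.coeff_zero] at hcoeff
      exact hc₀' (congrArg Subtype.val hcoeff).symm
    have hQd : Q.natDegree ≤ n := by
      refine (Polynomial.natDegree_sub_le _ _).trans (max_le ?_ ?_)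
      · refine Polynomial.natDegree_sum_le_of_forall_le _ _ fun c hc => ?_
        rw [Finset.mem_Icc] at hc
        exact (Polynomial.natDegree_C_mul_X_pow_le _ _).trans hc.2
      · rw [Polynomial.natDegree_C]
        exact Nat.zero_le _
    have hQR : Polynomial.aeval R Q = 0 := by
      show Polynomial.aeval R (∑ c ∈ Finset.Icc 1 n, Polynomial.C (GE c) * Polynomial.X ^ c -
        Polynomial.C (vE ^ (δ + 1))) = 0
      rw [map_sub, map_sum, Polynomial.aeval_C, sub_eq_zero, map_pow]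
      refine Eq.trans ?_ hv.symm
      refine Finset.sum_congr rfl fun c _ => ?_
      rw [map_mul, Polynomial.aeval_C, map_pow, Polynomial.aeval_X]
      rfl
    exact ⟨R, hRδ, Q, hQ0, hQd, hQR⟩
  · -- case 2
    exfalso
    push Not at hG
    have hex : ∀ c ∈ Finset.Icc 1 n, ∃ j, b j ≠ 0 ∧ (a j / b j) ^ (δ + 1 - c) +
        ((ρ j / b j) ^ δ)⁻¹ * (a j / b j - 1) ^ (c + 1) = 0 := by
      intro c hc
      obtain ⟨j, -, hj⟩ := Finset.prod_eq_zero_iff.mp (hG c hc)
      refine ⟨j, ?_⟩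
      by_cases hb : b j = 0
      · exfalso
        have : (if b j = 0 then (1 : Ω) else (a j / b j) ^ (δ + 1 - c) +
          ((ρ j / b j) ^ δ)⁻¹ * (a j / b j - 1) ^ (c + 1)) = 0 := hj
        rw [if_pos hb] at this
        exact one_ne_zero this
      · have : (if b j = 0 then (1 : Ω) else (a j / b j) ^ (δ + 1 - c) +
          ((ρ j / b j) ^ δ)⁻¹ * (a j / b j - 1) ^ (c + 1)) = 0 := hj
        rw [if_neg hb] at this
        exact ⟨hb, this⟩
    -- the relations of a finite index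
    have hfin : ∀ j, b j ≠ 0 → (ρ j / b j) ^ δ ≠ 0 ∧
        (α j / b j) * (a j / b j - α j / b j) = 1 ∧
        (ρ j / b j) ^ δ + ((ρ j / b j) ^ δ)⁻¹ = (α j / b j) ^ δ +
          (a j / b j - α j / b j) ^ δ + algebraMap ℂ Ω (t j) := by
      intro j hb
      have r1 := hrel.h1 j
      have r2 := hrel.h2 j
      have r3 := hrel.h3 j
      have r4 := hrel.h4 j
      have hρ : ρ j ≠ 0 := by
        intro h0
        rw [h0, zero_mul] at r3
        exact pow_ne_zero 2 hb r3.symm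
      have hα' : a j / b j - α j / b j = α' j / b j := by
        rw [← r1]
        field_simp
        ring
      refine ⟨pow_ne_zero _ (div_ne_zero hρ hb), ?_, ?_⟩
      · rw [hα', div_mul_div_comm, r2]
        field_simp
      · rw [hα']
        have h5 : ((ρ j / b j) ^ δ)⁻¹ = (ρ' j / b j) ^ δ := by
          rw [← inv_pow]
          congr 1
          rw [inv_div]
          rw [div_eq_div_iff hρ hb]
          linear_combination -r3
        rw [h5, div_pow, div_pow, div_pow, div_pow, ← add_div, r4, add_div, add_div,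
          mul_div_cancel_right₀ _ (pow_ne_zero _ hb)]
    have hform : ∀ (c : ℕ) (j : Fin n), b j ≠ 0 → (a j / b j) ^ (δ + 1 - c) +
        ((ρ j / b j) ^ δ)⁻¹ * (a j / b j - 1) ^ (c + 1) = 0 →
        (ρ j / b j) ^ δ * (a j / b j) ^ (δ + 1 - c) = -(a j / b j - 1) ^ (c + 1) := by
      intro c j hb h
      have h1 := (hfin j hb).1
      have h2 : (a j / b j) ^ (δ + 1 - c) =
          -(((ρ j / b j) ^ δ)⁻¹ * (a j / b j - 1) ^ (c + 1)) := by linear_combination h
      rw [h2]
      generalize (ρ j / b j) ^ δ = y at *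
      field_simp
    let f : Fin n → Fin n := fun c => (hex (c + 1) (Finset.mem_Icc.mpr ⟨by omega, c.2⟩)).choose
    have hf : ∀ c : Fin n, b (f c) ≠ 0 ∧ (a (f c) / b (f c)) ^ (δ + 1 - (c + 1)) +
        ((ρ (f c) / b (f c)) ^ δ)⁻¹ * (a (f c) / b (f c) - 1) ^ ((c + 1 : ℕ) + 1) = 0 :=
      fun c => (hex (c + 1) (Finset.mem_Icc.mpr ⟨by omega, c.2⟩)).choose_spec
    have hlt : ∀ c c' : Fin n, c < c' → f c ≠ f c' := by
      intro c c' hcc h
      obtain ⟨h1, h2⟩ := hf c
      obtain ⟨h3, h4⟩ := hf c'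
      rw [← h] at h3 h4
      obtain ⟨k1, k2, k3⟩ := hfin _ h1
      refine T9aux.no_double (δ := δ) (c := c + 1) (c' := c' + 1) ?_ ?_ (ht (f c)) k1
        (hform _ _ h1 h2) (hform _ _ h1 h4) k2 k3
      · have : (c : ℕ) < c' := hcc
        omega
      · have := c'.2
        omega
    have hinj : Function.Injective f := by
      intro c c' h
      rcases lt_trichotomy c c' with h1 | h1 | h1
      · exact absurd h (hlt c c' h1)
      · exact h1
      · exact absurd h.symm (hlt c' c h1)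
    have hsurj := Finite.surjective_of_injective hinj
    apply hne
    intro j
    obtain ⟨c, rfl⟩ := hsurj j
    obtain ⟨h1, h2⟩ := hf c
    obtain ⟨k1, k2, k3⟩ := hfin _ h1
    exact ⟨h1, T9aux.mem_bot_of_alg (T9aux.alg_of_used (δ := δ) (c := c + 1) k1
      (hform _ _ h1 h2) k2 k3)⟩

end Pool.Agent.H861.CD
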