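import Pool.Agent.H861.CD.Loc
import Pool.Agent.H861.CD.T5
import Pool.Agent.H861.CD.T8
import Pool.Agent.H861.CD.T9

set_option autoImplicit false

open Module Polynomial

namespace Pool.Agent.H861.CD

open IntermediateField

lemma prod_if_subtype {n : ℕ} {M : Type*} [CommMonoid M] (P : Fin n → Prop) [DecidablePred P] (g f : Fin n → M)
    (h1 : ∀ j, P j → g j = f j) (h2 : ∀ j, ¬ P j → g j = 1) : ∏ j, g j = ∏ j : {j // P j}, f j := by
  rw [← Fintype.prod_subtype_mul_prod_subtype P g]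
  rw [Finset.prod_congr rfl (fun (x : {j // P j}) _ => h1 x x.2), Finset.prod_congr rfl
    (fun (x : {j // ¬ P j}) _ => h2 x x.2), Finset.prod_const_one, mul_one]

/-- The main theorem on the level of fields. -/
theorem field_main {n r : ℕ} (hn : 2 ≤ n) {p : ℕ} (hp : p.Prime) (s : Fin r → ℕ)
    (hs : ∀ k, n < p ^ s k) (t : Fin r → Fin n → ℂ)
    (ht : AlgebraicIndependent ℚ (fun x : Fin r × Fin n => t x.1 x.2))
    {Ω : Type} [Field Ω] [Algebra ℂ Ω] (y : Fin (n + 1) → Ω) (z : Fin r → Ω)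
    (a b α α' ρ ρ' : Fin r → Fin n → Ω) (hsig : ∀ k (i : Fin (n + 1)), y i = sig (a k) (b k) i)
    (hrel : ∀ k, Rel (p ^ s k) (t k) (a k) (b k) (α k) (α' k) (ρ k) (ρ' k))
    (hz : ∀ k, z k ^ (p ^ s k + 1) = WW (p ^ s k) (a k) (b k) (ρ k) (ρ' k))
    (hr : 0 < r)
    {ι : Type} [Finite ι] (f : ι → Ω) (L : IntermediateField ℂ Ω) (hL : L = adjoin ℂ (Set.range f))
    (hLy : ∀ i i', y i / y i' ∈ L) (hLz : ∀ k i, z k / y i ∈ L)
    (hdep : ∀ u : Fin 2 → Ω, (∀ i, u i ∈ L) → ¬ AlgebraicIndependent ℂ u)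
    (hnc : ∃ i i', y i' ≠ 0 ∧ y i / y i' ∉ (⊥ : IntermediateField ℂ Ω)) :
    ∃ (E : IntermediateField ℂ Ω) (A B : Fin n → Ω) (P : MvPolynomial (Fin 2) ℂ),
      GoodC p ((n + n + r * n + r) * Nat.log p n) L E ∧
      (∀ i : Fin (n + 1), y i = sig A B i) ∧ (∀ j, A j ≠ 0 ∨ B j ≠ 0) ∧ P ≠ 0 ∧
      ∀ c : Fin 2 → ℂ, MvPolynomial.eval c P ≠ 0 → c 0 ≠ c 1 ∧
        (∀ j m, B j ≠ 0 → A j / B j ≠ algebraMap ℂ Ω (c m)) ∧
        (∀ (j j' : Fin n) (V : ValuationSubring Ω), (∀ z : ℂ, algebraMap ℂ Ω z ∈ V) → B j ≠ 0 → B j' ≠ 0 →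
          ¬ (A j / B j - algebraMap ℂ Ω (c 0) ∈ V.nonunits ∧
            A j' / B j' - algebraMap ℂ Ω (c 1) ∈ V.nonunits)) ∧
        p ^ (∑ k, s k) ∣ relfinrank (adjoin ℂ {∏ j, (B j * algebraMap ℂ Ω (c 0) - A j) /
          (B j * algebraMap ℂ Ω (c 1) - A j)}) E := by
  classical
  have hn1 : 1 ≤ n := by omega
  obtain ⟨i₁, i₀, hy0, hnc'⟩ := hnc
  have hab : ∀ k j, a k j ≠ 0 ∨ b k j ≠ 0 := by
    intro k j
    by_contra hc
    push Not at hc
    exact hy0 (by rw [hsig k i₀]; exact sig_zero_of _ _ hc.1 hc.2 _)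
  set k₀ : Fin r := ⟨0, hr⟩ with hk₀
  set A := a k₀ with hA
  set B := b k₀ with hB
  have hAB := hab k₀
  have hperm : ∀ k, ∃ (π : Equiv.Perm (Fin n)) (l : Fin n → Ω), (∀ j, l j ≠ 0) ∧ (∏ j, l j) = 1 ∧
      ∀ j, a k j = l j * A (π j) ∧ b k j = l j * B (π j) := by
    intro k
    refine sig_unique A B (a k) (b k) ⟨i₀, ?_⟩ fun i => ?_
    · rw [← hsig k₀ i₀]; exact hy0
    · rw [← hsig k₀ i, hsig k i]
  choose π l hl0 hl1 hl using hperm
  -- the elements u, w, h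
  set u : Fin n → Ω := fun j => A j / B j with hu
  set w : Fin n → Ω := fun j => α k₀ j / B j with hw
  set h : Fin r → Fin n → Ω := fun k j => (ρ k ((π k).symm j) / b k ((π k).symm j)) ^ (p ^ s k) with hh
  have hbB : ∀ k j, b k ((π k).symm j) = 0 ↔ B j = 0 := by
    intro k j
    rw [(hl k _).2, Equiv.apply_symm_apply, mul_eq_zero]
    constructor
    · rintro (h1 | h1)
      · exact absurd h1 (hl0 k _)
      · exact h1
    · intro h1; exact Or.inr h1
  have hbB' : ∀ k j, b k j = 0 ↔ B (π k j) = 0 := by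
    intro k j
    have := hbB k (π k j)
    rwa [Equiv.symm_apply_apply] at this
  have hratio : ∀ k j, a k j / b k j = u (π k j) := by
    intro k j
    rw [(hl k j).1, (hl k j).2]
    exact mul_div_mul_left _ _ (hl0 k j)
  -- properties of w
  have hw1 : ∀ j, B j ≠ 0 → w j ≠ 0 ∧ w j + (w j)⁻¹ = u j := by
    intro j hj
    obtain ⟨e1, -, e3⟩ := scal_w hj ((hrel k₀).h1 j) ((hrel k₀).h2 j)
    exact ⟨e1, e3⟩
  have hw2 : ∀ k j, b k j ≠ 0 → α k j / b k j ≠ 0 ∧ α k j / b k j + (α k j / b k j)⁻¹ = u (π k j) := by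
    intro k j hj
    obtain ⟨e1, -, e3⟩ := scal_w hj ((hrel k).h1 j) ((hrel k).h2 j)
    exact ⟨e1, by rw [e3, hratio]⟩
  have hw3 : ∀ k j, b k j ≠ 0 → α k j / b k j = w (π k j) ∨ α k j / b k j = (w (π k j))⁻¹ := by
    intro k j hj
    have hj' : B (π k j) ≠ 0 := fun h0 => hj ((hbB' k j).2 h0)
    obtain ⟨e1, e2⟩ := hw1 _ hj'
    obtain ⟨e3, e4⟩ := hw2 k j hj
    exact sym_cases e1 e3 (by rw [e2, e4])
  have hh1 : ∀ k j, B j ≠ 0 → h k j ≠ 0 ∧ h k j + (h k j)⁻¹ = w j ^ (p ^ s k) + (w j ^ (p ^ s k))⁻¹ +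
      algebraMap ℂ Ω (t k ((π k).symm j)) := by
    intro k j hj
    have hj' : b k ((π k).symm j) ≠ 0 := fun h0 => hj ((hbB k j).1 h0)
    obtain ⟨e1, e2⟩ := scal_h hj' ((hrel k).h2 _) ((hrel k).h3 _) ((hrel k).h4 _)
    refine ⟨e1, ?_⟩
    rw [e2]
    congr 1
    obtain ⟨e3, e4⟩ := hw1 j hj
    obtain ⟨e5, e6⟩ := hw2 k ((π k).symm j) hj'
    rw [Equiv.apply_symm_apply] at e6
    exact sym_pow e3 e5 (by rw [e4, e6]) _
  -- the tower
  set E1 := L ⊔ adjoin ℂ (Set.range u) with hE1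
  set E2 := E1 ⊔ adjoin ℂ (Set.range w) with hE2
  set E3 := E2 ⊔ adjoin ℂ (Set.range fun x : Fin r × Fin n => h x.1 x.2) with hE3
  have hu1 : ∀ j, u j ∈ E1 := fun j =>
    (le_sup_right : adjoin ℂ (Set.range u) ≤ E1) (subset_adjoin _ _ ⟨j, rfl⟩)
  have hw4 : ∀ j, w j ∈ E2 := fun j =>
    (le_sup_right : adjoin ℂ (Set.range w) ≤ E2) (subset_adjoin _ _ ⟨j, rfl⟩)
  have hh2 : ∀ k j, h k j ∈ E3 := fun k j =>
    (le_sup_right : adjoin ℂ (Set.range fun x : Fin r × Fin n => h x.1 x.2) ≤ E3)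
      (subset_adjoin _ _ ⟨(k, j), rfl⟩)
  have h12 : E1 ≤ E2 := le_sup_left
  have h23 : E2 ≤ E3 := le_sup_left
  have hLE1 : L ≤ E1 := le_sup_left
  have hu3 : ∀ j, u j ∈ E3 := fun j => h23 (h12 (hu1 j))
  have hw5 : ∀ j, w j ∈ E3 := fun j => h23 (hw4 j)
  have G1 : GoodC p (n * Nat.log p n) L E1 := by
    have := goodC_adjoin_range (n := n) hp L u (by
      intro j
      exact sig_root L A B (l := i₀) (by rw [← hsig k₀ i₀]; exact hy0)
        (fun i => by rw [← hsig k₀ i, ← hsig k₀ i₀]; exact hLy i i₀) j)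
    rwa [Fintype.card_fin] at this
  have G2 : GoodC p (n * Nat.log p n) E1 E2 := by
    have := goodC_adjoin_range (n := n) hp E1 w (by
      intro j
      by_cases hj : B j = 0
      · exact root_zero hn1 (by rw [hw]; simp [hj])
      · obtain ⟨e1, e2⟩ := hw1 j hj
        refine root_quadratic hn (hu1 j) ?_
        rw [← e2]; field_simp; ring)
    rwa [Fintype.card_fin] at this
  have G3 : GoodC p (r * n * Nat.log p n) E2 E3 := by
    have := goodC_adjoin_range (n := n) hp E2 (fun x : Fin r × Fin n => h x.1 x.2) (by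
      rintro ⟨k, j⟩
      by_cases hj : B j = 0
      · refine root_zero hn1 ?_
        show h k j = 0
        rw [hh]
        simp only [(hbB k j).2 hj, div_zero]
        exact zero_pow (pow_ne_zero _ hp.ne_zero)
      · obtain ⟨e1, e2⟩ := hh1 k j hj
        have e3 : w j ^ (p ^ s k) + (w j ^ (p ^ s k))⁻¹ + algebraMap ℂ Ω (t k ((π k).symm j)) ∈ E2 :=
          add_mem (add_mem (pow_mem (hw4 j) _) (inv_mem (pow_mem (hw4 j) _))) (IntermediateField.algebraMap_mem _ _)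
        refine root_quadratic hn e3 ?_
        rw [← e2]
        show h k j * h k j - (h k j + (h k j)⁻¹) * h k j + 1 = 0
        field_simp; ring)
    rwa [Fintype.card_prod, Fintype.card_fin, Fintype.card_fin] at this
  have G := G1.trans (G2.trans G3)
  have hLE3 : L ≤ E3 := G.1
  -- some u is nonconstant
  obtain ⟨j₀, hj₀, hj₁⟩ := exists_nonconst A B hAB ⟨i₁, i₀, by rw [← hsig k₀ i₀]; exact hy0, by
    rw [← hsig k₀ i₀, ← hsig k₀ i₁]; exact hnc'⟩
  -- the roots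
  have hroots : ∀ k, ∃ R : Ω, R ^ (p ^ s k) = (∏ j, if b k j = 0 then 1 else (ρ k j / b k j) ^ (p ^ s k)) ∧
      ∃ q : Polynomial E3, q ≠ 0 ∧ q.natDegree ≤ n ∧ Polynomial.aeval R q = 0 := by
    intro k
    have hht : ∀ j, Transcendental ℚ (t k j) := fun j => ht.transcendental (k, j)
    refine root_small (hs k) (t k) hht E3 (a k) (b k) (α k) (α' k) (ρ k) (ρ' k) (hrel k) (hab k)
      ?_ ?_ ?_ (z k) (hz k) ?_ ?_
    · intro j _; rw [hratio]; exact hu3 _
    · intro j hj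
      rcases hw3 k j hj with e | e
      · rw [e]; exact hw5 _
      · rw [e]; exact inv_mem (hw5 _)
    · intro j _
      have := hh2 k (π k j)
      simp only [hh, Equiv.symm_apply_apply] at this
      exact this
    · refine zdiv_mem E3 (a k) (b k) (hab k) (fun j _ => by rw [hratio]; exact hu3 _) (z k) (i := i₀) ?_ ?_
      · rw [← hsig k i₀]; exact hy0
      · rw [← hsig k i₀]; exact hLE3 (hLz k i₀)
    · intro hall
      obtain ⟨e1, e2⟩ := hall ((π k).symm j₀)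
      rw [hratio, Equiv.apply_symm_apply] at e2
      exact hj₁ e2
  choose R hR hRq using hroots
  set E4 := E3 ⊔ adjoin ℂ (Set.range R) with hE4
  have h34 : E3 ≤ E4 := le_sup_left
  have hRE : ∀ k, R k ∈ E4 := fun k =>
    (le_sup_right : adjoin ℂ (Set.range R) ≤ E4) (subset_adjoin _ _ ⟨k, rfl⟩)
  have G4 : GoodC p (r * Nat.log p n) E3 E4 := by
    have := goodC_adjoin_range (n := n) hp E3 R hRq
    rwa [Fintype.card_fin] at this
  have G' : GoodC p ((n + n + r * n + r) * Nat.log p n) L E4 := (G.trans G4).mono (by ring_nf; exact le_rfl)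
  have hLE4 : L ≤ E4 := G'.1
  have hu4 : ∀ j, u j ∈ E4 := fun j => h34 (hu3 j)
  have hw6 : ∀ j, w j ∈ E4 := fun j => h34 (hw5 j)
  have hh4 : ∀ k j, h k j ∈ E4 := fun k j => h34 (hh2 k j)
  have hR' : ∀ k, R k ^ (p ^ s k) = ∏ j : {j // B j ≠ 0}, h k j := by
    intro k
    rw [hR k, ← Equiv.prod_comp (π k).symm]
    refine prod_if_subtype (fun j => B j ≠ 0) _ _ (fun j hj => ?_) (fun j hj => ?_)
    · rw [if_neg fun h0 => hj ((hbB k j).1 h0)]
    · rw [if_pos ((hbB k j).2 (not_not.1 hj))]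
  -- the index set
  have hfd : ∀ v : E4, Transcendental ℂ v → FiniteDimensional (adjoin ℂ {v}) E4 := by
    intro v hv
    exact fd_main f L E4 hL hLE4 hdep (hLy i₁ i₀) (transc_of_nonconst hnc') G'.2.1 v hv
  obtain ⟨P, hP0, hP⟩ := finrank_prod (E := E4) (J := {j // B j ≠ 0}) (fun j => (⟨u j, hu4 j⟩ : E4))
    ⟨⟨j₀, hj₀⟩, by
      have h1 := transc_of_nonconst hj₁
      intro h2
      exact h1 (h2.algebraMap (A := Ω))⟩ (fun j hj => hfd _ hj)
  refine ⟨E4, A, B, P, G', hsig k₀, hAB, hP0, fun c hc => ?_⟩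
  obtain ⟨c1, c2, c3, c4⟩ := hP c hc
  refine ⟨c1, ?_, ?_, ?_⟩
  · intro j m hj heq
    apply c2 ⟨j, hj⟩ m
    apply Subtype.ext
    exact heq
  · rintro j j' V hV hj hj' ⟨e1, e2⟩
    refine c3 ⟨j, hj⟩ ⟨j', hj'⟩ (V.comap (algebraMap E4 Ω)) (fun z => ?_) ⟨?_, ?_⟩
    · rw [ValuationSubring.mem_comap]
      exact hV z
    · rw [comap_nonunits]; exact e1
    · rw [comap_nonunits]; exact e2
  · have h4 := c4 (p ^ ∑ k, s k) fun i hi => by
      refine place_dvd' hp s (fun k (j : {j // B j ≠ 0}) => t k ((π k).symm j)) ?_ i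
        (fun j => (⟨u j, hu4 j⟩ : E4)) (fun j => (⟨w j, hw6 j⟩ : E4)) ?_ hi (hfd _ hi) ?_
        (fun k j => (⟨h k j, hh4 k j⟩ : E4)) ?_ ?_ (fun k => (⟨R k, hRE k⟩ : E4)) ?_
      · have := ht.comp (fun x : Fin r × {j // B j ≠ 0} => (x.1, (π x.1).symm x.2)) (by
          rintro ⟨k, j⟩ ⟨k', j'⟩ hkj
          simp only [Prod.mk.injEq] at hkj
          obtain ⟨rfl, h2⟩ := hkj
          have := (π k).symm.injective h2
          rw [Subtype.ext this])
        exact this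
      · intro j
        apply Subtype.ext
        exact (hw1 j j.2).2
      · intro j h0
        exact (hw1 j j.2).1 (congrArg Subtype.val h0)
      · intro k j h0
        exact (hh1 k j j.2).1 (congrArg Subtype.val h0)
      · intro k j
        apply Subtype.ext
        exact (hh1 k j j.2).2
      · intro k
        apply Subtype.ext
        have e1 : (((fun k => (⟨R k, hRE k⟩ : E4)) k ^ p ^ s k : E4) : Ω) = R k ^ p ^ s k := rfl
        rw [e1, hR' k]
        exact (map_prod (algebraMap E4 Ω) (fun j : {j // B j ≠ 0} => (⟨h k j, hh4 k j⟩ : E4)) Finset.univ).symm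
    have h5 := relfinrank_sub E4 (∏ j : {j // B j ≠ 0}, ((⟨u j, hu4 j⟩ : E4) - algebraMap ℂ E4 (c 0)) /
      ((⟨u j, hu4 j⟩ : E4) - algebraMap ℂ E4 (c 1)))
    rw [← h5] at h4
    have h6 : ((∏ j : {j // B j ≠ 0}, ((⟨u j, hu4 j⟩ : E4) - algebraMap ℂ E4 (c 0)) /
      ((⟨u j, hu4 j⟩ : E4) - algebraMap ℂ E4 (c 1)) : E4) : Ω) = ∏ j, (B j * algebraMap ℂ Ω (c 0) - A j) /
          (B j * algebraMap ℂ Ω (c 1) - A j) := by
      rw [prod_if_subtype (fun j => B j ≠ 0) (fun j => (B j * algebraMap ℂ Ω (c 0) - A j) /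
          (B j * algebraMap ℂ Ω (c 1) - A j)) (fun j => (u j - algebraMap ℂ Ω (c 0)) / (u j - algebraMap ℂ Ω (c 1)))]
      · exact (map_prod (algebraMap E4 Ω) _ Finset.univ)
      · intro j hj
        have e1 : A j = B j * u j := by simp only [hu]; field_simp
        rw [e1, ← mul_sub, ← mul_sub, mul_div_mul_left _ _ hj, ← neg_sub, ← neg_sub (u j), neg_div_neg_eq]
      · intro j hj
        rw [not_not] at hj
        rw [hj, zero_mul, zero_mul, zero_sub]
        refine div_self (neg_ne_zero.2 ?_)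
        rcases hAB j with e | e
        · exact e
        · exact absurd hj e
    rw [h6] at h4
    exact h4

end Pool.Agent.H861.CD
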