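import Mathlib

/-!
Project CD (helper861), MP_8dbee4_ag, part T11: `smooth_density` below (self-contained; only Mathlib).

A positive proportion of the integers `d ≤ D` satisfies `d ≥ √D`, has only prime factors `> n`, and `p^(v_p(d)) ≤ D^(1/K)` for all primes `p ∣ d`.

Proof. The condition gets stronger with `K`, so let `K ≥ 1` and `L := 4K ≥ 4`, `N := n!`, `y₁ := D^(1/L)`, `y₀ := y₁^(1 - 1/L)` (reals). All for large `D`. Consider pairs `(P, m)`: `P` a set of `L` distinct primes in `(y₀, y₁]`, `m ≥ 1`, `m ≡ 1 mod N`, `m ∏P ≤ D`. Let `d := m ∏P`.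
 * `∏P > y₀^L = D^(1-1/L) ≥ D^(1/2)`, so `d² ≥ D`, and `m ≤ D/∏P < D^(1/L) = y₁`.
 * the primes dividing `d` are `> n` (`m ≡ 1 mod n!`, `y₀ ≥ n`), and `p^(v_p(d)) ≤ m · y₁ ≤ y₁² = D^(2/L)` because `P` consists of distinct primes; so `(p^(v_p(d)))^K ≤ D^(2K/L) = D^(1/2) ≤ D`.
 * Each `d ≤ D` comes from at most `4^L` pairs: `P` is a subset of the set of the primes `p ∣ d`, `p > y₀`, which has at most `log D/log y₀ = L/(1-1/L) ≤ 2L` elements, and `m = d/∏P`.
 * The number of pairs is at least `Σ_P (D/∏P)/(2N)`: the number of `m ≤ X`, `m ≡ 1 mod N`, is `⌊(X-1)/N⌋ + 1 ≥ X/(2N)` for `X ≥ 1`. So it is `≥ (D/(2N)) e_L`, `e_L` = elementary symmetric polynomial of degree `L` of the numbers `1/p`, `y₀ < p ≤ y₁`. With `s₁ := Σ 1/p`, `s₂ := Σ 1/p² ≤ 1/(y₀ - 1)` : `s₁^L ≤ L! e_L + L² s₂ s₁^(L-2)`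
   (the tuples `(p_1..p_L)` with two equal entries); [alternatively choose `L` disjoint subintervals and one prime from each of them, which avoids `s₂`: `(y₀, y₁]` is the union of `L` intervals `(z_i, z_(i+1)]`, `z_i = y₀^(1-i/L) y₁^(i/L)`, and `e_L ≥ ∏_i Σ_{z_i<p≤z_(i+1)} 1/p`]. So it suffices that
   `Σ_{z<p≤z'} 1/p ≥ c' > 0` for `z' = z^(1+δ)`, `δ > 0` fixed and `z` large:
 * Chebyshev (Mathlib: `Chebyshev.theta_ge`, `Chebyshev.theta_le_log4_mul_x`): `θ(4t) - θ(t) ≥ 4t log 2 - o(t) - t log 4 ≥ t log 2` for large `t`, so `Σ_{t<p≤4t} 1/p ≥ (θ(4t)-θ(t))/(4t log(4t)) ≥ c''/log(4t)`. Sum over `t = z, 4z, 16z, …`: about `log(z'/z)/log 4` values, each term `≥ c''/log z'`, so the sum is `≥ c''' log(z'/z)/log z' ≥ c'`.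
Any variant of the proof is fine (e.g. powers of 2 or integer roots instead of real powers).
-/

set_option autoImplicit false

namespace Pool.Agent.H861.CD

namespace T11aux

open Finset

/-- primes in `(4^u, 4^v]` -/
def Pr (u v : ℕ) : Finset ℕ := (Ioc (4 ^ u) (4 ^ v)).filter Nat.Prime

theorem mem_Pr {u v p : ℕ} : p ∈ Pr u v ↔ (4 ^ u < p ∧ p ≤ 4 ^ v) ∧ p.Prime := by
  simp [Pr]

theorem theta_diff (j : ℕ) : ∑ p ∈ Pr j (j + 1), Real.log p =
    Chebyshev.theta ((4 ^ (j + 1) : ℕ) : ℝ) - Chebyshev.theta ((4 ^ j : ℕ) : ℝ) := by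
  unfold Chebyshev.theta Pr
  rw [Nat.floor_natCast, Nat.floor_natCast, sum_filter, sum_filter, sum_filter,
    ← Finset.sum_Ioc_consecutive _ (Nat.zero_le (4 ^ j)) (Nat.pow_le_pow_right (by norm_num) (Nat.le_succ j))]
  ring

theorem pow_ineq (j : ℕ) (hj : 7 ≤ j) : 16 * (j + 1) ≤ 2 ^ j := by
  induction j, hj using Nat.le_induction with
  | base => norm_num
  | succ k hk ih => rw [pow_succ]; omega

theorem theta_block (j : ℕ) (hj : 7 ≤ j) :
    (4 : ℝ) ^ j * Real.log 2 ≤ ∑ p ∈ Pr j (j + 1), Real.log p := by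
  rw [theta_diff]
  have h1 := Chebyshev.theta_ge (4 ^ (j + 1))
  have h2 : Chebyshev.theta ((4 ^ j : ℕ) : ℝ) ≤ Real.log 4 * ((4 ^ j : ℕ) : ℝ) :=
    Chebyshev.theta_le_log4_mul_x (Nat.cast_nonneg _)
  have h4 : Real.log 4 = 2 * Real.log 2 := by
    rw [show (4 : ℝ) = 2 ^ 2 by norm_num, Real.log_pow]
    norm_num
  have h5 : Real.log (((4 ^ (j + 1) : ℕ) : ℝ) + 1) ≤ 2 * (j + 2) * Real.log 2 := by
    have h6 : (((4 ^ (j + 1) : ℕ) : ℝ) + 1) ≤ 4 ^ (j + 2) := by
      have h7 : 4 ^ (j + 1) + 1 ≤ 4 ^ (j + 2) := by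
        have : 1 ≤ 4 ^ (j + 1) := Nat.one_le_pow _ _ (by norm_num)
        rw [pow_succ 4 (j + 1)]
        omega
      exact_mod_cast h7
    calc Real.log (((4 ^ (j + 1) : ℕ) : ℝ) + 1) ≤ Real.log (4 ^ (j + 2)) :=
          Real.log_le_log (by positivity) h6
      _ = 2 * (j + 2) * Real.log 2 := by
          rw [Real.log_pow, h4]
          push_cast
          ring
  have h6 : Real.sqrt ((4 ^ (j + 1) : ℕ) : ℝ) = 2 ^ (j + 1) := by
    rw [show (((4 ^ (j + 1) : ℕ) : ℝ)) = (2 ^ (j + 1)) ^ 2 by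
      push_cast
      rw [← pow_mul, mul_comm (j + 1) 2, pow_mul]
      norm_num]
    exact Real.sqrt_sq (by positivity)
  have h7 : Real.log ((4 ^ (j + 1) : ℕ) : ℝ) = 2 * (j + 1) * Real.log 2 := by
    push_cast
    rw [Real.log_pow, h4]
    push_cast
    ring
  rw [h6, h7] at h1
  rw [h4] at h2
  have hl : 0 < Real.log 2 := Real.log_pos (by norm_num)
  have h8 : (16 : ℝ) * (j + 1) ≤ 2 ^ j := by exact_mod_cast pow_ineq j hj
  have h9 : (4 : ℝ) ^ j = 2 ^ j * 2 ^ j := by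
    rw [← mul_pow]
    norm_num
  have h10 : (2 : ℝ) ≤ 2 ^ j := by
    have : (16 : ℝ) * (j + 1) ≥ 2 := by nlinarith [(Nat.cast_nonneg j : (0 : ℝ) ≤ j)]
    linarith
  have h11 : 2 * ((j : ℝ) + 2) + 2 * 2 ^ (j + 1) * (2 * (j + 1)) ≤ 4 ^ j := by
    rw [h9, pow_succ]
    have h12 : (j : ℝ) + 2 ≤ 2 * (j + 1) := by linarith [(Nat.cast_nonneg j : (0 : ℝ) ≤ j)]
    nlinarith [mul_le_mul_of_nonneg_right h8 (by positivity : (0 : ℝ) ≤ 2 ^ j)]
  have h12 := mul_le_mul_of_nonneg_right h11 hl.le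
  have h13 : (((4 ^ (j + 1) : ℕ) : ℝ)) = 4 * 4 ^ j := by
    push_cast
    ring
  have h14 : (((4 ^ j : ℕ) : ℝ)) = 4 ^ j := by
    push_cast
    ring
  rw [h13] at h1 h5 ⊢
  rw [h14] at h2 ⊢
  nlinarith

theorem block (j : ℕ) (hj : 7 ≤ j) :
    1 / (8 * ((j : ℝ) + 1)) ≤ ∑ p ∈ Pr j (j + 1), (1 : ℝ) / p := by
  have hl : 0 < Real.log 2 := Real.log_pos (by norm_num)
  have h4 : Real.log 4 = 2 * Real.log 2 := by
    rw [show (4 : ℝ) = 2 ^ 2 by norm_num, Real.log_pow]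
    norm_num
  have hj1 : (0 : ℝ) < j + 1 := by positivity
  have h1 : ∀ p ∈ Pr j (j + 1), Real.log p / (4 ^ (j + 1) * (2 * (j + 1) * Real.log 2)) ≤
      (1 : ℝ) / p := by
    intro p hp
    obtain ⟨⟨h2, h3⟩, hp'⟩ := mem_Pr.1 hp
    have hp0 : (0 : ℝ) < p := by exact_mod_cast hp'.pos
    have h5 : (p : ℝ) ≤ 4 ^ (j + 1) := by exact_mod_cast h3
    have h6 : Real.log p ≤ 2 * (j + 1) * Real.log 2 := by
      calc Real.log p ≤ Real.log (4 ^ (j + 1)) := Real.log_le_log hp0 h5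
        _ = 2 * (j + 1) * Real.log 2 := by
            rw [Real.log_pow, h4]
            push_cast
            ring
    rw [div_le_div_iff₀ (by positivity) hp0, one_mul, mul_comm]
    exact mul_le_mul h5 h6 (Real.log_nonneg (by exact_mod_cast hp'.one_lt.le)) (by positivity)
  refine le_trans ?_ (sum_le_sum h1)
  rw [← sum_div, div_le_div_iff₀ (by positivity) (by positivity), one_mul]
  have h2 := theta_block j hj
  have h3 := mul_le_mul_of_nonneg_right h2 (by positivity : (0 : ℝ) ≤ 8 * (j + 1))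
  calc (4 : ℝ) ^ (j + 1) * (2 * (j + 1) * Real.log 2) = 4 ^ j * Real.log 2 * (8 * (j + 1)) := by
        ring
    _ ≤ _ := h3

theorem blocks (u k : ℕ) (hu : 7 ≤ u) :
    (k : ℝ) / (8 * ((u : ℝ) + k)) ≤ ∑ p ∈ Pr u (u + k), (1 : ℝ) / p := by
  induction k with
  | zero => simp [Pr]
  | succ k ih =>
    have h1 : ∑ p ∈ Pr u (u + (k + 1)), (1 : ℝ) / p =
        ∑ p ∈ Pr u (u + k), (1 : ℝ) / p + ∑ p ∈ Pr (u + k) (u + k + 1), (1 : ℝ) / p := by
      unfold Pr
      rw [sum_filter, sum_filter, sum_filter, Finset.sum_Ioc_consecutive]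
      · rfl
      · exact Nat.pow_le_pow_right (by norm_num) (Nat.le_add_right _ _)
      · exact Nat.pow_le_pow_right (by norm_num) (Nat.le_succ _)
    have h2 := block (u + k) (by omega)
    rw [h1]
    have hu0 : (0 : ℝ) < u := by
      have : 0 < u := by omega
      exact_mod_cast this
    push_cast at h2 ⊢
    have hk0 : (0 : ℝ) ≤ k := Nat.cast_nonneg k
    have h3 : (k : ℝ) / (8 * ((u : ℝ) + (k + 1))) ≤ k / (8 * ((u : ℝ) + k)) := by
      apply div_le_div_of_nonneg_left hk0 (by positivity)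
      linarith
    have h4 : ((k : ℝ) + 1) / (8 * ((u : ℝ) + (k + 1))) =
        k / (8 * ((u : ℝ) + (k + 1))) + 1 / (8 * ((u : ℝ) + k + 1)) := by
      rw [← add_assoc, ← add_div]
    rw [h4]
    linarith

theorem count_m (N D P : ℕ) (hN : 1 ≤ N) (hP : 1 ≤ P) (hPD : P ≤ D) :
    (D : ℝ) / (2 * N * P) ≤ (((Icc 1 D).filter fun m => N ∣ m - 1 ∧ m * P ≤ D).card : ℝ) := by
  obtain ⟨X, hX⟩ : ∃ X, X = D / P := ⟨_, rfl⟩
  have hX1 : 1 ≤ X := by
    rw [hX]
    exact (Nat.one_le_div_iff hP).2 hPD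
  have hXP : X * P ≤ D := by
    rw [hX]
    exact Nat.div_mul_le_self D P
  have hXP' : D < (X + 1) * P := by
    refine (Nat.div_lt_iff_lt_mul hP).1 ?_
    rw [← hX]
    exact Nat.lt_succ_self X
  obtain ⟨k, hk⟩ : ∃ k, k = (X - 1) / N + 1 := ⟨_, rfl⟩
  have hkN : X ≤ k * N := by
    have h1 := Nat.div_add_mod (X - 1) N
    have h2 := Nat.mod_lt (X - 1) hN
    rw [hk, add_mul, one_mul, mul_comm ((X - 1) / N) N]
    omega
  have hcard : k ≤ ((Icc 1 D).filter fun m => N ∣ m - 1 ∧ m * P ≤ D).card := by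
    have h1 : (range k).card ≤ ((Icc 1 D).filter fun m => N ∣ m - 1 ∧ m * P ≤ D).card := by
      refine card_le_card_of_injOn (fun i => 1 + N * i) (fun i hi => ?_) (fun i _ j _ hij => ?_)
      · have hi' : i < k := mem_range.1 hi
        have h2 : N * i ≤ X - 1 := by
          have h3 : i ≤ (X - 1) / N := by omega
          calc N * i ≤ N * ((X - 1) / N) := Nat.mul_le_mul_left _ h3
            _ ≤ X - 1 := Nat.mul_div_le _ _
        have h3 : 1 + N * i ≤ X := by omega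
        have h4 : (1 + N * i) * P ≤ D := (Nat.mul_le_mul_right _ h3).trans hXP
        have h5 : 1 + N * i ≤ D := h3.trans ((Nat.le_mul_of_pos_right X hP).trans hXP)
        rw [mem_coe, mem_filter, mem_Icc]
        refine ⟨⟨Nat.le_add_right 1 _, h5⟩, ⟨i, ?_⟩, h4⟩
        change 1 + N * i - 1 = N * i
        omega
      · have h2 : N * i = N * j := by
          simp only at hij
          omega
        exact Nat.eq_of_mul_eq_mul_left hN h2
    rwa [card_range] at h1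
  have h1 : D ≤ k * (2 * N * P) := by
    have h2 : (X + 1) * P ≤ (2 * X) * P := Nat.mul_le_mul_right _ (by omega)
    have h3 : (2 * X) * P ≤ (2 * (k * N)) * P := Nat.mul_le_mul_right _ (by omega)
    calc D ≤ (2 * (k * N)) * P := by omega
      _ = k * (2 * N * P) := by ring
  have hN0 : (0 : ℝ) < N := by exact_mod_cast hN
  have hP0 : (0 : ℝ) < P := by exact_mod_cast hP
  have h2 : (D : ℝ) / (2 * N * P) ≤ k := by
    rw [div_le_iff₀ (by positivity)]
    exact_mod_cast h1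
  exact h2.trans (by exact_mod_cast hcard)

/-- the intervals -/
def In (L a : ℕ) (i : Fin L) : Finset ℕ := Pr (a * (L + i)) (a * (L + i + 1))

theorem In_sum (L a : ℕ) (hL : 1 ≤ L) (ha : 7 ≤ a) (i : Fin L) :
    1 / (16 * (L : ℝ)) ≤ ∑ p ∈ In L a i, (1 : ℝ) / p := by
  have h0 : 7 ≤ a * (L + i) := by
    calc 7 ≤ a * 1 := by omega
      _ ≤ a * (L + i) := Nat.mul_le_mul_left _ (by omega)
  have h1 := blocks (a * (L + i)) a h0
  have h2 : a * (L + i) + a = a * (L + i + 1) := by ring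
  rw [h2] at h1
  refine le_trans ?_ h1
  have ha0 : (0 : ℝ) < a := by
    have : 0 < a := by omega
    exact_mod_cast this
  have hL0 : (0 : ℝ) < L := by exact_mod_cast hL
  have hi : ((i : ℕ) : ℝ) + 1 ≤ L := by exact_mod_cast i.2
  have hi0 : (0 : ℝ) ≤ ((i : ℕ) : ℝ) := Nat.cast_nonneg _
  push_cast
  rw [div_le_div_iff₀ (by positivity) (by positivity), one_mul]
  nlinarith [mul_pos ha0 hL0]

/-- the sum of the lower exponents -/
def Qs (L : ℕ) : ℕ := ∑ i : Fin L, (L + (i : ℕ))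

theorem Qs_ge (L : ℕ) : L * L ≤ Qs L := by
  unfold Qs
  calc L * L = ∑ _i : Fin L, L := by simp
    _ ≤ _ := sum_le_sum fun i _ => Nat.le_add_right _ _

theorem prod_ge {L a : ℕ} {p : Fin L → ℕ} (hp : ∀ i, p i ∈ In L a i) :
    4 ^ (a * Qs L) ≤ ∏ i, p i := by
  have h1 : 4 ^ (a * Qs L) = ∏ i : Fin L, 4 ^ (a * (L + (i : ℕ))) := by
    rw [prod_pow_eq_pow_sum, Qs, mul_sum]
  rw [h1]
  exact prod_le_prod (fun _ _ => Nat.zero_le _) fun i _ => (mem_Pr.1 (hp i)).1.1.le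

theorem prod_le {L a : ℕ} {p : Fin L → ℕ} (hp : ∀ i, p i ∈ In L a i) :
    ∏ i, p i ≤ 4 ^ (a * (Qs L + L)) := by
  have h1 : 4 ^ (a * (Qs L + L)) = ∏ i : Fin L, 4 ^ (a * (L + (i : ℕ) + 1)) := by
    rw [prod_pow_eq_pow_sum, Qs, ← mul_sum, sum_add_distrib (g := fun _ => 1)]
    simp
  rw [h1]
  exact prod_le_prod (fun _ _ => Nat.zero_le _) fun i _ => (mem_Pr.1 (hp i)).1.2

theorem In_inj {L a : ℕ} {i j : Fin L} {x : ℕ} (hi : x ∈ In L a i) (hj : x ∈ In L a j) :
    i = j := by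
  have key : ∀ i j : Fin L, x ∈ In L a i → x ∈ In L a j → ¬ i < j := by
    intro i j hi hj hij
    have h1 := (mem_Pr.1 hi).1.2
    have h2 := (mem_Pr.1 hj).1.1
    have h3 : 4 ^ (a * (L + (i : ℕ) + 1)) ≤ 4 ^ (a * (L + (j : ℕ))) := by
      refine Nat.pow_le_pow_right (by norm_num) (Nat.mul_le_mul_left _ ?_)
      have : (i : ℕ) < j := hij
      omega
    omega
  rcases lt_trichotomy i j with h | h | h
  · exact absurd h (key i j hi hj)
  · exact h
  · exact absurd h (key j i hj hi)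

/-- the exponents in the product of the primes -/
theorem fact_prod {L a : ℕ} {p : Fin L → ℕ} (hp : ∀ i, p i ∈ In L a i) (x : ℕ) :
    x ^ (∏ i, p i).factorization x ≤ 4 ^ (a * (2 * L)) := by
  have h0 : ∀ i ∈ (univ : Finset (Fin L)), p i ≠ 0 := fun i _ => (mem_Pr.1 (hp i)).2.ne_zero
  have h1 : (∏ i, p i).factorization x = ∑ i, if p i = x then 1 else 0 := by
    rw [Nat.factorization_prod h0, Finsupp.finsetSum_apply]
    refine sum_congr rfl fun i _ => ?_
    rw [(mem_Pr.1 (hp i)).2.factorization, Finsupp.single_apply]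
  by_cases hx : ∃ i, p i = x
  · obtain ⟨i, hi⟩ := hx
    have h2 : (∏ i, p i).factorization x = 1 := by
      rw [h1, sum_eq_single i]
      · rw [if_pos hi]
      · intro j _ hj
        rw [if_neg]
        intro hj'
        exact hj (In_inj (hj' ▸ hp j) (hi ▸ hp i))
      · intro h
        exact absurd (mem_univ i) h
    rw [h2, pow_one, ← hi]
    refine (mem_Pr.1 (hp i)).1.2.trans (Nat.pow_le_pow_right (by norm_num) ?_)
    refine Nat.mul_le_mul_left _ ?_
    have := i.2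
    omega
  · have h2 : (∏ i, p i).factorization x = 0 := by
      rw [h1]
      refine sum_eq_zero fun i _ => ?_
      rw [if_neg fun h => hx ⟨i, h⟩]
    rw [h2, pow_zero]
    exact Nat.one_le_pow _ _ (by norm_num)

/-- the large prime factors -/
def Tp (L a d : ℕ) : Finset ℕ := d.primeFactors.filter fun p => 4 ^ (a * L) < p

theorem Tp_card {L a d Q : ℕ} (hL : 1 ≤ L) (ha : 1 ≤ a) (hd : d ≠ 0) (h : d < 4 ^ ((a + 1) * Q)) :
    (Tp L a d).card ≤ 2 * Q := by
  have h1 : (4 ^ (a * L)) ^ (Tp L a d).card ≤ d := by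
    calc (4 ^ (a * L)) ^ (Tp L a d).card = ∏ _p ∈ Tp L a d, 4 ^ (a * L) := by rw [prod_const]
      _ ≤ ∏ p ∈ Tp L a d, p :=
          prod_le_prod (fun _ _ => Nat.zero_le _) fun p hp => (mem_filter.1 hp).2.le
      _ ≤ d := Nat.le_of_dvd (Nat.pos_of_ne_zero hd)
          ((prod_dvd_prod_of_subset _ _ _ (filter_subset _ _)).trans (Nat.prod_primeFactors_dvd d))
  rw [← pow_mul] at h1
  have h2 : a * L * (Tp L a d).card < (a + 1) * Q := by
    have h3 := h1.trans_lt h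
    exact (Nat.pow_lt_pow_iff_right (by norm_num)).1 h3
  have h3 : (a + 1) * Q ≤ 2 * a * Q := Nat.mul_le_mul_right _ (by omega)
  have h4 : a * (Tp L a d).card ≤ a * L * (Tp L a d).card :=
    Nat.mul_le_mul_right _ (Nat.le_mul_of_pos_right a hL)
  have h5 : a * (Tp L a d).card < a * (2 * Q) := by
    calc a * (Tp L a d).card < 2 * a * Q := by omega
      _ = a * (2 * Q) := by ring
  exact (Nat.lt_of_mul_lt_mul_left h5).le

end T11aux

open T11aux Finset in
open Classical in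
theorem smooth_density (n K : ℕ) : ∃ c : ℝ, 0 < c ∧ ∃ D₀ : ℕ, ∀ D : ℕ, D₀ ≤ D →
    c * (D : ℝ) ≤ (((Finset.Icc 1 D).filter fun d => D ≤ d ^ 2 ∧ ∀ p : ℕ, p.Prime → p ∣ d →
      n < p ∧ (p ^ d.factorization p) ^ K ≤ D).card : ℝ) := by
  obtain ⟨L, hLdef⟩ : ∃ L, L = 4 * (K + 1) := ⟨_, rfl⟩
  obtain ⟨N, hNdef⟩ : ∃ N, N = n.factorial := ⟨_, rfl⟩
  obtain ⟨Q, hQdef⟩ : ∃ Q, Q = Qs L + L := ⟨_, rfl⟩
  have hL4 : 4 ≤ L := by omega
  have hN1 : 1 ≤ N := by
    rw [hNdef]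
    exact Nat.factorial_pos n
  have hQs := Qs_ge L
  have hLL : 4 * L ≤ L * L := Nat.mul_le_mul_right _ hL4
  have hQ1 : 1 ≤ Q := by omega
  have hN0 : (0 : ℝ) < N := by exact_mod_cast hN1
  have hL0 : (0 : ℝ) < L := by
    have : 0 < L := by omega
    exact_mod_cast this
  have hQ0 : (0 : ℝ) < Q := by exact_mod_cast hQ1
  refine ⟨1 / (2 * N) * (1 / (16 * (L : ℝ))) ^ L / (2 * Q) ^ L, by positivity,
    4 ^ ((Q + n + 7) * Q), fun D hD => ?_⟩
  have hD0 : D ≠ 0 := by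
    have : 0 < 4 ^ ((Q + n + 7) * Q) := by positivity
    omega
  -- the scale
  obtain ⟨a, hadef⟩ : ∃ a, a = Nat.log 4 D / Q := ⟨_, rfl⟩
  have hA : Q + n + 7 ≤ a := by
    rw [hadef, Nat.le_div_iff_mul_le hQ1]
    exact Nat.le_log_of_pow_le (by norm_num) hD
  have hD1 : 4 ^ (a * Q) ≤ D := by
    refine le_trans (Nat.pow_le_pow_right (by norm_num) ?_) (Nat.pow_log_le_self 4 hD0)
    rw [hadef]
    exact Nat.div_mul_le_self _ _
  have hD2 : D < 4 ^ ((a + 1) * Q) := by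
    refine (Nat.lt_pow_succ_log_self (by norm_num) D).trans_le
      (Nat.pow_le_pow_right (by norm_num) ?_)
    have h1 := Nat.div_add_mod (Nat.log 4 D) Q
    have h2 := Nat.mod_lt (Nat.log 4 D) hQ1
    rw [← hadef] at h1
    have h3 : (a + 1) * Q = Q * a + Q := by ring
    rw [h3]
    omega
  obtain ⟨S, hS⟩ : ∃ S : Finset (Σ _ : Fin L → ℕ, ℕ), S =
      (Fintype.piFinset (In L a)).sigma fun p => (Icc 1 D).filter
        fun m => N ∣ m - 1 ∧ m * ∏ i, p i ≤ D := ⟨_, rfl⟩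
  have hmem : ∀ x ∈ S, (∀ i, x.1 i ∈ In L a i) ∧ (1 ≤ x.2 ∧ x.2 ≤ D) ∧ N ∣ x.2 - 1 ∧
      x.2 * ∏ i, x.1 i ≤ D := by
    intro x hx
    rw [hS, mem_sigma, Fintype.mem_piFinset, mem_filter, mem_Icc] at hx
    exact ⟨hx.1, hx.2.1, hx.2.2.1, hx.2.2.2⟩
  -- lower bound of the number of pairs
  have hlow : 1 / (2 * N) * (1 / (16 * (L : ℝ))) ^ L * D ≤ (S.card : ℝ) := by
    rw [hS, card_sigma, Nat.cast_sum]
    have h1 : ∀ p ∈ Fintype.piFinset (In L a), (D : ℝ) / (2 * N) * ∏ i, (1 : ℝ) / (p i) ≤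
        (((Icc 1 D).filter fun m => N ∣ m - 1 ∧ m * ∏ i, p i ≤ D).card : ℝ) := by
      intro p hp
      rw [Fintype.mem_piFinset] at hp
      have h2 : 1 ≤ ∏ i, p i := le_trans (Nat.one_le_pow _ _ (by norm_num)) (prod_ge hp)
      have h3 : ∏ i, p i ≤ D := (prod_le hp).trans (by rwa [← hQdef])
      refine le_trans (le_of_eq ?_) (count_m N D (∏ i, p i) hN1 h2 h3)
      rw [prod_div_distrib, prod_const_one, Nat.cast_prod, div_mul_div_comm, mul_one]
    refine le_trans ?_ (sum_le_sum h1)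
    rw [← mul_sum, ← prod_univ_sum (In L a) (fun _ x => (1 : ℝ) / (x : ℝ))]
    have h2 : (1 / (16 * (L : ℝ))) ^ L ≤ ∏ i : Fin L, ∑ x ∈ In L a i, (1 : ℝ) / (x : ℝ) := by
      calc (1 / (16 * (L : ℝ))) ^ L = ∏ _i : Fin L, (1 / (16 * (L : ℝ))) := by
            rw [prod_const, card_univ, Fintype.card_fin]
        _ ≤ _ := prod_le_prod (fun _ _ => by positivity)
            fun i _ => In_sum L a (by omega) (by omega) i
    calc 1 / (2 * N) * (1 / (16 * (L : ℝ))) ^ L * D = D / (2 * N) * (1 / (16 * (L : ℝ))) ^ L := by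
          ring
      _ ≤ _ := mul_le_mul_of_nonneg_left h2 (by positivity)
  -- the map
  obtain ⟨f, hf⟩ : ∃ f : (Σ _ : Fin L → ℕ, ℕ) → ℕ, ∀ x, f x = x.2 * ∏ i, x.1 i :=
    ⟨_, fun _ => rfl⟩
  have hfib : ∀ d ∈ S.image f, (S.filter fun x => f x = d).card ≤ (2 * Q) ^ L := by
    intro d hd
    obtain ⟨y, hy, hyd⟩ := mem_image.1 hd
    obtain ⟨hy1, hy2, hy3, hy4⟩ := hmem y hy
    have hdD : d ≤ D := by
      rw [← hyd, hf]
      exact hy4
    have hd0 : d ≠ 0 := by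
      rw [← hyd, hf]
      refine mul_ne_zero (by omega) ?_
      exact prod_ne_zero_iff.2 fun i _ => (mem_Pr.1 (hy1 i)).2.ne_zero
    have h1 : (S.filter fun x => f x = d).card ≤
        (Fintype.piFinset fun _ : Fin L => Tp L a d).card := by
      refine card_le_card_of_injOn (fun x => x.1) (fun x hx => ?_) (fun x hx x' hx' hxx => ?_)
      · rw [mem_coe, mem_filter] at hx
        obtain ⟨hx1, hx2, hx3, hx4⟩ := hmem x hx.1
        rw [mem_coe, Fintype.mem_piFinset]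
        intro i
        have h2 := mem_Pr.1 (hx1 i)
        rw [Tp, mem_filter, Nat.mem_primeFactors]
        refine ⟨⟨h2.2, ?_, hd0⟩, ?_⟩
        · rw [← hx.2, hf]
          exact Dvd.dvd.mul_left (dvd_prod_of_mem _ (mem_univ i)) _
        · refine lt_of_le_of_lt (Nat.pow_le_pow_right (by norm_num) ?_) h2.1.1
          exact Nat.mul_le_mul_left _ (Nat.le_add_right _ _)
      · rw [mem_coe, mem_filter] at hx hx'
        obtain ⟨p, m⟩ := x
        obtain ⟨p', m'⟩ := x'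
        simp only at hxx
        subst hxx
        have h2 := hx.2.trans hx'.2.symm
        rw [hf, hf] at h2
        have h3 : 0 < ∏ i, p i := prod_pos fun i _ => (mem_Pr.1 ((hmem _ hx.1).1 i)).2.pos
        have h4 : m = m' := Nat.eq_of_mul_eq_mul_right h3 h2
        rw [h4]
    refine h1.trans ?_
    rw [Fintype.card_piFinset, prod_const, card_univ, Fintype.card_fin]
    exact Nat.pow_le_pow_left (Tp_card (by omega) (by omega) hd0 (hdD.trans_lt hD2)) _
  have hcard := card_le_mul_card_image S ((2 * Q) ^ L) hfib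
  -- the image is contained in the set
  have hsub : S.image f ⊆ ((Finset.Icc 1 D).filter fun d => D ≤ d ^ 2 ∧ ∀ p : ℕ, p.Prime → p ∣ d →
      n < p ∧ (p ^ d.factorization p) ^ K ≤ D) := by
    intro d hd
    obtain ⟨x, hx, rfl⟩ := mem_image.1 hd
    obtain ⟨hx1, ⟨hx2, hx2'⟩, hx3, hx4⟩ := hmem x hx
    rw [hf]
    have hP1 := prod_ge hx1
    have hP0 : 0 < ∏ i, x.1 i := prod_pos fun i _ => (mem_Pr.1 (hx1 i)).2.pos
    have hd1 : ∏ i, x.1 i ≤ x.2 * ∏ i, x.1 i := Nat.le_mul_of_pos_left _ hx2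
    rw [mem_filter, mem_Icc]
    refine ⟨⟨by omega, hx4⟩, ?_, fun p hp hpd => ⟨?_, ?_⟩⟩
    · have h1 : (4 ^ (a * Qs L)) ^ 2 ≤ (x.2 * ∏ i, x.1 i) ^ 2 :=
        Nat.pow_le_pow_left (hP1.trans hd1) 2
      refine le_trans (hD2.le.trans ?_) h1
      rw [← pow_mul]
      refine Nat.pow_le_pow_right (by norm_num) ?_
      have h2 : a * (4 * L) ≤ a * Qs L := Nat.mul_le_mul_left _ (by omega)
      have h3 : Q * 1 ≤ a * L := Nat.mul_le_mul (by omega) (by omega)
      rw [hQdef] at h3 ⊢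
      have h4 : (a + 1) * (Qs L + L) = a * Qs L + a * L + (Qs L + L) := by ring
      have h5 : a * (4 * L) = 4 * (a * L) := by ring
      omega
    · rcases (hp.dvd_mul).1 hpd with h | h
      · by_contra hnp
        have h1 : p ∣ N := by
          rw [hNdef]
          exact hp.dvd_factorial.2 (not_lt.1 hnp)
        have h2 := Nat.dvd_sub h (h1.trans hx3)
        have h3 : x.2 - (x.2 - 1) = 1 := by omega
        rw [h3] at h2
        exact hp.one_lt.ne' (Nat.dvd_one.1 h2)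
      · obtain ⟨i, _, hi⟩ := (hp.prime.dvd_finsetProd_iff _).1 h
        have h1 := mem_Pr.1 (hx1 i)
        rw [(Nat.prime_dvd_prime_iff_eq hp h1.2).1 hi]
        have h2 : a < 4 ^ a := Nat.lt_pow_self (by norm_num)
        have h3 : 4 ^ a ≤ 4 ^ (a * (L + (i : ℕ))) :=
          Nat.pow_le_pow_right (by norm_num) (Nat.le_mul_of_pos_right a (by omega))
        have h4 := h1.1.1
        omega
    · have h1 : p ^ (x.2 * ∏ i, x.1 i).factorization p ≤ x.2 * 4 ^ (a * (2 * L)) := by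
        rw [Nat.factorization_mul (by omega) hP0.ne', Finsupp.add_apply, pow_add]
        exact Nat.mul_le_mul (Nat.ordProj_le p (by omega)) (fact_prod hx1 p)
      have h2 : x.2 < 4 ^ (Q + a * L) := by
        have h3 : x.2 * 4 ^ (a * Qs L) < 4 ^ (Q + a * L) * 4 ^ (a * Qs L) := by
          calc x.2 * 4 ^ (a * Qs L) ≤ x.2 * ∏ i, x.1 i := Nat.mul_le_mul_left _ hP1
            _ ≤ D := hx4
            _ < 4 ^ ((a + 1) * Q) := hD2
            _ = 4 ^ (Q + a * L) * 4 ^ (a * Qs L) := by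
                rw [← pow_add]
                congr 1
                rw [hQdef]
                ring
        exact Nat.lt_of_mul_lt_mul_right h3
      have h3 : p ^ (x.2 * ∏ i, x.1 i).factorization p ≤ 4 ^ (Q + 3 * (a * L)) := by
        calc _ ≤ x.2 * 4 ^ (a * (2 * L)) := h1
          _ ≤ 4 ^ (Q + a * L) * 4 ^ (a * (2 * L)) := Nat.mul_le_mul_right _ h2.le
          _ = 4 ^ (Q + 3 * (a * L)) := by
              rw [← pow_add]
              congr 1
              ring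
      refine (Nat.pow_le_pow_left h3 K).trans (le_trans ?_ hD1)
      rw [← pow_mul]
      refine Nat.pow_le_pow_right (by norm_num) ?_
      have h4 : Q * K ≤ a * K := Nat.mul_le_mul_right _ (by omega)
      have h5 : L * (3 * K) ≤ L * L := Nat.mul_le_mul_left _ (by omega)
      have h6 : a * (K + L * (3 * K)) ≤ a * Q := Nat.mul_le_mul_left _ (by omega)
      calc (Q + 3 * (a * L)) * K = Q * K + a * (L * (3 * K)) := by ring
        _ ≤ a * K + a * (L * (3 * K)) := Nat.add_le_add_right h4 _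
        _ = a * (K + L * (3 * K)) := by ring
        _ ≤ a * Q := h6
  have h1 : (S.card : ℝ) ≤ (2 * Q) ^ L * (((Finset.Icc 1 D).filter fun d => D ≤ d ^ 2 ∧
      ∀ p : ℕ, p.Prime → p ∣ d → n < p ∧ (p ^ d.factorization p) ^ K ≤ D).card : ℝ) := by
    have h2 := hcard.trans (Nat.mul_le_mul_left _ (card_le_card hsub))
    exact_mod_cast h2
  have h2 := hlow.trans h1
  rw [div_mul_eq_mul_div, div_le_iff₀ (by positivity), mul_comm _ ((2 * (Q : ℝ)) ^ L)]
  exact h2

end Pool.Agent.H861.CD
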