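import Pool.Agent.H861.CD.T6a

/-!
Project CD (helper861), MP_8dbee4_ag, part T6: `exists_form` below from `multisymmetric` (T6a) and Mathlib.

Notation: `A = ℂ[a_j, b_j : j < n] = MvPolynomial (Fin n ⊕ Fin n) ℂ`, `F = Frac A`, `M` = algebraic closure of `F`, `σ_i = sig a b i ∈ A`, `m = δ + 1`, `E = m · δ · n! · 2^n`.

**The quantities in M.** For `l, j < n`: `α_j, α'_j ∈ M` with `α_j + α'_j = a_j`, `α_j α'_j = b_j^2`; `P_{l,j} := α_j^δ + α'_j^δ + t_l b_j^δ`; `H` a root of `H^2 - P_{l,j} H + b_j^(2δ) = 0` (so `H ≠ 0`), `ρ_{l,j}` a root of `ρ^δ = H`,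
`ρ'_{l,j} := b_j^2/ρ_{l,j}`; so `ρρ' = b_j^2`, `ρ^δ + ρ'^δ = P_{l,j}`. (*) If `x x' = b_j^2`, `x^δ + x'^δ = P_{l,j}` in `M` then `x^δ ∈ {ρ^δ, ρ'^δ}`, so there is `ζ ∈ ℂ`, `ζ^δ = 1`, with `(x, x') = (ζρ, ζ⁻¹ρ')` or `(x, x') = (ζρ', ζ⁻¹ρ)`.
All these elements are integral over `A`. (`P_{l,j}` is the value of a polynomial in `a_j, b_j`: it does not depend on the choice of `α_j, α'_j`.)

**The index set.** `I = Perm(Fin n) × (Fin n → Bool) × μ_δ`, `μ_δ = {ζ ∈ ℂ : ζ^δ = 1}` with `δ` elements. For `(π, ε, ζ) ∈ I`: `(x_j, x'_j) := (ρ_{πj,j}, ρ'_{πj,j})` if `ε_j` and `(ρ'_{πj,j}, ρ_{πj,j})` otherwise and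
`W(π,ε,ζ) := Σ_{c=1}^n ζ^c ∏_j (x_j^c a_j^(δ+1-c) + x'_j^(δ-c) (a_j - b_j)^(c+1))`. If `x_j, x'_j` is replaced by `η x_j, η⁻¹ x'_j`, `η^δ = 1`, for one `j`, then the `c`-th summand is multiplied by `η^c` (`η^(-(δ-c)) = η^c`): i.e. `ζ` is replaced by `ζη`.
`f₂(Z) := ∏_{I} (Z^m - W(π,ε,ζ)) ∈ M[Z]`, of degree `E`.

**Invariance.** Let `τ` be a ring automorphism of `M` over `ℂ`, `θ ∈ Perm(Fin n)`, `λ_j ∈ ℂ^×` with `τ a_j = λ_j a_{θj}`, `τ b_j = λ_j b_{θj}`. Then there is a bijection `I → I`, `(π,ε,ζ) ↦ (π',ε',ζ')` with `τ W(π,ε,ζ) = (∏ λ_j)^m W(π',ε',ζ')`.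
Proof: `(τρ_{l,j}, τρ'_{l,j})/λ_j` satisfies the two equations for the pair `(l, θj)`, so by (*) it is `(ηρ_{l,θj}, η⁻¹ρ'_{l,θj})` or `(ηρ'_{l,θj}, η⁻¹ρ_{l,θj})`, `η = η_{l,j}`. `π' = π∘θ⁻¹`, `ε'_{θj} = ε_j xor (swap)_{πj,j}`, `ζ' = ζ ∏_j η_{πj,j}^{±1}` (sign by `ε_j`). The map is injective
on the finite set `I` since `π` is determined by `π'`, then `ε` by `ε'`, then `ζ` by `ζ'`. Hence, for `g_i` the coefficient of `Z^i` in `f₂`: `τ(g_i) = (∏ λ_j)^(E-i) g_i`.

**Descent.** With `θ = id, λ = 1`: `g_i ∈ M` is fixed by `Aut(M/F)`, so `g_i ∈ F` (`M/F` Galois, characteristic 0), and it is integral over the integrally closed `A`, so `g_i ∈ A`. Every automorphism of `A` extends to `M`; with permutations `θ`: `g_i` is symmetric; with `λ_j = 2` for one `j`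
and `1` for the others: `g_i(…, 2a_j, 2b_j, …) = 2^(E-i) g_i`, so `g_i` is homogeneous of degree `E - i` in every pair. By `multisymmetric`, `g_i = Φ_i(σ)` with a form `Φ_i` of degree `E - i`. `f := Σ_i Φ_i(y) z^i`; `g_E = 1`, so `Φ_E = 1` (a constant, for `g_E = 1`).

**Specialisation.** Let `f(y°, z°) = 0` in `Ω`, `y° ≠ 0`. There are `a°, b° ∈ Ω^n` with `y°_i = sig a° b° i` (factor `Σ y°_i T^i` over `Ω`: degree `d ≤ n`, `d` roots, and `n - d` factors `b = 0, a = -1`, absorb the constant). Let `φ : A → Ω` be the hom `a ↦ a°, b ↦ b°`. Since `M ⊇ Ā` = integral closure of `A` in `M` is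
integral over `A` and `Ω` is algebraically closed, `φ` extends to `φ̂ : Ā → Ω` (lying over: a prime `𝔮` of `Ā` over `ker φ`; `Frac(Ā/𝔮)` is algebraic over `Frac(A/ker φ) ⊆ Ω`; `IsAlgClosed.lift`). So `0 = f(y°, z°) = ∏_I (z°^m - φ̂ W(π,ε,ζ))`, and `z°^m = φ̂ W(π,ε,ζ)` for one
`(π,ε,ζ) ∈ I`. Let `x_j, x'_j` be as above with `(x_0, x'_0)` replaced by `(ζx_0, ζ⁻¹x'_0)` (`n ≥ 1`), and define, for `l < n` and `j = π⁻¹ l`: `a_l := φ a_j`, `b_l := φ b_j`, `α_l := φ̂ α_j`, `α'_l := φ̂ α'_j`, `ρ_l := φ̂ x_j`, `ρ'_l := φ̂ x'_j`. The conclusion follows (`sig` and `WW` are symmetric in the index `j`).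
-/

set_option autoImplicit false

open Module

namespace Pool.Agent.H861.CD

namespace T6aux

section generic

variable {n : ℕ} {R : Type*} [CommRing R]

/-- the twisted sum -/
noncomputable def WZ (δ : ℕ) (ζ : R) (a b x x' : Fin n → R) : R :=
  ∑ c ∈ Finset.Icc 1 n, ζ ^ c *
    ∏ l, (x l ^ c * a l ^ (δ + 1 - c) + x' l ^ (δ - c) * (a l - b l) ^ (c + 1))

theorem map_WZ {S : Type*} [CommRing S] (ψ : R →+* S) (δ : ℕ) (ζ : R) (a b x x' : Fin n → R) :
    ψ (WZ δ ζ a b x x') = WZ δ (ψ ζ) (fun l => ψ (a l)) (fun l => ψ (b l)) (fun l => ψ (x l))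
      (fun l => ψ (x' l)) := by
  simp only [WZ, map_sum, map_mul, map_pow, map_prod, map_add, map_sub]

theorem WZ_twist {δ : ℕ} (hδ : n < δ) (ζ : R) (lam η η' a b x x' a' b' u u' : Fin n → R)
    (hη : ∀ l, η l * η' l = 1) (hη1 : ∀ l, η l ^ δ = 1)
    (ha : ∀ l, a l = lam l * a' l) (hb : ∀ l, b l = lam l * b' l)
    (hx : ∀ l, x l = lam l * η l * u l) (hx' : ∀ l, x' l = lam l * η' l * u' l) :
    WZ δ ζ a b x x' = (∏ l, lam l) ^ (δ + 1) * WZ δ (ζ * ∏ l, η l) a' b' u u' := by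
  rw [WZ, WZ, Finset.mul_sum]
  refine Finset.sum_congr rfl fun c hc => ?_
  obtain ⟨hc1, hc2⟩ := Finset.mem_Icc.1 hc
  have hcδ : c ≤ δ := by omega
  rw [mul_pow, mul_assoc (ζ ^ c), mul_left_comm _ (ζ ^ c), ← Finset.prod_pow, ← Finset.prod_pow,
    ← Finset.prod_mul_distrib, ← Finset.prod_mul_distrib]
  congr 1
  refine Finset.prod_congr rfl fun l _ => ?_
  have h1 : η' l ^ (δ - c) = η l ^ c := by
    have h2 : η l ^ (δ - c) * η' l ^ (δ - c) = 1 := by rw [← mul_pow, hη, one_pow]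
    calc η' l ^ (δ - c) = η l ^ δ * η' l ^ (δ - c) := by rw [hη1, one_mul]
      _ = η l ^ c * (η l ^ (δ - c) * η' l ^ (δ - c)) := by
        rw [← mul_assoc, ← pow_add]; congr 2; omega
      _ = η l ^ c := by rw [h2, mul_one]
  rw [ha, hb, hx, hx', mul_pow, mul_pow, mul_pow, mul_pow, mul_pow, h1,
    show lam l * a' l - lam l * b' l = lam l * (a' l - b' l) by ring, mul_pow]
  have h3 : lam l ^ (δ + 1) = lam l ^ c * lam l ^ (δ + 1 - c) := by
    rw [← pow_add]; congr 1; omega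
  have h4 : lam l ^ (δ + 1) = lam l ^ (δ - c) * lam l ^ (c + 1) := by
    rw [← pow_add]; congr 1; omega
  rw [mul_add (η l ^ c), mul_add (lam l ^ (δ + 1))]
  congr 1
  · rw [h3]; ring
  · rw [h4]; ring

end generic

/-- a root of unity in an extension field of `ℂ` comes from `ℂ` -/
theorem exists_root_unity {M : Type*} [Field M] [Algebra ℂ M] {δ : ℕ} [NeZero δ] (η : M)
    (h : η ^ δ = 1) : ∃ e : rootsOfUnity δ ℂ, algebraMap ℂ M ((e : ℂˣ) : ℂ) = η := by
  have h1 := (Complex.isPrimitiveRoot_exp δ (NeZero.ne δ))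
  have h2 := h1.map_of_injective (algebraMap ℂ M).injective
  obtain ⟨i, -, hi⟩ := h2.eq_pow_of_pow_eq_one h
  refine ⟨rootsOfUnity.mkOfPowEq (Complex.exp (2 * Real.pi * Complex.I / δ) ^ i) ?_, ?_⟩
  · rw [← pow_mul, mul_comm i, pow_mul, h1.pow_eq_one, one_pow]
  · rw [rootsOfUnity.val_mkOfPowEq_coe, map_pow, hi]

/-- the key alternative -/
theorem star {M : Type*} [Field M] [Algebra ℂ M] {δ : ℕ} [NeZero δ] {b x x' y y' : M}
    (hb : b ≠ 0) (h1 : x * x' = b ^ 2) (h2 : y * y' = b ^ 2)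
    (h3 : x ^ δ + x' ^ δ = y ^ δ + y' ^ δ) :
    ∃ (s : Bool) (e : rootsOfUnity δ ℂ),
      x = algebraMap ℂ M ((e : ℂˣ) : ℂ) * (if s then y' else y) ∧
      x' = algebraMap ℂ M (((e⁻¹ : rootsOfUnity δ ℂ) : ℂˣ) : ℂ) * (if s then y else y') := by
  have hb2 : b ^ 2 ≠ 0 := pow_ne_zero 2 hb
  have hy : y ≠ 0 := fun h => hb2 (by rw [← h2, h, zero_mul])
  have hy' : y' ≠ 0 := fun h => hb2 (by rw [← h2, h, mul_zero])
  have main : ∀ w w' : M, w ≠ 0 → w * w' = b ^ 2 → x ^ δ = w ^ δ → ∃ e : rootsOfUnity δ ℂ,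
      x = algebraMap ℂ M ((e : ℂˣ) : ℂ) * w ∧
      x' = algebraMap ℂ M (((e⁻¹ : rootsOfUnity δ ℂ) : ℂˣ) : ℂ) * w' := by
    intro w w' hw hww hx
    obtain ⟨e, he⟩ := exists_root_unity (x / w) (δ := δ) (by
      rw [div_pow, hx, div_self (pow_ne_zero _ hw)])
    have hx1 : x = algebraMap ℂ M ((e : ℂˣ) : ℂ) * w := by
      rw [he, div_mul_cancel₀ _ hw]
    refine ⟨e, hx1, ?_⟩
    have he1 : algebraMap ℂ M (((e⁻¹ : rootsOfUnity δ ℂ) : ℂˣ) : ℂ)
        * algebraMap ℂ M ((e : ℂˣ) : ℂ) = 1 := by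
      rw [← map_mul, ← Units.val_mul, ← Subgroup.coe_mul, inv_mul_cancel]
      simp
    have h4 : w * w' = w * (algebraMap ℂ M ((e : ℂˣ) : ℂ) * x') := by
      rw [hww, ← h1, hx1]; ring
    have h5 := mul_left_cancel₀ hw h4
    rw [h5, ← mul_assoc, he1, one_mul]
  have h4 : (x ^ δ - y ^ δ) * (x ^ δ - y' ^ δ) = 0 := by
    have h5 : x ^ δ * x' ^ δ = y ^ δ * y' ^ δ := by rw [← mul_pow, ← mul_pow, h1, h2]
    have : (x ^ δ - y ^ δ) * (x ^ δ - y' ^ δ)
        = x ^ δ * x ^ δ - x ^ δ * (y ^ δ + y' ^ δ) + y ^ δ * y' ^ δ := by ring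
    rw [this, ← h3, ← h5]; ring
  rcases mul_eq_zero.1 h4 with h5 | h5
  · obtain ⟨e, h6, h7⟩ := main y y' hy h2 (sub_eq_zero.1 h5)
    exact ⟨false, e, by simpa using h6, by simpa using h7⟩
  · obtain ⟨e, h6, h7⟩ := main y' y hy' (by rw [mul_comm, h2]) (sub_eq_zero.1 h5)
    exact ⟨true, e, by simpa using h6, by simpa using h7⟩

/-- the auxiliary quantities -/
structure Dat {n : ℕ} (δ : ℕ) (t : Fin n → ℂ) {R : Type*} [CommRing R] [Algebra ℂ R]
    (a b : Fin n → R) where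
  α : Fin n → R
  α' : Fin n → R
  r : Bool → Fin n → Fin n → R
  h1 : ∀ j, α j + α' j = a j
  h2 : ∀ j, α j * α' j = b j ^ 2
  h3 : ∀ l j, r true l j * r false l j = b j ^ 2
  h4 : ∀ l j, r true l j ^ δ + r false l j ^ δ
    = α j ^ δ + α' j ^ δ + algebraMap ℂ R (t l) * b j ^ δ

/-- the index set -/
abbrev Idx (n δ : ℕ) := Equiv.Perm (Fin n) × (Fin n → Bool) × rootsOfUnity δ ℂ

section Dat

variable {n : ℕ} {δ : ℕ} {t : Fin n → ℂ} {R : Type*} [CommRing R] [Algebra ℂ R]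
    {a b : Fin n → R}

/-- the values -/
noncomputable def Dat.W (D : Dat δ t a b) (i : Idx n δ) : R :=
  WZ δ (algebraMap ℂ R ((i.2.2 : ℂˣ) : ℂ)) (fun l => a (i.1 l)) (fun l => b (i.1 l))
    (fun l => D.r (i.2.1 l) l (i.1 l)) (fun l => D.r (!(i.2.1 l)) l (i.1 l))

/-- transport along an algebra homomorphism -/
def Dat.map {S : Type*} [CommRing S] [Algebra ℂ S] (D : Dat δ t a b) (ψ : R →ₐ[ℂ] S) :
    Dat δ t (fun j => ψ (a j)) (fun j => ψ (b j)) where
  α j := ψ (D.α j)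
  α' j := ψ (D.α' j)
  r e l j := ψ (D.r e l j)
  h1 j := by rw [← map_add, D.h1]
  h2 j := by rw [← map_mul, D.h2, map_pow]
  h3 l j := by rw [← map_mul, D.h3, map_pow]
  h4 l j := by
    rw [← map_pow, ← map_pow, ← map_add, D.h4, map_add, map_add, map_pow, map_pow, map_mul,
      map_pow, AlgHom.commutes]

theorem Dat.W_map {S : Type*} [CommRing S] [Algebra ℂ S] (D : Dat δ t a b) (ψ : R →ₐ[ℂ] S)
    (i : Idx n δ) : (D.map ψ).W i = ψ (D.W i) := by
  have h := map_WZ (ψ : R →+* S) δ (algebraMap ℂ R ((i.2.2 : ℂˣ) : ℂ)) (fun l => a (i.1 l))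
    (fun l => b (i.1 l)) (fun l => D.r (i.2.1 l) l (i.1 l)) (fun l => D.r (!(i.2.1 l)) l (i.1 l))
  have h2 : (ψ : R →+* S) (algebraMap ℂ R ((i.2.2 : ℂˣ) : ℂ)) = algebraMap ℂ S ((i.2.2 : ℂˣ) : ℂ) :=
    ψ.commutes _
  rw [h2] at h
  exact h.symm

end Dat

/-- the sign convention -/
def sg {δ : ℕ} (e : Bool) (η : rootsOfUnity δ ℂ) : rootsOfUnity δ ℂ := if e then η else η⁻¹

theorem sg_not {δ : ℕ} (e : Bool) (η : rootsOfUnity δ ℂ) : sg (!e) η = (sg e η)⁻¹ := by
  cases e <;> simp [sg]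

section inv

variable {n : ℕ} {δ : ℕ} [NeZero δ] {t : Fin n → ℂ} {M : Type*} [Field M] [Algebra ℂ M]
    {a b : Fin n → M}

theorem key (D : Dat δ t a b) (hb : ∀ j, b j ≠ 0) (τ : M →ₐ[ℂ] M) (θ : Equiv.Perm (Fin n))
    (lam : Fin n → M) (hlam : ∀ j, lam j ≠ 0) (ha : ∀ j, τ (a j) = lam j * a (θ j))
    (hb' : ∀ j, τ (b j) = lam j * b (θ j)) (l j : Fin n) :
    ∃ (s : Bool) (η : rootsOfUnity δ ℂ), ∀ e : Bool,
      τ (D.r e l j) = lam j * algebraMap ℂ M (((sg e η : rootsOfUnity δ ℂ) : ℂˣ) : ℂ)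
        * D.r (xor e s) l (θ j) := by
  have hl := hlam j
  have hα : (τ (D.α j) / lam j) ^ δ + (τ (D.α' j) / lam j) ^ δ
      = D.α (θ j) ^ δ + D.α' (θ j) ^ δ := by
    have e1 : τ (D.α j) / lam j + τ (D.α' j) / lam j = D.α (θ j) + D.α' (θ j) := by
      rw [← add_div, ← map_add, D.h1, ha, mul_div_cancel_left₀ _ hl, D.h1]
    have e2 : (τ (D.α j) / lam j) * (τ (D.α' j) / lam j) = D.α (θ j) * D.α' (θ j) := by
      rw [div_mul_div_comm, ← map_mul, D.h2, map_pow, hb', D.h2]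
      field_simp
    have e3 : (τ (D.α j) / lam j - D.α (θ j)) * (τ (D.α j) / lam j - D.α' (θ j)) = 0 := by
      have : (τ (D.α j) / lam j - D.α (θ j)) * (τ (D.α j) / lam j - D.α' (θ j))
        = (τ (D.α j) / lam j) * (τ (D.α j) / lam j)
          - (τ (D.α j) / lam j) * (D.α (θ j) + D.α' (θ j)) + D.α (θ j) * D.α' (θ j) := by ring
      rw [this, ← e1, ← e2]; ring
    rcases mul_eq_zero.1 e3 with h | h
    · rw [sub_eq_zero] at h
      rw [h] at e1 ⊢
      rw [add_left_cancel e1]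
    · rw [sub_eq_zero] at h
      rw [h] at e1 ⊢
      rw [add_comm (D.α (θ j))] at e1
      rw [add_left_cancel e1, add_comm]
  have hα' : τ (D.α j) ^ δ + τ (D.α' j) ^ δ = (D.α (θ j) ^ δ + D.α' (θ j) ^ δ) * lam j ^ δ := by
    rw [div_pow, div_pow, ← add_div, div_eq_iff (pow_ne_zero _ hl)] at hα
    exact hα
  obtain ⟨s, η, h1, h2⟩ := star (δ := δ) (hb (θ j))
    (x := τ (D.r true l j) / lam j) (x' := τ (D.r false l j) / lam j)
    (y := D.r true l (θ j)) (y' := D.r false l (θ j))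
    (by
      rw [div_mul_div_comm, ← map_mul, D.h3, map_pow, hb']
      field_simp)
    (D.h3 l (θ j))
    (by
      rw [div_pow, div_pow, ← add_div, ← map_pow, ← map_pow, ← map_add, D.h4, D.h4, map_add,
        map_add, map_mul, map_pow, map_pow, map_pow, AlgHom.commutes, hb', hα', mul_pow,
        div_eq_iff (pow_ne_zero _ hl)]
      ring)
  rw [div_eq_iff hl] at h1 h2
  refine ⟨s, η, ?_⟩
  intro e
  cases e <;> cases s
  · rw [h2]; simp [sg]; ring
  · rw [h2]; simp [sg]; ring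
  · rw [h1]; simp [sg]; ring
  · rw [h1]; simp [sg]; ring

theorem inv_map (hδ : n < δ) (D : Dat δ t a b) (hb : ∀ j, b j ≠ 0) (τ : M →ₐ[ℂ] M)
    (θ : Equiv.Perm (Fin n))
    (lam : Fin n → M) (hlam : ∀ j, lam j ≠ 0) (ha : ∀ j, τ (a j) = lam j * a (θ j))
    (hb' : ∀ j, τ (b j) = lam j * b (θ j)) :
    ∃ g : Idx n δ → Idx n δ, Function.Injective g ∧
      ∀ i, τ (D.W i) = (∏ j, lam j) ^ (δ + 1) * D.W (g i) := by
  choose s η hη using key D hb τ θ lam hlam ha hb'
  refine ⟨fun i => (θ * i.1, fun l => xor (i.2.1 l) (s l (i.1 l)),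
    i.2.2 * ∏ l, sg (i.2.1 l) (η l (i.1 l))), ?_, ?_⟩
  · rintro ⟨π, ε, ζ⟩ ⟨π', ε', ζ'⟩ h
    simp only [Prod.mk.injEq] at h
    obtain ⟨h1, h2, h3⟩ := h
    have h1' := mul_left_cancel h1
    subst h1'
    have h2' : ε = ε' := by
      funext l
      have := congrFun h2 l
      revert this
      cases ε l <;> cases ε' l <;> cases s l (π l) <;> simp
    subst h2'
    have h3' := mul_right_cancel h3
    rw [h3']
  · rintro ⟨π, ε, ζ⟩
    have h0 := map_WZ (τ : M →+* M) δ (algebraMap ℂ M ((ζ : ℂˣ) : ℂ)) (fun l => a (π l))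
      (fun l => b (π l)) (fun l => D.r (ε l) l (π l)) (fun l => D.r (!(ε l)) l (π l))
    have h00 : (τ : M →+* M) (algebraMap ℂ M ((ζ : ℂˣ) : ℂ)) = algebraMap ℂ M ((ζ : ℂˣ) : ℂ) :=
      τ.commutes _
    rw [h00] at h0
    have h1 := WZ_twist hδ (algebraMap ℂ M ((ζ : ℂˣ) : ℂ)) (fun l => lam (π l))
      (fun l => algebraMap ℂ M (((sg (ε l) (η l (π l)) : rootsOfUnity δ ℂ) : ℂˣ) : ℂ))
      (fun l => algebraMap ℂ M (((sg (!(ε l)) (η l (π l)) : rootsOfUnity δ ℂ) : ℂˣ) : ℂ))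
      (fun l => τ (a (π l))) (fun l => τ (b (π l))) (fun l => τ (D.r (ε l) l (π l)))
      (fun l => τ (D.r (!(ε l)) l (π l)))
      (fun l => a (θ (π l))) (fun l => b (θ (π l)))
      (fun l => D.r (xor (ε l) (s l (π l))) l (θ (π l)))
      (fun l => D.r (!(xor (ε l) (s l (π l)))) l (θ (π l)))
      (by
        intro l
        rw [sg_not, ← map_mul, ← Units.val_mul, ← Subgroup.coe_mul, mul_inv_cancel]
        simp)
      (by
        intro l
        rw [← map_pow, ← Units.val_pow_eq_pow_val, ← Subgroup.coe_pow]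
        have : (sg (ε l) (η l (π l))) ^ δ = 1 := by
          apply Subtype.ext
          rw [Subgroup.coe_pow]
          exact (mem_rootsOfUnity _ _).1 (sg (ε l) (η l (π l))).2
        rw [this]; simp)
      (fun l => ha _) (fun l => hb' _) (fun l => hη _ _ _)
      (by
        intro l
        rw [hη, Bool.not_xor])
    have h2 : ∏ l, lam (π l) = ∏ j, lam j := Equiv.prod_comp π lam
    rw [h2] at h1
    have h3 : algebraMap ℂ M ((ζ : ℂˣ) : ℂ) *
        ∏ l, algebraMap ℂ M (((sg (ε l) (η l (π l)) : rootsOfUnity δ ℂ) : ℂˣ) : ℂ)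
        = algebraMap ℂ M (((ζ * ∏ l, sg (ε l) (η l (π l)) : rootsOfUnity δ ℂ) : ℂˣ) : ℂ) := by
      rw [← map_prod, ← map_mul, Subgroup.coe_mul, Units.val_mul]
      congr 2
      rw [Subgroup.val_finsetProd, Units.coe_prod]
    rw [h3] at h1
    exact h0.trans h1

end inv



section poly

open Polynomial

variable {n : ℕ} {δ : ℕ} [NeZero δ] {t : Fin n → ℂ}

noncomputable instance instFintypeRoots : Fintype (rootsOfUnity δ ℂ) := Fintype.ofFinite _

theorem card_Idx : Fintype.card (Idx n δ) = δ * (n.factorial * 2 ^ n) := by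
  rw [Fintype.card_prod, Fintype.card_prod, Fintype.card_perm, Fintype.card_fun, Fintype.card_bool,
    Fintype.card_fin, ← Nat.card_eq_fintype_card (α := rootsOfUnity δ ℂ),
    Complex.card_rootsOfUnity]
  ring

section ring

variable {R : Type*} [CommRing R] [Algebra ℂ R] {a b : Fin n → R}

/-- the product -/
noncomputable def Dat.F (D : Dat δ t a b) : R[X] :=
  ∏ i : Idx n δ, (X ^ (δ + 1) - C (D.W i))

theorem Dat.F_monic (D : Dat δ t a b) : D.F.Monic :=
  monic_prod_of_monic _ _ fun _ _ => monic_X_pow_sub_C _ (Nat.succ_ne_zero δ)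

theorem Dat.F_natDegree [Nontrivial R] (D : Dat δ t a b) :
    D.F.natDegree = (δ + 1) * (δ * (n.factorial * 2 ^ n)) := by
  rw [Dat.F, natDegree_prod_of_monic _ _ fun _ _ => monic_X_pow_sub_C _ (Nat.succ_ne_zero δ)]
  simp only [natDegree_X_pow_sub_C, Finset.sum_const, Finset.card_univ, smul_eq_mul]
  rw [card_Idx]; ring

theorem Dat.F_map {S : Type*} [CommRing S] [Algebra ℂ S] (D : Dat δ t a b) (ψ : R →ₐ[ℂ] S) :
    (D.map ψ).F = D.F.map (ψ : R →+* S) := by
  rw [Dat.F, Dat.F, Polynomial.map_prod]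
  refine Finset.prod_congr rfl fun i _ => ?_
  rw [Polynomial.map_sub, Polynomial.map_pow, map_X, map_C, Dat.W_map]
  rfl

end ring

variable {M : Type*} [Field M] [Algebra ℂ M] {a b : Fin n → M}

theorem inv_F (hδ : n < δ) (D : Dat δ t a b) (hb : ∀ j, b j ≠ 0) (τ : M →ₐ[ℂ] M)
    (θ : Equiv.Perm (Fin n))
    (lam : Fin n → M) (hlam : ∀ j, lam j ≠ 0) (ha : ∀ j, τ (a j) = lam j * a (θ j))
    (hb' : ∀ j, τ (b j) = lam j * b (θ j)) (k : ℕ) :
    τ (D.F.coeff k) * (∏ j, lam j) ^ k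
      = (∏ j, lam j) ^ ((δ + 1) * (δ * (n.factorial * 2 ^ n))) * D.F.coeff k := by
  obtain ⟨g, hg, hW⟩ := inv_map hδ D hb τ θ lam hlam ha hb'
  have hg' := Finite.injective_iff_bijective.1 hg
  have h1 : (D.F.map (τ : M →+* M)).comp (C (∏ j, lam j) * X)
      = C ((∏ j, lam j) ^ ((δ + 1) * (δ * (n.factorial * 2 ^ n)))) * D.F := by
    rw [Dat.F, Polynomial.map_prod, prod_comp]
    have h2 : ∀ i : Idx n δ, ((X ^ (δ + 1) - C (D.W i)).map (τ : M →+* M)).comp
        (C (∏ j, lam j) * X)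
        = C ((∏ j, lam j) ^ (δ + 1)) * (X ^ (δ + 1) - C (D.W (g i))) := by
      intro i
      have : (τ : M →+* M) (D.W i) = (∏ j, lam j) ^ (δ + 1) * D.W (g i) := hW i
      rw [Polynomial.map_sub, Polynomial.map_pow, map_X, map_C, this, sub_comp, pow_comp, X_comp,
        C_comp, mul_pow, C_mul, C_pow]
      ring
    rw [Finset.prod_congr rfl fun i _ => h2 i, Finset.prod_mul_distrib, Finset.prod_const,
      Finset.card_univ, card_Idx, ← C_pow, ← pow_mul]
    congr 1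
    exact hg'.prod_comp (fun i => X ^ (δ + 1) - C (D.W i))
  have h3 := congrArg (fun p => p.coeff k) h1
  simp only [comp_C_mul_X_coeff, coeff_C_mul, coeff_map] at h3
  exact h3

end poly

section ext

/-- extension of homomorphisms to integral extensions -/
theorem exists_ext {A B Ω : Type} [CommRing A] [CommRing B] [Algebra A B] [Algebra.IsIntegral A B]
    (hinj : Function.Injective (algebraMap A B)) [Field Ω] [IsAlgClosed Ω] (φ : A →+* Ω) :
    ∃ ψ : B →+* Ω, ∀ x, ψ (algebraMap A B x) = φ x := by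
  have hp : (RingHom.ker φ).IsPrime := RingHom.ker_isPrime φ
  obtain ⟨Q, hQ, hQ2⟩ : ∃ Q : Ideal B, Q.IsPrime ∧ Q.comap (algebraMap A B) = RingHom.ker φ := by
    obtain ⟨Q, -, h1, h2⟩ := Ideal.exists_ideal_over_prime_of_isIntegral (RingHom.ker φ)
      (⊥ : Ideal B) (by
        intro x hx
        rw [Ideal.mem_comap, Ideal.mem_bot, map_eq_zero_iff _ hinj] at hx
        rw [hx]; exact zero_mem _)
    exact ⟨Q, h1, h2⟩
  let f : (A ⧸ RingHom.ker φ) →+* (B ⧸ Q) := Ideal.quotientMap Q (algebraMap A B) hQ2.ge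
  let _ : Algebra (A ⧸ RingHom.ker φ) (B ⧸ Q) := f.toAlgebra
  let _ : Algebra (A ⧸ RingHom.ker φ) Ω := (RingHom.kerLift φ).toAlgebra
  have hf : Function.Injective f := by
    rw [injective_iff_map_eq_zero]
    intro x
    obtain ⟨x, rfl⟩ := Ideal.Quotient.mk_surjective x
    intro hx
    have hx' : Ideal.Quotient.mk Q (algebraMap A B x) = 0 := hx
    rw [Ideal.Quotient.eq_zero_iff_mem] at hx' ⊢
    rw [← hQ2]
    exact hx'
  have : FaithfulSMul (A ⧸ RingHom.ker φ) (B ⧸ Q) :=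
    (faithfulSMul_iff_algebraMap_injective _ _).2 hf
  have : FaithfulSMul (A ⧸ RingHom.ker φ) Ω :=
    (faithfulSMul_iff_algebraMap_injective _ _).2 (RingHom.kerLift_injective φ)
  have : IsDomain (A ⧸ RingHom.ker φ) := Ideal.Quotient.isDomain _
  have : IsDomain (B ⧸ Q) := Ideal.Quotient.isDomain _
  have : Algebra.IsIntegral (A ⧸ RingHom.ker φ) (B ⧸ Q) := by
    constructor
    intro x
    obtain ⟨x, rfl⟩ := Ideal.Quotient.mk_surjective x
    obtain ⟨p, hp1, hp2⟩ := Algebra.IsIntegral.isIntegral (R := A) x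
    refine ⟨p.map (Ideal.Quotient.mk _), hp1.map _, ?_⟩
    rw [Polynomial.eval₂_map]
    have h3 : (algebraMap (A ⧸ RingHom.ker φ) (B ⧸ Q)).comp (Ideal.Quotient.mk (RingHom.ker φ))
      = (Ideal.Quotient.mk Q).comp (algebraMap A B) := by
      ext y; rfl
    rw [h3, ← Polynomial.hom_eval₂, hp2, map_zero]
  let g : (B ⧸ Q) →ₐ[A ⧸ RingHom.ker φ] Ω := IsAlgClosed.lift
  refine ⟨(g : (B ⧸ Q) →+* Ω).comp (Ideal.Quotient.mk Q), fun x => ?_⟩
  have h4 : g (algebraMap (A ⧸ RingHom.ker φ) (B ⧸ Q) (Ideal.Quotient.mk _ x))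
    = algebraMap (A ⧸ RingHom.ker φ) Ω (Ideal.Quotient.mk _ x) := g.commutes _
  exact h4

end ext

section exist

variable {A M : Type} [CommRing A] [Algebra ℂ A] [Field M] [IsAlgClosed M]
  [Algebra ℂ M] [Algebra A M] [IsScalarTower ℂ A M]

theorem quad (p q : integralClosure A M) : ∃ x x' : integralClosure A M, x + x' = p ∧ x * x' = q := by
  have : CharZero M := charZero_of_injective_algebraMap (algebraMap ℂ M).injective
  obtain ⟨s, hs⟩ := IsAlgClosed.exists_pow_nat_eq ((p : M) ^ 2 - 4 * (q : M)) (n := 2) (by norm_num)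
  have hp : IsIntegral A (p : M) := p.2
  have hq : IsIntegral A (q : M) := q.2
  have hn : ∀ z : ℂ, IsIntegral A (algebraMap ℂ M z) := by
    intro z
    rw [IsScalarTower.algebraMap_apply ℂ A M]
    exact isIntegral_algebraMap
  have hsi : IsIntegral A s := by
    apply IsIntegral.of_pow (n := 2) (by norm_num)
    rw [hs]
    refine (hp.pow 2).sub (IsIntegral.mul ?_ hq)
    have := hn 4
    rwa [map_ofNat] at this
  have hh : IsIntegral A ((2 : M)⁻¹) := by
    have := hn (2 : ℂ)⁻¹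
    rwa [map_inv₀, map_ofNat] at this
  refine ⟨⟨(2 : M)⁻¹ * ((p : M) + s), hh.mul (hp.add hsi)⟩,
    ⟨(2 : M)⁻¹ * ((p : M) - s), hh.mul (hp.sub hsi)⟩, ?_, ?_⟩
  · apply Subtype.ext
    change (2 : M)⁻¹ * ((p : M) + s) + (2 : M)⁻¹ * ((p : M) - s) = p
    field_simp; ring
  · apply Subtype.ext
    change (2 : M)⁻¹ * ((p : M) + s) * ((2 : M)⁻¹ * ((p : M) - s)) = q
    have : (2 : M)⁻¹ * ((p : M) + s) * ((2 : M)⁻¹ * ((p : M) - s))
      = (4 : M)⁻¹ * ((p : M) ^ 2 - s ^ 2) := by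
      field_simp; ring
    rw [this, hs]
    field_simp; ring

omit [Algebra ℂ A] [Algebra ℂ M] [IsScalarTower ℂ A M] in
theorem root {δ : ℕ} (hδ : 0 < δ) (p : integralClosure A M) :
    ∃ x : integralClosure A M, x ^ δ = p := by
  obtain ⟨s, hs⟩ := IsAlgClosed.exists_pow_nat_eq (p : M) hδ
  refine ⟨⟨s, IsIntegral.of_pow hδ (by rw [hs]; exact p.2)⟩, ?_⟩
  apply Subtype.ext
  exact hs

theorem exists_dat {n δ : ℕ} [NeZero δ] (t : Fin n → ℂ) (a b : Fin n → integralClosure A M)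
    (hb : ∀ j, b j ≠ 0) : Nonempty (Dat δ t a b) := by
  have hδ : 0 < δ := Nat.pos_of_ne_zero (NeZero.ne δ)
  choose α α' h1 h2 using fun j => quad (a j) (b j ^ 2)
  have h3 : ∀ l j, ∃ x x' : integralClosure A M, x * x' = b j ^ 2 ∧
      x ^ δ + x' ^ δ = α j ^ δ + α' j ^ δ + algebraMap ℂ _ (t l) * b j ^ δ := by
    intro l j
    obtain ⟨H, H', h4, h5⟩ := quad (α j ^ δ + α' j ^ δ + algebraMap ℂ _ (t l) * b j ^ δ)
      ((b j ^ 2) ^ δ)
    obtain ⟨x, hx⟩ := root hδ H
    obtain ⟨x', hx'⟩ := root hδ H'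
    have hbM : (b j : M) ^ 2 ≠ 0 := by
      apply pow_ne_zero
      intro h
      exact hb j (Subtype.ext h)
    have h6 : ((x : M) * (x' : M) / (b j : M) ^ 2) ^ δ = 1 := by
      rw [div_pow, div_eq_one_iff_eq (pow_ne_zero _ hbM)]
      have := congrArg (fun z : integralClosure A M => (z : M))
        (show (x * x') ^ δ = (b j ^ 2) ^ δ by rw [mul_pow, hx, hx', h5])
      simpa using this
    obtain ⟨e, he⟩ := exists_root_unity _ h6
    rw [eq_div_iff hbM] at he
    have he1 : algebraMap ℂ (integralClosure A M) (((e⁻¹ : rootsOfUnity δ ℂ) : ℂˣ) : ℂ)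
        * algebraMap ℂ (integralClosure A M) ((e : ℂˣ) : ℂ) = 1 := by
      rw [← map_mul, ← Units.val_mul, ← Subgroup.coe_mul, inv_mul_cancel]
      simp
    have he2 : (algebraMap ℂ (integralClosure A M) (((e⁻¹ : rootsOfUnity δ ℂ) : ℂˣ) : ℂ)) ^ δ
        = 1 := by
      rw [← map_pow, ← Units.val_pow_eq_pow_val, ← Subgroup.coe_pow]
      have : e⁻¹ ^ δ = 1 := by
        apply Subtype.ext
        rw [Subgroup.coe_pow]
        exact (mem_rootsOfUnity _ _).1 (e⁻¹).2
      rw [this]; simp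
    have he3 : algebraMap ℂ (integralClosure A M) ((e : ℂˣ) : ℂ) * b j ^ 2 = x * x' := by
      apply Subtype.ext
      exact he
    refine ⟨x, algebraMap ℂ (integralClosure A M) (((e⁻¹ : rootsOfUnity δ ℂ) : ℂˣ) : ℂ) * x',
      ?_, ?_⟩
    · rw [mul_left_comm, ← he3, ← mul_assoc, he1, one_mul]
    · rw [mul_pow, he2, one_mul, hx, hx', h4]
  choose r r' h4 h5 using h3
  exact ⟨⟨α, α', fun e l j => if e then r l j else r' l j, h1, h2, fun l j => by simpa using h4 l j,
    fun l j => by simpa using h5 l j⟩⟩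

end exist

/-- the base ring -/
abbrev AA (n : ℕ) := MvPolynomial (Fin n ⊕ Fin n) ℂ

/-- the big field -/
abbrev MM (n : ℕ) := AlgebraicClosure (FractionRing (AA n))

section descent

open MvPolynomial

variable {n δ : ℕ} [NeZero δ] {t : Fin n → ℂ}

theorem inj_AM : Function.Injective (algebraMap (AA n) (MM n)) := by
  rw [IsScalarTower.algebraMap_eq (AA n) (FractionRing (AA n)) (MM n)]
  exact (algebraMap (FractionRing (AA n)) (MM n)).injective.comp
    (IsFractionRing.injective (AA n) (FractionRing (AA n)))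

instance instFaithful : FaithfulSMul (AA n) (MM n) :=
  (faithfulSMul_iff_algebraMap_injective _ _).2 inj_AM

instance instTF : Module.IsTorsionFree (AA n) (MM n) :=
  Module.isTorsionFree_iff_faithfulSMul.2 inferInstance

instance instClosure : IsAlgClosure (AA n) (MM n) where
  isAlgClosed := inferInstance
  isAlgebraic := (IsFractionRing.comap_isAlgebraic_iff (A := AA n)
    (K := FractionRing (AA n)) (C := MM n)).2 inferInstance

/-- the elements `a_j` in the integral closure -/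
noncomputable def aI (j : Fin n) : integralClosure (AA n) (MM n) :=
  algebraMap (AA n) _ (X (Sum.inl j))

/-- the elements `b_j` in the integral closure -/
noncomputable def bI (j : Fin n) : integralClosure (AA n) (MM n) :=
  algebraMap (AA n) _ (X (Sum.inr j))

theorem coe_bI (j : Fin n) : ((bI j : integralClosure (AA n) (MM n)) : MM n)
    = algebraMap (AA n) (MM n) (X (Sum.inr j)) := rfl

theorem coe_aI (j : Fin n) : ((aI j : integralClosure (AA n) (MM n)) : MM n)
    = algebraMap (AA n) (MM n) (X (Sum.inl j)) := rfl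

theorem bI_ne (j : Fin n) : (bI j : integralClosure (AA n) (MM n)) ≠ 0 := by
  intro h
  have h1 := congrArg (fun z : integralClosure (AA n) (MM n) => (z : MM n)) h
  simp only [coe_bI, ZeroMemClass.coe_zero] at h1
  rw [map_eq_zero_iff _ inj_AM] at h1
  exact X_ne_zero _ h1

/-- the inclusion of the integral closure -/
noncomputable def inc : integralClosure (AA n) (MM n) →ₐ[ℂ] MM n :=
  (integralClosure (AA n) (MM n)).val.restrictScalars ℂ

theorem inc_apply (x : integralClosure (AA n) (MM n)) : inc x = (x : MM n) := rfl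

theorem coeff_F (D : Dat δ t (aI (n := n)) bI) (k : ℕ) :
    (D.map inc).F.coeff k = (D.F.coeff k : MM n) := by
  rw [Dat.F_map, Polynomial.coeff_map]; rfl

/-- the coefficients of the product are polynomials -/
theorem coeff_mem (hδ : n < δ) (D : Dat δ t (aI (n := n)) bI) (k : ℕ) :
    ∃ g : AA n, algebraMap (AA n) (MM n) g = (D.F.coeff k : MM n) := by
  have hfix : ∀ f : Gal(MM n/FractionRing (AA n)), f (D.F.coeff k : MM n) = (D.F.coeff k : MM n) := by
    intro f
    have h1 := inv_F hδ (D.map inc) (fun j => by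
      rw [inc_apply, coe_bI, Ne, map_eq_zero_iff _ inj_AM]; exact X_ne_zero _)
      ((f : MM n →ₐ[FractionRing (AA n)] MM n).restrictScalars ℂ) 1 (fun _ => 1)
      (fun _ => one_ne_zero)
      (by
        intro j
        rw [one_mul, inc_apply, coe_aI, IsScalarTower.algebraMap_apply (AA n) (FractionRing (AA n))]
        exact f.commutes _)
      (by
        intro j
        rw [one_mul, inc_apply, coe_bI, IsScalarTower.algebraMap_apply (AA n) (FractionRing (AA n))]
        exact f.commutes _) k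
    rw [Finset.prod_const_one, one_pow, one_pow, one_mul, mul_one, coeff_F] at h1
    exact h1
  obtain ⟨y, hy⟩ := (InfiniteGalois.mem_range_algebraMap_iff_fixed _).2 hfix
  have hint : IsIntegral (AA n) (algebraMap (FractionRing (AA n)) (MM n) y) := by
    rw [hy]; exact (D.F.coeff k).2
  rw [isIntegral_algebraMap_iff (algebraMap (FractionRing (AA n)) (MM n)).injective] at hint
  obtain ⟨z, hz⟩ := IsIntegrallyClosed.isIntegral_iff.1 hint
  exact ⟨z, by rw [IsScalarTower.algebraMap_apply (AA n) (FractionRing (AA n)), hz, hy]⟩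

/-- transformation behaviour under automorphisms of the base ring -/
theorem coeff_trans (hδ : n < δ) (D : Dat δ t (aI (n := n)) bI) (k : ℕ) (g : AA n)
    (hg : algebraMap (AA n) (MM n) g = (D.F.coeff k : MM n)) (σ : AA n ≃ₐ[ℂ] AA n)
    (θ : Equiv.Perm (Fin n)) (lam : Fin n → ℂ) (hlam : ∀ j, lam j ≠ 0)
    (ha : ∀ j, σ (X (Sum.inl j)) = C (lam j) * X (Sum.inl (θ j)))
    (hb : ∀ j, σ (X (Sum.inr j)) = C (lam j) * X (Sum.inr (θ j))) :
    σ g * C (∏ j, lam j) ^ k
      = C (∏ j, lam j) ^ ((δ + 1) * (δ * (n.factorial * 2 ^ n))) * g := by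
  let τ0 : MM n ≃+* MM n := IsAlgClosure.equivOfEquiv (MM n) (MM n) σ.toRingEquiv
  have hτ0 : ∀ x : AA n, τ0 (algebraMap (AA n) (MM n) x) = algebraMap (AA n) (MM n) (σ x) :=
    fun x => IsAlgClosure.equivOfEquiv_algebraMap (MM n) (MM n) σ.toRingEquiv x
  have hC : ∀ z : ℂ, algebraMap ℂ (MM n) z = algebraMap (AA n) (MM n) (C z) := fun z =>
    IsScalarTower.algebraMap_apply ℂ (AA n) (MM n) z
  let τ : MM n →ₐ[ℂ] MM n :=
    { (τ0 : MM n →+* MM n) with
      commutes' := by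
        intro z
        change τ0 (algebraMap ℂ (MM n) z) = _
        rw [hC, hτ0]
        congr 1
        exact σ.commutes z }
  have hτ : ∀ x : AA n, τ (algebraMap (AA n) (MM n) x) = algebraMap (AA n) (MM n) (σ x) := hτ0
  have h1 := inv_F hδ (D.map inc) (fun j => by
      rw [inc_apply, coe_bI, Ne, map_eq_zero_iff _ inj_AM]; exact X_ne_zero _)
      τ θ (fun j => algebraMap (AA n) (MM n) (C (lam j)))
      (by
        intro j
        rw [Ne, map_eq_zero_iff _ inj_AM, C_eq_zero]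
        exact hlam j)
      (by
        intro j
        rw [inc_apply, inc_apply, coe_aI, coe_aI, hτ, ha, map_mul])
      (by
        intro j
        rw [inc_apply, inc_apply, coe_bI, coe_bI, hτ, hb, map_mul]) k
  rw [coeff_F, ← hg, hτ, ← map_prod, ← map_pow, ← map_pow, ← map_mul, ← map_mul, ← map_prod] at h1
  exact inj_AM h1

end descent

section forms

open MvPolynomial

variable {n δ : ℕ} [NeZero δ] {t : Fin n → ℂ}

/-- scaling of the variables -/
noncomputable def sc {σ : Type} (l : σ → ℂ) : MvPolynomial σ ℂ →ₐ[ℂ] MvPolynomial σ ℂ :=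
  aeval fun s => C (l s) * X s

theorem sc_X {σ : Type} (l : σ → ℂ) (s : σ) : sc l (X s) = C (l s) * X s := by
  rw [sc, aeval_X]

theorem sc_sc {σ : Type} (l l' : σ → ℂ) (h : ∀ s, l s * l' s = 1) : (sc l).comp (sc l') =
    AlgHom.id ℂ _ := by
  apply MvPolynomial.algHom_ext
  intro s
  rw [AlgHom.comp_apply, sc_X, map_mul, sc_X, ← algebraMap_eq, AlgHom.commutes, algebraMap_eq,
    ← mul_assoc, ← C_mul, mul_comm (l' s), h, C_1, one_mul]
  rfl

/-- scaling as an automorphism -/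
noncomputable def scEquiv {σ : Type} (l : σ → ℂ) (hl : ∀ s, l s ≠ 0) :
    MvPolynomial σ ℂ ≃ₐ[ℂ] MvPolynomial σ ℂ :=
  AlgEquiv.ofAlgHom (sc l) (sc fun s => (l s)⁻¹) (sc_sc _ _ fun s => mul_inv_cancel₀ (hl s))
    (sc_sc _ _ fun s => inv_mul_cancel₀ (hl s))

theorem coeff_sc {σ : Type} [Fintype σ] (l : σ → ℂ) (g : MvPolynomial σ ℂ) (m : σ →₀ ℕ) :
    coeff m (sc l g) = (∏ s, l s ^ m s) * coeff m g := by
  classical
  induction g using MvPolynomial.induction_on' with
  | monomial u a =>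
    have h1 : sc l (monomial u a) = monomial u (a * ∏ s, l s ^ u s) := by
      rw [sc, aeval_monomial, Finsupp.prod_fintype _ _ (fun s => pow_zero _), algebraMap_eq]
      simp_rw [mul_pow]
      rw [Finset.prod_mul_distrib, ← mul_assoc]
      have h2 : (∏ s, (X s : MvPolynomial σ ℂ) ^ u s) = monomial u 1 := by
        rw [monomial_eq, C_1, one_mul, Finsupp.prod_fintype _ _ (fun s => pow_zero _)]
      have h3 : (∏ s, (C (l s) : MvPolynomial σ ℂ) ^ u s) = C (∏ s, l s ^ u s) := by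
        rw [map_prod]
        exact Finset.prod_congr rfl fun s _ => (C_pow _ _).symm
      rw [h2, h3, ← C_mul, C_mul_monomial, mul_one]
    rw [h1, coeff_monomial, coeff_monomial]
    by_cases h : u = m
    · subst h; simp [mul_comm]
    · simp [h]
  | add p q hp hq => rw [map_add, coeff_add, coeff_add, hp, hq, mul_add]

/-- the forms `Φ_k` -/
theorem exists_Phi (hδ : n < δ) (D : Dat δ t (aI (n := n)) bI) (k : ℕ) :
    ∃ Φ : MvPolynomial (Fin (n + 1)) ℂ,
      Φ.IsHomogeneous ((δ + 1) * (δ * (n.factorial * 2 ^ n)) - k) ∧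
      ∃ g : AA n, algebraMap (AA n) (MM n) g = (D.F.coeff k : MM n) ∧
      MvPolynomial.aeval (fun i : Fin (n + 1) =>
        sig (fun j => (MvPolynomial.X (Sum.inl j) : MvPolynomial (Fin n ⊕ Fin n) ℂ))
          (fun j => MvPolynomial.X (Sum.inr j)) i) Φ = g := by
  obtain ⟨g, hg⟩ := coeff_mem hδ D k
  obtain ⟨Φ, h1, h2⟩ := multisymmetric (D := (δ + 1) * (δ * (n.factorial * 2 ^ n)) - k) g
    (by
      intro θ
      have := coeff_trans hδ D k g hg (renameEquiv ℂ (Equiv.sumCongr θ θ)) θ (fun _ => 1)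
        (fun _ => one_ne_zero)
        (by intro j; rw [renameEquiv_apply, rename_X]; simp)
        (by intro j; rw [renameEquiv_apply, rename_X]; simp)
      rw [Finset.prod_const_one, C_1, one_pow, one_pow, mul_one, one_mul, renameEquiv_apply] at this
      exact this)
    (by
      intro j0 m hm
      rw [MvPolynomial.mem_support_iff] at hm
      have hne : ∀ s, Sum.elim (fun j : Fin n => if j = j0 then (2 : ℂ) else 1)
          (fun j : Fin n => if j = j0 then (2 : ℂ) else 1) s ≠ 0 := by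
        rintro (j | j) <;> simp only [Sum.elim_inl, Sum.elim_inr] <;> split_ifs <;> norm_num
      have := coeff_trans hδ D k g hg (scEquiv _ hne) 1
        (fun j : Fin n => if j = j0 then (2 : ℂ) else 1) (fun j => hne (Sum.inl j))
        (by intro j; exact sc_X _ _)
        (by intro j; exact sc_X _ _)
      have hp : (∏ j : Fin n, if j = j0 then (2 : ℂ) else 1) = 2 := by
        rw [Finset.prod_ite_eq' Finset.univ j0 (fun _ => (2 : ℂ)), if_pos (Finset.mem_univ _)]
      rw [hp, ← C_pow, ← C_pow, mul_comm] at this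
      have h3 := congrArg (coeff m) this
      rw [coeff_C_mul, coeff_C_mul] at h3
      have h4 : coeff m ((scEquiv _ hne) g) = _ := coeff_sc _ g m
      rw [h4, Fintype.prod_sum_type] at h3
      simp only [Sum.elim_inl, Sum.elim_inr] at h3
      have h5 : ∀ q : Fin n → ℕ, (∏ j, (if j = j0 then (2 : ℂ) else 1) ^ q j) = 2 ^ q j0 := by
        intro q
        rw [Finset.prod_eq_single j0]
        · rw [if_pos rfl]
        · intro j _ hj; rw [if_neg hj, one_pow]
        · intro h; exact absurd (Finset.mem_univ _) h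
      rw [h5, h5, ← pow_add, ← mul_assoc, ← pow_add] at h3
      have h6 := mul_right_cancel₀ hm h3
      have h7 : (2 : ℕ) ^ (k + (m (Sum.inl j0) + m (Sum.inr j0)))
          = 2 ^ ((δ + 1) * (δ * (n.factorial * 2 ^ n))) := by exact_mod_cast h6
      have h8 := Nat.pow_right_injective (le_refl 2) h7
      omega)
  exact ⟨Φ, h1, g, hg, h2⟩

end forms

section factor

open Polynomial

theorem fac {Ω : Type} [Field Ω] [IsAlgClosed Ω] : ∀ (n : ℕ) (Q : Polynomial Ω), Q.natDegree ≤ n → Q ≠ 0 →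
    ∃ (c : Ω) (a b : Fin n → Ω), Q = C c * ∏ j, (C (b j) * X - C (a j)) := by
  intro n
  induction n with
  | zero =>
    intro Q hQ _
    refine ⟨Q.coeff 0, fun _ => 0, fun _ => 0, ?_⟩
    rw [Finset.univ_eq_empty, Finset.prod_empty, mul_one]
    exact eq_C_of_natDegree_le_zero hQ
  | succ n ih =>
    intro Q hQ hQ0
    by_cases h : Q.natDegree ≤ n
    · obtain ⟨c, a, b, h1⟩ := ih Q h hQ0
      refine ⟨c, Fin.cons (-1) a, Fin.cons 0 b, ?_⟩
      rw [Fin.prod_univ_succ]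
      simpa using h1
    · have hdeg : Q.degree ≠ 0 := by
        intro h0
        have := natDegree_eq_of_degree_eq_some (n := 0) h0
        omega
      obtain ⟨r, hr⟩ := IsAlgClosed.exists_root Q hdeg
      obtain ⟨Q', hQ'⟩ := dvd_iff_isRoot.2 hr
      have hQ'0 : Q' ≠ 0 := by
        rintro rfl
        rw [mul_zero] at hQ'
        exact hQ0 hQ'
      have hd : Q'.natDegree ≤ n := by
        have := natDegree_mul (X_sub_C_ne_zero r) hQ'0
        rw [← hQ', natDegree_X_sub_C] at this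
        omega
      obtain ⟨c, a, b, h1⟩ := ih Q' hd hQ'0
      refine ⟨c, Fin.cons r a, Fin.cons 1 b, ?_⟩
      rw [Fin.prod_univ_succ, hQ']
      simp only [Fin.cons_zero, Fin.cons_succ, C_1, one_mul]
      rw [h1]; ring

theorem exists_ab {Ω : Type} [Field Ω] [IsAlgClosed Ω] {n : ℕ} (hn : 1 ≤ n)
    (y : Fin (n + 1) → Ω) (hy : y ≠ 0) :
    ∃ a b : Fin n → Ω, ∀ i : Fin (n + 1), y i = sig a b i := by
  classical
  set Q : Polynomial Ω := ∑ i : Fin (n + 1), C (y i) * X ^ (i : ℕ) with hQ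
  have hc : ∀ i : Fin (n + 1), Q.coeff i = y i := by
    intro i
    rw [hQ, finsetSum_coeff, Finset.sum_eq_single i]
    · rw [coeff_C_mul_X_pow, if_pos rfl]
    · intro j _ hj
      rw [coeff_C_mul_X_pow, if_neg]
      intro h
      exact hj (Fin.ext h).symm
    · intro h; exact absurd (Finset.mem_univ _) h
  have hQ0 : Q ≠ 0 := by
    intro h
    apply hy
    funext i
    rw [← hc, h]; simp
  have hdeg : Q.natDegree ≤ n := by
    rw [hQ]
    apply natDegree_sum_le_of_forall_le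
    intro i _
    exact (natDegree_C_mul_X_pow_le _ _).trans (by omega)
  obtain ⟨c, a, b, h1⟩ := fac n Q hdeg hQ0
  refine ⟨fun j => (if j = ⟨0, hn⟩ then c else 1) * a j,
    fun j => (if j = ⟨0, hn⟩ then c else 1) * b j, fun i => ?_⟩
  rw [← hc, sig, h1]
  congr 1
  have h2 : ∀ j : Fin n, C ((if j = ⟨0, hn⟩ then c else 1) * b j) * X
      - C ((if j = ⟨0, hn⟩ then c else 1) * a j)
      = (if j = ⟨0, hn⟩ then C c else 1) * (C (b j) * X - C (a j)) := by
    intro j
    split_ifs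
    · rw [C_mul, C_mul]; ring
    · rw [one_mul, one_mul, one_mul]
  simp_rw [h2]
  rw [Finset.prod_mul_distrib, Finset.prod_ite_eq' Finset.univ (⟨0, hn⟩ : Fin n) (fun _ => C c),
    if_pos (Finset.mem_univ _)]

theorem map_sig {R S : Type*} [CommRing R] [CommRing S] (ψ : R →+* S) {n : ℕ} (a b : Fin n → R)
    (i : ℕ) : ψ (sig a b i) = sig (fun j => ψ (a j)) (fun j => ψ (b j)) i := by
  rw [sig, sig, ← coeff_map, Polynomial.map_prod]
  simp only [Polynomial.map_sub, Polynomial.map_mul, map_C, map_X]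

theorem sig_perm {R : Type*} [CommRing R] {n : ℕ} (a b : Fin n → R) (π : Equiv.Perm (Fin n))
    (i : ℕ) : sig (fun j => a (π j)) (fun j => b (π j)) i = sig a b i := by
  rw [sig, sig]
  congr 1
  exact Equiv.prod_comp π (fun j => C (b j) * X - C (a j))

end factor

section final

variable {n δ : ℕ} [NeZero δ] {t : Fin n → ℂ}

theorem conclude {Ω : Type} [Field Ω] [Algebra ℂ Ω] (hn : 1 ≤ n) (hδ : n < δ) {a b : Fin n → Ω}
    (D : Dat δ t a b) (i : Idx n δ) :
    ∃ a' b' α α' ρ ρ' : Fin n → Ω, (∀ i : ℕ, sig a b i = sig a' b' i) ∧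
      Rel δ t a' b' α α' ρ ρ' ∧ D.W i = WW δ a' b' ρ ρ' := by
  classical
  obtain ⟨π, ε, ζ⟩ := i
  set z : Ω := algebraMap ℂ Ω ((ζ : ℂˣ) : ℂ) with hz
  have hzδ : z ^ δ = 1 := by
    rw [hz, ← map_pow, ← Units.val_pow_eq_pow_val, ← Subgroup.coe_pow]
    have : ζ ^ δ = 1 := by
      apply Subtype.ext
      rw [Subgroup.coe_pow]
      exact (mem_rootsOfUnity _ _).1 ζ.2
    rw [this]; simp
  have hz0 : z ≠ 0 := by
    intro h
    rw [h, zero_pow (NeZero.ne δ)] at hzδ
    exact zero_ne_one hzδ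
  let η : Fin n → Ω := fun l => if l = ⟨0, hn⟩ then z else 1
  have hη : ∀ l, η l * (η l)⁻¹ = 1 := by
    intro l
    apply mul_inv_cancel₀
    change (if l = ⟨0, hn⟩ then z else 1) ≠ 0
    split_ifs
    · exact hz0
    · exact one_ne_zero
  have hη1 : ∀ l, η l ^ δ = 1 := by
    intro l
    change (if l = ⟨0, hn⟩ then z else 1) ^ δ = 1
    split_ifs
    · exact hzδ
    · exact one_pow _
  have hprod : ∏ l, η l = z := by
    change (∏ l : Fin n, if l = (⟨0, hn⟩ : Fin n) then z else 1) = z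
    rw [Finset.prod_ite_eq' Finset.univ (⟨0, hn⟩ : Fin n) (fun _ => z),
      if_pos (Finset.mem_univ _)]
  refine ⟨fun l => a (π l), fun l => b (π l), fun l => D.α (π l), fun l => D.α' (π l),
    fun l => η l * D.r (ε l) l (π l), fun l => (η l)⁻¹ * D.r (!(ε l)) l (π l), ?_, ?_, ?_⟩
  · intro i
    exact (sig_perm a b π i).symm
  · refine ⟨fun l => D.h1 _, fun l => D.h2 _, ?_, ?_⟩
    · intro l
      rw [mul_mul_mul_comm, hη, one_mul]
      cases ε l
      · rw [mul_comm]; exact D.h3 _ _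
      · exact D.h3 _ _
    · intro l
      rw [mul_pow, mul_pow, inv_pow, hη1, inv_one, one_mul, one_mul, ← D.h4]
      cases ε l
      · rw [add_comm]; rfl
      · rfl
  · have h1 := WZ_twist hδ (1 : Ω) (fun _ => 1) η (fun l => (η l)⁻¹) (fun l => a (π l))
      (fun l => b (π l)) (fun l => η l * D.r (ε l) l (π l))
      (fun l => (η l)⁻¹ * D.r (!(ε l)) l (π l)) (fun l => a (π l)) (fun l => b (π l))
      (fun l => D.r (ε l) l (π l)) (fun l => D.r (!(ε l)) l (π l)) hη hη1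
      (fun _ => (one_mul _).symm) (fun _ => (one_mul _).symm)
      (fun l => by rw [one_mul]) (fun l => by rw [one_mul])
    rw [Finset.prod_const_one, one_pow, one_mul, one_mul, hprod] at h1
    change WZ δ z _ _ _ _ = _
    rw [← h1, WZ, WW]
    simp only [one_pow, one_mul]

end final

end T6aux

theorem exists_form {n : ℕ} (hn : 1 ≤ n) {δ : ℕ} (hδ : n < δ) (t : Fin n → ℂ) :
    ∃ f : MvPolynomial (Fin (n + 1) ⊕ Unit) ℂ,
      f.IsHomogeneous ((δ + 1) * (δ * (n.factorial * 2 ^ n))) ∧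
      f.coeff (Finsupp.single (Sum.inr ()) ((δ + 1) * (δ * (n.factorial * 2 ^ n)))) = 1 ∧
      ∀ (Ω : Type) [Field Ω] [Algebra ℂ Ω] [IsAlgClosed Ω] (y : Fin (n + 1) → Ω) (z : Ω),
        y ≠ 0 → MvPolynomial.aeval (Sum.elim y (fun _ => z)) f = 0 →
        ∃ a b α α' ρ ρ' : Fin n → Ω, (∀ i : Fin (n + 1), y i = sig a b i) ∧
          Rel δ t a b α α' ρ ρ' ∧ z ^ (δ + 1) = WW δ a b ρ ρ' := by
  classical
  have : NeZero δ := ⟨by omega⟩
  obtain ⟨D⟩ := T6aux.exists_dat (A := T6aux.AA n) (M := T6aux.MM n) (δ := δ) t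
    (T6aux.aI (n := n)) T6aux.bI T6aux.bI_ne
  choose Φ hΦ g hg hΦg using T6aux.exists_Phi hδ D
  set E := (δ + 1) * (δ * (n.factorial * 2 ^ n)) with hE
  have hF : ∀ k, D.F.coeff k = algebraMap (T6aux.AA n) _ (g k) := fun k =>
    Subtype.ext (hg k).symm
  have hdeg : D.F.natDegree = E := D.F_natDegree
  refine ⟨∑ k ∈ Finset.range (E + 1), MvPolynomial.rename Sum.inl (Φ k)
    * MvPolynomial.X (Sum.inr ()) ^ k, ?_, ?_, ?_⟩
  · apply MvPolynomial.IsHomogeneous.sum
    intro k hk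
    rw [Finset.mem_range] at hk
    have h1 := (hΦ k).rename_isHomogeneous (f := (Sum.inl : Fin (n + 1) → Fin (n + 1) ⊕ Unit))
    have h2 := (MvPolynomial.isHomogeneous_X ℂ (Sum.inr () : Fin (n + 1) ⊕ Unit)).pow k
    have h3 := h1.mul h2
    rwa [one_mul, Nat.sub_add_cancel (by omega)] at h3
  · rw [MvPolynomial.coeff_sum, Finset.sum_eq_single E]
    · rw [MvPolynomial.X_pow_eq_monomial, MvPolynomial.coeff_mul_monomial', if_pos le_rfl,
        tsub_self, mul_one]
      have h0 : g E = 1 := by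
        apply T6aux.inj_AM
        rw [hg, map_one, ← hdeg]
        have := D.F_monic
        rw [Polynomial.Monic, Polynomial.leadingCoeff] at this
        rw [this]; rfl
      have h1 : (Φ E).IsHomogeneous 0 := by simpa using hΦ E
      have h2 : Φ E = MvPolynomial.C ((Φ E).coeff 0) :=
        MvPolynomial.totalDegree_eq_zero_iff_eq_C.1 (Nat.le_zero.1 h1.totalDegree_le)
      have h3 := hΦg E
      rw [h0, h2, MvPolynomial.aeval_C, MvPolynomial.algebraMap_eq, ← MvPolynomial.C_1] at h3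
      have h4 := MvPolynomial.C_injective _ _ h3
      rw [h2, MvPolynomial.rename_C, h4, MvPolynomial.coeff_C, if_pos rfl]
    · intro k hk hkE
      rw [Finset.mem_range] at hk
      rw [MvPolynomial.X_pow_eq_monomial, MvPolynomial.coeff_mul_monomial', mul_one]
      split_ifs with h
      · apply MvPolynomial.coeff_rename_eq_zero
        intro u hu
        exfalso
        have h5 := congrArg (fun q : (Fin (n + 1) ⊕ Unit) →₀ ℕ => q (Sum.inr ())) hu
        simp only [Finsupp.coe_tsub, Pi.sub_apply, Finsupp.single_eq_same] at h5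
        rw [Finsupp.mapDomain_of_notMem_range _ _ (by simp)] at h5
        omega
      · rfl
    · intro h
      exact absurd (Finset.mem_range.2 (Nat.lt_succ_self E)) h
  · intro Ω _ _ _ y z hy hf
    obtain ⟨a, b, hab⟩ := T6aux.exists_ab hn y hy
    obtain ⟨φ, hφ⟩ : ∃ φ : T6aux.AA n →ₐ[ℂ] Ω, φ = MvPolynomial.aeval (Sum.elim a b) := ⟨_, rfl⟩
    have hφl : ∀ j, φ (MvPolynomial.X (Sum.inl j)) = a j := fun j => by
      rw [hφ, MvPolynomial.aeval_X]; rfl
    have hφr : ∀ j, φ (MvPolynomial.X (Sum.inr j)) = b j := fun j => by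
      rw [hφ, MvPolynomial.aeval_X]; rfl
    have hinjB : Function.Injective (algebraMap (T6aux.AA n)
        (integralClosure (T6aux.AA n) (T6aux.MM n))) := by
      intro x y hxy
      apply T6aux.inj_AM
      exact congrArg (fun w : integralClosure (T6aux.AA n) (T6aux.MM n) => (w : T6aux.MM n)) hxy
    obtain ⟨ψ0, hψ0⟩ := T6aux.exists_ext (Ω := Ω) hinjB (φ : T6aux.AA n →+* Ω)
    let ψ : integralClosure (T6aux.AA n) (T6aux.MM n) →ₐ[ℂ] Ω :=
      { ψ0 with
        commutes' := by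
          intro w
          change ψ0 (algebraMap ℂ _ w) = _
          have h1 : algebraMap ℂ (integralClosure (T6aux.AA n) (T6aux.MM n)) w
            = algebraMap (T6aux.AA n) _ (MvPolynomial.C w) := rfl
          rw [h1, hψ0]
          exact φ.commutes w }
    have hψ : ∀ x, ψ (algebraMap (T6aux.AA n) _ x) = φ x := hψ0
    have h1 : ∀ k, MvPolynomial.aeval y (Φ k) = ψ (D.F.coeff k) := by
      intro k
      have hy' : y = fun i : Fin (n + 1) => φ (sig
          (fun j => (MvPolynomial.X (Sum.inl j) : MvPolynomial (Fin n ⊕ Fin n) ℂ))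
          (fun j => MvPolynomial.X (Sum.inr j)) i) := by
        funext i
        have h0 := T6aux.map_sig (φ : T6aux.AA n →+* Ω)
          (fun j => (MvPolynomial.X (Sum.inl j) : MvPolynomial (Fin n ⊕ Fin n) ℂ))
          (fun j => MvPolynomial.X (Sum.inr j)) i
        rw [hab i]
        refine Eq.trans ?_ h0.symm
        congr 1
        · funext j
          exact (hφl j).symm
        · funext j
          exact (hφr j).symm
      rw [hF, hψ, ← hΦg, MvPolynomial.comp_aeval_apply, ← hy']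
    have h2 : Polynomial.eval z (D.F.map (ψ : _ →+* Ω)) = 0 := by
      rw [Polynomial.eval_eq_sum_range' (n := E + 1)
        (Nat.lt_succ_of_le ((Polynomial.natDegree_map_le).trans hdeg.le)), ← hf, map_sum]
      refine Finset.sum_congr rfl fun k _ => ?_
      rw [map_mul, map_pow, MvPolynomial.aeval_X, MvPolynomial.aeval_rename, Polynomial.coeff_map]
      congr 1
      exact (h1 k).symm
    rw [← T6aux.Dat.F_map, T6aux.Dat.F, Polynomial.eval_prod, Finset.prod_eq_zero_iff] at h2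
    obtain ⟨i, -, hi⟩ := h2
    rw [Polynomial.eval_sub, Polynomial.eval_pow, Polynomial.eval_X, Polynomial.eval_C,
      sub_eq_zero] at hi
    obtain ⟨a', b', α, α', ρ, ρ', h3, h4, h5⟩ := T6aux.conclude hn hδ (D.map ψ) i
    refine ⟨a', b', α, α', ρ, ρ', ?_, h4, hi.trans h5⟩
    intro i
    rw [← h3, hab i]
    congr 1
    · funext j
      change a j = ψ (T6aux.aI j)
      rw [T6aux.aI, hψ, hφl]
    · funext j
      change b j = ψ (T6aux.bI j)
      rw [T6aux.bI, hψ, hφr]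

end Pool.Agent.H861.CD
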