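import Pool.Agent.H861.CD.Curve2
import Pool.Agent.H861.CD.T6
import Pool.Agent.H861.CD.T11
import Pool.Graph.R_pool_sql_team_seeded_3997aac3.Q271.CI.All

set_option autoImplicit false

open Module

namespace Pool.Agent.H861.CD

open Pool.Agent.Q271.CI (Div AllDiv Coefs)

lemma exists_indep (r n : ℕ) : ∃ t : Fin r → Fin n → ℂ,
    AlgebraicIndependent ℚ (fun x : Fin r × Fin n => t x.1 x.2) := by
  obtain ⟨s, hs⟩ := exists_isTranscendenceBasis ℚ ℂ
  have h1 : Cardinal.mk ℂ = Cardinal.mk s :=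
    IsAlgClosed.cardinal_eq_cardinal_transcendence_basis_of_aleph0_lt' _ hs (Cardinal.mk_le_aleph0)
      (by rw [Cardinal.mk_complex]; exact Cardinal.aleph0_lt_continuum)
  have h2 : Infinite s := by
    rw [Cardinal.infinite_iff, ← h1, Cardinal.mk_complex]
    exact Cardinal.aleph0_le_continuum
  obtain ⟨f⟩ : Nonempty (ℕ ↪ s) := ⟨Infinite.natEmbedding s⟩
  let g : Fin r × Fin n → s := fun x => f ((finProdFinEquiv x : Fin (r * n)) : ℕ)
  have hg : Function.Injective g := by
    intro x y hxy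
    have := f.injective hxy
    exact finProdFinEquiv.injective (Fin.ext this)
  refine ⟨fun i j => (g (i, j) : ℂ), ?_⟩
  exact hs.1.comp g hg

theorem example_allDiv {n r : ℕ} (hn : 2 ≤ n) {p : ℕ} (hp : p.Prime) (s : Fin r → ℕ)
    (hs : ∀ k, n < p ^ s k) : ∃ f : Fin r → MvPolynomial (Fin (n + r + 1)) ℂ,
      (∀ k, (f k).IsHomogeneous (EE n (p ^ s k))) ∧ AllDiv (p ^ ((∑ k, s k) - loss n r p)) f := by
  obtain ⟨t, ht⟩ := exists_indep r n
  have hform : ∀ k, ∃ F, IsForm (p ^ s k) (t k) F := fun k => exists_form (by omega) (hs k) (t k)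
  choose F hF using hform
  refine ⟨fun k => MvPolynomial.rename (emb k) (F k), fun k => (hF k).1.rename_isHomogeneous, ?_⟩
  intro I e hI hf
  exact curve_dvd hn hp s hs t ht F hF I hI.hom hI.prime hI.pos hI.deg hf

lemma EE_pos {n δ : ℕ} (hδ : 0 < δ) : 0 < EE n δ := by
  unfold EE
  have := Nat.factorial_pos n
  positivity

lemma EE_mono {n δ δ' : ℕ} (h : δ ≤ δ') : EE n δ ≤ EE n δ' := by
  unfold EE
  gcongr

lemma EE_fact {n p a : ℕ} (hp : p.Prime) (ha : 0 < a) :
    (EE n (p ^ a)).factorization p = a + (n.factorial * 2 ^ n).factorization p := by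
  unfold EE
  have h0 : p ^ a ≠ 0 := pow_ne_zero _ hp.ne_zero
  have h1 : n.factorial ≠ 0 := (Nat.factorial_pos n).ne'
  rw [Nat.factorization_mul (by positivity) (by positivity), Nat.factorization_mul h0 (by positivity)]
  simp only [Finsupp.add_apply]
  have e1 : (p ^ a + 1).factorization p = 0 := by
    apply Nat.factorization_eq_zero_of_not_dvd
    intro h
    have h2 : p ∣ p ^ a := dvd_pow_self p ha.ne'
    have := (Nat.dvd_add_right h2).1 h
    exact hp.one_lt.ne' (Nat.dvd_one.1 this)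
  have e2 : (p ^ a).factorization p = a := by
    rw [Nat.Prime.factorization_pow hp, Finsupp.single_eq_same]
  rw [e1, e2, zero_add]

/-- the loss in the exponent of `p` -/
def tot (n r p : ℕ) : ℕ := r * ((n.factorial * 2 ^ n).factorization p + Nat.log p n) + loss n r p

lemma tot_eq_zero {n r p : ℕ} (hn : 2 ≤ n) (hp : p.Prime) (hpn : n < p) : tot n r p = 0 := by
  unfold tot loss
  rw [Nat.log_of_lt hpn]
  have e3 : (n.factorial * 2 ^ n).factorization p = 0 := by
    apply Nat.factorization_eq_zero_of_not_dvd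
    intro h
    rcases (Nat.Prime.dvd_mul hp).1 h with h | h
    · rw [hp.dvd_factorial] at h; omega
    · have := (Nat.prime_dvd_prime_iff_eq hp Nat.prime_two).1 (hp.dvd_of_dvd_pow h)
      omega
  rw [e3]; simp

lemma allDiv_dvd {N r m m' : ℕ} (h : m' ∣ m) {f : Fin r → MvPolynomial (Fin (N + 1)) ℂ} (hf : AllDiv m f) :
    AllDiv m' f := fun I e hI hfI => h.trans (hf I e hI hfI)

lemma div_dvd {N r m m' : ℕ} {d : Fin r → ℕ} (h : m' ∣ m) (hd : Div N d m) : Div N d m' := by
  obtain ⟨bad, hb, hf⟩ := hd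
  exact ⟨bad, hb, fun f h1 h2 => allDiv_dvd h (hf f h1 h2)⟩

/-- the statement for one prime -/
theorem div_prime {n r : ℕ} (hn : 2 ≤ n) {p : ℕ} (hp : p.Prime) (a d : Fin r → ℕ)
    (hd : ∀ i, a i ≠ 0 → p ^ a i ∣ d i ∧ EE n (p ^ a i) * p ^ (n * ((∑ j, a j) + n)) ≤ d i) :
    Div (n + r) d (p ^ ((∑ i, a i) - tot n r p)) := by
  classical
  set g := (n.factorial * 2 ^ n).factorization p with hg
  set J : Finset (Fin r) := Finset.univ.filter fun i => g + Nat.log p n < a i with hJ
  set ι : Fin J.card → Fin r := fun j => J.orderEmbOfFin rfl j with hι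
  have hιm : StrictMono ι := (J.orderEmbOfFin rfl).strictMono
  have hιJ : ∀ j, g + Nat.log p n < a (ι j) := by
    intro j
    have := J.orderEmbOfFin_mem rfl j
    exact (Finset.mem_filter.1 this).2
  have hsum : ∀ F : Fin r → ℕ, ∑ j, F (ι j) = ∑ i ∈ J, F i := by
    intro F
    have e1 : J = Finset.univ.map (J.orderEmbOfFin rfl).toEmbedding := by
      apply Finset.coe_injective
      rw [Finset.coe_map, Finset.coe_univ, Set.image_univ]
      exact (J.range_orderEmbOfFin rfl).symm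
    conv_rhs => rw [e1, Finset.sum_map]
    rfl
  have hcard : J.card ≤ r := by
    have := Finset.card_le_univ J
    rwa [Fintype.card_fin] at this
  set s : Fin r → ℕ := fun i => a i - g with hs
  have h1 : ∑ i, a i ≤ (∑ i ∈ J, s i) + r * (g + Nat.log p n) := by
    rw [← Finset.sum_filter_add_sum_filter_not Finset.univ (fun i => g + Nat.log p n < a i)]
    have h2 : ∑ i ∈ J, a i ≤ ∑ i ∈ J, s i + J.card * (g + Nat.log p n) := by
      rw [← smul_eq_mul, ← Finset.sum_const, ← Finset.sum_add_distrib]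
      refine Finset.sum_le_sum fun i _ => ?_
      simp only [hs]; omega
    have h3 : ∑ i ∈ Finset.univ.filter (fun i => ¬ g + Nat.log p n < a i), a i ≤
        (Finset.univ.filter (fun i => ¬ g + Nat.log p n < a i)).card * (g + Nat.log p n) := by
      rw [← smul_eq_mul]
      refine Finset.sum_le_card_nsmul _ _ _ fun i hi => ?_
      have := (Finset.mem_filter.1 hi).2
      omega
    have h4 : J.card + (Finset.univ.filter (fun i => ¬ g + Nat.log p n < a i)).card = r := by
      have := Finset.card_filter_add_card_filter_not (s := (Finset.univ : Finset (Fin r)))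
        (fun i => g + Nat.log p n < a i)
      rwa [Finset.card_univ, Fintype.card_fin] at this
    calc _ ≤ (∑ i ∈ J, s i + J.card * (g + Nat.log p n)) +
        (Finset.univ.filter (fun i => ¬ g + Nat.log p n < a i)).card * (g + Nat.log p n) := add_le_add h2 h3
      _ = ∑ i ∈ J, s i + (J.card + (Finset.univ.filter (fun i => ¬ g + Nat.log p n < a i)).card) *
          (g + Nat.log p n) := by ring
      _ = _ := by rw [h4]
  have hsJ : ∑ i ∈ J, s i ≤ ∑ i, a i := by
    calc ∑ i ∈ J, s i ≤ ∑ i ∈ J, a i := Finset.sum_le_sum fun i _ => Nat.sub_le _ _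
      _ ≤ ∑ i, a i := Finset.sum_le_sum_of_subset (Finset.filter_subset _ _)
  have hloss : loss n J.card p ≤ loss n r p := by
    unfold loss
    gcongr
  refine Pool.Agent.Q271.CI.div_sub d ι hιm ?_
  obtain ⟨f, hf1, hf2⟩ := example_allDiv hn hp (fun j => s (ι j)) (fun j => by
    have := hιJ j
    apply Nat.lt_pow_of_log_lt hp.one_lt
    simp only [hs]; omega)
  have hspos : ∀ j, 0 < s (ι j) := fun j => by
    have := hιJ j
    simp only [hs]; omega
  have h3 := Pool.Agent.Q271.CI.all_or_nothing_prime p ((∑ j, s (ι j)) - loss n J.card p) hp (fun j => a (ι j))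
    (fun j => EE n (p ^ s (ι j))) (fun j => ⟨EE_pos (pow_pos hp.pos _), by
      rw [EE_fact hp (hspos j), ← hg]
      have := hιJ j
      simp only [hs]; omega⟩)
    f hf1 hf2 (fun j => d (ι j)) (fun j => by
      obtain ⟨h1, h2⟩ := hd (ι j) (by have := hιJ j; omega)
      refine ⟨h1, le_trans (Nat.mul_le_mul (EE_mono (Nat.pow_le_pow_right hp.pos (Nat.sub_le _ _)))
        (Nat.pow_le_pow_right hp.pos (Nat.mul_le_mul_left n (Nat.add_le_add_right ?_ n)))) h2⟩
      rw [hsum s]
      omega)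
  refine div_dvd (pow_dvd_pow p ?_) h3
  rw [hsum s]
  unfold tot
  rw [← hg]
  omega

lemma div_of_primes {N r Q : ℕ} (hQ : 0 < Q) {d : Fin r → ℕ}
    (h : ∀ p : ℕ, p.Prime → p ∣ Q → Div N d (p ^ Q.factorization p)) : Div N d Q := by
  classical
  have h' : ∀ p : ℕ, ∃ bad : ℕ → MvPolynomial (Coefs N r d) ℂ, (∀ j, bad j ≠ 0) ∧
    ∀ f : Fin r → MvPolynomial (Fin (N + 1)) ℂ, (∀ i, (f i).IsHomogeneous (d i)) →
      (∀ j, MvPolynomial.eval (fun x : Coefs N r d => MvPolynomial.coeff x.2.1 (f x.1)) (bad j) ≠ 0) →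
      (p.Prime → p ∣ Q → AllDiv (p ^ Q.factorization p) f) := by
    intro p
    by_cases hp : p.Prime ∧ p ∣ Q
    · obtain ⟨bad, hb, hf⟩ := h p hp.1 hp.2
      exact ⟨bad, hb, fun f h1 h2 _ _ => hf f h1 h2⟩
    · exact ⟨fun _ => 1, fun _ => one_ne_zero, fun f _ _ h1 h2 => absurd ⟨h1, h2⟩ hp⟩
  choose bad hb hf using h'
  refine ⟨fun j => bad (Nat.unpair j).1 (Nat.unpair j).2, fun j => hb _ _, fun f h1 h2 I e hI hfI => ?_⟩
  have key : ∀ p : ℕ, p.Prime → p ∣ Q → p ^ Q.factorization p ∣ e := by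
    intro p hp hpQ
    refine hf p f h1 (fun j => ?_) hp hpQ I e hI hfI
    have := h2 (Nat.pair p j)
    simp only [Nat.unpair_pair] at this
    exact this
  rw [← Nat.factorization_prime_le_iff_dvd hQ.ne' hI.pos.ne']
  intro p hp
  by_cases hpQ : p ∣ Q
  · exact (hp.pow_dvd_iff_le_factorization hI.pos.ne').1 (key p hp hpQ)
  · rw [Nat.factorization_eq_zero_of_not_dvd hpQ]; exact Nat.zero_le _

/-- the main theorem, explicit form -/
theorem div_main {n r : ℕ} (hn : 2 ≤ n) (d : Fin r → ℕ) (Q : ℕ) (hQ : 0 < Q)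
    (h : ∀ p : ℕ, p.Prime → p ∣ Q → ∃ a : Fin r → ℕ, Q.factorization p + tot n r p ≤ ∑ i, a i ∧
      ∀ i, a i ≠ 0 → p ^ a i ∣ d i ∧ EE n (p ^ a i) * p ^ (n * ((∑ j, a j) + n)) ≤ d i) :
    Div (n + r) d Q := by
  refine div_of_primes hQ fun p hp hpQ => ?_
  obtain ⟨a, h2, h3⟩ := h p hp hpQ
  exact div_dvd (pow_dvd_pow p (by omega)) (div_prime hn hp a d h3)

/-- the constant -/
def CC (n r : ℕ) : ℕ := ∏ p ∈ (Finset.range (n + 1)).filter Nat.Prime, p ^ tot n r p

lemma CC_pos (n r : ℕ) : 0 < CC n r := Finset.prod_pos fun p hp =>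
  pow_pos (Finset.mem_filter.1 hp).2.pos _

lemma CC_fact {n r p : ℕ} (hn : 2 ≤ n) (hp : p.Prime) : (CC n r).factorization p = tot n r p := by
  unfold CC
  rw [Nat.factorization_prod fun q hq => pow_ne_zero _ (Finset.mem_filter.1 hq).2.ne_zero]
  rw [Finset.sum_apply']
  by_cases h : p ≤ n
  · rw [Finset.sum_eq_single p]
    · rw [Nat.Prime.factorization_pow hp, Finsupp.single_eq_same]
    · intro q hq hqp
      rw [Nat.Prime.factorization_pow (Finset.mem_filter.1 hq).2, Finsupp.single_eq_of_ne (Ne.symm hqp)]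
    · intro h1
      exact absurd (Finset.mem_filter.2 ⟨Finset.mem_range.2 (by omega), hp⟩) h1
  · rw [tot_eq_zero hn hp (by omega)]
    refine Finset.sum_eq_zero fun q hq => ?_
    have h1 := Finset.mem_filter.1 hq
    rw [Nat.Prime.factorization_pow h1.2, Finsupp.single_eq_of_ne]
    rintro rfl
    have := Finset.mem_range.1 h1.1
    omega

/-- moduli -/
theorem div_moduli {n r : ℕ} (hn : 2 ≤ n) (q : Fin r → ℕ) (hq : ∀ i, 0 < q i) :
    ∃ D : ℕ, ∀ d : Fin r → ℕ, (∀ i, q i ∣ d i ∧ D ≤ d i) →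
      Div (n + r) d ((∏ i, q i) / Nat.gcd (∏ i, q i) (CC n r)) := by
  classical
  refine ⟨∑ p ∈ (∏ i, q i).primeFactors, ∑ i, EE n (p ^ (q i).factorization p) *
    p ^ (n * ((∑ j, (q j).factorization p) + n)), fun d hd => ?_⟩
  have hQ : 0 < ∏ i, q i := Finset.prod_pos fun i _ => hq i
  have hg : 0 < Nat.gcd (∏ i, q i) (CC n r) := Nat.gcd_pos_of_pos_left _ hQ
  have hQ' : 0 < (∏ i, q i) / Nat.gcd (∏ i, q i) (CC n r) :=
    Nat.div_pos (Nat.gcd_le_left _ hQ) hg
  refine div_main hn d _ hQ' fun p hp hpQ => ?_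
  have hpQ' : p ∣ ∏ i, q i := hpQ.trans (Nat.div_dvd_of_dvd (Nat.gcd_dvd_left _ _))
  have hsum : (∏ i, q i).factorization p = ∑ i, (q i).factorization p := by
    rw [Nat.factorization_prod fun i _ => (hq i).ne']
    simp
  have h5 : ((∏ i, q i) / Nat.gcd (∏ i, q i) (CC n r)).factorization p + tot n r p =
      (∏ i, q i).factorization p := by
    have h6 : 0 < ((∏ i, q i) / Nat.gcd (∏ i, q i) (CC n r)).factorization p :=
      hp.factorization_pos_of_dvd hQ'.ne' hpQ
    rw [Nat.factorization_div (Nat.gcd_dvd_left _ _)] at h6 ⊢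
    rw [Nat.factorization_gcd hQ.ne' (CC_pos n r).ne'] at h6 ⊢
    simp only [Finsupp.coe_tsub, Pi.sub_apply, Finsupp.inf_apply, CC_fact hn hp] at h6 ⊢
    omega
  refine ⟨fun i => (q i).factorization p, ?_, fun i hi => ⟨?_, ?_⟩⟩
  · rw [h5, hsum]
  · exact (Nat.ordProj_dvd (q i) p).trans (hd i).1
  · refine le_trans ?_ (hd i).2
    have hmem : p ∈ (∏ i, q i).primeFactors := by
      rw [Nat.mem_primeFactors]; exact ⟨hp, hpQ', hQ.ne'⟩
    have h1 := Finset.single_le_sum (f := fun p => ∑ i, EE n (p ^ (q i).factorization p) *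
      p ^ (n * ((∑ j, (q j).factorization p) + n))) (fun _ _ => Nat.zero_le _) hmem
    refine le_trans ?_ h1
    exact Finset.single_le_sum (f := fun i => EE n (p ^ (q i).factorization p) *
      p ^ (n * ((∑ j, (q j).factorization p) + n))) (fun _ _ => Nat.zero_le _) (Finset.mem_univ i)

open Classical in
/-- a positive proportion of all tuples -/
theorem div_density {n r : ℕ} (hn : 2 ≤ n) : ∃ c : ℝ, 0 < c ∧ ∃ D₀ : ℕ, ∀ D : ℕ, D₀ ≤ D →
    c * (D : ℝ) ^ r ≤ (((Fintype.piFinset fun _ : Fin r => Finset.Icc 1 D).filter fun d =>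
      (∀ i, D ≤ d i ^ 2) ∧ Div (n + r) d (∏ i, d i)).card : ℝ) := by
  obtain ⟨c, hc, D₀, hD⟩ := smooth_density n (8 + 4 * n * r + 4 * n ^ 2)
  refine ⟨c ^ r, pow_pos hc r, max D₀ ((2 * (n.factorial * 2 ^ n)) ^ 4), fun D hDD => ?_⟩
  have h1 := hD D (le_trans (le_max_left _ _) hDD)
  have hM : (2 * (n.factorial * 2 ^ n)) ^ 4 ≤ D := le_trans (le_max_right _ _) hDD
  set S := (Finset.Icc 1 D).filter fun d => D ≤ d ^ 2 ∧ ∀ p : ℕ, p.Prime → p ∣ d →
      n < p ∧ (p ^ d.factorization p) ^ (8 + 4 * n * r + 4 * n ^ 2) ≤ D with hS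
  have h2 : (Fintype.piFinset fun _ : Fin r => S) ⊆ (Fintype.piFinset fun _ : Fin r => Finset.Icc 1 D).filter fun d =>
      (∀ i, D ≤ d i ^ 2) ∧ Div (n + r) d (∏ i, d i) := by
    intro d hd
    rw [Fintype.mem_piFinset] at hd
    have hd' : ∀ i, d i ∈ Finset.Icc 1 D ∧ D ≤ d i ^ 2 ∧ ∀ p : ℕ, p.Prime → p ∣ d i →
      n < p ∧ (p ^ (d i).factorization p) ^ (8 + 4 * n * r + 4 * n ^ 2) ≤ D := fun i => by
      have := hd i
      rwa [hS, Finset.mem_filter] at this
    have hpos : ∀ i, 0 < d i := fun i => (Finset.mem_Icc.1 (hd' i).1).1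
    rw [Finset.mem_filter, Fintype.mem_piFinset]
    refine ⟨fun i => (hd' i).1, fun i => (hd' i).2.1, ?_⟩
    refine div_main hn d _ (Finset.prod_pos fun i _ => hpos i) fun p hp hpQ => ?_
    obtain ⟨i₀, -, hi₀⟩ := (Prime.dvd_finsetProd_iff hp.prime _).1 hpQ
    refine ⟨fun i => (d i).factorization p, ?_, fun i hi => ⟨Nat.ordProj_dvd _ _, ?_⟩⟩
    · rw [tot_eq_zero hn hp ((hd' i₀).2.2 p hp hi₀).1, Nat.factorization_prod fun i _ => (hpos i).ne']
      simp
    · -- the bound
      have : Nonempty (Fin r) := ⟨i⟩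
      obtain ⟨j, hj⟩ := Finite.exists_max fun j => (d j).factorization p
      set A := (d j).factorization p with hA
      have hA1 : 1 ≤ A := le_trans (Nat.one_le_iff_ne_zero.2 hi) (hj i)
      have hpj : p ∣ d j := by
        by_contra hcon
        rw [hA, Nat.factorization_eq_zero_of_not_dvd hcon] at hA1
        omega
      have h3 := ((hd' j).2.2 p hp hpj).2
      rw [← hA, ← pow_mul] at h3
      set b := ∑ j, (d j).factorization p with hb
      have hbA : b ≤ r * A := by
        rw [hb]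
        calc ∑ j, (d j).factorization p ≤ ∑ _j : Fin r, A := Finset.sum_le_sum fun k _ => hj k
          _ = r * A := by simp
      set x := (d i).factorization p with hx
      have hxA : x ≤ A := hj i
      set M := 2 * (n.factorial * 2 ^ n) with hMdef
      have h4 : EE n (p ^ x) * p ^ (n * (b + n)) ≤ M * p ^ (2 * x + n * (b + n)) := by
        unfold EE
        have h5 : p ^ x + 1 ≤ 2 * p ^ x := by
          have : 1 ≤ p ^ x := Nat.one_le_pow _ _ hp.pos
          omega
        calc (p ^ x + 1) * (p ^ x * (n.factorial * 2 ^ n)) * p ^ (n * (b + n))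
            ≤ (2 * p ^ x) * (p ^ x * (n.factorial * 2 ^ n)) * p ^ (n * (b + n)) := by gcongr
          _ = M * p ^ (2 * x + n * (b + n)) := by rw [hMdef]; ring
      refine le_trans h4 ?_
      have h6 : (M * p ^ (2 * x + n * (b + n))) ^ 4 ≤ D ^ 2 := by
        calc (M * p ^ (2 * x + n * (b + n))) ^ 4 = M ^ 4 * p ^ (8 * x + 4 * n * b + 4 * n ^ 2) := by
              rw [mul_pow, ← pow_mul]; congr 2; ring
          _ ≤ D * D := by
              refine Nat.mul_le_mul hM (le_trans (Nat.pow_le_pow_right hp.pos ?_) h3)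
              nlinarith [Nat.zero_le n, Nat.zero_le r, mul_le_mul_right hbA (4 * n),
                Nat.mul_le_mul_left (4 * n ^ 2) hA1, Nat.mul_le_mul_left (4 * n) hbA]
          _ = D ^ 2 := by ring
      have h7 : (M * p ^ (2 * x + n * (b + n))) ^ 4 ≤ d i ^ 4 := by
        refine h6.trans ?_
        calc D ^ 2 ≤ (d i ^ 2) ^ 2 := Nat.pow_le_pow_left (hd' i).2.1 2
          _ = d i ^ 4 := by ring
      exact (Nat.pow_le_pow_iff_left (by norm_num)).1 h7
  have h3 : ((Fintype.piFinset fun _ : Fin r => S).card : ℝ) = (S.card : ℝ) ^ r := by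
    rw [Fintype.card_piFinset]; simp
  calc c ^ r * (D : ℝ) ^ r = (c * D) ^ r := by rw [mul_pow]
    _ ≤ (S.card : ℝ) ^ r := pow_le_pow_left₀ (by positivity) h1 r
    _ = ((Fintype.piFinset fun _ : Fin r => S).card : ℝ) := h3.symm
    _ ≤ _ := by exact_mod_cast Finset.card_le_card h2

end Pool.Agent.H861.CD
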