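import Pool.Agent.H861.CD.Defs

set_option autoImplicit false

open Module Polynomial

namespace Pool.Agent.H861.CD

lemma sig_smul {n : ℕ} {Ω : Type*} [CommRing Ω] (s a b : Fin n → Ω) (i : ℕ) :
    sig (fun j => s j * a j) (fun j => s j * b j) i = (∏ j, s j) * sig a b i := by
  unfold sig
  have : (∏ j, (C (s j * b j) * X - C (s j * a j))) = C (∏ j, s j) * ∏ j, (C (b j) * X - C (a j)) := by
    rw [map_prod, ← Finset.prod_mul_distrib]
    refine Finset.prod_congr rfl fun j _ => ?_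
    rw [C_mul, C_mul]; ring
  rw [this, coeff_C_mul]

lemma sig_map {n : ℕ} {R Ω : Type*} [CommRing R] [CommRing Ω] (f : R →+* Ω) (a b : Fin n → R) (i : ℕ) :
    sig (fun j => f (a j)) (fun j => f (b j)) i = f (sig a b i) := by
  unfold sig
  rw [← coeff_map, Polynomial.map_prod]
  simp

lemma sig_mem {n : ℕ} {Ω : Type*} [Field Ω] [Algebra ℂ Ω] (E : IntermediateField ℂ Ω) (a b : Fin n → Ω)
    (ha : ∀ j, a j ∈ E) (hb : ∀ j, b j ∈ E) (i : ℕ) : sig a b i ∈ E := by
  have := sig_map (algebraMap E Ω) (fun j => (⟨a j, ha j⟩ : E)) (fun j => (⟨b j, hb j⟩ : E)) i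
  have h2 : sig a b i = algebraMap E Ω (sig (fun j => (⟨a j, ha j⟩ : E)) (fun j => (⟨b j, hb j⟩ : E)) i) := by
    rw [← this]; rfl
  rw [h2]
  exact SetLike.coe_mem _

lemma sig_sub_mem {n : ℕ} {Ω : Type*} [Field Ω] (V : ValuationSubring Ω) (a b : Fin n → Ω)
    (ha : ∀ j, a j ∈ V) (hb : ∀ j, b j ∈ V) (i : ℕ) : sig a b i ∈ V := by
  have := sig_map V.subtype (fun j => (⟨a j, ha j⟩ : V)) (fun j => (⟨b j, hb j⟩ : V)) i
  have h2 : sig a b i = V.subtype (sig (fun j => (⟨a j, ha j⟩ : V)) (fun j => (⟨b j, hb j⟩ : V)) i) := by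
    rw [← this]; rfl
  rw [h2]
  exact SetLike.coe_mem _

lemma natDegree_sig {n : ℕ} {Ω : Type*} [CommRing Ω] (a b : Fin n → Ω) :
    (∏ j, (C (b j) * X - C (a j))).natDegree ≤ n := by
  refine (natDegree_prod_le _ _).trans ?_
  calc ∑ j : Fin n, (C (b j) * X - C (a j)).natDegree ≤ ∑ j : Fin n, 1 := by
        refine Finset.sum_le_sum fun j _ => ?_
        compute_degree
    _ = n := by simp

lemma sig_eval {n : ℕ} {Ω : Type*} [CommRing Ω] (a b : Fin n → Ω) (c : Ω) :
    ∑ i : Fin (n + 1), sig a b i * c ^ (i : ℕ) = ∏ j, (b j * c - a j) := by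
  have h1 : (∏ j, (C (b j) * X - C (a j))).eval c = ∏ j, (b j * c - a j) := by
    rw [eval_prod]; simp
  rw [← h1, eval_eq_sum_range' (Nat.lt_succ_of_le (natDegree_sig a b)), Finset.sum_range]
  rfl

lemma sig_zero_of {n : ℕ} {Ω : Type*} [CommRing Ω] (a b : Fin n → Ω) {j : Fin n} (ha : a j = 0) (hb : b j = 0)
    (i : ℕ) : sig a b i = 0 := by
  unfold sig
  rw [Finset.prod_eq_zero (Finset.mem_univ j) (by rw [ha, hb]; simp)]
  simp

/-- the `u_j = a_j / b_j` is a root of the polynomial with the coefficients `y_i / y_l` -/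
lemma sig_root {n : ℕ} {Ω : Type*} [Field Ω] [Algebra ℂ Ω] (L : IntermediateField ℂ Ω) (a b : Fin n → Ω)
    {l : Fin (n + 1)} (hl : sig a b l ≠ 0) (hL : ∀ i : Fin (n + 1), sig a b i / sig a b l ∈ L) (j : Fin n) :
    ∃ q : Polynomial L, q ≠ 0 ∧ q.natDegree ≤ n ∧ aeval (a j / b j) q = 0 := by
  by_cases hb : b j = 0
  · refine ⟨X, X_ne_zero, ?_, ?_⟩
    · rw [natDegree_X]
      have := j.2
      omega
    · rw [hb]; simp
  · refine ⟨∑ i : Fin (n + 1), C (⟨sig a b i / sig a b l, hL i⟩ : L) * X ^ (i : ℕ), ?_, ?_, ?_⟩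
    · intro h0
      have h1 := congrArg (fun r => Polynomial.coeff r (l : ℕ)) h0
      simp only [finsetSum_coeff, coeff_C_mul, coeff_X_pow, coeff_zero] at h1
      rw [Finset.sum_eq_single l] at h1
      · rw [if_pos rfl, mul_one] at h1
        have h2 := congrArg (fun z : L => (z : Ω)) h1
        simp only [ZeroMemClass.coe_zero] at h2
        rw [div_self hl] at h2
        exact one_ne_zero h2
      · intro i _ hi
        rw [if_neg, mul_zero]
        intro h3
        exact hi (Fin.ext h3.symm)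
      · intro h3; exact absurd (Finset.mem_univ l) h3
    · refine (natDegree_sum_le_of_forall_le _ _ (n := n) fun i _ => ?_)
      refine (natDegree_C_mul_X_pow_le _ _).trans ?_
      have := i.2
      omega
    · rw [map_sum]
      have h1 : ∀ i : Fin (n + 1), aeval (a j / b j) (C (⟨sig a b i / sig a b l, hL i⟩ : L) * X ^ (i : ℕ)) =
          (sig a b l)⁻¹ * (sig a b i * (a j / b j) ^ (i : ℕ)) := by
        intro i
        rw [map_mul, map_pow, aeval_X, aeval_C]
        rw [show (algebraMap L Ω) ⟨sig a b i / sig a b l, hL i⟩ = sig a b i / sig a b l from rfl]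
        ring
      rw [Finset.sum_congr rfl fun i _ => h1 i, ← Finset.mul_sum, sig_eval,
        Finset.prod_eq_zero (Finset.mem_univ j), mul_zero]
      field_simp
      ring

end Pool.Agent.H861.CD
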