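import Pool.Agent.H861.CD.FD
import Pool.Agent.H861.CD.Sig

set_option autoImplicit false

open Module Polynomial

namespace Pool.Agent.H861.CD

open IntermediateField

lemma scal_w {Ω : Type*} [Field Ω] {a b α α' : Ω} (hb : b ≠ 0) (h1 : α + α' = a)
    (h2 : α * α' = b ^ 2) : α / b ≠ 0 ∧ α' / b = (α / b)⁻¹ ∧ α / b + (α / b)⁻¹ = a / b := by
  have hα : α ≠ 0 := by
    rintro rfl
    rw [zero_mul] at h2
    exact hb (pow_eq_zero_iff (two_ne_zero) |>.1 h2.symm)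
  have h3 : α' / b = (α / b)⁻¹ := by
    field_simp
    linear_combination h2
  refine ⟨div_ne_zero hα hb, h3, ?_⟩
  rw [← h3, ← h1]; ring

lemma scal_h {Ω : Type*} [Field Ω] {b α α' ρ ρ' T : Ω} {δ : ℕ} (hb : b ≠ 0)
    (h2 : α * α' = b ^ 2) (h3 : ρ * ρ' = b ^ 2) (h4 : ρ ^ δ + ρ' ^ δ = α ^ δ + α' ^ δ + T * b ^ δ) :
    (ρ / b) ^ δ ≠ 0 ∧ (ρ / b) ^ δ + ((ρ / b) ^ δ)⁻¹ = (α / b) ^ δ + ((α / b) ^ δ)⁻¹ + T := by
  obtain ⟨e1, e2, -⟩ := scal_w hb rfl h2
  obtain ⟨e3, e4, -⟩ := scal_w hb rfl h3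
  refine ⟨pow_ne_zero _ e3, ?_⟩
  rw [← inv_pow, ← inv_pow, ← e2, ← e4]
  rw [div_pow, div_pow, div_pow, div_pow]
  have hbd : b ^ δ ≠ 0 := pow_ne_zero _ hb
  field_simp
  linear_combination h4

lemma sym_cases {Ω : Type*} [Field Ω] {w w' : Ω} (hw : w ≠ 0) (hw' : w' ≠ 0) (h : w + w⁻¹ = w' + w'⁻¹) :
    w' = w ∨ w' = w⁻¹ := by
  have h1 : (w' - w) * (w' * w - 1) = 0 := by
    field_simp at h
    linear_combination (-1 : Ω) * h
  rcases mul_eq_zero.1 h1 with h2 | h2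
  · left; linear_combination h2
  · right
    field_simp
    linear_combination h2

lemma sym_pow {Ω : Type*} [Field Ω] {w w' : Ω} (hw : w ≠ 0) (hw' : w' ≠ 0) (h : w + w⁻¹ = w' + w'⁻¹) (δ : ℕ) :
    w' ^ δ + (w' ^ δ)⁻¹ = w ^ δ + (w ^ δ)⁻¹ := by
  rcases sym_cases hw hw' h with rfl | rfl
  · rfl
  · rw [inv_pow, inv_inv, add_comm]

lemma comap_nonunits {Ω E : Type*} [Field Ω] [Field E] (f : E →+* Ω) (V : ValuationSubring Ω) (x : E) :
    x ∈ (V.comap f).nonunits ↔ f x ∈ V.nonunits := by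
  rw [ValuationSubring.mem_nonunits_iff_or, ValuationSubring.mem_nonunits_iff_or,
    ValuationSubring.mem_comap, map_inv₀, map_eq_zero]

/-- the normalised coordinates -/
lemma sig_normal {n : ℕ} {Ω : Type*} [Field Ω] [DecidableEq Ω] (A B : Fin n → Ω)
    (i : ℕ) : sig A B i = (∏ j, if B j = 0 then A j else B j) *
      sig (fun j => if B j = 0 then 1 else A j / B j) (fun j => if B j = 0 then 0 else 1) i := by
  rw [← sig_smul]
  congr 1
  · ext j
    by_cases h : B j = 0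
    · simp [h]
    · simp only [h, if_false]; field_simp
  · ext j
    by_cases h : B j = 0
    · simp [h]
    · simp [h]

lemma prodS_ne_zero {n : ℕ} {Ω : Type*} [Field Ω] [DecidableEq Ω] (A B : Fin n → Ω) (hAB : ∀ j, A j ≠ 0 ∨ B j ≠ 0) :
    (∏ j, if B j = 0 then A j else B j) ≠ 0 := by
  rw [Finset.prod_ne_zero_iff]
  intro j _
  by_cases h : B j = 0
  · rw [if_pos h]
    rcases hAB j with h' | h'
    · exact h'
    · exact absurd h h'
  · rw [if_neg h]; exact h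

/-- some `u_j` is not constant -/
lemma exists_nonconst {n : ℕ} {Ω : Type*} [Field Ω] [Algebra ℂ Ω] (A B : Fin n → Ω)
    (hAB : ∀ j, A j ≠ 0 ∨ B j ≠ 0) (hnc : ∃ i i' : Fin (n + 1), sig A B i' ≠ 0 ∧
      sig A B i / sig A B i' ∉ (⊥ : IntermediateField ℂ Ω)) :
    ∃ j, B j ≠ 0 ∧ A j / B j ∉ (⊥ : IntermediateField ℂ Ω) := by
  classical
  by_contra hc
  push Not at hc
  obtain ⟨i, i', h1, h2⟩ := hnc
  apply h2
  rw [sig_normal A B i, sig_normal A B i', mul_div_mul_left _ _ (prodS_ne_zero A B hAB)]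
  have h3 : ∀ j, (if B j = 0 then (1 : Ω) else A j / B j) ∈ (⊥ : IntermediateField ℂ Ω) := by
    intro j
    by_cases h : B j = 0
    · rw [if_pos h]; exact one_mem _
    · rw [if_neg h]; exact hc j h
  have h4 : ∀ j, (if B j = 0 then (0 : Ω) else 1) ∈ (⊥ : IntermediateField ℂ Ω) := by
    intro j
    by_cases h : B j = 0
    · rw [if_pos h]; exact zero_mem _
    · rw [if_neg h]; exact one_mem _
  exact div_mem (sig_mem _ _ _ h3 h4 _) (sig_mem _ _ _ h3 h4 _)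

/-- `z / ∏ s_j ∈ E` -/
lemma zdiv_mem {n : ℕ} {Ω : Type*} [Field Ω] [Algebra ℂ Ω] [DecidableEq Ω] (E : IntermediateField ℂ Ω) (A B : Fin n → Ω)
    (hAB : ∀ j, A j ≠ 0 ∨ B j ≠ 0) (hu : ∀ j, B j ≠ 0 → A j / B j ∈ E) (z : Ω) {i : Fin (n + 1)}
    (hi : sig A B i ≠ 0) (hz : z / sig A B i ∈ E) :
    z / ∏ j, (if B j = 0 then A j else B j) ∈ E := by
  have h3 : ∀ j, (if B j = 0 then (1 : Ω) else A j / B j) ∈ E := by
    intro j
    by_cases h : B j = 0
    · rw [if_pos h]; exact one_mem _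
    · rw [if_neg h]; exact hu j h
  have h4 : ∀ j, (if B j = 0 then (0 : Ω) else 1) ∈ E := by
    intro j
    by_cases h : B j = 0
    · rw [if_pos h]; exact zero_mem _
    · rw [if_neg h]; exact one_mem _
  have h5 := sig_mem E _ _ h3 h4 i
  have h6 := sig_normal A B i
  have h7 : z / ∏ j, (if B j = 0 then A j else B j) = z / sig A B i *
      sig (fun j => if B j = 0 then 1 else A j / B j) (fun j => if B j = 0 then 0 else 1) i := by
    have h8 := prodS_ne_zero A B hAB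
    rw [h6] at hi ⊢
    have h9 : sig (fun j => if B j = 0 then 1 else A j / B j) (fun j => if B j = 0 then 0 else 1) i ≠ 0 :=
      right_ne_zero_of_mul hi
    field_simp
  rw [h7]
  exact mul_mem hz h5

end Pool.Agent.H861.CD
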