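import Mathlib

/-!
Project CD (helper861), MP_8dbee4_ag, part T1: `kummer_indep` below (self-contained; only Mathlib).

Notation: `K1 = RatFunc κ = κ(w)`, `w = X`, `δ_k = p^(s k)`, `f_k = w^δ_k + w^(-δ_k) + c_k`, so `h_k + 1/h_k = f_k` in `N`.
We may drop the `k` with `s k = 0` (they contribute nothing), so all `s k ≥ 1`. `c_k` is transcendental over `ℚ`, and two different
`c_k, c_l` are not both algebraic over a field `ℚ(w0)`, `w0 ∈ κ`, in which ... (see Step 2).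

**Step 1 (one k).** Let `f = f_k, δ = δ_k, c = c_k`. There is no `G ∈ K1` with `D(G) = f`, where `D ∈ κ[y]` is the Dickson polynomial with
`D(x + 1/x) = x^p + x^(-p)` (Mathlib: `Polynomial.dickson 1 1 p`, `Polynomial.dickson_one_one_eval_add_inv`). Proof: let `ζ ≠ 1` be a `p`-th root of
unity in `κ`, `α = ζ + ζ⁻¹` (`α ≠ ±2`, as `p` is odd). Then `D(y) - 2 = (y - α)^2 Q(y)`, `Q ∈ κ[y]` of degree `p - 2`
(`x^p + x^(-p) - 2 = (x^p - 1)^2 / x^p`; `(x-ζ)^2 (x-ζ⁻¹)^2 / x^2 = (x + 1/x - α)^2` divides it; or: `D(α) = 2` and `D'(α) = 0` since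
`D'(x+1/x)(1 - x^(-2)) = p (x^(p-1) - x^(-p-1))`).
Put `y = G` and `G - α = A/B` with coprime polynomials `A, B ∈ κ[w]`. `Q(G) = Q~/B^(p-2)`, with `Q~ ∈ κ[w]`, and
`f - 2 = M/w^δ`, `M = w^(2δ) + (c-2) w^δ + 1`. So `A^2 Q~ w^δ = M B^p`; as `A` is coprime to `B`, `A^2 ∣ M`. `M` is squarefree: `y^2 + (c-2) y + 1` has two different
nonzero roots (`(c-2)^2 ≠ 4` as `c ≠ 0, 4`), and `w^δ - root` is separable. So `A` is constant, `G = α + a/B`, hence
`f - 2 = (a/B)^2 Q(α + a/B)` has degree (`RatFunc.intDegree`) `≤ 0` [concretely `a^2 Q~ w^δ = M B^p` with `deg Q~ ≤ (p-2) deg B`, so `2δ + p deg B ≤ δ + (p-2) deg B`]. But it has degree `δ > 0`. Contradiction.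

**Step 2 (independence of the quadratic extensions).** `P_k := (w^(2δ)+(c_k-2)w^δ+1)(w^(2δ)+(c_k+2)w^δ+1)`, `δ = δ_k`; `f_k^2 - 4 = P_k / w^(2δ_k)`. `P_k` is squarefree (the
zeros satisfy `w^δ + w^(-δ) = 2 - c_k` resp. `-2 - c_k`, these are different; each factor is squarefree as above: `c_k ∉ {0, 4, -4}`). `P_k` and `P_l` have no
common zero `w0` for `k ≠ l`: otherwise `c_k = ±2 - (w0^δ_k + w0^(-δ_k))`, `c_l = ±2 - (w0^δ_l + w0^(-δ_l))`, so `w0` is algebraic over `ℚ(c_k)` (it is a root of a nonzero polynomial) and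
`c_l ∈ ℚ(w0)` is algebraic over `ℚ(c_k)`, contradicting the algebraic independence of `c`. Hence for all finite sets `A ∌ k`,
`P_k ∏_{l∈A} P_l` is not a square in `K1` (a zero `w0` of `P_k` has multiplicity one in it). Let `q_k := w^δ_k (h_k - 1/h_k) ∈ N`, so `q_k^2 = P_k`, `K1(h_k) = K1(q_k)`.
By the elementary theory of multiquadratic extensions (lemma: if `x ∈ K1` has a square root in `K1(q_l : l ∈ A)` then
`x ∏_{l∈A'} P_l` is a square in `K1` for some `A' ⊆ A`; induction on `A`: `y = a + b q_l`, `y^2 ∈ K1'` implies `ab = 0` or `q_l` in the smaller field ...), `h_k ∉ F_k := K1(h_l : l ≠ k)`.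

**Step 3 (σ and the field F = K1(h_k : all k)).** `h_k ∉ F_k` is a root of `T^2 - f_k T + 1` over `F_k`, which is then its minimal polynomial, so there is an
automorphism `σ` of `F = F_k(h_k)` over `F_k` with `σ h_k = h_k⁻¹` (and `σ h_l = h_l`, `l ≠ k`). `[F : K1]` is a power of 2.
Claim: no product `∏ h_k^(e_k)`, `0 ≤ e_k < p` not all zero, is a `p`-th power in `F`. If it is `g^p` and `e_k ≠ 0`, then with `σ`: `h_k^(2 e_k) = (g/σ g)^p`, so (`p ∤ 2e_k`) `h_k` is a `p`-th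
power in `F`. If `h_k` is not a `p`-th power in `K1(h_k)` then `T^p - h_k` is irreducible over it (Mathlib: `X_pow_sub_C_irreducible_iff_of_prime`-type lemmas) and `p ∣ [F : K1(h_k)]`, a power of 2, contradiction. So `h_k = g^p` with
`g ∈ K1(h_k)`, and `K1(h_k)/K1` is quadratic (`h_k ∉ K1` by Step 2) with automorphism `τ`, `τ h_k = h_k⁻¹`. `(g τg)^p = 1`; multiplying `g` by a `p`-th root of unity (`p` odd) we may assume `g τg = 1`. `G := g + g⁻¹ = g + τ g ∈ K1` and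
`D(G) = h_k + h_k⁻¹ = f_k`, contradicting Step 1.

**Step 4 (Kummer tower).** Lemma: let `F` be a field of characteristic 0 with all roots of unity of `p`-power order, `N/F` an extension, `R_k^(p^s_k) = h_k ∈ F`, `s_k ≥ 1`, such that
no product `∏ h_k^(e_k)`, `0 ≤ e_k < p` not all 0, is a `p`-th power in `F`. Then `[F(R_k : k) : F] = p^(Σ s_k)` (`∣` suffices). Induction: `h_1` is not a `p`-th power, so `T^(p^s_1) - h_1` is irreducible
(`X_pow_sub_C_irreducible_iff_of_prime_pow`, `p` odd) and `F' = F(R_1)` has degree `p^s_1` over `F`, and it is Galois over `F` with cyclic group generated by `σ`, `σ R_1 = ζ R_1`, `ζ` a primitive `p^s_1`-th root of unity.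
If `x^p = η := ∏_{k≥2} h_k^(e_k)` with `x ∈ F'` then `σ x / x` is a `p`-th root of unity, so `= ζ^(a p^(s_1 - 1))`, and `y := x / R_1^(a p^(s_1-1))` is fixed by `σ`, so in `F`, and `η = y^p h_1^a`: `η h_1^(-a)` is a `p`-th power in `F`, so
(replace `-a` by its remainder mod `p`) all `e_k = 0`. So the hypothesis holds for `F'` and the remaining `k`.

Conclusion: `p^(Σ s_k) ∣ [F(R) : F] ∣ [N : K1]`. (All subfields can be taken as `IntermediateField K1 N`.)
-/

set_option autoImplicit false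

open Module Polynomial

namespace Pool.Agent.H861.CD.T1aux


section kummer

variable {K M ι : Type*} [Field K] [Field M] [Algebra K M] [IsAlgClosed M] [CharZero M] [Fintype ι]

/-- a form of Kummer theory -/
theorem kum (G : Subgroup (M ≃ₐ[K] M)) (n : ι → ℕ) (hn : ∀ k, n k ≠ 0) (q : ι → M)
    (hq0 : ∀ k, q k ≠ 0)
    (hfix : ∀ k (ζ : M), ζ ^ n k = 1 → ∀ τ ∈ G, τ ζ = ζ)
    (hq : ∀ k, ∀ τ ∈ G, τ (q k) ^ n k = q k ^ n k)
    (hind : ∀ a : ι → ℤ, (∀ τ ∈ G, τ (∏ k, q k ^ a k) = ∏ k, q k ^ a k) →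
      ∀ k, (n k : ℤ) ∣ a k) :
    (∀ ζ : ι → M, (∀ k, ζ k ^ n k = 1) → ∃ τ ∈ G, ∀ k, τ (q k) = ζ k * q k) ∧
    ∀ S : Subgroup (M ≃ₐ[K] M), S ≤ G → (∀ τ ∈ S, ∀ k, τ (q k) = q k) →
      ∏ k, n k ∣ S.relIndex G := by
  classical
  have hne : ∀ k, NeZero (n k) := fun k => ⟨hn k⟩
  have hpow : ∀ k, ∀ τ ∈ G, (τ (q k) / q k) ^ n k = 1 := by
    intro k τ hτ
    rw [div_pow, hq k τ hτ, div_self (pow_ne_zero _ (hq0 k))]
  obtain ⟨χ, hχ⟩ : ∃ χ : G →* (∀ k, rootsOfUnity (n k) M), ∀ (τ : G) (k : ι),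
      (((χ τ k : rootsOfUnity (n k) M) : Mˣ) : M) = (τ : M ≃ₐ[K] M) (q k) / q k := by
    refine ⟨⟨⟨fun τ k => rootsOfUnity.mkOfPowEq _ (hpow k τ τ.2), ?_⟩, ?_⟩, ?_⟩
    · funext k
      ext
      rw [rootsOfUnity.coe_mkOfPowEq]
      simp [hq0 k]
    · intro σ τ
      funext k
      ext
      have h1 : (σ : M ≃ₐ[K] M) ((τ : M ≃ₐ[K] M) (q k) / q k) = (τ : M ≃ₐ[K] M) (q k) / q k :=
        hfix k _ (hpow k τ τ.2) σ σ.2
      have h2 : (σ : M ≃ₐ[K] M) ((τ : M ≃ₐ[K] M) (q k)) =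
          (τ : M ≃ₐ[K] M) (q k) / q k * (σ : M ≃ₐ[K] M) (q k) := by
        rw [← h1, ← map_mul, div_mul_cancel₀ _ (hq0 k)]
      rw [rootsOfUnity.coe_mkOfPowEq]
      simp only [Pi.mul_apply, Subgroup.coe_mul, Units.val_mul, rootsOfUnity.coe_mkOfPowEq]
      change (σ : M ≃ₐ[K] M) ((τ : M ≃ₐ[K] M) (q k)) / q k = _
      rw [h2]
      ring
    · intro τ k
      exact rootsOfUnity.coe_mkOfPowEq _
  have hsurj : ∀ x, x ∈ χ.range := by
    intro x
    have he : Monoid.exponent (∀ k, rootsOfUnity (n k) M) ≠ 0 := Monoid.exponent_ne_zero_of_finite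
    have hne2 : NeZero ((Monoid.exponent (∀ k, rootsOfUnity (n k) M) : ℕ) : M) :=
      ⟨by exact_mod_cast he⟩
    rw [← CommGroup.forall_monoidHom_apply_eq_one_iff (M := M)]
    intro φ hφ
    -- the components of the character
    have hcomp : ∀ k, ∃ a : ℤ, ∀ z : rootsOfUnity (n k) M,
        φ (Pi.mulSingle k z) = ((z : Mˣ)) ^ a := by
      intro k
      have hcod : ∀ z : rootsOfUnity (n k) M,
          (φ.comp (MonoidHom.mulSingle (fun k => rootsOfUnity (n k) M) k)) z ∈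
            rootsOfUnity (n k) M := by
        intro z
        rw [mem_rootsOfUnity, ← map_pow]
        have : z ^ n k = 1 := by
          ext
          have := z.2
          rw [mem_rootsOfUnity] at this
          simp [this]
        rw [this, map_one]
      obtain ⟨a, ha⟩ := MonoidHom.map_cyclic ((φ.comp
        (MonoidHom.mulSingle (fun k => rootsOfUnity (n k) M) k)).codRestrict
          (rootsOfUnity (n k) M) hcod)
      refine ⟨a, fun z => ?_⟩
      have := congrArg (fun y : rootsOfUnity (n k) M => (y : Mˣ)) (ha z)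
      simpa using this
    choose a ha using hcomp
    have hval : ∀ y : (∀ k, rootsOfUnity (n k) M), φ y = ∏ k, ((y k : Mˣ)) ^ a k := by
      intro y
      conv_lhs => rw [← Finset.univ_prod_mulSingle y]
      rw [map_prod]
      exact Finset.prod_congr rfl fun k _ => ha k (y k)
    have hdiv : ∀ k, (n k : ℤ) ∣ a k := by
      refine hind a fun τ hτ => ?_
      have h1 := hφ (χ ⟨τ, hτ⟩) ⟨⟨τ, hτ⟩, rfl⟩
      rw [hval] at h1
      have h2 := congrArg (fun u : Mˣ => (u : M)) h1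
      simp only [Units.coe_prod, Units.val_zpow_eq_zpow_val, Units.val_one, hχ] at h2
      rw [map_prod]
      have h3 : ∀ k, τ (q k ^ a k) = (τ (q k) / q k) ^ a k * q k ^ a k := by
        intro k
        rw [map_zpow₀, ← mul_zpow, div_mul_cancel₀ _ (hq0 k)]
      rw [Finset.prod_congr rfl fun k _ => h3 k, Finset.prod_mul_distrib, h2, one_mul]
    rw [hval]
    refine Finset.prod_eq_one fun k _ => ?_
    obtain ⟨b, hb⟩ := hdiv k
    have := (x k).2
    rw [mem_rootsOfUnity] at this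
    rw [hb, zpow_mul, zpow_natCast, this, one_zpow]
  constructor
  · intro ζ hζ
    obtain ⟨τ, hτ⟩ := hsurj fun k => rootsOfUnity.mkOfPowEq (ζ k) (hζ k)
    refine ⟨τ, τ.2, fun k => ?_⟩
    have h1 := hχ τ k
    rw [hτ, rootsOfUnity.coe_mkOfPowEq] at h1
    rw [h1, div_mul_cancel₀ _ (hq0 k)]
  · intro S hSG hS
    have h1 : S.subgroupOf G ≤ χ.ker := by
      intro τ hτ
      rw [MonoidHom.mem_ker]
      funext k
      ext
      rw [hχ, hS τ hτ k, div_self (hq0 k)]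
      rfl
    have h2 := Subgroup.index_dvd_of_le h1
    rw [Subgroup.index_ker] at h2
    have h3 : χ.range = ⊤ := by
      rw [eq_top_iff]
      exact fun x _ => hsurj x
    rw [h3, Subgroup.card_top, Nat.card_pi] at h2
    have h4 : ∀ k, Nat.card (rootsOfUnity (n k) M) = n k := by
      intro k
      have : NeZero ((n k : ℕ) : M) := ⟨by exact_mod_cast hn k⟩
      exact HasEnoughRootsOfUnity.natCard_rootsOfUnity M (n k)
    rw [Finset.prod_congr rfl fun k _ => h4 k] at h2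
    exact h2

end kummer



section roots

theorem root_mem {κ M : Type*} [Field κ] [IsAlgClosed κ] [Field M] [Algebra κ M] (ζ : M) (n : ℕ)
    (hn : n ≠ 0) (h : ζ ^ n = 1) : ∃ z : κ, algebraMap κ M z = ζ := by
  have hi : IsIntegral κ ζ := ⟨X ^ n - 1, by simpa using monic_X_pow_sub_C (1 : κ) hn, by simp [h]⟩
  have := IsAlgClosed.degree_eq_one_of_irreducible κ (minpoly.irreducible hi)
  exact minpoly.mem_range_of_degree_eq_one κ ζ this

end roots

section poly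

variable {κ : Type*} [Field κ]

/-- `w^(2δ) (f² - 4)` -/
noncomputable def Pk (c : κ) (δ : ℕ) : κ[X] := (X ^ (2 * δ) + C c * X ^ δ + 1) ^ 2 - 4 * X ^ (2 * δ)

theorem Pk_eval (c : κ) (δ : ℕ) (x : κ) :
    eval x (Pk c δ) = ((x ^ δ) ^ 2 + c * x ^ δ + 1) ^ 2 - 4 * (x ^ δ) ^ 2 := by
  unfold Pk
  simp only [eval_sub, eval_pow, eval_add, eval_mul, eval_C, eval_X, eval_one, eval_ofNat]
  ring

theorem Pk_zero (c : κ) (δ : ℕ) (hδ : δ ≠ 0) : eval 0 (Pk c δ) = 1 := by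
  rw [Pk_eval, zero_pow hδ]
  ring

theorem Pk_ne (c : κ) (δ : ℕ) (hδ : δ ≠ 0) : Pk c δ ≠ 0 := by
  intro h
  have := Pk_zero c δ hδ
  rw [h] at this
  simp at this

theorem Pk_deriv (c : κ) (δ : ℕ) (hδ : δ ≠ 0) (x : κ) :
    x * eval x (derivative (Pk c δ)) =
      δ * (2 * ((x ^ δ) ^ 2 + c * x ^ δ + 1) * (2 * (x ^ δ) ^ 2 + c * x ^ δ) - 8 * (x ^ δ) ^ 2) := by
  obtain ⟨m, rfl⟩ := Nat.exists_eq_succ_of_ne_zero hδ
  have h1 : 2 * m.succ = (2 * m + 1) + 1 := by omega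
  unfold Pk
  rw [h1]
  simp only [derivative_sub, derivative_pow, derivative_add, derivative_mul, derivative_C,
    derivative_X, derivative_one, derivative_ofNat, eval_sub, eval_pow, eval_add, eval_mul, eval_C, eval_X,
    eval_one, eval_ofNat, eval_zero, Nat.succ_eq_add_one, Nat.add_sub_cancel]
  push_cast
  ring

theorem Pk_zero_cases (c : κ) (δ : ℕ) (x : κ) (h : eval x (Pk c δ) = 0) :
    (x ^ δ) ^ 2 + c * x ^ δ + 1 = 2 * x ^ δ ∨ (x ^ δ) ^ 2 + c * x ^ δ + 1 = -2 * x ^ δ := by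
  rw [Pk_eval] at h
  have h2 : ((x ^ δ) ^ 2 + c * x ^ δ + 1) ^ 2 = (2 * x ^ δ) ^ 2 := by
    rw [mul_pow, ← sub_eq_zero, ← h]
    ring
  rcases sq_eq_sq_iff_eq_or_eq_neg.1 h2 with h3 | h3
  · exact Or.inl h3
  · right
    rw [h3]
    ring

variable [IsAlgClosed κ] [CharZero κ]

theorem Pk_sep (c : κ) (δ : ℕ) (hδ : δ ≠ 0) (hc0 : c ≠ 0) (hc4 : c ≠ 4) (hc4' : c ≠ -4) :
    (Pk c δ).Separable := by
  unfold Polynomial.Separable
  refine (Polynomial.isCoprime_iff_aeval_ne_zero_of_isAlgClosed κ κ _ _).2 ?_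
  intro x
  by_contra hcon
  push Not at hcon
  obtain ⟨h1, h2⟩ := hcon
  rw [coe_aeval_eq_eval] at h1 h2
  have hx : x ≠ 0 := by
    rintro rfl
    rw [Pk_zero c δ hδ] at h1
    exact one_ne_zero h1
  have hu : x ^ δ ≠ 0 := pow_ne_zero _ hx
  have h3 := Pk_deriv c δ hδ x
  rw [h2, mul_zero] at h3
  have hδ' : (δ : κ) ≠ 0 := by exact_mod_cast hδ
  have h4 := (mul_eq_zero.1 h3.symm).resolve_left hδ'
  obtain ⟨u, hu'⟩ : ∃ u, u = x ^ δ := ⟨_, rfl⟩
  have h5 := Pk_zero_cases c δ x h1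
  rw [← hu'] at h4 h5 hu
  have h2' : (4 : κ) ≠ 0 := by norm_num
  rcases h5 with h5 | h5
  · rw [h5] at h4
    have h6 : 4 * u ^ 2 * (2 * u + c - 2) = 0 := by rw [← h4]; ring
    have h7 : 2 * u + c - 2 = 0 :=
      (mul_eq_zero.1 h6).resolve_left (mul_ne_zero h2' (pow_ne_zero 2 hu))
    have h8 : c = 2 - 2 * u := by linear_combination h7
    rw [h8] at h5
    have h9 : (1 - u) * (1 + u) = 0 := by linear_combination h5
    rcases mul_eq_zero.1 h9 with h10 | h10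
    · exact hc0 (by rw [h8]; linear_combination 2 * h10)
    · exact hc4 (by rw [h8]; linear_combination -2 * h10)
  · rw [h5] at h4
    have h6 : 4 * u ^ 2 * (2 * u + c + 2) = 0 := by linear_combination -h4
    have h7 : 2 * u + c + 2 = 0 :=
      (mul_eq_zero.1 h6).resolve_left (mul_ne_zero h2' (pow_ne_zero 2 hu))
    have h8 : c = -2 - 2 * u := by linear_combination h7
    rw [h8] at h5
    have h9 : (1 - u) * (1 + u) = 0 := by linear_combination h5
    rcases mul_eq_zero.1 h9 with h10 | h10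
    · exact hc4' (by rw [h8]; linear_combination 2 * h10)
    · exact hc0 (by rw [h8]; linear_combination -2 * h10)

theorem Pk_root (c : κ) (δ : ℕ) (hδ : δ ≠ 0) : ∃ x, eval x (Pk c δ) = 0 := by
  obtain ⟨d, hd⟩ := IsAlgClosed.exists_pow_nat_eq ((c - 2) ^ 2 - 4) (n := 2) (by norm_num)
  obtain ⟨x, hx⟩ := IsAlgClosed.exists_pow_nat_eq ((-(c - 2) + d) / 2) (n := δ) (by omega)
  refine ⟨x, ?_⟩
  rw [Pk_eval, hx]
  have h1 : ((-(c - 2) + d) / 2) ^ 2 + (c - 2) * ((-(c - 2) + d) / 2) + 1 = 0 := by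
    field_simp
    linear_combination hd
  obtain ⟨u, hu⟩ : ∃ u, u = (-(c - 2) + d) / 2 := ⟨_, rfl⟩
  rw [← hu] at h1 ⊢
  have h2 : (u ^ 2 + c * u + 1) ^ 2 - 4 * u ^ 2 = (u ^ 2 + (c - 2) * u + 1) * (u ^ 2 + (c + 2) * u + 1) := by
    ring
  rw [h2, h1, zero_mul]

theorem Pk_cop {ι : Type*} (c : ι → κ) (hc : AlgebraicIndependent ℚ c) (k l : ι) (hkl : l ≠ k)
    (δ δ' : ℕ) (hδ : δ ≠ 0) (hδ' : δ' ≠ 0) : IsCoprime (Pk (c k) δ) (Pk (c l) δ') := by
  refine (Polynomial.isCoprime_iff_aeval_ne_zero_of_isAlgClosed κ κ _ _).2 ?_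
  intro x
  by_contra hcon
  push Not at hcon
  obtain ⟨h1, h2⟩ := hcon
  rw [coe_aeval_eq_eval] at h1 h2
  have hx : x ≠ 0 := by
    rintro rfl
    rw [Pk_zero _ δ hδ] at h1
    exact one_ne_zero h1
  have ht : Transcendental (Algebra.adjoin ℚ (c '' {k})) (c l) :=
    hc.transcendental_adjoin (s := {k}) (i := l) (by simpa using hkl)
  apply ht
  have hmem : c k ∈ Algebra.adjoin ℚ (c '' {k}) := Algebra.subset_adjoin (by simp)
  have hck : IsAlgebraic (Algebra.adjoin ℚ (c '' {k})) (c k) :=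
    isAlgebraic_algebraMap (⟨c k, hmem⟩ : Algebra.adjoin ℚ (c '' {k}))
  have h2a : ∀ m : ℕ, IsAlgebraic (Algebra.adjoin ℚ (c '' {k})) (m : κ) := fun m => by
    have := isAlgebraic_algebraMap (A := κ) ((m : Algebra.adjoin ℚ (c '' {k})))
    simpa using this
  have hu : IsAlgebraic (Algebra.adjoin ℚ (c '' {k})) (x ^ δ) := by
    have hint : ∀ e : ℤ, (x ^ δ) ^ 2 + (c k + e) * x ^ δ + 1 = 0 →
        IsAlgebraic (Algebra.adjoin ℚ (c '' {k})) (x ^ δ) := by
      intro e he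
      apply IsIntegral.isAlgebraic
      obtain ⟨b, hb⟩ : ∃ b : Algebra.adjoin ℚ (c '' {k}), algebraMap _ κ b = c k + e :=
        ⟨⟨c k, hmem⟩ + (e : Algebra.adjoin ℚ (c '' {k})), by rw [map_add, map_intCast]; rfl⟩
      refine ⟨X ^ 2 + C b * X + 1, ?_, ?_⟩
      · monicity!
      · simp only [eval₂_add, eval₂_pow, eval₂_X, eval₂_mul, eval₂_C, eval₂_one, hb]
        exact he
    rcases Pk_zero_cases _ _ _ h1 with h3 | h3
    · refine hint (-2) ?_
      push_cast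
      linear_combination h3
    · refine hint 2 ?_
      push_cast
      linear_combination h3
  have hxa : IsAlgebraic (Algebra.adjoin ℚ (c '' {k})) x := IsAlgebraic.of_pow (by omega) hu
  have hua : IsAlgebraic (Algebra.adjoin ℚ (c '' {k})) (x ^ δ') := hxa.pow δ'
  have hne : x ^ δ' ≠ 0 := pow_ne_zero _ hx
  have h2b := h2a 2
  rcases Pk_zero_cases _ _ _ h2 with h3 | h3
  · have h4 : c l = 2 - (x ^ δ' + (x ^ δ')⁻¹) := by
      field_simp
      linear_combination h3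
    rw [h4]
    exact (by exact_mod_cast h2b : IsAlgebraic (Algebra.adjoin ℚ (c '' {k})) (2 : κ)).sub (hua.add hua.inv)
  · have h4 : c l = -2 - (x ^ δ' + (x ^ δ')⁻¹) := by
      field_simp
      linear_combination h3
    rw [h4]
    exact (by exact_mod_cast h2b : IsAlgebraic (Algebra.adjoin ℚ (c '' {k})) (2 : κ)).neg.sub
      (hua.add hua.inv)

end poly



section rat

variable {κ : Type*} [Field κ]

/-- the function `f_k` -/
noncomputable def ff (c : κ) (δ : ℕ) : RatFunc κ := RatFunc.X ^ δ + (RatFunc.X ^ δ)⁻¹ + RatFunc.C c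

theorem Pk_ff (c : κ) (δ : ℕ) :
    algebraMap κ[X] (RatFunc κ) (Pk c δ) = (RatFunc.X ^ δ) ^ 2 * (ff c δ ^ 2 - 4) := by
  have hX : (RatFunc.X ^ δ : RatFunc κ) ≠ 0 := pow_ne_zero _ RatFunc.X_ne_zero
  unfold Pk ff
  simp only [map_sub, map_pow, map_add, map_mul, map_one, RatFunc.algebraMap_X, RatFunc.algebraMap_C,
    map_ofNat]
  field_simp
  ring

theorem mem_of_sq (P : κ[X]) (y : RatFunc κ) (h : y ^ 2 = algebraMap κ[X] (RatFunc κ) P) :
    ∃ Y : κ[X], Y ^ 2 = P := by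
  have hi : IsIntegral κ[X] y := by
    refine ⟨X ^ 2 - C P, monic_X_pow_sub_C _ (by norm_num), ?_⟩
    simp [h]
  obtain ⟨Y, hY⟩ := IsIntegrallyClosed.algebraMap_eq_of_integral hi
  refine ⟨Y, ?_⟩
  apply IsFractionRing.injective κ[X] (RatFunc κ)
  rw [map_pow, hY, h]

variable [CharZero κ]

theorem c_ne {ι : Type*} (c : ι → κ) (hc : AlgebraicIndependent ℚ c) (k : ι) (m : ℤ) : c k ≠ m := by
  intro h
  apply hc.transcendental k
  rw [h]
  have := isAlgebraic_algebraMap (R := ℚ) (A := κ) (m : ℚ)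
  simpa using this

variable [IsAlgClosed κ]

theorem sep_all {ι : Type*} (c : ι → κ) (hc : AlgebraicIndependent ℚ c) (k : ι) (δ : ℕ) (hδ : δ ≠ 0) :
    (Pk (c k) δ).Separable := by
  refine Pk_sep _ _ hδ ?_ ?_ ?_
  · simpa using c_ne c hc k 0
  · simpa using c_ne c hc k 4
  · simpa using c_ne c hc k (-4)

theorem sq_false {ι : Type*} (c : ι → κ) (hc : AlgebraicIndependent ℚ c) (d : ι → ℕ)
    (hd : ∀ k, d k ≠ 0) (A : Finset ι) (hA : A.Nonempty) (z : RatFunc κ)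
    (hz : z ^ 2 = ∏ k ∈ A, (ff (c k) (d k) ^ 2 - 4)) : False := by
  have h1 : ((∏ k ∈ A, RatFunc.X ^ d k) * z) ^ 2 =
      algebraMap κ[X] (RatFunc κ) (∏ k ∈ A, Pk (c k) (d k)) := by
    rw [mul_pow, hz, map_prod, ← Finset.prod_pow, ← Finset.prod_mul_distrib]
    exact Finset.prod_congr rfl fun k _ => (Pk_ff _ _).symm
  obtain ⟨Y, hY⟩ := mem_of_sq _ _ h1
  have hsep : (∏ k ∈ A, Pk (c k) (d k)).Separable :=
    separable_prod' (fun k _ l _ hkl => Pk_cop c hc k l (Ne.symm hkl) _ _ (hd k) (hd l))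
      fun k _ => sep_all c hc k _ (hd k)
  have hsq : IsUnit Y := hsep.squarefree Y (by rw [← hY, sq])
  obtain ⟨k, hk⟩ := hA
  obtain ⟨x, hx⟩ := Pk_root (c k) (d k) (hd k)
  have h2 : IsUnit (eval x (∏ k ∈ A, Pk (c k) (d k))) := by
    rw [← hY]
    exact (hsq.pow 2).map (evalRingHom x)
  rw [eval_prod, Finset.prod_eq_zero hk hx] at h2
  exact not_isUnit_zero h2

omit [CharZero κ] [IsAlgClosed κ] in
/-- values of polynomials at a quotient -/
theorem aeval_clear (A B : κ[X]) (G : RatFunc κ)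
    (hG : G * algebraMap κ[X] (RatFunc κ) B = algebraMap κ[X] (RatFunc κ) A) (Q : κ[X]) :
    ∃ (n : ℕ) (Y : κ[X]), aeval G Q * algebraMap κ[X] (RatFunc κ) B ^ n =
      algebraMap κ[X] (RatFunc κ) Y := by
  induction Q using Polynomial.induction_on' with
  | add p q hp hq =>
    obtain ⟨n, Y, h1⟩ := hp
    obtain ⟨m, Z, h2⟩ := hq
    refine ⟨n + m, Y * B ^ m + Z * B ^ n, ?_⟩
    rw [map_add, map_add, map_mul, map_mul, ← h1, ← h2, map_pow, map_pow]
    ring
  | monomial n a =>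
    refine ⟨n, C a * A ^ n, ?_⟩
    rw [aeval_monomial, map_mul, map_pow, ← hG]
    have : algebraMap κ[X] (RatFunc κ) (C a) = algebraMap κ (RatFunc κ) a := by
      rw [RatFunc.algebraMap_C]
      rfl
    rw [this]
    ring

omit [IsAlgClosed κ] in
theorem no_dickson (c : κ) (δ : ℕ) (hδ : δ ≠ 0) (hsep : (Pk c δ).Separable) (G : RatFunc κ) (α : κ)
    (hα : α ≠ 0) (Q : κ[X])
    (h : (G - RatFunc.C α) ^ 2 * (G + RatFunc.C α) ^ 2 * aeval G Q = ff c δ ^ 2 - 4) : False := by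
  have hX : (RatFunc.X ^ δ : RatFunc κ) ≠ 0 := pow_ne_zero _ RatFunc.X_ne_zero
  have hinj := IsFractionRing.injective κ[X] (RatFunc κ)
  obtain ⟨A, hA⟩ : ∃ A, A = G.num := ⟨_, rfl⟩
  obtain ⟨B, hB⟩ : ∃ B, B = G.denom := ⟨_, rfl⟩
  have hB0 : B ≠ 0 := by rw [hB]; exact G.denom_ne_zero
  have hBm : algebraMap κ[X] (RatFunc κ) B ≠ 0 := by
    intro h0
    exact hB0 (hinj (by rw [h0, map_zero]))
  have hcop : IsCoprime A B := by rw [hA, hB]; exact G.isCoprime_num_denom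
  have hG : G * algebraMap κ[X] (RatFunc κ) B = algebraMap κ[X] (RatFunc κ) A := by
    have := G.num_div_denom
    rw [← hA, ← hB] at this
    rw [← this, div_mul_cancel₀ _ hBm]
  obtain ⟨n, Y, hY⟩ := aeval_clear A B G hG Q
  have hCα : algebraMap κ[X] (RatFunc κ) (C α) = RatFunc.C α := RatFunc.algebraMap_C α
  -- the polynomial identity
  have hid : (A - C α * B) ^ 2 * (A + C α * B) ^ 2 * Y * (X ^ δ) ^ 2 = Pk c δ * B ^ (4 + n) := by
    apply hinj
    rw [map_mul _ (Pk c δ), Pk_ff, ← h]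
    simp only [map_mul, map_pow, map_sub, map_add, hCα, RatFunc.algebraMap_X, ← hY, ← hG]
    ring
  have key : ∀ Z : κ[X], IsCoprime Z B → Z ^ 2 ∣ Pk c δ * B ^ (4 + n) → IsUnit Z := by
    intro Z hZ hd
    have h1 : Z ^ 2 ∣ Pk c δ := (IsCoprime.pow hZ).dvd_of_dvd_mul_right hd
    exact hsep.squarefree Z (by rw [← sq]; exact h1)
  have hc1 : IsCoprime (A - C α * B) B := by
    have := IsCoprime.add_mul_right_left hcop (-C α)
    rwa [neg_mul, ← sub_eq_add_neg] at this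
  have hc2 : IsCoprime (A + C α * B) B := IsCoprime.add_mul_right_left hcop (C α)
  have hu1 := key _ hc1 ⟨(A + C α * B) ^ 2 * Y * (X ^ δ) ^ 2, by rw [← hid]; ring⟩
  have hu2 := key _ hc2 ⟨(A - C α * B) ^ 2 * Y * (X ^ δ) ^ 2, by rw [← hid]; ring⟩
  obtain ⟨a, -, ha⟩ := Polynomial.isUnit_iff.1 hu1
  obtain ⟨b, -, hb⟩ := Polynomial.isUnit_iff.1 hu2
  have h2α : (2 * α) ≠ 0 := mul_ne_zero (by norm_num) hα
  have hBc : B = C ((b - a) / (2 * α)) := by
    have h1 : C (2 * α) * B = C (b - a) := by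
      rw [map_sub, ha, hb, map_mul, map_ofNat]
      ring
    have h2 : C (2 * α) * B = C (2 * α) * C ((b - a) / (2 * α)) := by
      rw [h1, ← map_mul, mul_div_cancel₀ _ h2α]
    exact mul_left_cancel₀ (by simpa using h2α) h2
  have hAc : A = C (a + α * ((b - a) / (2 * α))) := by
    rw [map_add, map_mul, ← hBc, ha]
    ring
  obtain ⟨β, hβ⟩ : ∃ β, β = (b - a) / (2 * α) := ⟨_, rfl⟩
  rw [← hβ] at hBc hAc
  have hβ0 : β ≠ 0 := by
    rintro rfl
    rw [hBc] at hB0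
    simp at hB0
  obtain ⟨γ, hγ⟩ : ∃ γ, γ = (a + α * β) / β := ⟨_, rfl⟩
  have hGc : G = RatFunc.C γ := by
    have h1 : G * RatFunc.C β = RatFunc.C γ * RatFunc.C β := by
      have := hG
      rw [hBc, hAc, RatFunc.algebraMap_C, RatFunc.algebraMap_C] at this
      rw [this, ← map_mul, hγ, div_mul_cancel₀ _ hβ0]
    exact mul_right_cancel₀ (by simpa using hβ0) h1
  have hQc : aeval G Q = RatFunc.C (eval γ Q) := by
    rw [hGc]
    exact aeval_algebraMap_apply (RatFunc κ) γ Q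
  obtain ⟨t, ht⟩ : ∃ t, t = (γ - α) ^ 2 * (γ + α) ^ 2 * eval γ Q := ⟨_, rfl⟩
  have hfin : Pk c δ = (X ^ δ) ^ 2 * C t := by
    apply hinj
    rw [Pk_ff, ← h, hQc, hGc, ht]
    simp only [map_mul, map_pow, map_sub, map_add, RatFunc.algebraMap_X, RatFunc.algebraMap_C]
  have h0 := congrArg (eval 0) hfin
  rw [Pk_zero c δ hδ] at h0
  simp [hδ] at h0

end rat

section dick

variable {κ : Type*} [Field κ]

/-- `(g^n - g^(-n)) / (g - 1/g)` as a polynomial in `g + 1/g` -/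
noncomputable def Un (κ : Type*) [Field κ] : ℕ → κ[X]
  | 0 => 0
  | 1 => 1
  | (n + 2) => X * Un κ (n + 1) - Un κ n

theorem Un_eval {M : Type*} [Field M] [Algebra κ M] (g : M) (hg : g ≠ 0) (n : ℕ) :
    aeval (g + g⁻¹) (Un κ n) * (g - g⁻¹) = g ^ n - (g ^ n)⁻¹ := by
  induction n using Nat.twoStepInduction with
  | zero => simp [Un]
  | one => simp [Un]
  | more n h1 h2 =>
    unfold Un
    rw [map_sub, map_mul, aeval_X, sub_mul, mul_assoc, h1, h2]
    field_simp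
    ring

end dick



section main

variable {κ : Type*} [Field κ] [IsAlgClosed κ] [CharZero κ]

theorem exists_alpha {p : ℕ} (hp : p.Prime) (hp2 : p ≠ 2) :
    ∃ (α : κ) (Q : κ[X]), α ≠ 0 ∧ Un κ p = (X - C α) * (X + C α) * Q := by
  have hpo : Odd p := hp.odd_of_ne_two hp2
  have hne : NeZero ((p : ℕ) : κ) := ⟨by exact_mod_cast hp.ne_zero⟩
  obtain ⟨ζ, hζ⟩ := HasEnoughRootsOfUnity.exists_primitiveRoot κ p
  have hζ1 : ζ ^ p = 1 := hζ.pow_eq_one
  have hζ0 : ζ ≠ 0 := by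
    rintro rfl
    rw [zero_pow hp.ne_zero] at hζ1
    exact zero_ne_one hζ1
  have hn1 : ζ ≠ 1 := hζ.ne_one hp.one_lt
  obtain ⟨m, hm⟩ := hpo
  -- `ζ² ≠ ±1`
  have hs : ζ ^ 2 ≠ 1 := by
    intro h
    apply hn1
    rw [hm, pow_succ, pow_mul, h, one_pow, one_mul] at hζ1
    exact hζ1
  have hs' : ζ ^ 2 ≠ -1 := by
    intro h
    have h4 : ζ ^ 4 = 1 := by
      rw [show 4 = 2 * 2 from rfl, pow_mul, h]
      norm_num
    have h5 := hζ.dvd_of_pow_eq_one 4 h4
    have h6 : p ∣ 2 := by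
      have : p ∣ 2 ^ 2 := by simpa using h5
      exact hp.dvd_of_dvd_pow this
    exact hp2 ((Nat.prime_dvd_prime_iff_eq hp Nat.prime_two).1 h6)
  have hα : ζ + ζ⁻¹ ≠ 0 := by
    intro h
    apply hs'
    field_simp at h
    linear_combination h
  have hd : ζ - ζ⁻¹ ≠ 0 := by
    intro h
    apply hs
    field_simp at h
    linear_combination h
  refine ⟨ζ + ζ⁻¹, ?_⟩
  have r1 : (X - C (ζ + ζ⁻¹)) ∣ Un κ p := by
    rw [dvd_iff_isRoot, IsRoot.def]
    have h := Un_eval (κ := κ) ζ hζ0 p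
    rw [hζ1, inv_one, sub_self, coe_aeval_eq_eval] at h
    exact (mul_eq_zero.1 h).resolve_right hd
  have r2 : (X - C (-(ζ + ζ⁻¹))) ∣ Un κ p := by
    rw [dvd_iff_isRoot, IsRoot.def]
    have h := Un_eval (κ := κ) (-ζ) (neg_ne_zero.2 hζ0) p
    have h2 : (-ζ) ^ p = -1 := by
      rw [Odd.neg_pow ⟨m, hm⟩, hζ1]
    rw [h2, coe_aeval_eq_eval, inv_neg, inv_neg, inv_one, sub_self] at h
    have h3 : -ζ + -ζ⁻¹ = -(ζ + ζ⁻¹) := by ring
    rw [h3] at h
    refine (mul_eq_zero.1 h).resolve_right ?_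
    intro h4
    exact hd (by linear_combination -h4)
  have hcop : IsCoprime (X - C (ζ + ζ⁻¹)) (X - C (-(ζ + ζ⁻¹))) := by
    apply isCoprime_X_sub_C_of_isUnit_sub
    apply IsUnit.mk0
    intro h
    apply hα
    have : (2 : κ) * (ζ + ζ⁻¹) = 0 := by linear_combination h
    exact (mul_eq_zero.1 this).resolve_left (by norm_num)
  obtain ⟨Q, hQ⟩ := hcop.mul_dvd r1 r2
  refine ⟨Q, hα, ?_⟩
  rw [hQ, map_neg, sub_neg_eq_add]

variable {ι : Type*} [Fintype ι] {M : Type*} [Field M] [Algebra (RatFunc κ) M] [IsAlgClosed M]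
  [CharZero M] [IsGalois (RatFunc κ) M]

omit [IsAlgClosed M] [CharZero M] [IsGalois (RatFunc κ) M] [CharZero κ] in
theorem root_fix (ζ : M) (n : ℕ) (hn : n ≠ 0) (h : ζ ^ n = 1) (τ : M ≃ₐ[RatFunc κ] M) :
    τ ζ = ζ := by
  let _ : Algebra κ M := ((algebraMap (RatFunc κ) M).comp (algebraMap κ (RatFunc κ))).toAlgebra
  obtain ⟨z, hz⟩ := root_mem (κ := κ) ζ n hn h
  rw [← hz]
  exact τ.commutes _

omit [IsAlgClosed κ] [CharZero κ] [Fintype ι] [IsAlgClosed M] [CharZero M] [IsGalois (RatFunc κ) M] in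
theorem h_cases (h : ι → M) (h0 : ∀ k, h k ≠ 0) (f : ι → RatFunc κ)
    (hh : ∀ k, h k + (h k)⁻¹ = algebraMap (RatFunc κ) M (f k)) (τ : M ≃ₐ[RatFunc κ] M) (k : ι) :
    τ (h k) = h k ∨ τ (h k) = (h k)⁻¹ := by
  have h1 : τ (h k) + (τ (h k))⁻¹ = h k + (h k)⁻¹ := by
    rw [← map_inv₀, ← map_add, hh k, τ.commutes]
  have h2 : τ (h k) ≠ 0 := (map_ne_zero_iff _ τ.injective).2 (h0 k)
  have h3 := h0 k
  have h4 : (τ (h k) - h k) * (τ (h k) * h k - 1) = 0 := by
    field_simp at h1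
    linear_combination h1
  rcases mul_eq_zero.1 h4 with h5 | h5
  · exact Or.inl (sub_eq_zero.1 h5)
  · right
    exact eq_inv_of_mul_eq_one_left (sub_eq_zero.1 h5)

/-- the sign changes -/
theorem sign_change (h : ι → M) (h0 : ∀ k, h k ≠ 0) (c : ι → κ) (hc : AlgebraicIndependent ℚ c)
    (d : ι → ℕ) (hd : ∀ k, d k ≠ 0)
    (hh : ∀ k, h k + (h k)⁻¹ = algebraMap (RatFunc κ) M (ff (c k) (d k))) (k0 : ι) :
    ∃ σ : M ≃ₐ[RatFunc κ] M, σ (h k0) = (h k0)⁻¹ ∧ ∀ l, l ≠ k0 → σ (h l) = h l := by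
  classical
  obtain ⟨q, hq⟩ : ∃ q : ι → M, q = fun k => h k - (h k)⁻¹ := ⟨_, rfl⟩
  have hq2 : ∀ k, q k ^ 2 = algebraMap (RatFunc κ) M (ff (c k) (d k) ^ 2 - 4) := by
    intro k
    have h3 := h0 k
    rw [map_sub, map_pow, ← hh k, hq, map_ofNat]
    field_simp
    ring
  have hq0 : ∀ k, q k ≠ 0 := by
    intro k hk
    have h1 := hq2 k
    rw [hk, zero_pow two_ne_zero] at h1
    have h2 : ff (c k) (d k) ^ 2 - 4 = 0 :=
      (algebraMap (RatFunc κ) M).injective (by rw [← h1, map_zero])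
    have h3 := Pk_ff (c k) (d k)
    rw [h2, mul_zero] at h3
    exact Pk_ne (c k) (d k) (hd k) (IsFractionRing.injective κ[X] (RatFunc κ) (by rw [h3, map_zero]))
  have hτ2 : ∀ (τ : M ≃ₐ[RatFunc κ] M) (k : ι), τ (q k) ^ 2 = q k ^ 2 := by
    intro τ k
    rw [← map_pow, hq2 k, τ.commutes]
  have main := (kum (K := RatFunc κ) (⊤ : Subgroup (M ≃ₐ[RatFunc κ] M)) (fun _ : ι => 2)
    (fun _ => two_ne_zero) q hq0 (fun k ζ hζ τ _ => root_fix ζ 2 two_ne_zero hζ τ)
    (fun k τ _ => hτ2 τ k) ?_).1 (fun k => if k = k0 then -1 else 1) ?_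
  · obtain ⟨σ, -, hσ⟩ := main
    have hsig : ∀ k, σ (q k) = σ (h k) - (σ (h k))⁻¹ := by
      intro k
      rw [hq]
      simp only [map_sub, map_inv₀]
    have h20 : (2 : M) ≠ 0 := by norm_num
    refine ⟨σ, ?_, fun l hl => ?_⟩
    · rcases h_cases h h0 _ hh σ k0 with h1 | h1
      · exfalso
        have h2 := hσ k0
        rw [if_pos rfl, hsig, h1] at h2
        have h3 : 2 * q k0 = 0 := by
          have h4 : q k0 = h k0 - (h k0)⁻¹ := by rw [hq]
          linear_combination h4 + h2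
        exact hq0 k0 ((mul_eq_zero.1 h3).resolve_left h20)
      · exact h1
    · rcases h_cases h h0 _ hh σ l with h1 | h1
      · exact h1
      · exfalso
        have h2 := hσ l
        rw [if_neg hl, hsig, h1, inv_inv] at h2
        have h3 : 2 * q l = 0 := by
          have h4 : q l = h l - (h l)⁻¹ := by rw [hq]
          linear_combination h4 - h2
        exact hq0 l ((mul_eq_zero.1 h3).resolve_left h20)
  · -- independence
    intro a ha
    by_contra hcon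
    push Not at hcon
    obtain ⟨A, hA⟩ : ∃ A : Finset ι, A = Finset.univ.filter fun k => ¬ ((2 : ℕ) : ℤ) ∣ a k := ⟨_, rfl⟩
    have hAne : A.Nonempty := by
      obtain ⟨k, hk⟩ := hcon
      exact ⟨k, by rw [hA]; simpa using hk⟩
    -- the product over `A` is fixed
    have hfix : ∀ τ : M ≃ₐ[RatFunc κ] M, τ (∏ k ∈ A, q k) = ∏ k ∈ A, q k := by
      intro τ
      have h1 := ha τ (Subgroup.mem_top τ)
      have h2 : ∀ k, ∃ e : M, τ e = e ∧ e ≠ 0 ∧ q k ^ a k = e * (if k ∈ A then q k else 1) := by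
        intro k
        have hev : ∀ b : ℤ, τ (q k ^ (2 * b)) = q k ^ (2 * b) := by
          intro b
          rw [map_zpow₀, zpow_mul, zpow_mul]
          congr 1
          exact_mod_cast hτ2 τ k
        by_cases hk : k ∈ A
        · have hodd : ¬ ((2 : ℕ) : ℤ) ∣ a k := by
            rw [hA] at hk
            simpa using hk
          have hodd2 : Odd (a k) := by
            rw [← Int.not_even_iff_odd, even_iff_two_dvd]
            exact_mod_cast hodd
          obtain ⟨b, hb⟩ := hodd2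
          refine ⟨q k ^ (2 * b), hev b, zpow_ne_zero _ (hq0 k), ?_⟩
          rw [if_pos hk, hb, zpow_add₀ (hq0 k), zpow_one]
        · have hev2 : ((2 : ℕ) : ℤ) ∣ a k := by
            by_contra h3
            exact hk (by rw [hA]; simpa using h3)
          obtain ⟨b, hb⟩ := hev2
          refine ⟨q k ^ (2 * b), hev b, zpow_ne_zero _ (hq0 k), ?_⟩
          rw [if_neg hk, mul_one, hb]
          rfl
      choose e he1 he2 he3 using h2
      have h3 : ∏ k, q k ^ a k = (∏ k, e k) * ∏ k ∈ A, q k := by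
        rw [Finset.prod_congr rfl fun k _ => he3 k, Finset.prod_mul_distrib, Finset.prod_ite_mem,
          Finset.univ_inter]
      rw [h3, map_mul, map_prod] at h1
      rw [Finset.prod_congr rfl fun k _ => he1 k] at h1
      exact mul_left_cancel₀ (Finset.prod_ne_zero_iff.2 fun k _ => he2 k) h1
    obtain ⟨z, hz⟩ := (InfiniteGalois.mem_range_algebraMap_iff_fixed (k := RatFunc κ) (K := M)
      (∏ k ∈ A, q k)).2 hfix
    refine sq_false c hc d hd A hAne z ?_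
    apply (algebraMap (RatFunc κ) M).injective
    rw [map_pow, hz, map_prod, ← Finset.prod_pow]
    exact Finset.prod_congr rfl fun k _ => hq2 k
  · intro k
    split_ifs <;> norm_num

/-- the `h k` are independent modulo `p`-th powers -/
theorem pindep {p : ℕ} (hp : p.Prime) (hp2 : p ≠ 2) (h : ι → M) (h0 : ∀ k, h k ≠ 0) (c : ι → κ)
    (hc : AlgebraicIndependent ℚ c) (d : ι → ℕ) (hd : ∀ k, d k ≠ 0)
    (hh : ∀ k, h k + (h k)⁻¹ = algebraMap (RatFunc κ) M (ff (c k) (d k)))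
    (e : ι → ℤ) (g : M) (hg : g ^ p = ∏ k, h k ^ e k)
    (hgF : ∀ τ : M ≃ₐ[RatFunc κ] M, (∀ k, τ (h k) = h k) → τ g = g) (k0 : ι) : (p : ℤ) ∣ e k0 := by
  classical
  by_contra hcon
  obtain ⟨m, hm⟩ := hp.odd_of_ne_two hp2
  obtain ⟨σ, hσ0, hσ⟩ := sign_change h h0 c hc d hd hh k0
  have hg0 : g ≠ 0 := by
    rintro rfl
    rw [zero_pow hp.ne_zero] at hg
    exact Finset.prod_ne_zero_iff.2 (fun k _ => zpow_ne_zero _ (h0 k)) hg.symm
  have hσg0 : σ g ≠ 0 := (map_ne_zero_iff _ σ.injective).2 hg0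
  -- the quotient
  have h1 : (g / σ g) ^ p = h k0 ^ (2 * e k0) := by
    rw [div_pow, ← map_pow, hg, map_prod, ← Finset.prod_div_distrib]
    rw [Finset.prod_eq_single k0]
    · rw [map_zpow₀, hσ0, inv_zpow, div_inv_eq_mul, ← zpow_add₀ (h0 k0)]
      congr 1
      ring
    · intro l _ hl
      rw [map_zpow₀, hσ l hl, div_self (zpow_ne_zero _ (h0 l))]
    · intro hk
      exact absurd (Finset.mem_univ k0) hk
  have hfixσ : ∀ τ : M ≃ₐ[RatFunc κ] M, (∀ k, τ (h k) = h k) → τ (σ g) = σ g := by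
    intro τ hτ
    have h2 : (σ⁻¹ * τ * σ) g = g := by
      apply hgF
      intro k
      change σ.symm (τ (σ (h k))) = h k
      have h3 : τ (σ (h k)) = σ (h k) := by
        rcases h_cases h h0 _ hh σ k with h4 | h4
        · rw [h4, hτ k]
        · rw [h4, map_inv₀, hτ k]
      rw [h3, AlgEquiv.symm_apply_apply]
    have h3 : σ.symm (τ (σ g)) = g := h2
    have h4 := congrArg σ h3
    rwa [AlgEquiv.apply_symm_apply] at h4
  -- a `p`-th root of `h`
  obtain ⟨g2, hg2, hg2F⟩ : ∃ g2 : M, g2 ^ p = h k0 ∧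
      ∀ τ : M ≃ₐ[RatFunc κ] M, (∀ k, τ (h k) = h k) → τ g2 = g2 := by
    have hcop : IsCoprime (2 * e k0) (p : ℤ) := by
      have h2 : IsCoprime (p : ℤ) (2 * e k0) := by
        rw [(Nat.prime_iff_prime_int.1 hp).coprime_iff_not_dvd]
        intro h3
        rcases (Nat.prime_iff_prime_int.1 hp).dvd_or_dvd h3 with h4 | h4
        · have h5 : p ∣ 2 := by exact_mod_cast h4
          exact hp2 ((Nat.prime_dvd_prime_iff_eq hp Nat.prime_two).1 h5)
        · exact hcon h4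
      exact h2.symm
    obtain ⟨a, b, hab⟩ := hcop
    refine ⟨(g / σ g) ^ a * h k0 ^ b, ?_, ?_⟩
    · have h2 : ((g / σ g) ^ a) ^ p = h k0 ^ (2 * e k0 * a) := by
        rw [← zpow_natCast, ← zpow_mul, mul_comm a, zpow_mul, zpow_natCast, h1, ← zpow_mul]
      rw [mul_pow, h2, ← zpow_natCast (h k0 ^ b), ← zpow_mul, ← zpow_add₀ (h0 k0)]
      have h3 : 2 * e k0 * a + b * (p : ℤ) = 1 := by linear_combination hab
      rw [h3, zpow_one]
    · intro τ hτ
      rw [map_mul, map_zpow₀, map_zpow₀, map_div₀, hfixσ τ hτ, hgF τ hτ, hτ k0]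
  have hg20 : g2 ≠ 0 := by
    rintro rfl
    rw [zero_pow hp.ne_zero] at hg2
    exact h0 k0 hg2.symm
  have hsq : ∀ τ : M ≃ₐ[RatFunc κ] M, τ (τ g2) = g2 := by
    intro τ
    have h2 : (τ * τ) g2 = g2 := by
      apply hg2F
      intro k
      change τ (τ (h k)) = h k
      rcases h_cases h h0 _ hh τ k with h4 | h4
      · rw [h4, h4]
      · rw [h4, map_inv₀, h4, inv_inv]
    exact h2
  -- elements which fix `h` fix `g2`
  have hD1 : ∀ τ : M ≃ₐ[RatFunc κ] M, τ (h k0) = h k0 → τ g2 = g2 := by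
    intro τ hτ
    obtain ⟨z, hz⟩ : ∃ z, z = τ g2 / g2 := ⟨_, rfl⟩
    have hzp : z ^ p = 1 := by
      rw [hz, div_pow, ← map_pow, hg2, hτ, div_self (h0 k0)]
    have hz1 : τ g2 = z * g2 := by rw [hz, div_mul_cancel₀ _ hg20]
    have hz2 : τ z = z := root_fix z p hp.ne_zero hzp τ
    have hz3 : z ^ 2 = 1 := by
      have h2 := hsq τ
      rw [hz1, map_mul, hz2, hz1] at h2
      have h3 : z ^ 2 * g2 = 1 * g2 := by linear_combination h2
      exact mul_right_cancel₀ hg20 h3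
    have hz4 : z = 1 := by
      rw [hm, pow_succ, pow_mul, hz3, one_pow, one_mul] at hzp
      exact hzp
    rw [hz1, hz4, one_mul]
  -- normalization
  obtain ⟨z0, hz0⟩ : ∃ z0, z0 = σ g2 * g2 := ⟨_, rfl⟩
  have hz0p : z0 ^ p = 1 := by
    rw [hz0, mul_pow, ← map_pow, hg2, hσ0, inv_mul_cancel₀ (h0 k0)]
  have hz00 : z0 ≠ 0 := by
    rintro h2
    rw [h2, zero_pow hp.ne_zero] at hz0p
    exact zero_ne_one hz0p
  obtain ⟨ξ, hξ⟩ : ∃ ξ, ξ = z0 ^ (m + 1) := ⟨_, rfl⟩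
  have hξ2 : ξ * ξ = z0 := by
    rw [hξ, ← pow_add, show m + 1 + (m + 1) = (2 * m + 1) + 1 by ring, ← hm, pow_succ, hz0p, one_mul]
  have hξp : ξ ^ p = 1 := by rw [hξ, ← pow_mul, mul_comm, pow_mul, hz0p, one_pow]
  have hξ0 : ξ ≠ 0 := by rw [hξ]; exact pow_ne_zero _ hz00
  obtain ⟨g3, hg3⟩ : ∃ g3, g3 = g2 / ξ := ⟨_, rfl⟩
  have hg3p : g3 ^ p = h k0 := by rw [hg3, div_pow, hξp, div_one, hg2]
  have hg30 : g3 ≠ 0 := by rw [hg3]; exact div_ne_zero hg20 hξ0
  have hξfix : ∀ τ : M ≃ₐ[RatFunc κ] M, τ ξ = ξ := root_fix ξ p hp.ne_zero hξp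
  have hσ3 : σ g3 = g3⁻¹ := by
    apply eq_inv_of_mul_eq_one_left
    rw [hg3, map_div₀, hξfix σ, div_mul_div_comm, ← hz0, hξ2, div_self hz00]
  have hE1 : ∀ τ : M ≃ₐ[RatFunc κ] M, τ (h k0) = h k0 → τ g3 = g3 := by
    intro τ hτ
    rw [hg3, map_div₀, hD1 τ hτ, hξfix τ]
  have hE2 : ∀ τ : M ≃ₐ[RatFunc κ] M, τ (g3 + g3⁻¹) = g3 + g3⁻¹ := by
    intro τ
    rcases h_cases h h0 _ hh τ k0 with h2 | h2
    · rw [map_add, map_inv₀, hE1 τ h2]
    · have h3 : (σ⁻¹ * τ) g3 = g3 := by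
        apply hE1
        change σ.symm (τ (h k0)) = h k0
        rw [h2, ← hσ0, AlgEquiv.symm_apply_apply]
      have h4 : τ g3 = g3⁻¹ := by
        have h5 : σ.symm (τ g3) = g3 := h3
        rw [← hσ3]
        conv_rhs => rw [← h5]
        rw [AlgEquiv.apply_symm_apply]
      rw [map_add, map_inv₀, h4, inv_inv, add_comm]
  obtain ⟨G, hG⟩ := (InfiniteGalois.mem_range_algebraMap_iff_fixed (k := RatFunc κ) (K := M)
    (g3 + g3⁻¹)).2 hE2
  obtain ⟨α, Q, hα, hQ⟩ := exists_alpha (κ := κ) hp hp2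
  refine no_dickson (c k0) (d k0) (hd k0) (sep_all c hc k0 _ (hd k0)) G α hα ((X ^ 2 - 4) * Q ^ 2) ?_
  apply (algebraMap (RatFunc κ) M).injective
  let _ : Algebra κ M := ((algebraMap (RatFunc κ) M).comp (algebraMap κ (RatFunc κ))).toAlgebra
  have : IsScalarTower κ (RatFunc κ) M := IsScalarTower.of_algebraMap_eq fun _ => rfl
  have h2 := Un_eval (κ := κ) g3 hg30 p
  rw [hg3p, ← hG, hQ] at h2
  have h3 : ∀ Z : κ[X], algebraMap (RatFunc κ) M (aeval G Z) = aeval (algebraMap (RatFunc κ) M G) Z := by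
    intro Z
    exact (aeval_algebraMap_apply M G Z).symm
  rw [← h3] at h2
  have h4 : algebraMap (RatFunc κ) M (ff (c k0) (d k0) ^ 2 - 4) = (h k0 - (h k0)⁻¹) ^ 2 := by
    have := h0 k0
    rw [map_sub, map_pow, ← hh k0, map_ofNat]
    field_simp
    ring
  have h5 : algebraMap (RatFunc κ) M (G ^ 2 - 4) = (g3 - g3⁻¹) ^ 2 := by
    rw [map_sub, map_pow, hG, map_ofNat]
    field_simp
    ring
  have hCa : aeval G (C α) = RatFunc.C α := by
    rw [aeval_C]
    rfl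
  rw [h4, ← h2, mul_pow, ← h5]
  simp only [map_mul, map_pow, map_sub, map_add, aeval_X, hCa, map_ofNat]
  ring

end main

end Pool.Agent.H861.CD.T1aux

namespace Pool.Agent.H861.CD

open T1aux

theorem kummer_indep {κ : Type*} [Field κ] [IsAlgClosed κ] [CharZero κ] {p : ℕ} (hp : p.Prime) (hp2 : p ≠ 2)
    {ι : Type*} [Fintype ι] (s : ι → ℕ) (c : ι → κ) (hc : AlgebraicIndependent ℚ c)
    {N : Type*} [Field N] [Algebra (RatFunc κ) N] [FiniteDimensional (RatFunc κ) N]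
    (h R : ι → N) (h0 : ∀ k, h k ≠ 0)
    (hh : ∀ k, h k + (h k)⁻¹ = algebraMap (RatFunc κ) N
      (RatFunc.X ^ (p ^ s k) + (RatFunc.X ^ (p ^ s k))⁻¹ + RatFunc.C (c k)))
    (hR : ∀ k, R k ^ (p ^ s k) = h k) :
    p ^ (∑ k, s k) ∣ finrank (RatFunc κ) N := by
  classical
  have : CharZero (RatFunc κ) := charZero_of_injective_algebraMap (algebraMap κ (RatFunc κ)).injective
  have : CharZero (AlgebraicClosure (RatFunc κ)) :=
    charZero_of_injective_algebraMap (algebraMap (RatFunc κ) (AlgebraicClosure (RatFunc κ))).injective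
  obtain ⟨φ, -⟩ : ∃ φ : N →ₐ[RatFunc κ] AlgebraicClosure (RatFunc κ), True := ⟨IsAlgClosed.lift, trivial⟩
  have hgal : IsGalois (RatFunc κ) (AlgebraicClosure (RatFunc κ)) := inferInstance
  obtain ⟨h', hh'⟩ : ∃ h' : ι → AlgebraicClosure (RatFunc κ), h' = fun k => φ (h k) := ⟨_, rfl⟩
  obtain ⟨R', hR'⟩ : ∃ R' : ι → AlgebraicClosure (RatFunc κ), R' = fun k => φ (R k) := ⟨_, rfl⟩
  have h0' : ∀ k, h' k ≠ 0 := by
    intro k
    rw [hh']
    exact (map_ne_zero_iff _ φ.injective).2 (h0 k)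
  have hd : ∀ k, p ^ s k ≠ 0 := fun k => pow_ne_zero _ hp.ne_zero
  have hf' : ∀ k, h' k + (h' k)⁻¹ =
      algebraMap (RatFunc κ) (AlgebraicClosure (RatFunc κ)) (ff (c k) (p ^ s k)) := by
    intro k
    rw [hh']
    simp only
    rw [← map_inv₀, ← map_add, hh k, φ.commutes]
    rfl
  have hRh : ∀ k, R' k ^ (p ^ s k) = h' k := by
    intro k
    rw [hR', hh']
    simp only
    rw [← map_pow, hR k]
  have hR0 : ∀ k, R' k ≠ 0 := by
    intro k hk
    have := hRh k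
    rw [hk, zero_pow (hd k)] at this
    exact h0' k this.symm
  -- the subgroup which fixes the `h k`
  obtain ⟨Γ, hΓ⟩ : ∃ Γ : Subgroup (AlgebraicClosure (RatFunc κ) ≃ₐ[RatFunc κ] AlgebraicClosure (RatFunc κ)),
      ∀ τ, τ ∈ Γ ↔ ∀ k, τ (h' k) = h' k := by
    refine ⟨⨅ k, MulAction.stabilizer _ (h' k), fun τ => ?_⟩
    simp only [Subgroup.mem_iInf, MulAction.mem_stabilizer_iff]
    rfl
  have key := (kum (K := RatFunc κ) Γ (fun k => p ^ s k) hd R' hR0
    (fun k ζ hζ τ _ => root_fix ζ _ (hd k) hζ τ)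
    (fun k τ hτ => by rw [← map_pow, hRh k, (hΓ τ).1 hτ k]) ?_).2
    φ.fieldRange.fixingSubgroup ?_ ?_
  · have h1 : φ.fieldRange.fixingSubgroup ≤ Γ := by
      intro τ hτ
      rw [hΓ]
      intro k
      rw [hh']
      exact hτ ⟨φ (h k), ⟨h k, rfl⟩⟩
    have h2 := key.trans (Subgroup.relIndex_dvd_index_of_le h1)
    rw [← IntermediateField.finrank_eq_fixingSubgroup_index] at h2
    rw [Finset.prod_pow_eq_pow_sum] at h2
    have h3 : finrank (RatFunc κ) φ.fieldRange = finrank (RatFunc κ) N :=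
      (AlgEquiv.ofInjectiveField φ).toLinearEquiv.finrank_eq.symm
    rwa [h3] at h2
  · -- independence
    intro a ha
    -- the least `m`
    have hex : ∃ m : ℕ, ∀ k, ((p ^ s k : ℕ) : ℤ) ∣ (p : ℤ) ^ m * a k := by
      refine ⟨∑ k, s k, fun k => Dvd.dvd.mul_right ?_ _⟩
      rw [Nat.cast_pow]
      exact pow_dvd_pow _ (Finset.single_le_sum (fun _ _ => Nat.zero_le _) (Finset.mem_univ k))
    obtain ⟨m, hm, hmin⟩ : ∃ m : ℕ, (∀ k, ((p ^ s k : ℕ) : ℤ) ∣ (p : ℤ) ^ m * a k) ∧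
        ∀ m' < m, ¬ ∀ k, ((p ^ s k : ℕ) : ℤ) ∣ (p : ℤ) ^ m' * a k :=
      ⟨Nat.find hex, Nat.find_spec hex, fun m' hm' => Nat.find_min hex hm'⟩
    rcases Nat.eq_zero_or_pos m with hm0 | hm0
    · intro k
      have := hm k
      rw [hm0, pow_zero, one_mul] at this
      exact this
    · exfalso
      obtain ⟨m', rfl⟩ : ∃ m', m = m' + 1 := ⟨m - 1, by omega⟩
      choose e he using hm
      apply hmin m' (Nat.lt_succ_self _)
      have h1 := pindep hp hp2 h' h0' c hc _ hd hf' e ((∏ k, R' k ^ a k) ^ (p ^ m')) ?_ ?_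
      · intro k
        obtain ⟨b, hb⟩ := h1 k
        refine ⟨b, ?_⟩
        have h2 := he k
        rw [hb, pow_succ] at h2
        have h3 : (p : ℤ) ≠ 0 := by exact_mod_cast hp.ne_zero
        apply mul_left_cancel₀ h3
        linear_combination h2
      · rw [← pow_mul, ← pow_succ, ← Finset.prod_pow]
        refine Finset.prod_congr rfl fun k _ => ?_
        rw [← hRh k, ← zpow_natCast, ← zpow_natCast, ← zpow_mul, ← zpow_mul, ← he k]
        congr 1
        push_cast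
        ring
      · intro τ hτ
        rw [map_pow, ha τ ((hΓ τ).2 hτ)]
  · intro τ hτ
    rw [hΓ]
    intro k
    rw [hh']
    exact hτ ⟨φ (h k), ⟨h k, rfl⟩⟩
  · intro τ hτ k
    rw [hR']
    exact hτ ⟨φ (R k), ⟨R k, rfl⟩⟩

end Pool.Agent.H861.CD
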