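import Mathlib

/-!
Project CD (helper861), MP_8dbee4_ag, part T1b: `kummer_indep_two` below (the case `p = 2` of `kummer_indep`; self-contained; only Mathlib).

Notation: `K1 = RatFunc κ = κ(w)`, `w = X`, `δ_k = 2^(s k)`, `f_k = w^δ_k + w^(-δ_k) + c_k`, so `h_k + 1/h_k = f_k` in `N`. We may drop the `k` with `s k = 0`, so all `s k ≥ 1`, all `δ_k` are even.

**Step 1.** `g_k := R_k^(δ_k/2)`, `g_k^2 = h_k`, `A_k := g_k + 1/g_k`, `B_k := g_k - 1/g_k`. `A_k^2 = f_k + 2`, `B_k^2 = f_k - 2`, `A_k B_k = h_k - 1/h_k`, `g_k = (A_k + B_k)/2`. `f_k ± 2 = w^(-δ_k) M_k^±` with `M_k^± = w^(2δ_k) + (c_k ± 2) w^δ_k + 1`. The polynomials `M_k^+, M_k^-`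
(all `k`) are squarefree and pairwise without common zeros: at a zero `w0` of `M_k^±` one has `w0^δ_k + w0^(-δ_k) = -c_k ∓ 2`; `y^2 + (c_k±2) y + 1` has two different nonzero roots (`c_k ∉ {0, 4, -4}`; `c_k` is transcendental over `ℚ`) and `w^δ_k - root` is separable; a common zero of `M_k^±` and `M_l^±`, `k ≠ l`, would make
`c_k` and `c_l` both elements of `ℚ(w0)`, with `w0` algebraic over `ℚ(c_k)`, contradicting the algebraic independence. Hence no product of a nonempty subset of the `2r` elements `f_k + 2, f_k - 2` (all `k`) is a square in `K1` (`w^δ_k` is a square; look at the multiplicity of a zero). By the elementary theory of multiquadratic extensions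
the products `∏_{k∈S} A_k ∏_{k∈T} B_k` (`S, T ⊆ ι`) are linearly independent over `K1`; equivalently for every choice of signs there is an automorphism of `F0 := K1(A_k, B_k : k)` over `K1` changing the signs of the `A_k, B_k` accordingly.

**Step 2.** `F := K1(h_k : k) = K1(A_k B_k : k) ⊆ F0` (`h_k = (f_k + A_k B_k)/2`). No product `∏_{k∈A} h_k`, `A ≠ ∅`, is a square in `F`: otherwise `∏_{k∈A} g_k ∈ F` (it is ± the square root), but the automorphism changing the signs of `A_{k0}, B_{k0}` only (`k0 ∈ A`) fixes `F` and changes the sign of `∏_A g_k = ∏_A (A_k + B_k)/2`.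

**Step 3 (Kummer tower).** Lemma: let `F` be a field of characteristic 0 with all roots of unity of 2-power order, `N/F` an extension, `R_k^(2^s_k) = h_k ∈ F`, `s_k ≥ 1`, such that no product `∏_{k∈A} h_k`, `A ≠ ∅`, is a square in `F`. Then `2^(Σ s_k) ∣ [F(R_k : k) : F]`. Induction: let `d ≥ 1` be minimal with `R_1^d ∈ F`;
`d ∣ 2^s_1`, and `T^d - R_1^d` is the minimal polynomial (the constant coefficient of the minimal polynomial of degree `m` is `± ζ R_1^m`, `ζ` a root of unity in `F`, so `R_1^m ∈ F`, `m ≥ d`). If `d = 2^i`, `i < s_1`, then `h_1 = (R_1^d)^(2^(s_1-i))` is a square, contradiction. So `F' = F(R_1)` has degree `2^s_1`, and it is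
Galois over `F` with cyclic group generated by `σ`, `σ R_1 = ζ R_1`, `ζ` a primitive `2^s_1`-th root of unity. If `x^2 = η := ∏_{k∈A} h_k` (`1 ∉ A`), `x ∈ F'`, then `σ x / x = ±1 = ζ^(a 2^(s_1-1))`, `a ∈ {0,1}`, and `y := x / R_1^(a 2^(s_1-1))` is fixed by `σ`, so in `F`, and `η = y^2 h_1^a`: if `a = 0` then
`η` is a square in `F`, if `a = 1` then `η h_1 = (y h_1)^2` is; so `A = ∅`. So the hypothesis holds for `F'` and the remaining `k`.
-/

set_option autoImplicit false

open Module

namespace Pool.Agent.H861.CD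

namespace T1baux

open Polynomial

section quad

variable {K N : Type*} [Field K] [Field N] [Algebra K N]

/-- adjoining an element to an intermediate field -/
noncomputable def adj (F : IntermediateField K N) (g : N) : IntermediateField K N :=
  (IntermediateField.adjoin F {g}).restrictScalars K

theorem le_adj (F : IntermediateField K N) (g : N) : F ≤ adj F g := by
  intro x hx
  exact IntermediateField.algebraMap_mem (IntermediateField.adjoin F {g}) (⟨x, hx⟩ : F)

theorem mem_adj (F : IntermediateField K N) (g : N) : g ∈ adj F g :=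
  IntermediateField.mem_adjoin_simple_self F g

theorem integral_sqrt (F : IntermediateField K N) (g : N) (hg : g ^ 2 ∈ F) : IsIntegral F g := by
  refine ⟨X ^ 2 - C (⟨g ^ 2, hg⟩ : F), monic_X_pow_sub_C _ two_ne_zero, ?_⟩
  simp

theorem adj_repr (F : IntermediateField K N) (g : N) (hg : g ^ 2 ∈ F) (x : N) (hx : x ∈ adj F g) :
    ∃ u ∈ F, ∃ v ∈ F, x = u + v * g := by
  have hint := integral_sqrt F g hg
  have h1 : x ∈ (IntermediateField.adjoin F {g}).toSubalgebra := hx
  rw [IntermediateField.adjoin_simple_toSubalgebra_of_isAlgebraic hint.isAlgebraic,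
    Algebra.adjoin_singleton_eq_range_aeval] at h1
  obtain ⟨p, hp⟩ := h1
  set q : F[X] := X ^ 2 - C (⟨g ^ 2, hg⟩ : F) with hq
  have hqm : q.Monic := monic_X_pow_sub_C _ two_ne_zero
  have hq0 : aeval g q = 0 := by
    rw [hq]; simp
  have h2 : aeval g (p %ₘ q) = x := by
    rw [aeval_modByMonic_eq_self_of_root hq0]; exact hp
  have h3 : (p %ₘ q).degree < 2 := by
    have := degree_modByMonic_lt p hqm
    rwa [hq, degree_X_pow_sub_C (by norm_num)] at this
  have h4 : p %ₘ q = C ((p %ₘ q).coeff 1) * X + C ((p %ₘ q).coeff 0) := by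
    apply eq_X_add_C_of_degree_le_one
    exact Order.le_of_lt_succ h3
  rw [h4] at h2
  refine ⟨((p %ₘ q).coeff 0 : F), SetLike.coe_mem _, ((p %ₘ q).coeff 1 : F), SetLike.coe_mem _, ?_⟩
  rw [← h2]
  simp [add_comm]

theorem finrank_adj (F : IntermediateField K N) (g : N) (hg : g ^ 2 ∈ F) (hgF : g ∉ F) :
    finrank F N = 2 * finrank (adj F g) N := by
  have hint := integral_sqrt F g hg
  have h1 := Module.finrank_mul_finrank F (IntermediateField.adjoin F {g}) N
  rw [IntermediateField.adjoin.finrank hint] at h1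
  have h2 : (minpoly F g).natDegree = 2 := by
    have h3 : minpoly F g ∣ X ^ 2 - C (⟨g ^ 2, hg⟩ : F) := by
      apply minpoly.dvd
      simp
    have h4 := natDegree_le_of_dvd h3 (monic_X_pow_sub_C _ two_ne_zero).ne_zero
    rw [natDegree_X_pow_sub_C] at h4
    have h5 := minpoly.natDegree_pos hint
    have h6 : (minpoly F g).natDegree ≠ 1 := by
      intro h7
      rw [minpoly.natDegree_eq_one_iff] at h7
      obtain ⟨y, hy⟩ := h7
      apply hgF
      rw [← hy]
      exact y.2
    omega
  rw [h2] at h1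
  rw [← h1]
  rfl

/-- independence modulo squares -/
def Ind (F : IntermediateField K N) {J : Type*} (I : Finset J) (a : J → N) : Prop :=
  ∀ A ⊆ I, A.Nonempty → ∀ x ∈ F, x ^ 2 ≠ ∏ k ∈ A, a k

theorem two_cases (F : IntermediateField K N) (g : N) (hg : g ^ 2 ∈ F)
    (hgF : g ∉ F) (u v : N) (hu : u ∈ F) (hv : v ∈ F) (b c : N) (hb : b ∈ F) (hc : c ∈ F)
    (h : (u + v * g) ^ 2 = b + c * g) : 2 * u * v = c ∧ u ^ 2 + v ^ 2 * g ^ 2 = b := by
  have h3 : (2 * u * v - c) * g = b - (u ^ 2 + v ^ 2 * g ^ 2) := by linear_combination h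
  have h2F : (2 : N) ∈ F := by
    have : (2 : N) = algebraMap K N 2 := (map_ofNat (algebraMap K N) 2).symm
    rw [this]; exact F.algebraMap_mem 2
  by_cases h4 : 2 * u * v - c = 0
  · rw [h4, zero_mul] at h3
    exact ⟨sub_eq_zero.mp h4, (sub_eq_zero.mp h3.symm).symm⟩
  · exfalso
    apply hgF
    have h5 : g = (b - (u ^ 2 + v ^ 2 * g ^ 2)) / (2 * u * v - c) := by
      rw [← h3]; field_simp
    rw [h5]
    exact div_mem (sub_mem hb (add_mem (pow_mem hu 2) (mul_mem (pow_mem hv 2) hg)))
      (sub_mem (mul_mem (mul_mem h2F hu) hv) hc)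

theorem square_descend (h2 : (2 : N) ≠ 0) (F : IntermediateField K N) (g : N) (hg : g ^ 2 ∈ F)
    (hgF : g ∉ F) (η : N) (hη : η ∈ F) (x : N) (hx : x ∈ adj F g) (hxη : x ^ 2 = η) :
    (∃ y ∈ F, y ^ 2 = η) ∨ ∃ y ∈ F, y ^ 2 = g ^ 2 * η := by
  obtain ⟨u, hu, v, hv, rfl⟩ := adj_repr F g hg x hx
  obtain ⟨h3, h4⟩ := two_cases F g hg hgF u v hu hv η 0 hη F.zero_mem (by rw [hxη]; ring)
  have h5 : u = 0 ∨ v = 0 := by
    rcases mul_eq_zero.mp h3 with h6 | h6
    · rcases mul_eq_zero.mp h6 with h7 | h7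
      · exact absurd h7 h2
      · exact Or.inl h7
    · exact Or.inr h6
  rcases h5 with h5 | h5
  · right
    refine ⟨v * g ^ 2, mul_mem hv hg, ?_⟩
    rw [h5] at h4
    linear_combination (g ^ 2) * h4
  · left
    refine ⟨u, hu, ?_⟩
    rw [h5] at h4
    linear_combination h4

theorem ind_adj {J : Type*} [DecidableEq J] (h2 : (2 : N) ≠ 0) (F : IntermediateField K N)
    (I : Finset J) (a : J → N) (j : J) (hj : j ∉ I) (haF : ∀ k ∈ insert j I, a k ∈ F)
    (hI : Ind F (insert j I) a) (g : N) (hg : g ^ 2 = a j) : Ind (adj F g) I a := by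
  intro A hA hAne x hx hxA
  have hgF2 : g ^ 2 ∈ F := by rw [hg]; exact haF j (Finset.mem_insert_self _ _)
  have hgF : g ∉ F := by
    intro h
    refine hI {j} (by simp) (Finset.singleton_nonempty j) g h ?_
    rw [Finset.prod_singleton, hg]
  have hprod : ∏ k ∈ A, a k ∈ F :=
    prod_mem (fun k hk => haF k (Finset.mem_insert_of_mem (hA hk)))
  rcases square_descend h2 F g hgF2 hgF _ hprod x hx hxA with ⟨y, hy, hyA⟩ | ⟨y, hy, hyA⟩
  · exact hI A (hA.trans (Finset.subset_insert _ _)) hAne y hy hyA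
  · have hjA : j ∉ A := fun h => hj (hA h)
    refine hI (insert j A) (Finset.insert_subset_insert _ hA) (Finset.insert_nonempty _ _) y hy ?_
    rw [Finset.prod_insert hjA, hyA, hg]

theorem ind_step {J : Type*} [DecidableEq J] (h2 : (2 : N) ≠ 0) (F : IntermediateField K N)
    (im : N) (him : im ∈ F) (him2 : im ^ 2 = -1)
    (I : Finset J) (h : J → N) (j : J) (hj : j ∈ I) (haF : ∀ k ∈ I, h k ∈ F)
    (hI : Ind F I h) (g : N) (hg : g ^ 2 = h j) :
    g ∉ F ∧ Ind (adj F g) I (Function.update h j g) := by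
  have hgF2 : g ^ 2 ∈ F := by rw [hg]; exact haF j hj
  have hgF : g ∉ F := by
    intro h'
    refine hI {j} (by simpa using hj) (Finset.singleton_nonempty j) g h' ?_
    rw [Finset.prod_singleton, hg]
  refine ⟨hgF, ?_⟩
  intro A hA hAne x hx hxA
  by_cases hjA : j ∈ A
  · rw [← Finset.mul_prod_erase _ _ hjA, Function.update_self] at hxA
    have h3 : ∏ k ∈ A.erase j, Function.update h j g k = ∏ k ∈ A.erase j, h k := by
      apply Finset.prod_congr rfl
      intro k hk
      rw [Function.update_of_ne (Finset.ne_of_mem_erase hk)]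
    rw [h3] at hxA
    set η := ∏ k ∈ A.erase j, h k with hη
    have hηF : η ∈ F := prod_mem (fun k hk => haF k (hA (Finset.mem_of_mem_erase hk)))
    have hη0 : η ≠ 0 := by
      rw [hη, Finset.prod_ne_zero_iff]
      intro k hk hk0
      refine hI {k} (by simpa using hA (Finset.mem_of_mem_erase hk))
        (Finset.singleton_nonempty k) 0 F.zero_mem ?_
      rw [Finset.prod_singleton, hk0]
      simp
    obtain ⟨u, hu, v, hv, rfl⟩ := adj_repr F g hgF2 x hx
    obtain ⟨h4, h5⟩ := two_cases F g hgF2 hgF u v hu hv 0 η F.zero_mem hηF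
      (by rw [hxA]; ring)
    have hv0 : v ≠ 0 := by
      rintro rfl
      apply hη0
      rw [← h4]; ring
    refine hI {j} (by simpa using hj) (Finset.singleton_nonempty j) (im * (u / v))
      (mul_mem him (div_mem hu hv)) ?_
    rw [Finset.prod_singleton, ← hg, mul_pow, him2, div_pow]
    field_simp
    linear_combination -h5
  · have h3 : ∏ k ∈ A, Function.update h j g k = ∏ k ∈ A, h k := by
      apply Finset.prod_congr rfl
      intro k hk
      rw [Function.update_of_ne (by rintro rfl; exact hjA hk)]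
    rw [h3] at hxA
    have hprod : ∏ k ∈ A, h k ∈ F := prod_mem (fun k hk => haF k (hA hk))
    rcases square_descend h2 F g hgF2 hgF _ hprod x hx hxA with ⟨y, hy, hyA⟩ | ⟨y, hy, hyA⟩
    · exact hI A hA hAne y hy hyA
    · refine hI (insert j A) (Finset.insert_subset hj hA) (Finset.insert_nonempty _ _) y hy ?_
      rw [Finset.prod_insert hjA, hyA, hg]

theorem tower {J : Type*} [DecidableEq J] (h2 : (2 : N) ≠ 0) (im : N) (him2 : im ^ 2 = -1) :
    ∀ (n : ℕ) (F : IntermediateField K N), im ∈ F → ∀ (I : Finset J) (h : J → N) (s : J → ℕ)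
      (R : J → N), (∀ k ∈ I, h k ∈ F) → Ind F I h → (∀ k ∈ I, R k ^ 2 ^ s k = h k) →
      ∑ k ∈ I, s k = n → 2 ^ n ∣ finrank F N := by
  intro n
  induction n with
  | zero => intro F _ I h s R _ _ _ _; simp
  | succ n ih =>
    intro F him I h s R hF hI hR hs
    obtain ⟨j, hj, hsj⟩ : ∃ j ∈ I, s j ≠ 0 := by
      by_contra hne
      push Not at hne
      rw [Finset.sum_eq_zero hne] at hs
      omega
    set g := R j ^ 2 ^ (s j - 1) with hg
    have hg2 : g ^ 2 = h j := by
      rw [hg, ← pow_mul, ← pow_succ, Nat.sub_add_cancel (Nat.one_le_iff_ne_zero.mpr hsj)]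
      exact hR j hj
    obtain ⟨hgF, hI'⟩ := ind_step h2 F im him him2 I h j hj hF hI g hg2
    have hd := ih (adj F g) (le_adj F g him) I (Function.update h j g)
      (Function.update s j (s j - 1)) R (by
        intro k hk
        by_cases hkj : k = j
        · subst hkj
          rw [Function.update_self]
          exact mem_adj F g
        · rw [Function.update_of_ne hkj]
          exact le_adj F g (hF k hk)) hI' (by
        intro k hk
        by_cases hkj : k = j
        · subst hkj
          rw [Function.update_self, Function.update_self]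
        · rw [Function.update_of_ne hkj, Function.update_of_ne hkj]
          exact hR k hk) (by
        rw [Finset.sum_update_of_mem hj]
        rw [← Finset.add_sum_erase _ _ hj] at hs
        rw [← Finset.sdiff_singleton_eq_erase] at hs
        omega)
    rw [finrank_adj F g (by rw [hg2]; exact hF j hj) hgF, pow_succ, mul_comm]
    exact Nat.mul_dvd_mul_left 2 hd

end quad


section poly

variable {κ : Type*} [Field κ]

/-- the polynomials `w^(2δ) + b w^δ + 1` -/
noncomputable def MM (δ : ℕ) (b : κ) : κ[X] := X ^ (2 * δ) + C b * X ^ δ + 1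

theorem eval_MM (δ : ℕ) (b w : κ) : (MM δ b).eval w = w ^ (2 * δ) + b * w ^ δ + 1 := by
  simp [MM]

theorem root_ne_zero {δ : ℕ} (hδ : 0 < δ) {b w : κ} (h : (MM δ b).eval w = 0) : w ≠ 0 := by
  rintro rfl
  rw [eval_MM, zero_pow (by omega), zero_pow (by omega)] at h
  simp at h

theorem exists_root [IsAlgClosed κ] {δ : ℕ} (hδ : 0 < δ) (b : κ) : ∃ w, (MM δ b).eval w = 0 := by
  have h : (MM δ b).degree ≠ 0 := by
    have h1 : (MM δ b).natDegree = 2 * δ := by
      unfold MM
      have h2 : (C b * X ^ δ + 1 : κ[X]).natDegree < (X ^ (2 * δ) : κ[X]).natDegree := by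
        rw [natDegree_X_pow]
        refine lt_of_le_of_lt (natDegree_add_le _ _) (max_lt ?_ ?_)
        · exact lt_of_le_of_lt (natDegree_C_mul_X_pow_le _ _) (by omega)
        · rw [natDegree_one]; omega
      rw [add_assoc, natDegree_add_eq_left_of_natDegree_lt h2, natDegree_X_pow]
    intro h3
    have h4 := natDegree_eq_zero_iff_degree_le_zero.mpr h3.le
    omega
  obtain ⟨w, hw⟩ := IsAlgClosed.exists_root _ h
  exact ⟨w, hw⟩

theorem deriv_ne_zero [CharZero κ] {δ : ℕ} (hδ : 0 < δ) {b w : κ} (hb1 : b ≠ 2) (hb2 : b ≠ -2)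
    (h : (MM δ b).eval w = 0) : (derivative (MM δ b)).eval w ≠ 0 := by
  intro hd
  have hw := root_ne_zero hδ h
  have h1 : w * (derivative (MM δ b)).eval w = δ * (2 * w ^ (2 * δ) + b * w ^ δ) := by
    have h2 : w ^ (2 * δ) = w ^ (2 * δ - 1) * w := by
      rw [← pow_succ]; congr 1; omega
    have h3 : w ^ δ = w ^ (δ - 1) * w := by
      rw [← pow_succ]; congr 1; omega
    simp only [MM, derivative_add, derivative_mul, derivative_X_pow, derivative_C, derivative_one,
      eval_add, eval_mul, eval_pow, eval_X, eval_C, zero_mul, zero_add, add_zero]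
    rw [h2, h3]
    push_cast
    ring
  rw [hd, mul_zero] at h1
  have hδ0 : (δ : κ) ≠ 0 := by exact_mod_cast hδ.ne'
  have h4 : 2 * w ^ (2 * δ) + b * w ^ δ = 0 := by
    rcases mul_eq_zero.mp h1.symm with h5 | h5
    · exact absurd h5 hδ0
    · exact h5
  rw [eval_MM] at h
  have h5 : w ^ (2 * δ) = (w ^ δ) ^ 2 := by rw [← pow_mul, mul_comm]
  rw [h5] at h4 h
  have h6 : (w ^ δ) ^ 2 = 1 := by linear_combination h4 - h
  have h7 : w ^ δ = 1 ∨ w ^ δ = -1 := by
    rcases mul_eq_zero.mp (show (w ^ δ - 1) * (w ^ δ + 1) = 0 by linear_combination h6) with h8 | h8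
    · exact Or.inl (sub_eq_zero.mp h8)
    · exact Or.inr (eq_neg_of_add_eq_zero_left h8)
  rcases h7 with h7 | h7
  · rw [h7] at h4
    exact hb2 (by linear_combination h4)
  · rw [h7] at h4
    exact hb1 (by linear_combination -h4)

theorem no_common_same {δ : ℕ} (hδ : 0 < δ) {b b' w : κ} (hbb : b ≠ b')
    (h : (MM δ b).eval w = 0) : (MM δ b').eval w ≠ 0 := by
  intro h'
  have hw := root_ne_zero hδ h
  rw [eval_MM] at h h'
  have h1 : (b - b') * w ^ δ = 0 := by linear_combination h - h'
  rcases mul_eq_zero.mp h1 with h2 | h2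
  · exact hbb (sub_eq_zero.mp h2)
  · exact pow_ne_zero _ hw h2

theorem ne_rat [CharZero κ] {ι : Type*} (c : ι → κ) (hc : AlgebraicIndependent ℚ c) (k : ι)
    (q : ℚ) : c k ≠ algebraMap ℚ κ q := by
  intro h
  have h1 : Transcendental (Algebra.adjoin ℚ (c '' ∅)) (c k) :=
    hc.transcendental_adjoin (Set.notMem_empty k)
  apply h1
  rw [h]
  exact isAlgebraic_algebraMap (R := Algebra.adjoin ℚ (c '' ∅))
    (algebraMap ℚ (Algebra.adjoin ℚ (c '' ∅)) q)

theorem no_common_diff [CharZero κ] {ι : Type*} (c : ι → κ) (hc : AlgebraicIndependent ℚ c)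
    {k l : ι} (hkl : l ≠ k) {δ δ' : ℕ} (hδ : 0 < δ) (e e' : ℤ) (w : κ)
    (h : (MM δ (c k + e)).eval w = 0) : (MM δ' (c l + e')).eval w ≠ 0 := by
  intro h'
  have hw := root_ne_zero hδ h
  set A := Algebra.adjoin ℚ (c '' {k}) with hA
  have h1 : Transcendental A (c l) := hc.transcendental_adjoin (by simpa using hkl)
  apply h1
  have hck : c k ∈ A := Algebra.subset_adjoin (by simp)
  have hwalg : IsAlgebraic A w := by
    refine ⟨X ^ (2 * δ) + C (⟨c k, hck⟩ + (e : A)) * X ^ δ + 1, ?_, ?_⟩
    · intro h2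
      have h3 := congrArg (fun p => p.coeff 0) h2
      simp only [coeff_add, coeff_X_pow, coeff_C_mul, coeff_one_zero, coeff_zero] at h3
      rw [if_neg (by omega), if_neg (by omega)] at h3
      simp at h3
    · rw [eval_MM] at h
      simp only [map_add, map_mul, map_pow, aeval_X, aeval_C, map_one]
      have h4 : algebraMap A κ (⟨c k, hck⟩ + (e : A)) = c k + e := by
        rw [map_add, map_intCast]
        rfl
      rw [← map_add, h4]
      exact h
  have h5 : c l = -(w ^ (2 * δ') + 1) * (w ^ δ')⁻¹ - (e' : κ) := by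
    rw [eval_MM] at h'
    have h6 : w ^ δ' ≠ 0 := pow_ne_zero _ hw
    field_simp
    linear_combination h'
  rw [h5]
  exact ((((hwalg.pow _).add isAlgebraic_one).neg).mul (hwalg.pow _).inv).sub
    (isAlgebraic_intCast _)

theorem not_sq (M rest y : κ[X]) (w : κ) (h0 : M.eval w = 0) (h1 : (derivative M).eval w ≠ 0)
    (h2 : rest.eval w ≠ 0) : y ^ 2 ≠ M * rest := by
  intro h
  have h3 : y.eval w = 0 := by
    have := congrArg (eval w) h
    rw [eval_pow, eval_mul, h0, zero_mul] at this
    exact pow_eq_zero_iff two_ne_zero |>.mp this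
  have h4 := congrArg (fun p => (derivative p).eval w) h
  simp only [derivative_pow, derivative_mul, eval_add, eval_mul, eval_pow, h3, h0] at h4
  simp at h4
  rcases h4 with h5 | h5
  · exact h1 h5
  · exact h2 h5

end poly


section base

variable {κ : Type*} [Field κ] {ι : Type*} (s : ι → ℕ) (c : ι → κ)

/-- `f_k + e` -/
noncomputable def fe (k : ι) (e : ℤ) : RatFunc κ :=
  RatFunc.X ^ (2 ^ s k) + (RatFunc.X ^ (2 ^ s k))⁻¹ + RatFunc.C (c k) + (Int.cast e : RatFunc κ)

theorem fe_eq (k : ι) (e : ℤ) : fe s c k e =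
    algebraMap κ[X] (RatFunc κ) (MM (2 ^ s k) (c k + e)) / RatFunc.X ^ (2 ^ s k) := by
  have hX : (RatFunc.X : RatFunc κ) ^ (2 ^ s k) ≠ 0 := pow_ne_zero _ RatFunc.X_ne_zero
  rw [fe, MM]
  simp only [map_add, map_mul, map_pow, RatFunc.algebraMap_X, RatFunc.algebraMap_C, map_one,
    map_intCast]
  rw [eq_div_iff hX, pow_mul']
  field_simp
  ring

/-- the independent elements -/
noncomputable def aa (p : ι × Bool) : RatFunc κ :=
  if p.2 = true then fe s c p.1 2 else fe s c p.1 2 * fe s c p.1 (-2)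

/-- their numerators -/
noncomputable def GG (p : ι × Bool) : κ[X] :=
  if p.2 = true then MM (2 ^ s p.1) (c p.1 + (2 : ℤ)) else
    MM (2 ^ s p.1) (c p.1 + (2 : ℤ)) * MM (2 ^ s p.1) (c p.1 + (-2 : ℤ))

theorem aa_eq (hs : ∀ k, s k ≠ 0) (p : ι × Bool) : ∃ E : ℕ,
    aa s c p * (RatFunc.X ^ E) ^ 2 = algebraMap κ[X] (RatFunc κ) (GG s c p) := by
  have hX : (RatFunc.X : RatFunc κ) ^ (2 ^ s p.1) ≠ 0 := pow_ne_zero _ RatFunc.X_ne_zero
  unfold aa GG
  split_ifs with h
  · refine ⟨2 ^ (s p.1 - 1), ?_⟩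
    have h1 : ((RatFunc.X : RatFunc κ) ^ (2 ^ (s p.1 - 1))) ^ 2 = RatFunc.X ^ (2 ^ s p.1) := by
      rw [← pow_mul, ← pow_succ, Nat.sub_add_cancel (Nat.one_le_iff_ne_zero.mpr (hs p.1))]
    rw [h1, fe_eq, div_mul_cancel₀ _ hX]
  · refine ⟨2 ^ s p.1, ?_⟩
    rw [fe_eq, fe_eq, map_mul]
    field_simp

theorem base_ind [IsAlgClosed κ] [CharZero κ] [DecidableEq ι] (hs : ∀ k, s k ≠ 0)
    (hc : AlgebraicIndependent ℚ c) (A : Finset (ι × Bool)) (hA : A.Nonempty) (y : RatFunc κ) :
    y ^ 2 ≠ ∏ p ∈ A, aa s c p := by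
  intro hy
  choose E hE using aa_eq s c hs
  have h1 : (y * ∏ p ∈ A, RatFunc.X ^ E p) ^ 2 =
      algebraMap κ[X] (RatFunc κ) (∏ p ∈ A, GG s c p) := by
    rw [mul_pow, hy, ← Finset.prod_pow, ← Finset.prod_mul_distrib, map_prod]
    exact Finset.prod_congr rfl (fun p _ => hE p)
  obtain ⟨y₀, hy₀⟩ := IsIntegrallyClosed.exists_algebraMap_eq_of_isIntegral_pow (R := κ[X])
    (K := RatFunc κ) (x := y * ∏ p ∈ A, RatFunc.X ^ E p) (n := 2) (by norm_num)
    (by rw [h1]; exact isIntegral_algebraMap)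
  have h2 : y₀ ^ 2 = ∏ p ∈ A, GG s c p := by
    apply IsFractionRing.injective κ[X] (RatFunc κ)
    rw [map_pow, hy₀, h1]
  have hδ : ∀ k, 0 < 2 ^ s k := fun k => by positivity
  have hne : ∀ (k : ι) (e : ℤ), (e = 2 ∨ e = -2) →
      c k + (e : κ) ≠ 2 ∧ c k + (e : κ) ≠ -2 := by
    rintro k e (rfl | rfl)
    · constructor
      · intro h
        apply ne_rat c hc k 0
        rw [map_zero]; push_cast at h; linear_combination h
      · intro h
        apply ne_rat c hc k (-4)
        rw [map_neg, map_ofNat]; push_cast at h; linear_combination h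
    · constructor
      · intro h
        apply ne_rat c hc k 4
        rw [map_ofNat]; push_cast at h; linear_combination h
      · intro h
        apply ne_rat c hc k 0
        rw [map_zero]; push_cast at h; linear_combination h
  have hother : ∀ (k0 : ι) (e : ℤ) (w : κ), (MM (2 ^ s k0) (c k0 + e)).eval w = 0 →
      ∀ p : ι × Bool, p.1 ≠ k0 → (GG s c p).eval w ≠ 0 := by
    intro k0 e w hw p hp
    unfold GG
    split_ifs
    · exact no_common_diff c hc hp (hδ k0) e 2 w hw
    · rw [eval_mul]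
      exact mul_ne_zero (no_common_diff c hc hp (hδ k0) e 2 w hw)
        (no_common_diff c hc hp (hδ k0) e (-2) w hw)
  by_cases hcase : ∃ k0, (k0, false) ∈ A
  · obtain ⟨k0, hk0⟩ := hcase
    obtain ⟨w, hw⟩ := exists_root (hδ k0) (c k0 + ((-2 : ℤ) : κ))
    have hplus : (MM (2 ^ s k0) (c k0 + ((2 : ℤ) : κ))).eval w ≠ 0 := by
      apply no_common_same (hδ k0) _ hw
      intro h
      have h3 := add_left_cancel h
      push_cast at h3
      have h4 : (4 : κ) = 0 := by linear_combination -h3
      exact absurd h4 (by norm_num)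
    refine not_sq (MM (2 ^ s k0) (c k0 + ((-2 : ℤ) : κ)))
      (MM (2 ^ s k0) (c k0 + ((2 : ℤ) : κ)) * ∏ p ∈ A.erase (k0, false), GG s c p) y₀ w hw
      (deriv_ne_zero (hδ k0) (hne k0 (-2) (Or.inr rfl)).1 (hne k0 (-2) (Or.inr rfl)).2 hw) ?_ ?_
    · rw [eval_mul, eval_prod]
      refine mul_ne_zero hplus (Finset.prod_ne_zero_iff.mpr ?_)
      intro p hp
      by_cases hp1 : p.1 = k0
      · have hp2 : p.2 = true := by
          by_contra h
          apply (Finset.mem_erase.mp hp).1
          have h' : p.2 = false := by simpa using h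
          rw [← hp1, ← h']
        unfold GG
        rw [if_pos hp2, hp1]
        exact hplus
      · exact hother k0 _ w hw p hp1
    · rw [h2, ← Finset.mul_prod_erase _ _ hk0]
      have h3 : GG s c (k0, false) = MM (2 ^ s k0) (c k0 + ((2 : ℤ) : κ)) *
          MM (2 ^ s k0) (c k0 + ((-2 : ℤ) : κ)) := by
        unfold GG
        simp
      rw [h3]
      ring
  · push Not at hcase
    obtain ⟨⟨k0, b⟩, hk0⟩ := hA
    have hb : b = true := by
      by_contra h
      have h' : b = false := by simpa using h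
      rw [h'] at hk0
      exact hcase k0 hk0
    subst hb
    obtain ⟨w, hw⟩ := exists_root (hδ k0) (c k0 + ((2 : ℤ) : κ))
    refine not_sq (MM (2 ^ s k0) (c k0 + ((2 : ℤ) : κ)))
      (∏ p ∈ A.erase (k0, true), GG s c p) y₀ w hw
      (deriv_ne_zero (hδ k0) (hne k0 2 (Or.inl rfl)).1 (hne k0 2 (Or.inl rfl)).2 hw) ?_ ?_
    · rw [eval_prod]
      refine Finset.prod_ne_zero_iff.mpr ?_
      intro p hp
      apply hother k0 _ w hw p
      rintro rfl
      have hp1 := (Finset.mem_erase.mp hp).1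
      have hp2 := (Finset.mem_erase.mp hp).2
      have hp3 : p.2 = true := by
        by_contra h
        have h' : p.2 = false := by simpa using h
        apply hcase p.1
        rw [← h']
        exact hp2
      apply hp1
      rw [← hp3]
    · rw [h2, ← Finset.mul_prod_erase _ _ hk0]
      have h3 : GG s c (k0, true) = MM (2 ^ s k0) (c k0 + ((2 : ℤ) : κ)) := by
        unfold GG
        simp
      rw [h3]

end base

theorem kummer_pos {κ : Type*} [Field κ] [IsAlgClosed κ] [CharZero κ]
    {ι : Type*} [Fintype ι] (s : ι → ℕ) (hs : ∀ k, s k ≠ 0) (c : ι → κ)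
    (hc : AlgebraicIndependent ℚ c)
    {N : Type*} [Field N] [Algebra (RatFunc κ) N] [FiniteDimensional (RatFunc κ) N]
    (h R : ι → N) (h0 : ∀ k, h k ≠ 0)
    (hh : ∀ k, h k + (h k)⁻¹ = algebraMap (RatFunc κ) N
      (RatFunc.X ^ (2 ^ s k) + (RatFunc.X ^ (2 ^ s k))⁻¹ + RatFunc.C (c k)))
    (hR : ∀ k, R k ^ (2 ^ s k) = h k) :
    2 ^ (∑ k, s k) ∣ finrank (RatFunc κ) N := by
  classical
  have h2K : (2 : RatFunc κ) ≠ 0 := by
    have : (2 : RatFunc κ) = RatFunc.C 2 := (map_ofNat RatFunc.C 2).symm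
    rw [this, Ne, map_eq_zero]
    exact two_ne_zero
  have h2 : (2 : N) ≠ 0 := by
    have : (2 : N) = algebraMap (RatFunc κ) N 2 := (map_ofNat (algebraMap (RatFunc κ) N) 2).symm
    rw [this, Ne, map_eq_zero]
    exact h2K
  set a : ι × Bool → N := fun p => algebraMap (RatFunc κ) N (aa s c p) with ha
  have hfe : ∀ (k : ι) (e : ℤ), algebraMap (RatFunc κ) N (fe s c k e) =
      h k + (h k)⁻¹ + (Int.cast e : N) := by
    intro k e
    rw [fe, map_add, hh, map_intCast]
  have haT : ∀ k, a (k, true) = h k + (h k)⁻¹ + 2 := by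
    intro k
    have h3 : a (k, true) = algebraMap (RatFunc κ) N (fe s c k 2) := by
      rw [ha]
      simp only [aa, if_true]
    rw [h3, hfe]
    push_cast
    rfl
  have haF : ∀ k, a (k, false) = (h k - (h k)⁻¹) ^ 2 := by
    intro k
    have h3 : a (k, false) = algebraMap (RatFunc κ) N (fe s c k 2) *
        algebraMap (RatFunc κ) N (fe s c k (-2)) := by
      rw [ha, ← map_mul]
      simp only [aa, Bool.false_eq_true, if_false]
    rw [h3, hfe, hfe]
    have := h0 k
    push_cast
    field_simp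
    ring
  have key : ∀ B : Finset ι, ∃ F : IntermediateField (RatFunc κ) N, (∀ k ∈ B, h k ∈ F) ∧
      Ind F (Finset.univ.filter (fun p : ι × Bool => p.2 = true ∨ p.1 ∉ B)) a := by
    intro B
    induction B using Finset.induction_on with
    | empty =>
      refine ⟨⊥, by simp, ?_⟩
      intro A _ hAne x hx hxA
      obtain ⟨y, rfl⟩ := IntermediateField.mem_bot.mp hx
      refine base_ind s c hs hc A hAne y ?_
      apply (algebraMap (RatFunc κ) N).injective
      rw [map_pow, map_prod]
      exact hxA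
    | insert j B hj ih =>
      obtain ⟨F, hF1, hF2⟩ := ih
      have hI : Finset.univ.filter (fun p : ι × Bool => p.2 = true ∨ p.1 ∉ B) =
          insert (j, false)
            (Finset.univ.filter (fun p : ι × Bool => p.2 = true ∨ p.1 ∉ insert j B)) := by
        ext ⟨k, b⟩
        simp only [Finset.mem_filter, Finset.mem_univ, true_and, Finset.mem_insert, Prod.mk.injEq,
          not_or]
        cases b
        · by_cases hk : k = j
          · subst hk; simp [hj]
          · simp [hk]
        · simp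
      rw [hI] at hF2
      refine ⟨adj F (h j - (h j)⁻¹), ?_, ?_⟩
      · intro k hk
        rcases Finset.mem_insert.mp hk with rfl | hk
        · have h3 : ((h k + (h k)⁻¹) + (h k - (h k)⁻¹)) / 2 = h k := by
            have := h0 k
            field_simp
            ring
          have h4 : ((h k + (h k)⁻¹) + (h k - (h k)⁻¹)) / 2 ∈ adj F (h k - (h k)⁻¹) := by
            refine div_mem (add_mem ?_ (mem_adj _ _)) ?_
            · rw [hh]; exact IntermediateField.algebraMap_mem _ _
            · rw [← map_ofNat (algebraMap (RatFunc κ) N) 2]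
              exact IntermediateField.algebraMap_mem _ _
          rwa [h3] at h4
        · exact le_adj _ _ (hF1 k hk)
      · refine ind_adj h2 F _ a (j, false) (by simp) ?_ hF2 _ (haF j).symm
        intro p _
        exact IntermediateField.algebraMap_mem _ _
  obtain ⟨F, hF1, hF2⟩ := key Finset.univ
  have hInd : Ind F (Finset.univ : Finset ι) h := by
    intro A _ hAne x hx hxA
    let em : ι ↪ ι × Bool := ⟨fun k => (k, true), fun k l hkl => (Prod.mk.inj hkl).1⟩
    have hem : ∀ k, em k = (k, true) := fun _ => rfl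
    refine hF2 (A.map em) ?_ ?_ (x * ∏ k ∈ A, (1 + (h k)⁻¹)) ?_ ?_
    · intro p hp
      obtain ⟨k, _, rfl⟩ := Finset.mem_map.mp hp
      rw [hem]
      simp
    · simpa using hAne
    · refine mul_mem hx (prod_mem ?_)
      intro k _
      exact add_mem (one_mem _) (inv_mem (hF1 k (Finset.mem_univ k)))
    · rw [mul_pow, hxA, ← Finset.prod_pow, ← Finset.prod_mul_distrib, Finset.prod_map]
      apply Finset.prod_congr rfl
      intro k _
      rw [hem, haT]
      have := h0 k
      field_simp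
      ring
  obtain ⟨i, hi⟩ := IsAlgClosed.exists_pow_nat_eq (-1 : κ) (n := 2) (by norm_num)
  have him2 : (algebraMap (RatFunc κ) N (RatFunc.C i)) ^ 2 = -1 := by
    rw [← map_pow, ← map_pow, hi, map_neg, map_neg, map_one, map_one]
  have ht := tower h2 _ him2 (∑ k, s k) F (IntermediateField.algebraMap_mem _ _) Finset.univ h s R
    (fun k hk => hF1 k hk) hInd (fun k _ => hR k) rfl
  rw [← Module.finrank_mul_finrank (RatFunc κ) F N]
  exact Dvd.dvd.mul_left ht _

end T1baux

theorem kummer_indep_two {κ : Type*} [Field κ] [IsAlgClosed κ] [CharZero κ]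
    {ι : Type*} [Fintype ι] (s : ι → ℕ) (c : ι → κ) (hc : AlgebraicIndependent ℚ c)
    {N : Type*} [Field N] [Algebra (RatFunc κ) N] [FiniteDimensional (RatFunc κ) N]
    (h R : ι → N) (h0 : ∀ k, h k ≠ 0)
    (hh : ∀ k, h k + (h k)⁻¹ = algebraMap (RatFunc κ) N
      (RatFunc.X ^ (2 ^ s k) + (RatFunc.X ^ (2 ^ s k))⁻¹ + RatFunc.C (c k)))
    (hR : ∀ k, R k ^ (2 ^ s k) = h k) :
    2 ^ (∑ k, s k) ∣ finrank (RatFunc κ) N := by
  classical
  have h1 := T1baux.kummer_pos (ι := {k // s k ≠ 0}) (fun k => s k.1) (fun k => k.2)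
    (fun k => c k.1) (hc.comp Subtype.val Subtype.val_injective) (N := N) (fun k => h k.1)
    (fun k => R k.1) (fun k => h0 k.1) (fun k => hh k.1) (fun k => hR k.1)
  have h2 : ∑ k : {k // s k ≠ 0}, s k.1 = ∑ k, s k := by
    rw [← Finset.sum_subtype (Finset.univ.filter (fun k => s k ≠ 0)) (by simp) s]
    exact Finset.sum_filter_ne_zero _
  rwa [h2] at h1

end Pool.Agent.H861.CD
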