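import Pool.Agent.H861.CD.T1
import Pool.Agent.H861.CD.T1b

set_option autoImplicit false

open Module

namespace Pool.Agent.H861.CD

theorem kummer_indep_all {κ : Type*} [Field κ] [IsAlgClosed κ] [CharZero κ] {p : ℕ} (hp : p.Prime)
    {ι : Type*} [Fintype ι] (s : ι → ℕ) (c : ι → κ) (hc : AlgebraicIndependent ℚ c)
    {N : Type*} [Field N] [Algebra (RatFunc κ) N] [FiniteDimensional (RatFunc κ) N]
    (h R : ι → N) (h0 : ∀ k, h k ≠ 0)
    (hh : ∀ k, h k + (h k)⁻¹ = algebraMap (RatFunc κ) N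
      (RatFunc.X ^ (p ^ s k) + (RatFunc.X ^ (p ^ s k))⁻¹ + RatFunc.C (c k)))
    (hR : ∀ k, R k ^ (p ^ s k) = h k) :
    p ^ (∑ k, s k) ∣ finrank (RatFunc κ) N := by
  by_cases hp2 : p = 2
  · subst hp2
    exact kummer_indep_two s c hc h R h0 hh hR
  · exact kummer_indep hp hp2 s c hc h R h0 hh hR

end Pool.Agent.H861.CD
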