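import Pool.Agent.H861.CD.Defs

/-!
Project CD (helper861), MP_8dbee4_ag, part T6a: `multisymmetric` below (self-contained; only Mathlib).

`A = ℂ[a_1..a_n, b_1..b_n]` (`a_j = X (inl j)`, `b_j = X (inr j)`), `σ_i` = coefficient of `T^i` in `∏_j (b_j T - a_j)`, `i = 0..n`. A polynomial `g ∈ A` which is symmetric under simultaneous permutations of the pairs `(a_j, b_j)` and
homogeneous of degree `D` in every pair `(a_j, b_j)` is `Φ(σ_0, …, σ_n)` with a form `Φ` of degree `D`.

Proof. `g` is determined by `g₁ := g|_{b = 1} ∈ ℂ[a]`: `g = ∑_μ c_μ ∏ a_j^(μ_j) b_j^(D - μ_j)`. `g₁` is a symmetric polynomial of degree `≤ D` in every variable `a_j`. By the fundamental theorem (Mathlib: `MvPolynomial.esymmAlgEquiv`, `Mathlib/RingTheory/MvPolynomial/Symmetric/FundamentalTheorem.lean`)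
`g₁ = Ψ(e_1, …, e_n)`, and the total degree of `Ψ` is `≤ D` : [the lexicographic leading monomial of `∏ e_i^(ν_i)` is `∏_j a_j^(ν_j + … + ν_n)`, different for different `ν`, so the degree of `Ψ(e)` in `a_1` is the total degree of `Ψ`: the
lexicographically largest monomial over all `ν` in the support of `Ψ` does not cancel and has the `a_1`-exponent `max |ν|`.] Then `Φ(y_0..y_n) := y_n^D Ψ(± y_{n-i}/y_n)` (homogenisation): `σ_{n-i} = (-1)^i e_i(a/b) ∏ b_j`, `σ_n = ∏ b_j`. `Φ(σ)` and `g` are both homogeneous of degree `D` in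
every pair, and they agree for `b = 1`, so they are equal. (Any other proof is welcome, e.g. the degree bound by induction: if `g · (∏ b_j)^k = Φ'(σ)` with `Φ'` a form of degree `D + k`, `k ≥ 1`, put `(a_n, b_n) = (-1, 0)`: the left side vanishes, the `σ_i`, `i < n`, become the
`σ_i` of the other `n-1` pairs, which are algebraically independent, and `σ_n` becomes 0; so `y_n ∣ Φ'`.)
-/

set_option autoImplicit false

open Module

namespace Pool.Agent.H861.CD

namespace T6aaux

open MvPolynomial AddMonoidAlgebra Finset Fin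

lemma sum_invAcc {n : ℕ} (s : Fin n → ℕ) (hs : Antitone s) (D : ℕ) (hD : ∀ j, s j ≤ D) :
    ∑ i, invAccumulate n n s i ≤ D := by
  rcases n with _ | n
  · simp
  · have h := congrFun (accumulate_invAccumulate le_rfl hs) 0
    have h2 : ∑ i, invAccumulate (n+1) (n+1) s i = s 0 := by
      rw [← h, accumulate_apply]
      simp
    exact h2 ▸ hD 0

lemma degreeOf_esymm_le {n : ℕ} (i : ℕ) (j : Fin n) : degreeOf j (esymm (Fin n) ℂ i) ≤ 1 := by
  rw [esymm]
  refine (degreeOf_sum_le _ _ _).trans (Finset.sup_le ?_)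
  intro t _
  refine (degreeOf_prod_le _ _ _).trans ?_
  simp only [degreeOf_X]
  rw [Finset.sum_ite_eq]
  split_ifs <;> simp

lemma degreeOf_mono_le {n : ℕ} (t : Fin n →₀ ℕ) (r : ℂ) (j : Fin n) :
    degreeOf j (esymmAlgHomMonomial (Fin n) t r) ≤ ∑ i, t i := by
  rw [esymmAlgHomMonomial, esymmAlgHom_apply, aeval_monomial, Finsupp.prod_fintype _ _ (by simp)]
  refine (degreeOf_mul_le _ _ _).trans ?_
  rw [algebraMap_eq, degreeOf_C, zero_add]
  refine (degreeOf_prod_le _ _ _).trans (Finset.sum_le_sum fun i _ => ?_)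
  refine (degreeOf_pow_le _ _ _).trans ?_
  calc t i * _ ≤ t i * 1 := Nat.mul_le_mul_left _ (degreeOf_esymm_le _ _)
    _ = t i := mul_one _

lemma key (n D : ℕ) (p : MvPolynomial (Fin n) ℂ) (hp : p.IsSymmetric)
    (hd : ∀ j, degreeOf j p ≤ D) :
    ∃ Ψ : MvPolynomial (Fin n) ℂ, (∀ m ∈ Ψ.support, ∑ i, m i ≤ D) ∧
      (esymmAlgHom (Fin n) ℂ n Ψ).val = p := by
  obtain rfl | h0 := eq_or_ne p 0
  · exact ⟨0, by simp, by simp⟩
  induction he : p.supDegree toLex using WellFoundedLT.induction generalizing p with | _ t ih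
  subst he
  let t := Finsupp.equivFunOnFinite.symm (invAccumulate n n <| ↑(ofLex <| p.supDegree toLex))
  have hmem : (ofLex <| p.supDegree toLex) ∈ p.support := by
    have h := AddMonoidAlgebra.supDegree_mem_support (D := toLex) toLex.injective h0
    have h' : Function.invFun toLex (supDegree toLex p) = (ofLex <| p.supDegree toLex) := by
      have := Function.leftInverse_invFun (f := (toLex : (Fin n →₀ ℕ) → Lex (Fin n →₀ ℕ)))
        toLex.injective (ofLex <| p.supDegree toLex)
      simpa using this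
    rw [h'] at h
    exact h
  have ht : ∑ i, t i ≤ D := by
    refine sum_invAcc _ hp.antitone_supDegree D ?_
    intro j
    exact (degreeOf_le_iff.1 (hd j)) _ hmem
  have hd' :
      (esymmAlgHomMonomial _ t <| p.leadingCoeff toLex).supDegree toLex = p.supDegree toLex := by
    rw [← ofLex_inj, DFunLike.ext'_iff, supDegree_esymmAlgHomMonomial _ _ le_rfl]
    · exact accumulate_invAccumulate le_rfl hp.antitone_supDegree
    · rwa [Ne, leadingCoeff_eq_zero toLex.injective]
  have hmon : ∀ m ∈ (monomial t (p.leadingCoeff toLex)).support, ∑ i, m i ≤ D := by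
    intro m hm
    have := support_monomial_subset hm
    rw [Finset.mem_singleton] at this
    rw [this]; exact ht
  obtain he | hne := eq_or_ne p (esymmAlgHomMonomial _ t <| p.leadingCoeff toLex)
  · exact ⟨monomial t <| p.leadingCoeff toLex, hmon, he.symm⟩
  have hlt := (supDegree_sub_lt_of_leadingCoeff_eq toLex.injective hd'.symm
    (by rw [leadingCoeff_esymmAlgHomMonomial t le_rfl])).resolve_right hne
  obtain ⟨Ψ, hΨ, hΨ'⟩ := ih _ hlt (p - esymmAlgHomMonomial _ t (p.leadingCoeff toLex))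
    (Subalgebra.sub_mem (symmetricSubalgebra (Fin n) ℂ) hp <| isSymmetric_esymmAlgHomMonomial _ _)
    (fun j => (degreeOf_sub_le _ _ _).trans
      (max_le (hd j) ((degreeOf_mono_le _ _ _).trans ht)))
    (sub_ne_zero.2 hne) rfl
  refine ⟨Ψ + monomial t (p.leadingCoeff toLex), ?_, ?_⟩
  · intro m hm
    rcases Finset.mem_union.1 (support_add hm) with h | h
    · exact hΨ m h
    · exact hmon m h
  · rw [map_add, Subalgebra.coe_add, hΨ']
    exact sub_add_cancel p _

lemma sig_map {n : ℕ} {R S : Type*} [CommRing R] [CommRing S] (φ : R →+* S) (a b : Fin n → R) (i : ℕ) :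
    φ (sig a b i) = sig (fun j => φ (a j)) (fun j => φ (b j)) i := by
  rw [sig, sig, ← Polynomial.coeff_map, Polynomial.map_prod]
  simp

lemma sig_eq {n : ℕ} (a b : Fin n → ℂ) (hb : ∀ j, b j ≠ 0) (k : ℕ) (hk : k ≤ n) :
    sig a b (n - k) = (-1) ^ k * (∏ j, b j) * eval (fun j => a j / b j) (esymm (Fin n) ℂ k) := by
  have h1 : (∏ j, (Polynomial.C (b j) * Polynomial.X - Polynomial.C (a j))) =
      Polynomial.C (∏ j, b j) * ∏ j, (Polynomial.X - Polynomial.C (a j / b j)) := by
    rw [map_prod, ← Finset.prod_mul_distrib]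
    refine Finset.prod_congr rfl fun j _ => ?_
    rw [mul_sub, ← Polynomial.C_mul, mul_div_cancel₀ _ (hb j)]
  have h2 : ∏ j, (Polynomial.X - Polynomial.C (a j / b j)) =
      (((Finset.univ.val.map (fun j => a j / b j)).map (fun t => Polynomial.X - Polynomial.C t))).prod := by
    rw [Multiset.map_map]; rfl
  have h3 := Multiset.prod_X_sub_C_coeff (Finset.univ.val.map (fun j : Fin n => a j / b j)) (k := n - k)
    (by simp)
  rw [sig, h1, Polynomial.coeff_C_mul, h2, h3]
  have h4 : (Multiset.map (fun j : Fin n => a j / b j) univ.val).card - (n - k) = k := by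
    simp; omega
  rw [h4, ← aeval_esymm_eq_multiset_esymm (Fin n) ℂ]
  rw [show (aeval fun j => a j / b j) (esymm (Fin n) ℂ k) =
    eval (fun j => a j / b j) (esymm (Fin n) ℂ k) from by rw [← coe_aeval_eq_eval]; rfl]
  ring

lemma eval_aeval {n : ℕ} {τ : Type*} (c : τ → ℂ) (f : Fin n → MvPolynomial τ ℂ) (Ψ : MvPolynomial (Fin n) ℂ) :
    eval c (aeval f Ψ) = ∑ ν ∈ Ψ.support, coeff ν Ψ * ∏ i, (eval c (f i)) ^ ν i := by
  rw [← eval_eq' (fun i => eval c (f i))]
  have : (eval c).comp (aeval f).toRingHom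
        = (eval (fun i => eval c (f i)) : MvPolynomial (Fin n) ℂ →+* ℂ) := by
    ext i
    · simp
    · simp
  exact congrArg (fun f => f Ψ) (congrArg DFunLike.coe this)

end T6aaux

open T6aaux MvPolynomial in
theorem multisymmetric {n D : ℕ} (g : MvPolynomial (Fin n ⊕ Fin n) ℂ)
    (hsym : ∀ π : Equiv.Perm (Fin n), MvPolynomial.rename (Sum.map π π) g = g)
    (hhom : ∀ j : Fin n, ∀ m ∈ g.support, m (Sum.inl j) + m (Sum.inr j) = D) :
    ∃ Φ : MvPolynomial (Fin (n + 1)) ℂ, Φ.IsHomogeneous D ∧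
      MvPolynomial.aeval (fun i : Fin (n + 1) =>
        sig (fun j => (MvPolynomial.X (Sum.inl j) : MvPolynomial (Fin n ⊕ Fin n) ℂ))
          (fun j => MvPolynomial.X (Sum.inr j)) i) Φ = g := by
  classical
  -- the specialisation `b = 1`
  let g₁ : MvPolynomial (Fin n) ℂ := aeval (Sum.elim (fun j => (X j : MvPolynomial (Fin n) ℂ)) (fun _ => 1)) g
  have hg₁ : ∀ a : Fin n → ℂ, eval a g₁ = eval (Sum.elim a (fun _ => 1)) g := by
    intro a
    have : (eval a).comp (aeval (Sum.elim (fun j => (X j : MvPolynomial (Fin n) ℂ)) (fun _ => 1))).toRingHom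
        = (eval (Sum.elim a (fun _ => 1)) : MvPolynomial (Fin n ⊕ Fin n) ℂ →+* ℂ) := by
      ext i
      · simp
      · rcases i with i | i <;> simp
    exact congrArg (fun f => f g) (congrArg DFunLike.coe this)
  -- homogeneity
  have hgh : ∀ (a b l : Fin n → ℂ), eval (Sum.elim (fun j => l j * a j) (fun j => l j * b j)) g =
      (∏ j, l j) ^ D * eval (Sum.elim a b) g := by
    intro a b l
    rw [eval_eq', eval_eq', Finset.mul_sum]
    refine Finset.sum_congr rfl fun m hm => ?_
    rw [Fintype.prod_sum_type, Fintype.prod_sum_type]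
    simp only [Sum.elim_inl, Sum.elim_inr]
    have : (∏ j, l j) ^ D = (∏ j, l j ^ m (Sum.inl j)) * (∏ j, l j ^ m (Sum.inr j)) := by
      rw [← Finset.prod_mul_distrib, ← Finset.prod_pow]
      refine Finset.prod_congr rfl fun j _ => ?_
      rw [← pow_add, hhom j m hm]
    rw [this]
    simp only [mul_pow, Finset.prod_mul_distrib]
    ring
  have hsym1 : g₁.IsSymmetric := by
    intro π
    apply MvPolynomial.funext
    intro a
    rw [eval_rename, hg₁, hg₁]
    conv_rhs => rw [← hsym π, eval_rename]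
    congr 2
    funext x
    rcases x with x | x <;> simp
  have hdeg1 : ∀ j, degreeOf j g₁ ≤ D := by
    intro j
    have : g₁ = ∑ m ∈ g.support, C (coeff m g) * ∏ i, X i ^ m (Sum.inl i) := by
      apply MvPolynomial.funext
      intro a
      rw [hg₁, eval_eq', map_sum]
      refine Finset.sum_congr rfl fun m hm => ?_
      rw [Fintype.prod_sum_type]
      simp
    rw [this]
    refine (degreeOf_sum_le _ _ _).trans (Finset.sup_le ?_)
    intro m hm
    refine (degreeOf_mul_le _ _ _).trans ?_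
    rw [degreeOf_C, zero_add]
    refine (degreeOf_prod_le _ _ _).trans ?_
    calc ∑ i, degreeOf j (X i ^ m (Sum.inl i) : MvPolynomial (Fin n) ℂ)
        ≤ ∑ i, (if j = i then m (Sum.inl i) else 0) := by
          refine Finset.sum_le_sum fun i _ => ?_
          refine (degreeOf_pow_le _ _ _).trans ?_
          rw [degreeOf_X]
          split_ifs <;> simp
      _ = m (Sum.inl j) := by simp
      _ ≤ D := by rw [← hhom j m hm]; exact Nat.le_add_right _ _
  obtain ⟨Ψ, hΨ, hΨ'⟩ := key n D g₁ hsym1 hdeg1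
  let Φ : MvPolynomial (Fin (n + 1)) ℂ := ∑ ν ∈ Ψ.support,
    C (coeff ν Ψ) * X (Fin.last n) ^ (D - ∑ i, ν i) * ∏ i : Fin n, (C ((-1) ^ (i.val + 1)) * X (Fin.rev i.succ)) ^ ν i
  refine ⟨Φ, ?_, ?_⟩
  · apply IsHomogeneous.sum
    intro ν hν
    have h1 : (∏ i : Fin n, (C ((-1) ^ (i.val + 1)) * X (Fin.rev i.succ)) ^ ν i : MvPolynomial (Fin (n + 1)) ℂ).IsHomogeneous
        (∑ i, ν i) := by
      apply IsHomogeneous.prod
      intro i _
      have := (((isHomogeneous_C (Fin (n + 1)) ((-1 : ℂ) ^ (i.val + 1))).mul (isHomogeneous_X ℂ (Fin.rev i.succ))).pow (ν i))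
      simpa using this
    have h2 := ((isHomogeneous_C (Fin (n + 1)) (coeff ν Ψ)).mul (isHomogeneous_X_pow (R := ℂ) (Fin.last n) (D - ∑ i, ν i))).mul h1
    have h3 : 0 + (D - ∑ i, ν i) + ∑ i, ν i = D := by
      have := hΨ ν hν
      omega
    rw [h3] at h2
    exact h2
  · have main : ∀ x : Fin n ⊕ Fin n → ℂ, (∀ j, x (Sum.inr j) ≠ 0) →
        eval x (MvPolynomial.aeval (fun i : Fin (n + 1) =>
        sig (fun j => (MvPolynomial.X (Sum.inl j) : MvPolynomial (Fin n ⊕ Fin n) ℂ))
          (fun j => MvPolynomial.X (Sum.inr j)) i) Φ) = eval x g := by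
      intro x hx
      set a : Fin n → ℂ := fun j => x (Sum.inl j) with ha
      set b : Fin n → ℂ := fun j => x (Sum.inr j) with hb
      have hxe : x = Sum.elim (fun j => b j * (a j / b j)) (fun j => b j * 1) := by
        funext y
        rcases y with y | y
        · simp only [Sum.elim_inl]
          rw [mul_div_cancel₀ _ (hx y)]
        · simp [hb]
      have hr : eval x g = (∏ j, b j) ^ D * eval (fun j => a j / b j) g₁ := by
        conv_lhs => rw [hxe]
        rw [hgh, hg₁]
      rw [hr]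
      have hs : ∀ i : ℕ, eval x (sig (fun j => (MvPolynomial.X (Sum.inl j) : MvPolynomial (Fin n ⊕ Fin n) ℂ))
          (fun j => MvPolynomial.X (Sum.inr j)) i) = sig a b i := by
        intro i
        rw [sig_map]
        simp [ha, hb]
      simp only [Φ, map_sum, map_mul, map_prod, map_pow, aeval_X, aeval_C, algebraMap_eq, eval_C, hs]
      rw [← hΨ', esymmAlgHom_apply, eval_aeval, Finset.mul_sum]
      refine Finset.sum_congr rfl fun ν hν => ?_
      have e1 : sig a b ((Fin.last n : Fin (n + 1)) : ℕ) = ∏ j, b j := by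
        have := sig_eq a b hx 0 (Nat.zero_le n)
        simpa using this
      have e2 : ∀ i : Fin n, (-1 : ℂ) ^ (i.val + 1) *
          sig a b ((Fin.rev i.succ : Fin (n + 1)) : ℕ) = (∏ j, b j) * eval (fun j => a j / b j) (esymm (Fin n) ℂ (i.val + 1)) := by
        intro i
        have h1 : ((Fin.rev i.succ : Fin (n + 1)) : ℕ) = n - (i.val + 1) := by
          rw [Fin.val_rev, Fin.val_succ]; omega
        rw [h1, sig_eq a b hx (i.val + 1) i.isLt]
        have h2 : (-1 : ℂ) ^ (i.val + 1) * (-1) ^ (i.val + 1) = 1 := by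
          rw [← mul_pow]; simp
        linear_combination ((∏ j, b j) * eval (fun j => a j / b j) (esymm (Fin n) ℂ (i.val + 1))) * h2
      have e3 : (∏ j, b j) ^ D = (∏ j, b j) ^ (D - ∑ i, ν i) * ∏ i, (∏ j, b j) ^ ν i := by
        rw [Finset.prod_pow_eq_pow_sum, ← pow_add, Nat.sub_add_cancel (hΨ ν hν)]
      have e4 : ∏ i : Fin n, ((-1 : ℂ) ^ (i.val + 1) * sig a b ((Fin.rev i.succ : Fin (n + 1)) : ℕ)) ^ ν i =
          (∏ i, (∏ j, b j) ^ ν i) * ∏ i : Fin n, (eval (fun j => a j / b j) (esymm (Fin n) ℂ (i.val + 1))) ^ ν i := by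
        rw [← Finset.prod_mul_distrib]
        refine Finset.prod_congr rfl fun i _ => ?_
        rw [e2, mul_pow]
      rw [e4, e1, e3]
      ring
    have hne : (∏ j : Fin n, (X (Sum.inr j) : MvPolynomial (Fin n ⊕ Fin n) ℂ)) ≠ 0 := by
      rw [Finset.prod_ne_zero_iff]
      intro j _
      exact X_ne_zero _
    apply mul_left_cancel₀ hne
    apply MvPolynomial.funext
    intro x
    rw [map_mul, map_mul]
    by_cases hx : ∀ j, x (Sum.inr j) ≠ 0
    · rw [main x hx]
    · push Not at hx
      obtain ⟨j, hj⟩ := hx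
      have : eval x (∏ j : Fin n, (X (Sum.inr j) : MvPolynomial (Fin n ⊕ Fin n) ℂ)) = 0 := by
        rw [map_prod]
        apply Finset.prod_eq_zero (Finset.mem_univ j)
        simpa using hj
      rw [this, zero_mul, zero_mul]

end Pool.Agent.H861.CD
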