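import Mathlib

set_option autoImplicit false

open Module Polynomial

namespace Pool.Agent.H861.CD

open IntermediateField

variable {Ω : Type*} [Field Ω] [Algebra ℂ Ω]

/-- the relative degree is finite and not divisible by `p ^ (c + 1)` -/
def GoodC (p c : ℕ) (L M : IntermediateField ℂ Ω) : Prop :=
  L ≤ M ∧ relfinrank L M ≠ 0 ∧ (relfinrank L M).factorization p ≤ c

lemma goodC_refl (p : ℕ) (L : IntermediateField ℂ Ω) : GoodC p 0 L L :=
  ⟨le_rfl, by rw [relfinrank_self]; exact one_ne_zero, by rw [relfinrank_self]; simp⟩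

lemma GoodC.trans {p c c' : ℕ} {L M N : IntermediateField ℂ Ω} (h : GoodC p c L M) (h' : GoodC p c' M N) :
    GoodC p (c + c') L N := by
  refine ⟨h.1.trans h'.1, ?_, ?_⟩
  · rw [← relfinrank_mul_relfinrank h.1 h'.1]; exact mul_ne_zero h.2.1 h'.2.1
  · rw [← relfinrank_mul_relfinrank h.1 h'.1, Nat.factorization_mul h.2.1 h'.2.1]
    exact add_le_add h.2.2 h'.2.2

lemma GoodC.mono {p c c' : ℕ} {L M : IntermediateField ℂ Ω} (h : GoodC p c L M) (hc : c ≤ c') : GoodC p c' L M :=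
  ⟨h.1, h.2.1, h.2.2.trans hc⟩

lemma relfinrank_simple (L : IntermediateField ℂ Ω) (x : Ω) :
    relfinrank L (L ⊔ adjoin ℂ {x}) = finrank L (adjoin L {x}) := by
  rw [relfinrank_eq_finrank_of_le le_sup_left]
  have : extendScalars (le_sup_left : L ≤ L ⊔ adjoin ℂ {x}) = adjoin L {x} := by
    apply restrictScalars_injective ℂ
    rw [extendScalars_restrictScalars, restrictScalars_adjoin_eq_sup]
  rw [this]

lemma goodC_adjoin_simple {p n : ℕ} (hp : p.Prime) (L : IntermediateField ℂ Ω) (x : Ω) (q : Polynomial L)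
    (hq : q ≠ 0) (hdeg : q.natDegree ≤ n) (hroot : aeval x q = 0) :
    GoodC p (Nat.log p n) L (L ⊔ adjoin ℂ {x}) := by
  have hint : IsIntegral L x := by
    rw [← isAlgebraic_iff_isIntegral]
    exact ⟨q, hq, hroot⟩
  have h1 : 0 < (minpoly L x).natDegree := minpoly.natDegree_pos hint
  have h2 : (minpoly L x).natDegree ≤ q.natDegree := by
    exact natDegree_le_of_dvd (minpoly.dvd L x hroot) hq
  refine ⟨le_sup_left, ?_, ?_⟩
  · rw [relfinrank_simple, adjoin.finrank hint]; exact h1.ne'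
  · rw [relfinrank_simple, adjoin.finrank hint]
    refine Nat.le_log_of_pow_le hp.one_lt ?_
    exact (Nat.ordProj_le p h1.ne').trans (h2.trans hdeg)

lemma root_up {L M : IntermediateField ℂ Ω} (hLM : L ≤ M) {n : ℕ} {x : Ω}
    (h : ∃ q : Polynomial L, q ≠ 0 ∧ q.natDegree ≤ n ∧ aeval x q = 0) :
    ∃ q : Polynomial M, q ≠ 0 ∧ q.natDegree ≤ n ∧ aeval x q = 0 := by
  obtain ⟨q, h1, h2, h3⟩ := h
  refine ⟨q.map (inclusion hLM).toRingHom, ?_, ?_, ?_⟩
  · exact (Polynomial.map_ne_zero_iff (inclusion hLM).toRingHom.injective).2 h1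
  · rwa [natDegree_map]
  · rw [aeval_def, eval₂_map]
    exact h3

lemma goodC_adjoin_finset {p n : ℕ} (hp : p.Prime) (L : IntermediateField ℂ Ω) (S : Finset Ω)
    (h : ∀ x ∈ S, ∃ q : Polynomial L, q ≠ 0 ∧ q.natDegree ≤ n ∧ aeval x q = 0) :
    GoodC p (S.card * Nat.log p n) L (L ⊔ adjoin ℂ (S : Set Ω)) := by
  classical
  induction S using Finset.induction_on with
  | empty =>
    rw [Finset.coe_empty, adjoin_empty, sup_bot_eq, Finset.card_empty, zero_mul]
    exact goodC_refl p L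
  | insert x S hx ih =>
    have h1 := ih fun y hy => h y (Finset.mem_insert_of_mem hy)
    obtain ⟨q, hq1, hq2, hq3⟩ := root_up (le_sup_left : L ≤ L ⊔ adjoin ℂ (S : Set Ω))
      (h x (Finset.mem_insert_self x S))
    have h2 := goodC_adjoin_simple hp (L ⊔ adjoin ℂ (S : Set Ω)) x q hq1 hq2 hq3
    have h3 : L ⊔ adjoin ℂ ((insert x S : Finset Ω) : Set Ω) =
        (L ⊔ adjoin ℂ (S : Set Ω)) ⊔ adjoin ℂ {x} := by
      rw [sup_assoc, Finset.coe_insert, Set.insert_eq, adjoin_union, sup_comm (adjoin ℂ {x})]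
    rw [h3, Finset.card_insert_of_notMem hx, add_mul, one_mul]
    exact h1.trans h2

lemma goodC_adjoin_range {p n : ℕ} (hp : p.Prime) (L : IntermediateField ℂ Ω) {ι : Type*} [Fintype ι] (f : ι → Ω)
    (h : ∀ i, ∃ q : Polynomial L, q ≠ 0 ∧ q.natDegree ≤ n ∧ aeval (f i) q = 0) :
    GoodC p (Fintype.card ι * Nat.log p n) L (L ⊔ adjoin ℂ (Set.range f)) := by
  classical
  have := goodC_adjoin_finset (n := n) hp L (Finset.univ.image f) (by
    intro x hx
    obtain ⟨i, -, rfl⟩ := Finset.mem_image.1 hx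
    exact h i)
  rw [Finset.coe_image, Finset.coe_univ, Set.image_univ] at this
  refine this.mono (Nat.mul_le_mul_right _ ?_)
  exact Finset.card_image_le

/-- an element with `w + 1/w = f`, `f ∈ L` -/
lemma root_quadratic {L : IntermediateField ℂ Ω} {n : ℕ} (hn : 2 ≤ n) {w f : Ω} (hf : f ∈ L)
    (h : w * w - f * w + 1 = 0) :
    ∃ q : Polynomial L, q ≠ 0 ∧ q.natDegree ≤ n ∧ aeval w q = 0 := by
  refine ⟨X ^ 2 - C (⟨f, hf⟩ : L) * X + 1, ?_, ?_, ?_⟩
  · intro h0
    have := congrArg (fun r => Polynomial.coeff r 0) h0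
    simp at this
  · refine le_trans ?_ hn
    compute_degree
  · simp only [map_add, map_sub, map_mul, map_pow, aeval_X, aeval_C, map_one]
    rw [show (algebraMap L Ω) ⟨f, hf⟩ = f from rfl]
    linear_combination h

lemma root_zero {L : IntermediateField ℂ Ω} {n : ℕ} (hn : 1 ≤ n) {w : Ω}
    (h : w = 0) : ∃ q : Polynomial L, q ≠ 0 ∧ q.natDegree ≤ n ∧ aeval w q = 0 := by
  refine ⟨X, X_ne_zero, ?_, ?_⟩
  · rw [natDegree_X]; omega
  · rw [h]; simp

end Pool.Agent.H861.CD
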